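import Mathlib

/-!
# The module `D[s] F^{s+1}` in a domain with derivations, and its values at integers
-/

noncomputable section

namespace MPb07157S

open Polynomial

variable {A : Type*} [CommRing A] [Algebra ℂ A] {ι : Type*}

/-- The coefficientwise derivation. -/
def dC (d : Derivation ℂ A A) (g : Polynomial A) : Polynomial A :=
  g.sum fun j a => Polynomial.monomial j (d a)

theorem eval_dC (d : Derivation ℂ A A) (g : Polynomial A) {c : A} (hc : d c = 0) :
    (dC d g).eval c = d (g.eval c) := by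
  unfold dC
  rw [Polynomial.sum_def, Polynomial.eval_finsetSum, Polynomial.eval_eq_sum, Polynomial.sum_def,
    map_sum]
  refine Finset.sum_congr rfl fun j _ => ?_
  rw [Polynomial.eval_monomial, Derivation.leibniz, Derivation.leibniz_pow, hc]
  simp [mul_comm]

theorem coeff_dC (d : Derivation ℂ A A) (g : Polynomial A) (j : ℕ) :
    (dC d g).coeff j = d (g.coeff j) := by
  classical
  unfold dC
  rw [Polynomial.sum_def, Polynomial.finsetSum_coeff]
  simp only [Polynomial.coeff_monomial]
  rw [Finset.sum_ite_eq']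
  split_ifs with h
  · rfl
  · rw [Polynomial.notMem_support_iff.1 h, map_zero]

/-- `InA D F k g`: `g · F^{s+1-k}` belongs to `D[s] F^{s+1}`. -/
inductive InA (D : ι → Derivation ℂ A A) (F : A) : ℕ → Polynomial A → Prop
  | base : InA D F 0 1
  | add {k g h} : InA D F k g → InA D F k h → InA D F k (g + h)
  | mul {k g} (c : Polynomial A) : InA D F k g → InA D F k (c * g)
  | deriv {k g} (i : ι) : InA D F k g →
      InA D F (k + 1) (C F * dC (D i) g + (X + 1 - (k : Polynomial A)) * C (D i F) * g)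
  | raise {k g} : InA D F k g → InA D F (k + 1) (C F * g)
  | lower {k g} : InA D F (k + 1) (C F * g) → InA D F k g

/-- Values at `s = m - 1`, `m ∈ ℕ`, of the elements of `D[s] F^{s+1}`. -/
inductive Op (D : ι → Derivation ℂ A A) (F : A) : (ℕ → A) → Prop
  | base : Op D F (fun m => F ^ m)
  | add {Φ Ψ} : Op D F Φ → Op D F Ψ → Op D F (fun m => Φ m + Ψ m)
  | mul {Φ} (c : Polynomial A) : Op D F Φ → Op D F (fun m => c.eval ((m : A) - 1) * Φ m)
  | deriv {Φ} (i : ι) : Op D F Φ → Op D F (fun m => D i (Φ m))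

variable {D : ι → Derivation ℂ A A} {F : A}

theorem InA.raise_pow {k : ℕ} {g : Polynomial A} (h : InA D F k g) (j : ℕ) :
    InA D F (k + j) (C F ^ j * g) := by
  induction j with
  | zero => simpa using h
  | succ j ih =>
    have := InA.raise ih
    rw [pow_succ, mul_comm (C F ^ j), mul_assoc]
    exact this

theorem InA.lower_pow {k : ℕ} {g : Polynomial A} (j : ℕ) (h : InA D F (k + j) (C F ^ j * g)) :
    InA D F k g := by
  induction j with
  | zero => simpa using h
  | succ j ih =>
    apply ih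
    rw [pow_succ, mul_comm (C F ^ j), mul_assoc] at h
    exact InA.lower h

theorem InA.neg {k : ℕ} {g : Polynomial A} (h : InA D F k g) : InA D F k (-g) := by
  have := InA.mul (-1) h
  simpa using this

theorem Op.neg {Φ : ℕ → A} (h : Op D F Φ) : Op D F (fun m => -Φ m) := by
  have := Op.mul (-1) h
  simpa using this

theorem Op.sub {Φ Ψ : ℕ → A} (h1 : Op D F Φ) (h2 : Op D F Ψ) : Op D F (fun m => Φ m - Ψ m) := by
  have := h1.add h2.neg
  simpa [sub_eq_add_neg] using this

theorem Op.const (a : A) {Φ : ℕ → A} (h : Op D F Φ) : Op D F (fun m => a * Φ m) := by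
  have := Op.mul (C a) h
  simpa using this

theorem Op.zero : Op D F (fun _ => 0) := by
  have := Op.const 0 (Op.base (D := D) (F := F))
  simpa using this

theorem Op.congr {Φ Ψ : ℕ → A} (h : Op D F Φ) (e : ∀ m, Φ m = Ψ m) : Op D F Ψ := by
  have : Φ = Ψ := funext e
  rw [← this]
  exact h

theorem D_sub_one (d : Derivation ℂ A A) (m : ℕ) : d ((m : A) - 1) = 0 := by
  rw [map_sub, Derivation.map_natCast, Derivation.map_one_eq_zero, sub_zero]

theorem mul_D_pow (d : Derivation ℂ A A) (a : A) (k : ℕ) :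
    a * d (a ^ k) = (k : A) * a ^ k * d a := by
  rw [Derivation.leibniz_pow]
  cases k with
  | zero => simp
  | succ k =>
    rw [Nat.add_sub_cancel, nsmul_eq_mul, smul_eq_mul, pow_succ]
    ring

theorem key_deriv (d : Derivation ℂ A A) {k : ℕ} {g : Polynomial A} {Φ : A} {m : ℕ}
    (h : F ^ k * Φ = g.eval ((m : A) - 1) * F ^ m) :
    F ^ (k + 1) * d Φ =
      (C F * dC d g + (X + 1 - (k : Polynomial A)) * C (d F) * g).eval ((m : A) - 1) * F ^ m := by
  have h1 := congrArg d h
  rw [Derivation.leibniz, Derivation.leibniz, smul_eq_mul, smul_eq_mul, smul_eq_mul,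
    smul_eq_mul] at h1
  have h2 := mul_D_pow d F k
  have h3 := mul_D_pow d F m
  simp only [eval_add, eval_mul, eval_sub, eval_C, eval_X, eval_one, eval_natCast]
  rw [eval_dC d g (D_sub_one d m)]
  linear_combination F * h1 - Φ * h2 + g.eval ((m : A) - 1) * h3 - (k : A) * d F * h

theorem Op.toIn {Φ : ℕ → A} (h : Op D F Φ) :
    ∃ (K : ℕ) (g : Polynomial A), InA D F K g ∧
      ∀ m : ℕ, F ^ K * Φ m = g.eval ((m : A) - 1) * F ^ m := by
  induction h with
  | base => exact ⟨0, 1, InA.base, fun m => by simp⟩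
  | @add Φ Ψ _ _ ih1 ih2 =>
    obtain ⟨K₁, g₁, h1, e1⟩ := ih1
    obtain ⟨K₂, g₂, h2, e2⟩ := ih2
    refine ⟨K₁ + K₂, C F ^ K₂ * g₁ + C F ^ K₁ * g₂, (h1.raise_pow K₂).add ?_, fun m => ?_⟩
    · have := h2.raise_pow K₁
      rwa [Nat.add_comm] at this
    · rw [eval_add, eval_mul, eval_mul, eval_pow, eval_pow, eval_C, pow_add]
      linear_combination F ^ K₂ * e1 m + F ^ K₁ * e2 m
  | mul c _ ih =>
    obtain ⟨K, g, h1, e1⟩ := ih
    refine ⟨K, c * g, h1.mul c, fun m => ?_⟩
    rw [eval_mul]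
    linear_combination c.eval ((m : A) - 1) * e1 m
  | deriv i _ ih =>
    obtain ⟨K, g, h1, e1⟩ := ih
    exact ⟨K + 1, _, h1.deriv i, fun m => key_deriv (D i) (e1 m)⟩

theorem InA.toOp [IsDomain A] (hF : F ≠ 0) {k : ℕ} {g : Polynomial A} (h : InA D F k g) :
    ∃ Φ : ℕ → A, Op D F Φ ∧ ∀ m : ℕ, F ^ k * Φ m = g.eval ((m : A) - 1) * F ^ m := by
  induction h with
  | base => exact ⟨_, Op.base, fun m => by simp⟩
  | add _ _ ih1 ih2 =>
    obtain ⟨Φ, h1, e1⟩ := ih1
    obtain ⟨Ψ, h2, e2⟩ := ih2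
    refine ⟨_, h1.add h2, fun m => ?_⟩
    rw [eval_add]
    linear_combination e1 m + e2 m
  | mul c _ ih =>
    obtain ⟨Φ, h1, e1⟩ := ih
    refine ⟨_, h1.mul c, fun m => ?_⟩
    rw [eval_mul]
    linear_combination c.eval ((m : A) - 1) * e1 m
  | deriv i _ ih =>
    obtain ⟨Φ, h1, e1⟩ := ih
    exact ⟨_, h1.deriv i, fun m => key_deriv (D i) (e1 m)⟩
  | raise _ ih =>
    obtain ⟨Φ, h1, e1⟩ := ih
    refine ⟨Φ, h1, fun m => ?_⟩
    rw [eval_mul, eval_C, pow_succ]
    linear_combination F * e1 m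
  | lower _ ih =>
    obtain ⟨Φ, h1, e1⟩ := ih
    refine ⟨Φ, h1, fun m => ?_⟩
    have := e1 m
    rw [eval_mul, eval_C, pow_succ] at this
    apply mul_left_cancel₀ hF
    linear_combination this

theorem eq_of_eval [IsDomain A] [CharZero A] {g h : Polynomial A}
    (e : ∀ m : ℕ, g.eval ((m : A) - 1) = h.eval ((m : A) - 1)) : g = h := by
  apply Polynomial.eq_of_infinite_eval_eq
  apply Set.infinite_of_injective_forall_mem (f := fun m : ℕ => (m : A) - 1)
  · intro a b hab
    have : (a : A) - 1 = (b : A) - 1 := hab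
    exact_mod_cast sub_left_inj.1 this
  · intro m
    exact e m

theorem Op.toInA [IsDomain A] [CharZero A] (hF : F ≠ 0) {Φ : ℕ → A} (h : Op D F Φ) {k : ℕ}
    {g : Polynomial A} (e : ∀ m : ℕ, F ^ k * Φ m = g.eval ((m : A) - 1) * F ^ m) :
    InA D F k g := by
  obtain ⟨K, g', h1, e1⟩ := h.toIn
  have h2 : C F ^ k * g' = C F ^ K * g := by
    apply eq_of_eval
    intro m
    rw [eval_mul, eval_mul, eval_pow, eval_pow, eval_C]
    apply mul_right_cancel₀ (pow_ne_zero m hF)
    linear_combination F ^ K * e m - F ^ k * e1 m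
  have h3 := h1.raise_pow k
  rw [h2, Nat.add_comm] at h3
  exact InA.lower_pow K h3

/-! ### Stabilization -/

section Stab

variable {A' : Type*} [CommRing A'] [Algebra ℂ A'] {ι' : Type*} {D' : ι' → Derivation ℂ A' A'}
  (j : A →ₐ[ℂ] A') (w z : A') (J : ι → ι') (iw iz : ι')

/-- The transformed values. -/
def tr (Φ : ℕ → A) (m : ℕ) : A' :=
  ∑ i ∈ Finset.range (m + 1), (m.choose i : A') * (w * z) ^ i * j (Φ (m - i))

/-- The hypotheses on the extension. -/
structure Ext (D : ι → Derivation ℂ A A) (D' : ι' → Derivation ℂ A' A') (j : A →ₐ[ℂ] A')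
    (w z : A') (J : ι → ι') (iw iz : ι') : Prop where
  hJ : ∀ i a, D' (J i) (j a) = j (D i a)
  hw : ∀ a, D' iw (j a) = 0
  hz : ∀ a, D' iz (j a) = 0
  Jw : ∀ i, D' (J i) w = 0
  Jz : ∀ i, D' (J i) z = 0
  ww : D' iw w = 1
  wz : D' iw z = 0
  zw : D' iz w = 0
  zz : D' iz z = 1

variable {j w z J iw iz}

theorem Ext.D_wz (hE : Ext D D' j w z J iw iz) : D' iw (w * z) = z := by
  rw [Derivation.leibniz, hE.ww, hE.wz, smul_zero, zero_add, smul_eq_mul, mul_one]

theorem Ext.theta (hE : Ext D D' j w z J iw iz) (i : ℕ) (a : A) :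
    w * D' iw ((w * z) ^ i * j a) = (i : A') * ((w * z) ^ i * j a) := by
  rw [Derivation.leibniz, hE.hw, smul_zero, zero_add, smul_eq_mul]
  have h1 := mul_D_pow (D' iw) (w * z) i
  rw [hE.D_wz] at h1
  rw [Derivation.leibniz_pow, hE.D_wz]
  cases i with
  | zero => simp
  | succ i =>
    rw [Nat.add_sub_cancel, nsmul_eq_mul, smul_eq_mul]
    ring

/-- Closure under `s - θ`. -/
theorem Op.sub_theta {H : A'} {Ψ : ℕ → A'} (iw : ι') (w : A') (h : Op D' H Ψ) :
    Op D' H (fun m => ((m : A') - 1) * Ψ m - w * D' iw (Ψ m)) := by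
  have h1 := Op.mul (D := D') X h
  simp only [eval_X] at h1
  exact h1.sub (Op.const w (h.deriv iw))

theorem Ext.sub_theta_tr (hE : Ext D D' j w z J iw iz) (Φ : ℕ → A) (m : ℕ) :
    ((m : A') - 1) * tr j w z Φ m - w * D' iw (tr j w z Φ m) =
      tr j w z (fun m => ((m : A) - 1) * Φ m) m := by
  unfold tr
  rw [map_sum, Finset.mul_sum, Finset.mul_sum, ← Finset.sum_sub_distrib]
  refine Finset.sum_congr rfl fun i hi => ?_
  have hi' : i ≤ m := Nat.lt_succ_iff.1 (Finset.mem_range.1 hi)
  have h1 : D' iw ((m.choose i : A') * (w * z) ^ i * j (Φ (m - i))) =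
      (m.choose i : A') * D' iw ((w * z) ^ i * j (Φ (m - i))) := by
    rw [mul_assoc, Derivation.leibniz, Derivation.map_natCast, smul_zero, add_zero, smul_eq_mul]
  have h2 := hE.theta i (Φ (m - i))
  have h3 : j (((m - i : ℕ) : A) - 1) = (m : A') - (i : A') - 1 := by
    rw [map_sub, map_natCast, map_one, Nat.cast_sub hi']
  rw [h1, map_mul j, h3]
  linear_combination (-(m.choose i : A')) * h2

theorem tr_const_mul (a : A) (Φ : ℕ → A) (m : ℕ) :
    tr j w z (fun m => a * Φ m) m = j a * tr j w z Φ m := by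
  unfold tr
  rw [Finset.mul_sum]
  refine Finset.sum_congr rfl fun i _ => ?_
  rw [map_mul]
  ring

theorem tr_add (Φ Ψ : ℕ → A) (m : ℕ) :
    tr j w z (fun m => Φ m + Ψ m) m = tr j w z Φ m + tr j w z Ψ m := by
  unfold tr
  rw [← Finset.sum_add_distrib]
  refine Finset.sum_congr rfl fun i _ => ?_
  rw [map_add]
  ring

theorem Ext.tr_mul (hE : Ext D D' j w z J iw iz) {H : A'} (c : Polynomial A) :
    ∀ {Φ : ℕ → A}, Op D' H (tr j w z Φ) →
      Op D' H (tr j w z (fun m => c.eval ((m : A) - 1) * Φ m)) := by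
  induction c using Polynomial.induction_on' with
  | add p q hp hq =>
    intro Φ h
    refine ((hp h).add (hq h)).congr fun m => ?_
    rw [← tr_add]
    congr 1
    funext m
    rw [eval_add]
    ring
  | monomial k a =>
    induction k with
    | zero =>
      intro Φ h
      refine (Op.const (j a) h).congr fun m => ?_
      rw [← tr_const_mul]
      congr 1
      funext m
      simp
    | succ k ih =>
      intro Φ h
      have h1 : Op D' H (tr j w z (fun m => ((m : A) - 1) * Φ m)) :=
        (Op.sub_theta iw w h).congr fun m => hE.sub_theta_tr Φ m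
      refine (ih h1).congr fun m => ?_
      congr 1
      funext m
      rw [eval_monomial, eval_monomial, pow_succ]
      ring

theorem Ext.tr_deriv (hE : Ext D D' j w z J iw iz) (i : ι) (Φ : ℕ → A) (m : ℕ) :
    D' (J i) (tr j w z Φ m) = tr j w z (fun m => D i (Φ m)) m := by
  unfold tr
  rw [map_sum]
  refine Finset.sum_congr rfl fun k _ => ?_
  have h1 : D' (J i) ((w * z) ^ k) = 0 := by
    rw [Derivation.leibniz_pow, Derivation.leibniz, hE.Jw, hE.Jz]
    simp
  rw [Derivation.leibniz, Derivation.leibniz, Derivation.map_natCast, h1, hE.hJ]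
  simp

theorem tr_base (m : ℕ) : tr j w z (fun m => F ^ m) m = (j F + w * z) ^ m := by
  unfold tr
  rw [add_comm (j F), add_pow]
  refine Finset.sum_congr rfl fun i _ => ?_
  rw [map_pow]
  ring

theorem Op.tr (hE : Ext D D' j w z J iw iz) {Φ : ℕ → A} (h : Op D F Φ) :
    Op D' (j F + w * z) (MPb07157S.tr j w z Φ) := by
  induction h with
  | base => exact Op.base.congr fun m => (tr_base m).symm
  | add _ _ ih1 ih2 => exact (ih1.add ih2).congr fun m => (tr_add _ _ m).symm
  | mul c _ ih => exact hE.tr_mul c ih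
  | deriv i _ ih => exact (ih.deriv (J i)).congr fun m => hE.tr_deriv i _ m

theorem tr_one (m : ℕ) :
    tr j w z (fun m => (m : A) * F ^ (m - 1)) m = (m : A') * (j F + w * z) ^ (m - 1) := by
  unfold tr
  cases m with
  | zero => simp
  | succ k =>
    dsimp only
    rw [Finset.sum_range_succ, Nat.sub_self, Nat.cast_zero, zero_mul, map_zero, mul_zero, add_zero,
      Nat.add_sub_cancel, add_comm (j F), add_pow, Finset.mul_sum]
    refine Finset.sum_congr rfl fun i hi => ?_
    have hi' : i ≤ k := Nat.lt_succ_iff.1 (Finset.mem_range.1 hi)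
    have h1 : ((k.choose i : ℕ) : A') * ((k + 1 : ℕ) : A') =
        (((k + 1).choose i : ℕ) : A') * ((k + 1 - i : ℕ) : A') := by
      exact_mod_cast congrArg (Nat.cast : ℕ → A') (Nat.choose_mul_succ_eq k i)
    have h2 : k + 1 - i - 1 = k - i := by omega
    rw [map_mul, map_natCast, map_pow, h2]
    linear_combination (-((w * z) ^ i * j F ^ (k - i))) * h1

theorem Ext.op_theta (hE : Ext D D' j w z J iw iz) :
    Op D' (j F + w * z) (fun m => (m : A') * (j F + w * z) ^ (m - 1) +
      w * D' iw ((m : A') * (j F + w * z) ^ (m - 1))) := by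
  have h1 := (Op.base (D := D') (F := j F + w * z)).deriv iz |>.deriv iw
  refine h1.congr fun m => ?_
  have h2 : D' iz (j F + w * z) = w := by
    rw [map_add, hE.hz, Derivation.leibniz, hE.zw, hE.zz]
    simp
  rw [Derivation.leibniz_pow, h2, nsmul_eq_mul, smul_eq_mul, ← mul_assoc, Derivation.leibniz,
    hE.ww, smul_eq_mul, smul_eq_mul]
  ring

/-- `(s - θ)^a (s+1) H^s ≡ (s+1)^a (s+1) H^s`. -/
theorem Ext.op_diff (hE : Ext D D' j w z J iw iz) (a : ℕ) :
    Op D' (j F + w * z) (fun m =>
      tr j w z (fun m => ((m : A) - 1) ^ a * ((m : A) * F ^ (m - 1))) m -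
        (m : A') ^ a * ((m : A') * (j F + w * z) ^ (m - 1))) := by
  induction a with
  | zero =>
    refine Op.zero.congr fun m => ?_
    simp only [pow_zero, one_mul]
    rw [tr_one, sub_self]
  | succ a ih =>
    have h1 := Op.sub_theta iw w ih
    have h2 := Op.mul ((X + 1) ^ a) (hE.op_theta (F := F))
    refine (h1.sub h2).congr fun m => ?_
    have h3 := hE.sub_theta_tr (fun m => ((m : A) - 1) ^ a * ((m : A) * F ^ (m - 1))) m
    have h4 : (fun m : ℕ => ((m : A) - 1) * (((m : A) - 1) ^ a * ((m : A) * F ^ (m - 1)))) =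
        fun m : ℕ => ((m : A) - 1) ^ (a + 1) * ((m : A) * F ^ (m - 1)) := by
      funext m
      ring
    rw [h4] at h3
    have h5 : D' iw ((m : A') ^ a * ((m : A') * (j F + w * z) ^ (m - 1))) =
        (m : A') ^ a * D' iw ((m : A') * (j F + w * z) ^ (m - 1)) := by
      rw [Derivation.leibniz, Derivation.leibniz_pow, Derivation.map_natCast]
      simp
    rw [map_sub, h5, ← h3]
    simp only [eval_pow, eval_add, eval_X, eval_one, sub_add_cancel]
    ring

theorem Ext.op_diff_poly (hE : Ext D D' j w z J iw iz) (c : Polynomial ℂ) :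
    Op D' (j F + w * z) (fun m =>
      tr j w z (fun m => (c.map (algebraMap ℂ A)).eval ((m : A) - 1) * ((m : A) * F ^ (m - 1))) m -
        (c.map (algebraMap ℂ A')).eval (m : A') * ((m : A') * (j F + w * z) ^ (m - 1))) := by
  induction c using Polynomial.induction_on' with
  | add p q hp hq =>
    refine (hp.add hq).congr fun m => ?_
    have : (fun m : ℕ => ((p + q).map (algebraMap ℂ A)).eval ((m : A) - 1) *
        ((m : A) * F ^ (m - 1))) = fun m : ℕ =>
        (p.map (algebraMap ℂ A)).eval ((m : A) - 1) * ((m : A) * F ^ (m - 1)) +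
        (q.map (algebraMap ℂ A)).eval ((m : A) - 1) * ((m : A) * F ^ (m - 1)) := by
      funext m
      rw [Polynomial.map_add, eval_add]
      ring
    rw [this, tr_add, Polynomial.map_add, eval_add]
    ring
  | monomial a α =>
    refine (Op.const (algebraMap ℂ A' α) (hE.op_diff (F := F) a)).congr fun m => ?_
    have : (fun m : ℕ => ((monomial a α).map (algebraMap ℂ A)).eval ((m : A) - 1) *
        ((m : A) * F ^ (m - 1))) = fun m : ℕ =>
        algebraMap ℂ A α * (((m : A) - 1) ^ a * ((m : A) * F ^ (m - 1))) := by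
      funext m
      rw [Polynomial.map_monomial, eval_monomial]
      ring
    rw [this, tr_const_mul, Polynomial.map_monomial, eval_monomial, AlgHom.commutes]
    ring

/-- **Stabilization.** -/
theorem Ext.stab_main [IsDomain A] [IsDomain A'] [CharZero A'] (hE : Ext D D' j w z J iw iz)
    (hF : F ≠ 0) (hFu : ¬ IsUnit F) (hH : j F + w * z ≠ 0) {b : Polynomial ℂ}
    (hb : InA D F 1 (b.map (algebraMap ℂ A))) :
    ∃ b' : Polynomial ℂ, b = (X + 1) * b' ∧
      InA D' (j F + w * z) 1 (((X + 1) * b'.comp (X + 1)).map (algebraMap ℂ A')) := by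
  obtain ⟨Φ, hΦ, e⟩ := hb.toOp hF
  have ev : ∀ (c : Polynomial ℂ) (m : ℕ), (c.map (algebraMap ℂ A)).eval ((m : A) - 1) =
      algebraMap ℂ A (c.eval ((m : ℂ) - 1)) := by
    intro c m
    rw [show ((m : A) - 1) = algebraMap ℂ A ((m : ℂ) - 1) by simp, Polynomial.eval_map_apply]
  have h0 := e 0
  rw [ev] at h0
  simp only [pow_one, Nat.cast_zero, zero_sub, pow_zero, mul_one] at h0
  have hb0 : b.eval (-1 : ℂ) = 0 := by
    by_contra hne
    apply hFu
    refine IsUnit.of_mul_eq_one (Φ 0 * algebraMap ℂ A (b.eval (-1 : ℂ))⁻¹) ?_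
    rw [← mul_assoc, h0, ← map_mul, mul_inv_cancel₀ hne, map_one]
  obtain ⟨b', hb'⟩ : (X + 1 : Polynomial ℂ) ∣ b := by
    have : (X - C (-1) : Polynomial ℂ) ∣ b := Polynomial.dvd_iff_isRoot.2 hb0
    simpa using this
  have hΦ0 : Φ 0 = 0 := by
    rw [hb0, map_zero] at h0
    exact (mul_eq_zero.1 h0).resolve_left hF
  have hΦ' : ∀ m : ℕ, Φ m = (b'.map (algebraMap ℂ A)).eval ((m : A) - 1) *
      ((m : A) * F ^ (m - 1)) := by
    intro m
    cases m with
    | zero => rw [hΦ0]; simp
    | succ k =>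
      have h1 := e (k + 1)
      apply mul_left_cancel₀ hF
      rw [pow_one] at h1
      rw [h1, hb', Polynomial.map_mul, eval_mul]
      simp only [Polynomial.map_add, Polynomial.map_X, Polynomial.map_one, eval_add, eval_X,
        eval_one, Nat.add_sub_cancel, sub_add_cancel]
      ring
  refine ⟨b', hb', ?_⟩
  have h2 := Op.tr hE hΦ
  have h3 : Φ = fun m : ℕ => (b'.map (algebraMap ℂ A)).eval ((m : A) - 1) *
      ((m : A) * F ^ (m - 1)) := funext hΦ'
  rw [h3] at h2
  have h4 := h2.sub (hE.op_diff_poly (F := F) b')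
  refine h4.toInA hH fun m => ?_
  rw [sub_sub_cancel, Polynomial.map_mul, eval_mul, Polynomial.map_comp, eval_comp]
  simp only [Polynomial.map_add, Polynomial.map_X, Polynomial.map_one, eval_add, eval_X, eval_one,
    sub_add_cancel, pow_one]
  cases m with
  | zero => simp
  | succ k =>
    rw [Nat.add_sub_cancel, pow_succ]
    ring

end Stab

end MPb07157S
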