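import Pool.Agent.Lib.MP_b07157_agS.SDefs
import Pool.Agent.Lib.MP_b07157_agS.SA

/-!
# The formal and the global module as instances of `InA`
-/

noncomputable section

namespace MPb07157

open MvPolynomial MPb07157S

variable {n : ℕ}

/-! ### Formal -/

/-- The partial derivatives of power series. -/
def psD (n : ℕ) (i : Fin n) :
    Derivation ℂ (MvPowerSeries (Fin n) ℂ) (MvPowerSeries (Fin n) ℂ) := MvPowerSeries.pderiv ℂ i

theorem inA_of_form {f : MvPolynomial (Fin n) ℂ} {k : ℕ}
    {g : Polynomial (MvPowerSeries (Fin n) ℂ)} (h : InDnForm f k g) :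
    InA (psD n) (f : MvPowerSeries (Fin n) ℂ) k g := by
  induction h with
  | base => exact InA.base
  | add _ _ ih1 ih2 => exact ih1.add ih2
  | mul c _ ih => exact ih.mul c
  | deriv i _ ih =>
    have := ih.deriv i
    rw [← MvPowerSeries.pderiv_coe]
    exact this
  | raise _ ih => exact ih.raise
  | lower _ ih => exact ih.lower

theorem form_of_inA {f : MvPolynomial (Fin n) ℂ} {k : ℕ}
    {g : Polynomial (MvPowerSeries (Fin n) ℂ)}
    (h : InA (psD n) (f : MvPowerSeries (Fin n) ℂ) k g) : InDnForm f k g := by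
  induction h with
  | base => exact InDnForm.base
  | add _ _ ih1 ih2 => exact ih1.add ih2
  | mul c _ ih => exact InDnForm.mul c ih
  | deriv i _ ih =>
    have := InDnForm.deriv i ih
    rw [← MvPowerSeries.pderiv_coe] at this
    exact this
  | raise _ ih => exact InDnForm.raise ih
  | lower _ ih => exact InDnForm.lower ih

theorem map_C_eq_ps (b : Polynomial ℂ) : b.map (MvPowerSeries.C (σ := Fin n) (R := ℂ)) =
    b.map (algebraMap ℂ (MvPowerSeries (Fin n) ℂ)) := by
  rw [MvPowerSeries.c_eq_algebraMap]

/-! ### Global -/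

/-- The partial derivatives of polynomials. -/
def poD (n : ℕ) (i : Fin n) :
    Derivation ℂ (MvPolynomial (Fin n) ℂ) (MvPolynomial (Fin n) ℂ) := pderiv i

/-- Exchange of the variables. -/
def sw : MvPolynomial (Fin n) (Polynomial ℂ) →+* Polynomial (MvPolynomial (Fin n) ℂ) :=
  eval₂Hom (Polynomial.mapRingHom (C : ℂ →+* MvPolynomial (Fin n) ℂ))
    (fun i => Polynomial.C (X i))

/-- Exchange of the variables. -/
def sw' : Polynomial (MvPolynomial (Fin n) ℂ) →+* MvPolynomial (Fin n) (Polynomial ℂ) :=
  Polynomial.eval₂RingHom (map Polynomial.C) (C Polynomial.X)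

theorem sw_C (b : Polynomial ℂ) : sw (C b : MvPolynomial (Fin n) (Polynomial ℂ)) = b.map C := by
  simp [sw]

theorem sw_X (i : Fin n) : sw (X i) = Polynomial.C (X i) := by simp [sw]

theorem sw_liftS (f : MvPolynomial (Fin n) ℂ) : sw (liftS f) = Polynomial.C f := by
  unfold liftS
  induction f using MvPolynomial.induction_on with
  | C a => rw [map_C, sw_C]; simp
  | add a b ha hb => simp only [map_add, ha, hb]
  | mul_X a i ha => rw [map_mul, map_mul, ha, map_X, sw_X, map_mul]

theorem sw'_C (f : MvPolynomial (Fin n) ℂ) : sw' (Polynomial.C f) = liftS f := by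
  simp [sw', liftS]

theorem sw'_X : sw' (Polynomial.X : Polynomial (MvPolynomial (Fin n) ℂ)) = C Polynomial.X := by
  simp [sw']

theorem sw'_map_C (b : Polynomial ℂ) :
    sw' (b.map (C : ℂ →+* MvPolynomial (Fin n) ℂ)) = C b := by
  induction b using Polynomial.induction_on' with
  | add p q hp hq => rw [Polynomial.map_add, map_add, hp, hq, map_add]
  | monomial k a =>
    rw [Polynomial.map_monomial, ← Polynomial.C_mul_X_pow_eq_monomial, map_mul, map_pow, sw'_X,
      sw'_C, ← Polynomial.C_mul_X_pow_eq_monomial, map_mul, map_pow]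
    simp [liftS]

theorem dC_add (d : Derivation ℂ (MvPolynomial (Fin n) ℂ) (MvPolynomial (Fin n) ℂ))
    (a b : Polynomial (MvPolynomial (Fin n) ℂ)) : dC d (a + b) = dC d a + dC d b := by
  ext1 j
  simp only [Polynomial.coeff_add, coeff_dC, map_add]

theorem sw_pderiv (i : Fin n) (g : MvPolynomial (Fin n) (Polynomial ℂ)) :
    sw (pderiv i g) = dC (poD n i) (sw g) := by
  induction g using MvPolynomial.induction_on with
  | C a =>
    rw [pderiv_C, map_zero, sw_C]
    ext1 j
    rw [coeff_dC, Polynomial.coeff_map]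
    simp [poD]
  | add a b ha hb => rw [map_add, map_add, map_add, dC_add, ha, hb]
  | mul_X a j ha =>
    rw [Derivation.leibniz, map_add, smul_eq_mul, smul_eq_mul, map_mul, map_mul, ha, map_mul, sw_X]
    ext1 k
    rw [coeff_dC, Polynomial.coeff_add, Polynomial.coeff_mul_C]
    have h1 : sw (pderiv i (X j : MvPolynomial (Fin n) (Polynomial ℂ))) =
        Polynomial.C (pderiv i (X j : MvPolynomial (Fin n) ℂ)) := by
      by_cases hij : i = j
      · subst hij
        simp
      · rw [pderiv_X_of_ne (Ne.symm hij), pderiv_X_of_ne (Ne.symm hij)]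
        simp
    rw [h1, Polynomial.coeff_mul_C, Polynomial.coeff_C_mul, coeff_dC]
    unfold poD
    rw [Derivation.leibniz, smul_eq_mul, smul_eq_mul]

theorem sw'_dC (i : Fin n) (g : Polynomial (MvPolynomial (Fin n) ℂ)) :
    sw' (dC (poD n i) g) = pderiv i (sw' g) := by
  induction g using Polynomial.induction_on' with
  | add p q hp hq => rw [dC_add, map_add, map_add, map_add, hp, hq]
  | monomial k a =>
    have h1 : dC (poD n i) (Polynomial.monomial k a) = Polynomial.monomial k (pderiv i a) := by
      ext1 j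
      rw [coeff_dC, Polynomial.coeff_monomial, Polynomial.coeff_monomial]
      split_ifs
      · rfl
      · simp
    rw [h1, ← Polynomial.C_mul_X_pow_eq_monomial, ← Polynomial.C_mul_X_pow_eq_monomial, map_mul,
      map_mul, map_pow, sw'_X, sw'_C, sw'_C, Derivation.leibniz, Derivation.leibniz_pow, pderiv_C]
    have h2 : pderiv i (liftS a) = liftS (pderiv i a) := by
      unfold liftS
      rw [pderiv_map]
    rw [h2]
    simp [mul_comm]

theorem inA_of_inDn {f : MvPolynomial (Fin n) ℂ} {k : ℕ}
    {g : MvPolynomial (Fin n) (Polynomial ℂ)} (h : InDn f k g) :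
    InA (poD n) f k (sw g) := by
  induction h with
  | base => rw [map_one]; exact InA.base
  | add _ _ ih1 ih2 => rw [map_add]; exact ih1.add ih2
  | mul c _ ih => rw [map_mul]; exact ih.mul _
  | @deriv k g i _ ih =>
    have := ih.deriv i
    rw [map_add, map_mul, map_mul, map_mul, sw_liftS, sw_liftS, sw_pderiv, sw_C]
    simpa [poD] using this
  | raise _ ih => rw [map_mul, sw_liftS]; exact ih.raise
  | lower _ ih => rw [map_mul, sw_liftS] at ih; exact ih.lower

theorem inDn_of_inA {f : MvPolynomial (Fin n) ℂ} {k : ℕ}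
    {g : Polynomial (MvPolynomial (Fin n) ℂ)} (h : InA (poD n) f k g) : InDn f k (sw' g) := by
  induction h with
  | base => rw [map_one]; exact InDn.base
  | add _ _ ih1 ih2 => rw [map_add]; exact ih1.add ih2
  | mul c _ ih => rw [map_mul]; exact InDn.mul _ ih
  | @deriv k g i _ ih =>
    have := InDn.deriv i ih
    rw [map_add, map_mul, map_mul, map_mul, sw'_C, sw'_C, sw'_dC]
    have h1 : sw' (Polynomial.X + 1 - (k : Polynomial (MvPolynomial (Fin n) ℂ))) =
        C (Polynomial.X + 1 - (k : Polynomial ℂ)) := by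
      rw [map_sub, map_add, sw'_X, map_one, map_natCast]
      simp
    rw [h1]
    exact this
  | raise _ ih => rw [map_mul, sw'_C]; exact InDn.raise ih
  | lower _ ih => rw [map_mul, sw'_C] at ih; exact InDn.lower ih

theorem map_C_eq_po (b : Polynomial ℂ) : b.map (C : ℂ →+* MvPolynomial (Fin n) ℂ) =
    b.map (algebraMap ℂ (MvPolynomial (Fin n) ℂ)) := by
  rw [MvPolynomial.algebraMap_eq]

theorem isBernsteinSato_iff {f : MvPolynomial (Fin n) ℂ} {b : Polynomial ℂ} :
    IsBernsteinSato f b ↔ InA (poD n) f 1 (b.map (algebraMap ℂ (MvPolynomial (Fin n) ℂ))) := by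
  constructor
  · intro h
    have := inA_of_inDn h
    rwa [sw_C, map_C_eq_po] at this
  · intro h
    have := inDn_of_inA h
    rwa [← map_C_eq_po, sw'_map_C] at this

end MPb07157
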