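import Pool.Agent.Lib.MP_b07157_agS.SDefs
import Pool.Agent.Lib.MP_b07157_agE.EZ

/-!
# Polynomial automorphisms and powers, global version
-/

noncomputable section

namespace MPb07157

open MvPolynomial

variable {n : ℕ}

/-- `f` is a nonzero constant times the `m`-th power of the image of `g` under an automorphism of
the polynomial ring. -/
def PolyEquivPow (f g : MvPolynomial (Fin n) ℂ) (m : ℕ) : Prop :=
  ∃ (e : MvPolynomial (Fin n) ℂ ≃ₐ[ℂ] MvPolynomial (Fin n) ℂ) (c : ℂ), c ≠ 0 ∧ f = C c * e g ^ m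

/-! ### Zeta functions -/

theorem aeval_algEquiv (e : MvPolynomial (Fin n) ℂ ≃ₐ[ℂ] MvPolynomial (Fin n) ℂ)
    (γ : Fin n → PowerSeries ℂ) (A : MvPolynomial (Fin n) ℂ) :
    (aeval γ (e A) : PowerSeries ℂ) =
      aeval (fun j => (aeval γ (e (X j)) : PowerSeries ℂ)) A := by
  have h : (aeval γ : MvPolynomial (Fin n) ℂ →ₐ[ℂ] PowerSeries ℂ).comp
      (e : MvPolynomial (Fin n) ℂ →ₐ[ℂ] MvPolynomial (Fin n) ℂ) =
      aeval (fun j => (aeval γ (e (X j)) : PowerSeries ℂ)) := by
    apply MvPolynomial.algHom_ext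
    intro j
    simp
  exact congrArg (fun φ : MvPolynomial (Fin n) ℂ →ₐ[ℂ] PowerSeries ℂ => φ A) h

theorem jetG_jetG (e : MvPolynomial (Fin n) ℂ ≃ₐ[ℂ] MvPolynomial (Fin n) ℂ) {N : ℕ}
    (γ : Fin n × Fin N → ℂ) :
    polyMap (jetPoly (fun j => e.symm (X j)) N) (polyMap (jetPoly (fun j => e (X j)) N) γ) = γ := by
  funext p
  rw [polyMap_jetPoly]
  have h1 := aeval_congr_X_pow N (e.symm (X p.1)) (arc (polyMap (jetPoly (fun j => e (X j)) N) γ))
    (fun j => (aeval (arc γ) (e (X j)) : PowerSeries ℂ)) (arc_jetPoly _ γ)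
  rw [PowerSeries.X_pow_dvd_iff] at h1
  have h2 := h1 p.2 p.2.2
  rw [map_sub, sub_eq_zero] at h2
  rw [h2, ← aeval_algEquiv, AlgEquiv.apply_symm_apply, aeval_X, coeff_arc, dif_pos p.2.2]

theorem order_jetG {f g : MvPolynomial (Fin n) ℂ} {m : ℕ}
    {e : MvPolynomial (Fin n) ℂ ≃ₐ[ℂ] MvPolynomial (Fin n) ℂ} {c : ℂ} (hc : c ≠ 0)
    (hf : f = C c * e g ^ m) {N : ℕ} (γ : Fin n × Fin N → ℂ) {k : ℕ} (hk : k < N) :
    (aeval (arc γ) f : PowerSeries ℂ).order = k ↔
      m • (aeval (arc (polyMap (jetPoly (fun j => e (X j)) N) γ)) g : PowerSeries ℂ).order = k := by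
  have h1 := aeval_congr_X_pow N g (arc (polyMap (jetPoly (fun j => e (X j)) N) γ))
    (fun j => (aeval (arc γ) (e (X j)) : PowerSeries ℂ)) (arc_jetPoly _ γ)
  rw [← aeval_algEquiv] at h1
  have h2 : (PowerSeries.X : PowerSeries ℂ) ^ N ∣
      aeval (arc γ) f - PowerSeries.C c *
        (aeval (arc (polyMap (jetPoly (fun j => e (X j)) N) γ)) g : PowerSeries ℂ) ^ m := by
    have h3 := ((dvd_sub_comm.1 h1).trans (sub_dvd_pow_sub_pow _ _ m)).mul_left (PowerSeries.C c)
    rw [hf, map_mul, map_pow, aeval_C]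
    convert h3 using 1
    rw [mul_sub]
    rfl
  rw [order_congr hk h2, PowerSeries.order_mul, PowerSeries.order_pow]
  have h4 : (PowerSeries.C c : PowerSeries ℂ).order = 0 := by
    by_contra h4
    apply hc
    have h5 := PowerSeries.order_ne_zero_iff_constCoeff_eq_zero.1 h4
    simpa using h5
  rw [h4, zero_add]

theorem Zcoeff_eq_muE (f : MvPolynomial (Fin n) ℂ) (k : ℕ) :
    Zcoeff f k = muE f 0 (k + 1) k := by
  have h := congrArg (PowerSeries.coeff k) (Zmot_eq f)
  rwa [Zmot, ZE, PowerSeries.coeff_mk, PowerSeries.coeff_mk] at h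

theorem Start_zero' (N : ℕ) : Start n 0 N = Set.univ := by
  ext γ
  simp [Start]

/-- `Z_f(T) = Z_g(T^m)`, coefficientwise. -/
theorem Zcoeff_of_polyEquivPow {f g : MvPolynomial (Fin n) ℂ} {m : ℕ} (hm : 0 < m)
    (h : PolyEquivPow f g m) (k : ℕ) :
    Zcoeff f (m * k) = Zcoeff g k := by
  obtain ⟨e, c, hc, hf⟩ := h
  have hk : k ≤ m * k := Nat.le_mul_of_pos_left k hm
  rw [Zcoeff_eq_muE, Zcoeff_eq_muE, ← muE_eq g (ε := 0) (Nat.lt_succ_iff.2 hk) (by norm_num)]
  unfold muE clsM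
  rw [Start_zero', Set.inter_univ, Set.inter_univ]
  congr 2
  refine cls_bijOn (isConstr_arcs _ _ _) (isConstr_arcs _ _ _)
    (jetPoly (fun j => e (X j)) (m * k + 1)) ⟨?_, ?_, ?_⟩
  · intro γ h1
    exact (smul_eq_iff hm _).1 ((order_jetG hc hf γ (Nat.lt_succ_self _)).1 h1)
  · intro γ _ γ' _ heq
    rw [← jetG_jetG e γ, heq, jetG_jetG e γ']
  · intro γ h1
    have h3 : polyMap (jetPoly (fun j => e (X j)) (m * k + 1))
        (polyMap (jetPoly (fun j => e.symm (X j)) (m * k + 1)) γ) = γ := jetG_jetG e.symm γ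
    refine ⟨polyMap (jetPoly (fun j => e.symm (X j)) (m * k + 1)) γ, ?_, h3⟩
    refine (order_jetG hc hf _ (Nat.lt_succ_self _)).2 ?_
    rw [h3]
    exact (smul_eq_iff hm _).2 h1

theorem Zcoeff_of_polyEquivPow_ndvd {f g : MvPolynomial (Fin n) ℂ} {m : ℕ} (hm : 0 < m)
    (h : PolyEquivPow f g m) {k : ℕ} (hk : ¬ m ∣ k) :
    Zcoeff f k = 0 := by
  obtain ⟨e, c, hc, hf⟩ := h
  unfold Zcoeff clsM
  have h1 : arcs f (k + 1) k = ∅ := by
    rw [Set.eq_empty_iff_forall_notMem]
    intro γ h1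
    exact hk (dvd_of_smul_eq ((order_jetG hc hf γ (Nat.lt_succ_self _)).1 h1) hm)
  rw [h1, cls_empty, map_zero, mul_zero]

theorem Zmot_of_polyEquivPow {f g : MvPolynomial (Fin n) ℂ} {m : ℕ} (hm : 0 < m)
    (h : PolyEquivPow f g m) : Zmot f = PowerSeries.expand m hm.ne' (Zmot g) := by
  ext k
  unfold Zmot
  rw [PowerSeries.coeff_mk]
  by_cases hk : m ∣ k
  · obtain ⟨l, rfl⟩ := hk
    rw [PowerSeries.coeff_expand_mul, PowerSeries.coeff_mk, Zcoeff_of_polyEquivPow hm h]
  · rw [PowerSeries.coeff_expand_of_not_dvd _ _ _ hk, Zcoeff_of_polyEquivPow_ndvd hm h hk]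

theorem isPole_of_polyEquivPow {f g : MvPolynomial (Fin n) ℂ} {m : ℕ} (hm : 0 < m)
    (h : PolyEquivPow f g m) {s₀ : ℚ} (hp : IsPole (Zmot f) s₀) :
    IsPole (Zmot g) (m * s₀) := by
  intro h1
  apply hp
  rw [Zmot_of_polyEquivPow hm h]
  exact expand_mem_regularAt hm h1

/-! ### Bernstein–Sato polynomials: change of coordinates -/

/-- The extension of an automorphism to `ℂ[s][x]`. -/
def extS (e : MvPolynomial (Fin n) ℂ ≃ₐ[ℂ] MvPolynomial (Fin n) ℂ) :
    MvPolynomial (Fin n) (Polynomial ℂ) →ₐ[Polynomial ℂ] MvPolynomial (Fin n) (Polynomial ℂ) :=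
  aeval fun i => liftS (e (X i))

theorem extS_liftS (e : MvPolynomial (Fin n) ℂ ≃ₐ[ℂ] MvPolynomial (Fin n) ℂ)
    (f : MvPolynomial (Fin n) ℂ) : extS e (liftS f) = liftS (e f) := by
  induction f using MvPolynomial.induction_on with
  | C a =>
    have h : e (C a) = C a := e.commutes a
    rw [h]
    unfold liftS extS
    rw [map_C, aeval_C]
    rfl
  | add p q hp hq =>
    unfold liftS at hp hq ⊢
    rw [map_add, map_add, hp, hq, map_add, map_add]
  | mul_X p i hp =>
    unfold liftS at hp ⊢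
    rw [map_mul, map_mul, hp, map_mul, map_mul, map_X]
    unfold extS
    rw [aeval_X]
    rfl

theorem extS_extS (e : MvPolynomial (Fin n) ℂ ≃ₐ[ℂ] MvPolynomial (Fin n) ℂ)
    (g : MvPolynomial (Fin n) (Polynomial ℂ)) : extS e (extS e.symm g) = g := by
  have h : (extS e).comp (extS e.symm) = AlgHom.id (Polynomial ℂ) _ := by
    apply MvPolynomial.algHom_ext
    intro i
    rw [AlgHom.comp_apply]
    have h1 : extS e.symm (X i : MvPolynomial (Fin n) (Polynomial ℂ)) = liftS (e.symm (X i)) := by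
      unfold extS
      rw [aeval_X]
    rw [h1, extS_liftS, AlgEquiv.apply_symm_apply]
    unfold liftS
    rw [map_X]
    rfl
  exact congrArg (fun φ : MvPolynomial (Fin n) (Polynomial ℂ) →ₐ[Polynomial ℂ]
    MvPolynomial (Fin n) (Polynomial ℂ) => φ g) h

/-- The chain rule. -/
theorem pderiv_extS (e : MvPolynomial (Fin n) ℂ ≃ₐ[ℂ] MvPolynomial (Fin n) ℂ) (j : Fin n)
    (g : MvPolynomial (Fin n) (Polynomial ℂ)) :
    pderiv j (extS e g) = ∑ i, extS e (pderiv i g) * pderiv j (liftS (e (X i))) := by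
  induction g using MvPolynomial.induction_on with
  | C a =>
    have h : extS e (C a) = C a := by
      unfold extS
      rw [aeval_C]
      rfl
    rw [h, pderiv_C]
    symm
    refine Finset.sum_eq_zero fun i _ => ?_
    rw [pderiv_C, map_zero, zero_mul]
  | add p q hp hq =>
    rw [map_add, map_add, hp, hq, ← Finset.sum_add_distrib]
    refine Finset.sum_congr rfl fun i _ => ?_
    rw [map_add, map_add, add_mul]
  | mul_X p k hp =>
    have h1 : extS e (X k : MvPolynomial (Fin n) (Polynomial ℂ)) = liftS (e (X k)) := by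
      unfold extS
      rw [aeval_X]
    rw [map_mul, pderiv_mul, hp, h1]
    have h2 : ∀ i, extS e (pderiv i (p * X k)) * pderiv j (liftS (e (X i))) =
        extS e (pderiv i p) * pderiv j (liftS (e (X i))) * liftS (e (X k)) +
          extS e p * (if i = k then pderiv j (liftS (e (X k))) else 0) := by
      intro i
      rw [pderiv_mul, map_add, map_mul, map_mul, h1]
      by_cases hik : i = k
      · subst hik
        rw [pderiv_X_self, map_one, if_pos rfl]
        ring
      · rw [pderiv_X_of_ne (fun h => hik h.symm), map_zero, if_neg hik]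
        ring
    rw [Finset.sum_congr rfl fun i _ => h2 i, Finset.sum_add_distrib, ← Finset.sum_mul,
      ← Finset.mul_sum, Finset.sum_ite_eq' Finset.univ k, if_pos (Finset.mem_univ k)]

theorem liftS_pderiv (f : MvPolynomial (Fin n) ℂ) (i : Fin n) :
    liftS (pderiv i f) = pderiv i (liftS f) := by
  unfold liftS
  rw [pderiv_map]

/-- `e (∂_j g) = ∑ a_i ∂_i (e g)`. -/
theorem extS_pderiv (e : MvPolynomial (Fin n) ℂ ≃ₐ[ℂ] MvPolynomial (Fin n) ℂ) (j : Fin n)
    (g : MvPolynomial (Fin n) (Polynomial ℂ)) :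
    extS e (pderiv j g) = ∑ i, extS e (pderiv j (liftS (e.symm (X i)))) * pderiv i (extS e g) := by
  have h1 : g = extS e.symm (extS e g) := (extS_extS e.symm g).symm
  have h2 := pderiv_extS e.symm j (extS e g)
  rw [← h1] at h2
  rw [h2, map_sum]
  refine Finset.sum_congr rfl fun i _ => ?_
  rw [map_mul, extS_extS, mul_comm]

theorem InDn.equiv {f : MvPolynomial (Fin n) ℂ}
    (e : MvPolynomial (Fin n) ℂ ≃ₐ[ℂ] MvPolynomial (Fin n) ℂ) {k : ℕ}
    {g : MvPolynomial (Fin n) (Polynomial ℂ)} (h : InDn f k g) : InDn (e f) k (extS e g) := by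
  induction h with
  | base =>
    rw [map_one]
    exact InDn.base
  | add _ _ ih1 ih2 =>
    rw [map_add]
    exact InDn.add ih1 ih2
  | mul c _ ih =>
    rw [map_mul]
    exact InDn.mul _ ih
  | @deriv k g j hg ih =>
    have hC : extS e (C (Polynomial.X + 1 - (k : Polynomial ℂ))) =
        C (Polynomial.X + 1 - (k : Polynomial ℂ)) := by
      unfold extS
      rw [aeval_C]
      rfl
    have h1 : extS e (liftS f * pderiv j g +
        C (Polynomial.X + 1 - (k : Polynomial ℂ)) * liftS (pderiv j f) * g) =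
        ∑ i, extS e (pderiv j (liftS (e.symm (X i)))) *
          (liftS (e f) * pderiv i (extS e g) +
            C (Polynomial.X + 1 - (k : Polynomial ℂ)) * liftS (pderiv i (e f)) * extS e g) := by
      rw [map_add, map_mul, map_mul, map_mul, hC, extS_pderiv e j g, liftS_pderiv f j,
        extS_pderiv e j (liftS f), extS_liftS, Finset.mul_sum, Finset.mul_sum, Finset.sum_mul,
        ← Finset.sum_add_distrib]
      refine Finset.sum_congr rfl fun i _ => ?_
      rw [liftS_pderiv (e f) i]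
      ring
    rw [h1]
    exact InDn.sum _ fun i _ => InDn.mul _ (InDn.deriv i ih)
  | raise _ ih =>
    rw [map_mul, extS_liftS]
    exact InDn.raise ih
  | lower _ ih =>
    rw [map_mul, extS_liftS] at ih
    exact InDn.lower ih

/-! ### Bernstein–Sato polynomials: powers -/

theorem InDn.raise_powG {f : MvPolynomial (Fin n) ℂ} {k : ℕ}
    {g : MvPolynomial (Fin n) (Polynomial ℂ)} (h : InDn f k g) (l : ℕ) :
    InDn f (k + l) (liftS f ^ l * g) := by
  induction l with
  | zero => simpa using h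
  | succ l ih =>
    rw [pow_succ', mul_assoc, ← add_assoc]
    exact InDn.raise ih

theorem InDn.lower_powG {f : MvPolynomial (Fin n) ℂ} {k : ℕ}
    {g : MvPolynomial (Fin n) (Polynomial ℂ)} (l : ℕ) (h : InDn f (k + l) (liftS f ^ l * g)) :
    InDn f k g := by
  induction l with
  | zero => simpa using h
  | succ l ih =>
    rw [pow_succ', mul_assoc, ← add_assoc] at h
    exact ih (InDn.lower h)

/-- The substitution `s ↦ s/m`. -/
def divS (m : ℕ) : Polynomial ℂ →+* Polynomial ℂ :=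
  (Polynomial.aeval (Polynomial.C ((m : ℂ)⁻¹) * Polynomial.X) :
    Polynomial ℂ →ₐ[ℂ] Polynomial ℂ).toRingHom

theorem divS_apply (m : ℕ) (b : Polynomial ℂ) :
    divS m b = b.comp (Polynomial.C ((m : ℂ)⁻¹) * Polynomial.X) := rfl

theorem map_divS_liftS (m : ℕ) (f : MvPolynomial (Fin n) ℂ) :
    map (divS m) (liftS f) = liftS f := by
  unfold liftS
  rw [map_map]
  have h : (divS m).comp (Polynomial.C : ℂ →+* Polynomial ℂ) = Polynomial.C := by
    apply RingHom.ext
    intro a
    simp [divS_apply]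
  rw [h]

/-- `f = c G^m`, `h f^{s+1-k} ∈ D[s] f^{s+1}`: then, with `t = m s`,
`c^{-k} G^{m-1} h(x, t/m) G^{t+1-mk} ∈ D[t] G^{t+1}`. -/
theorem InDn.const_pow {f G : MvPolynomial (Fin n) ℂ} {m : ℕ} (hm : 0 < m) {c : ℂ} (hc : c ≠ 0)
    (hf : f = C c * G ^ m) {k : ℕ} {h : MvPolynomial (Fin n) (Polynomial ℂ)} (hh : InDn f k h) :
    InDn G (m * k) (liftS (C (c⁻¹)) ^ k * liftS G ^ (m - 1) * map (divS m) h) := by
  obtain ⟨m, rfl⟩ : ∃ l, m = l + 1 := ⟨m - 1, by omega⟩
  have hcc : (liftS (C (c⁻¹)) : MvPolynomial (Fin n) (Polynomial ℂ)) * liftS (C c) = 1 := by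
    unfold liftS
    rw [← map_mul, ← C_mul, inv_mul_cancel₀ hc, map_C]
    simp
  have hfG : (liftS f : MvPolynomial (Fin n) (Polynomial ℂ)) =
      liftS (C c) * liftS G ^ (m + 1) := by
    unfold liftS
    rw [hf, map_mul, map_pow]
  rw [Nat.add_sub_cancel]
  induction hh with
  | base =>
    rw [mul_zero]
    exact InDn.mul _ InDn.base |> fun h => by simpa using h
  | add _ _ ih1 ih2 =>
    rw [map_add, mul_add]
    exact InDn.add ih1 ih2
  | @mul k g c' _ ih =>
    have h1 := InDn.mul (map (divS (m + 1)) c') ih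
    rw [map_mul]
    convert h1 using 1
    ring
  | @deriv k g j hg ih =>
    have h1 := InDn.raise_powG (InDn.deriv j ih) m
    have hmul : (m + 1) * (k + 1) = (m + 1) * k + 1 + m := by ring
    rw [hmul]
    convert h1 using 1
    have e1 : pderiv j (liftS (C (c⁻¹)) ^ k * liftS G ^ m * map (divS (m + 1)) g) =
        liftS (C (c⁻¹)) ^ k * (liftS G ^ m * map (divS (m + 1)) (pderiv j g) +
          (m : MvPolynomial (Fin n) (Polynomial ℂ)) * liftS G ^ (m - 1) * liftS (pderiv j G) *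
            map (divS (m + 1)) g) := by
      have e2 : pderiv j (liftS (C (c⁻¹)) ^ k : MvPolynomial (Fin n) (Polynomial ℂ)) = 0 := by
        have : (liftS (C (c⁻¹)) ^ k : MvPolynomial (Fin n) (Polynomial ℂ)) =
            C (Polynomial.C (c⁻¹) ^ k) := by
          unfold liftS
          rw [map_C, ← C_pow]
        rw [this, pderiv_C]
      rw [mul_assoc, pderiv_mul, e2, zero_mul, zero_add, pderiv_mul, pderiv_pow, ← liftS_pderiv,
        pderiv_map]
      ring
    have e3 : map (divS (m + 1)) (liftS f * pderiv j g +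
        C (Polynomial.X + 1 - (k : Polynomial ℂ)) * liftS (pderiv j f) * g) =
        liftS (C c) * liftS G ^ (m + 1) * map (divS (m + 1)) (pderiv j g) +
        C (Polynomial.C (((m + 1 : ℕ) : ℂ)⁻¹) * Polynomial.X + 1 - (k : Polynomial ℂ)) *
          (liftS (C c) * (((m + 1 : ℕ) : MvPolynomial (Fin n) (Polynomial ℂ)) * liftS G ^ m *
            liftS (pderiv j G))) * map (divS (m + 1)) g := by
      rw [map_add, map_mul, map_mul, map_mul, map_divS_liftS, map_divS_liftS, hfG, map_C,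
        divS_apply]
      have e4 : liftS (pderiv j f) = liftS (C c) *
          (((m + 1 : ℕ) : MvPolynomial (Fin n) (Polynomial ℂ)) * liftS G ^ m *
            liftS (pderiv j G)) := by
        rw [liftS_pderiv, hfG, pderiv_mul, pderiv_pow, liftS_pderiv]
        have : pderiv j (liftS (C c) : MvPolynomial (Fin n) (Polynomial ℂ)) = 0 := by
          unfold liftS
          rw [map_C, pderiv_C]
        rw [this]
        simp
      rw [e4]
      simp
    rw [e1, e3]
    have e5 : (C (Polynomial.C (((m + 1 : ℕ) : ℂ)⁻¹) * Polynomial.X + 1 - (k : Polynomial ℂ)) :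
        MvPolynomial (Fin n) (Polynomial ℂ)) * ((m + 1 : ℕ) : MvPolynomial (Fin n) (Polynomial ℂ)) =
        C (Polynomial.X + 1 - (((m + 1) * k : ℕ) : Polynomial ℂ)) +
          (m : MvPolynomial (Fin n) (Polynomial ℂ)) := by
      have hm0 : (((m + 1 : ℕ) : ℂ)) ≠ 0 := by exact_mod_cast Nat.succ_ne_zero m
      have e6 : (Polynomial.C (((m + 1 : ℕ) : ℂ)⁻¹) * Polynomial.X + 1 - (k : Polynomial ℂ)) *
          ((m + 1 : ℕ) : Polynomial ℂ) = Polynomial.X + 1 - (((m + 1) * k : ℕ) : Polynomial ℂ) +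
            (m : Polynomial ℂ) := by
        have e7 : Polynomial.C (((m + 1 : ℕ) : ℂ)⁻¹) * ((m + 1 : ℕ) : Polynomial ℂ) = 1 := by
          rw [← Polynomial.C_eq_natCast, ← Polynomial.C_mul, inv_mul_cancel₀ hm0, Polynomial.C_1]
        have e8 : (Polynomial.C (((m + 1 : ℕ) : ℂ)⁻¹) * Polynomial.X + 1 - (k : Polynomial ℂ)) *
          ((m + 1 : ℕ) : Polynomial ℂ) =
          (Polynomial.C (((m + 1 : ℕ) : ℂ)⁻¹) * ((m + 1 : ℕ) : Polynomial ℂ)) * Polynomial.X +
            ((m + 1 : ℕ) : Polynomial ℂ) - (k : Polynomial ℂ) * ((m + 1 : ℕ) : Polynomial ℂ) := by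
          ring
        rw [e8, e7]
        push_cast
        ring
      have e9 := congrArg (C : Polynomial ℂ → MvPolynomial (Fin n) (Polynomial ℂ)) e6
      rw [C_mul, C_add] at e9
      simpa using e9
    have e10 : (liftS (C (c⁻¹)) ^ (k + 1) : MvPolynomial (Fin n) (Polynomial ℂ)) * liftS (C c) =
        liftS (C (c⁻¹)) ^ k := by
      rw [pow_succ, mul_assoc, hcc, mul_one]
    have e11 : (m : MvPolynomial (Fin n) (Polynomial ℂ)) * liftS G ^ (m - 1) * liftS G =
        (m : MvPolynomial (Fin n) (Polynomial ℂ)) * liftS G ^ m := by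
      rcases Nat.eq_zero_or_pos m with rfl | hm0
      · simp
      · rw [mul_assoc, ← pow_succ, Nat.sub_add_cancel hm0]
    generalize liftS G ^ (m - 1) = Gp at e11 ⊢
    linear_combination (liftS G ^ m * (liftS G ^ (m + 1) * map (divS (m + 1)) (pderiv j g) +
      C (Polynomial.C (((m + 1 : ℕ) : ℂ)⁻¹) * Polynomial.X + 1 - (k : Polynomial ℂ)) *
        ((m + 1 : ℕ) : MvPolynomial (Fin n) (Polynomial ℂ)) * liftS G ^ m *
          liftS (pderiv j G) * map (divS (m + 1)) g)) * e10 +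
      (liftS G ^ m * liftS (C (c⁻¹)) ^ k * liftS G ^ m * liftS (pderiv j G) *
        map (divS (m + 1)) g) * e5 -
      (liftS G ^ m * liftS (C (c⁻¹)) ^ k * liftS (pderiv j G) * map (divS (m + 1)) g) * e11
  | @raise k g hg ih =>
    have h1 := InDn.raise_powG ih (m + 1)
    rw [map_mul, map_divS_liftS, hfG, mul_add, mul_one]
    convert h1 using 1
    rw [pow_succ]
    linear_combination (liftS (C (c⁻¹)) ^ k * liftS G ^ (m + 1) * liftS G ^ m *
      map (divS (m + 1)) g) * hcc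
  | @lower k g hg ih =>
    refine InDn.lower_powG (m + 1) ?_
    rw [map_mul, map_divS_liftS, hfG, mul_add, mul_one] at ih
    convert ih using 1
    rw [pow_succ (liftS (C (c⁻¹)))]
    linear_combination -(liftS (C (c⁻¹)) ^ k * liftS G ^ (m + 1) * liftS G ^ m *
      map (divS (m + 1)) g) * hcc

theorem isBernsteinSato_of_polyEquivPow {f g : MvPolynomial (Fin n) ℂ} {m : ℕ} (hm : 0 < m)
    (h : PolyEquivPow f g m) {b : Polynomial ℂ} (hb : IsBernsteinSato f b) :
    IsBernsteinSato g (b.comp (Polynomial.C ((m : ℂ)⁻¹) * Polynomial.X)) := by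
  obtain ⟨e, c, hc, hf⟩ := h
  have h1 := InDn.const_pow hm hc hf hb
  have h2 : m * 1 = 1 + (m - 1) := by omega
  rw [h2, map_C, divS_apply] at h1
  have h3 : InDn (e g) 1 (liftS (C (c⁻¹)) ^ 1 *
      C (b.comp (Polynomial.C ((m : ℂ)⁻¹) * Polynomial.X))) := by
    refine InDn.lower_powG (m - 1) ?_
    rw [mul_left_comm, ← mul_assoc]
    exact h1
  have h4 := InDn.mul (liftS (C c)) h3
  have hcc : (liftS (C c) : MvPolynomial (Fin n) (Polynomial ℂ)) * liftS (C (c⁻¹)) = 1 := by
    unfold liftS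
    rw [← map_mul, ← C_mul, mul_inv_cancel₀ hc, map_C]
    simp
  rw [pow_one, ← mul_assoc, hcc, one_mul] at h4
  have h5 := InDn.equiv e.symm h4
  rw [AlgEquiv.symm_apply_apply] at h5
  have h6 : extS e.symm (C (b.comp (Polynomial.C ((m : ℂ)⁻¹) * Polynomial.X))) =
      C (b.comp (Polynomial.C ((m : ℂ)⁻¹) * Polynomial.X)) := by
    unfold extS
    rw [aeval_C]
    rfl
  rw [h6] at h5
  exact h5

end MPb07157
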