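import Pool.Agent.Lib.MP_b07157_agS.SC

/-!
# Stabilization and Bernstein–Sato polynomials

`H = f + w z`, `b = (s+1) b'`, `P(s) f^{s+1} = b(s) f^s`, `θ = w ∂_w`:
`P(s-θ) H^{s+1} = b(s-θ) ∑_j binom(s+1,j) (wz)^j f^{s-j} = (s+1) b'(s-θ) H^s` and
`(s+1)(θ+1) H^s = ∂_w ∂_z H^{s+1}`, hence `(s+1) b'(s+1) H^s ∈ D[s] H^{s+1}`.
-/

noncomputable section

namespace MPb07157

open MvPolynomial MPb07157S

variable {n : ℕ}

theorem stab_ne_zero (f : MvPolynomial (Fin n) ℂ) : stab f ≠ 0 := by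
  intro h
  have h1 := congrArg (eval (fun j : Fin (n + 2) => if (j : ℕ) < n then (0 : ℂ) else 1)) h
  have h2 := congrArg (eval (fun _ : Fin (n + 2) => (0 : ℂ))) h
  unfold stab at h1 h2
  rw [map_add, map_zero, eval_rename, map_mul, eval_X, eval_X] at h1 h2
  have e1 : ((fun j : Fin (n + 2) => if (j : ℕ) < n then (0 : ℂ) else 1) ∘ Fin.castAdd 2) =
      fun _ => 0 := by
    funext j
    simp
  rw [e1] at h1
  simp only [Fin.val_natAdd] at h1
  have e2 : ((fun _ : Fin (n + 2) => (0 : ℂ)) ∘ Fin.castAdd 2) = fun _ => 0 := by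
    funext j
    simp
  rw [e2] at h2
  simp only [mul_zero, add_zero] at h2
  rw [h2] at h1
  simp at h1

/-! ### Power series in more variables -/

theorem pderiv_rename_emb (e : Fin n ↪ Fin (n + 2)) (i : Fin n) (p : MvPowerSeries (Fin n) ℂ) :
    MvPowerSeries.pderiv ℂ (e i) (MvPowerSeries.rename e p) =
      MvPowerSeries.rename e (MvPowerSeries.pderiv ℂ i p) := by
  ext x
  rw [MvPowerSeries.coeff_pderiv]
  by_cases hx : x ∈ Set.range (Finsupp.embDomain e)
  · obtain ⟨y, rfl⟩ := hx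
    rw [MvPowerSeries.coeff_embDomain_rename, MvPowerSeries.coeff_pderiv,
      Finsupp.embDomain_apply_self, ← Finsupp.embDomain_single, ← Finsupp.embDomain_add,
      MvPowerSeries.coeff_embDomain_rename]
  · have h1 : x ∉ Set.range (Finsupp.mapDomain e) := by
      rintro ⟨y, hy⟩
      exact hx ⟨y, by rw [Finsupp.embDomain_eq_mapDomain]; exact hy⟩
    rw [MvPowerSeries.coeff_rename_eq_zero _ _ h1, MvPowerSeries.coeff_rename_eq_zero, zero_mul]
    rintro ⟨y, hy⟩
    apply h1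
    have hx2 : x ∈ Set.range (Finsupp.mapDomain (e : Fin n → Fin (n + 2)) : (Fin n →₀ ℕ) → _) := by
      refine ⟨y - Finsupp.single i 1, ?_⟩
      rw [← Finsupp.embDomain_eq_mapDomain] at hy ⊢
      ext j
      have hj := DFunLike.congr_fun hy j
      by_cases hj' : j ∈ Set.range e
      · obtain ⟨k, rfl⟩ := hj'
        rw [Finsupp.embDomain_apply_self] at hj ⊢
        by_cases hk : k = i
        · subst hk
          simp only [Finsupp.coe_add, Pi.add_apply, Finsupp.single_eq_same] at hj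
          simp only [Finsupp.coe_tsub, Pi.sub_apply, Finsupp.single_eq_same]
          omega
        · have hk' : e k ≠ e i := fun h => hk (e.injective h)
          simp only [Finsupp.coe_add, Pi.add_apply, Finsupp.single_eq_of_ne hk'] at hj
          simp only [Finsupp.coe_tsub, Pi.sub_apply, Finsupp.single_eq_of_ne hk]
          omega
      · rw [Finsupp.embDomain_of_notMem_range _ _ _ hj'] at hj ⊢
        simp only [Finsupp.coe_add, Pi.add_apply] at hj
        omega
    exact hx2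

theorem pderiv_rename_zero (e : Fin n ↪ Fin (n + 2)) {k : Fin (n + 2)} (hk : k ∉ Set.range e)
    (p : MvPowerSeries (Fin n) ℂ) :
    MvPowerSeries.pderiv ℂ k (MvPowerSeries.rename e p) = 0 := by
  ext x
  rw [MvPowerSeries.coeff_pderiv, MvPowerSeries.coeff_rename_eq_zero, zero_mul, map_zero]
  rintro ⟨y, hy⟩
  rw [← Finsupp.embDomain_eq_mapDomain] at hy
  have hj := DFunLike.congr_fun hy k
  rw [Finsupp.embDomain_of_notMem_range _ _ _ hk] at hj
  simp only [Finsupp.coe_add, Pi.add_apply, Finsupp.single_eq_same] at hj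
  omega

theorem natAdd_notMem (k : Fin 2) : Fin.natAdd n k ∉ Set.range (Fin.castAddEmb 2 : Fin n ↪ _) := by
  rintro ⟨i, hi⟩
  have := congrArg Fin.val hi
  simp at this
  omega

theorem natAdd_ne : (Fin.natAdd n (0 : Fin 2)) ≠ Fin.natAdd n 1 := by
  intro h
  have := congrArg Fin.val h
  simp at this

theorem castAdd_ne (i : Fin n) (k : Fin 2) : Fin.natAdd n k ≠ Fin.castAdd 2 i := by
  intro h
  exact natAdd_notMem k ⟨i, h.symm⟩

theorem psD_X_self {N : ℕ} (i : Fin N) : psD N i (MvPowerSeries.X i) = 1 := by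
  unfold psD
  rw [MvPowerSeries.pderiv_X_self]

theorem psD_X_of_ne {N : ℕ} {i k : Fin N} (h : k ≠ i) : psD N i (MvPowerSeries.X k) = 0 := by
  unfold psD
  rw [MvPowerSeries.pderiv_X_of_ne h]

theorem psD_rename (i : Fin n) (a : MvPowerSeries (Fin n) ℂ) :
    psD (n + 2) (Fin.castAdd 2 i)
      (MvPowerSeries.rename (R := ℂ) (Fin.castAddEmb 2 : Fin n ↪ Fin (n + 2)) a) =
      MvPowerSeries.rename (R := ℂ) (Fin.castAddEmb 2 : Fin n ↪ Fin (n + 2)) (psD n i a) := by
  have := pderiv_rename_emb (Fin.castAddEmb 2 : Fin n ↪ Fin (n + 2)) i a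
  rw [Fin.castAddEmb_apply] at this
  exact this

theorem psD_rename_zero (k : Fin 2) (a : MvPowerSeries (Fin n) ℂ) :
    psD (n + 2) (Fin.natAdd n k)
      (MvPowerSeries.rename (R := ℂ) (Fin.castAddEmb 2 : Fin n ↪ Fin (n + 2)) a) = 0 := by
  exact pderiv_rename_zero (Fin.castAddEmb 2 : Fin n ↪ Fin (n + 2)) (natAdd_notMem k) a

theorem ext_ps (n : ℕ) : Ext (psD n) (psD (n + 2))
    (MvPowerSeries.rename (R := ℂ) (Fin.castAddEmb 2 : Fin n ↪ Fin (n + 2)))
    (MvPowerSeries.X (Fin.natAdd n 0)) (MvPowerSeries.X (Fin.natAdd n 1)) (Fin.castAdd 2)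
    (Fin.natAdd n 0) (Fin.natAdd n 1) where
  hJ := psD_rename
  hw := psD_rename_zero 0
  hz := psD_rename_zero 1
  Jw i := psD_X_of_ne (castAdd_ne i 0)
  Jz i := psD_X_of_ne (castAdd_ne i 1)
  ww := psD_X_self _
  wz := psD_X_of_ne natAdd_ne.symm
  zw := psD_X_of_ne natAdd_ne
  zz := psD_X_self _

/-- Formal version. -/
theorem form_stab {f : MvPolynomial (Fin n) ℂ} (hf : f ≠ 0) (h0 : coeff 0 f = 0)
    {b : Polynomial ℂ} (hb : InDnForm f 1 (b.map (MvPowerSeries.C (σ := Fin n) (R := ℂ)))) :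
    ∃ b' : Polynomial ℂ, b = (Polynomial.X + 1) * b' ∧
      InDnForm (stab f) 1 (((Polynomial.X + 1) * b'.comp (Polynomial.X + 1)).map
        (MvPowerSeries.C (σ := Fin (n + 2)) (R := ℂ))) := by
  have hb' := inA_of_form hb
  rw [map_C_eq_ps] at hb'
  have e1 : (MvPowerSeries.rename (R := ℂ) (Fin.castAddEmb 2 : Fin n ↪ Fin (n + 2)))
      (f : MvPowerSeries (Fin n) ℂ) + MvPowerSeries.X (Fin.natAdd n 0) *
        MvPowerSeries.X (Fin.natAdd n 1) =
      ((stab f : MvPolynomial (Fin (n + 2)) ℂ) : MvPowerSeries (Fin (n + 2)) ℂ) := by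
    unfold stab
    rw [MvPowerSeries.rename_coe, MvPolynomial.coe_add, MvPolynomial.coe_mul, MvPolynomial.coe_X,
      MvPolynomial.coe_X]
    rfl
  have hF : (f : MvPowerSeries (Fin n) ℂ) ≠ 0 := by
    intro h
    exact hf (MvPolynomial.coe_injective _ _ (by simpa using h))
  have hFu : ¬ IsUnit (f : MvPowerSeries (Fin n) ℂ) := by
    intro h
    have h1 := (h.map (MvPowerSeries.constantCoeff (σ := Fin n) (R := ℂ))).ne_zero
    apply h1
    rw [← MvPowerSeries.coeff_zero_eq_constantCoeff_apply, MvPolynomial.coeff_coe, h0]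
  have : IsDomain (MvPowerSeries (Fin n) ℂ) := NoZeroDivisors.to_isDomain _
  have : IsDomain (MvPowerSeries (Fin (n + 2)) ℂ) := NoZeroDivisors.to_isDomain _
  have : CharZero (MvPowerSeries (Fin (n + 2)) ℂ) :=
    charZero_of_injective_algebraMap (algebraMap ℂ (MvPowerSeries (Fin (n + 2)) ℂ)).injective
  obtain ⟨b', h1, h2⟩ := (ext_ps n).stab_main hF hFu (by
    rw [e1]
    intro h
    exact stab_ne_zero f (MvPolynomial.coe_injective _ _ (by simpa using h))) hb'
  refine ⟨b', h1, ?_⟩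
  rw [map_C_eq_ps]
  rw [e1] at h2
  exact form_of_inA h2

theorem poD_rename_zero (k : Fin 2) (a : MvPolynomial (Fin n) ℂ) :
    poD (n + 2) (Fin.natAdd n k) (rename (Fin.castAdd 2) a) = 0 := by
  unfold poD
  induction a using MvPolynomial.induction_on with
  | C a => rw [rename_C, pderiv_C]
  | add a b ha hb => rw [map_add, map_add, ha, hb, add_zero]
  | mul_X a j ha =>
    rw [map_mul, Derivation.leibniz, ha, rename_X, pderiv_X_of_ne (castAdd_ne j k).symm]
    simp

theorem poD_X_self {N : ℕ} (i : Fin N) : poD N i (X i) = 1 := by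
  unfold poD
  rw [pderiv_X_self]

theorem poD_X_of_ne {N : ℕ} {i k : Fin N} (h : k ≠ i) : poD N i (X k) = 0 := by
  unfold poD
  rw [pderiv_X_of_ne h]

theorem poD_rename (i : Fin n) (a : MvPolynomial (Fin n) ℂ) :
    poD (n + 2) (Fin.castAdd 2 i) (rename (Fin.castAdd 2) a) =
      rename (Fin.castAdd 2) (poD n i a) := by
  unfold poD
  exact pderiv_rename (Fin.castAdd_injective n 2) i a

theorem ext_po (n : ℕ) : Ext (poD n) (poD (n + 2))
    (rename (Fin.castAdd 2) : MvPolynomial (Fin n) ℂ →ₐ[ℂ] MvPolynomial (Fin (n + 2)) ℂ)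
    (X (Fin.natAdd n 0)) (X (Fin.natAdd n 1)) (Fin.castAdd 2)
    (Fin.natAdd n 0) (Fin.natAdd n 1) where
  hJ := poD_rename
  hw := poD_rename_zero 0
  hz := poD_rename_zero 1
  Jw i := poD_X_of_ne (castAdd_ne i 0)
  Jz i := poD_X_of_ne (castAdd_ne i 1)
  ww := poD_X_self _
  wz := poD_X_of_ne natAdd_ne.symm
  zw := poD_X_of_ne natAdd_ne
  zz := poD_X_self _

/-- Global version. -/
theorem isBernsteinSato_stab {f : MvPolynomial (Fin n) ℂ} (hf : f ≠ 0) (h0 : coeff 0 f = 0)
    {b : Polynomial ℂ} (hb : IsBernsteinSato f b) :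
    ∃ b' : Polynomial ℂ, b = (Polynomial.X + 1) * b' ∧
      IsBernsteinSato (stab f) ((Polynomial.X + 1) * b'.comp (Polynomial.X + 1)) := by
  have hFu : ¬ IsUnit f := by
    intro h
    have h1 := (h.map (constantCoeff (R := ℂ) (σ := Fin n))).ne_zero
    apply h1
    rw [constantCoeff_eq, h0]
  obtain ⟨b', h1, h2⟩ := (ext_po n).stab_main hf hFu (stab_ne_zero f) (isBernsteinSato_iff.1 hb)
  exact ⟨b', h1, isBernsteinSato_iff.2 h2⟩

end MPb07157
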