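import Pool.Agent.Lib.MP_b07157_agS.SZ

/-!
# Stabilization and poles

`u = L^{-1} T`, `h = f + w z`: `(1 - u)^2 Z_h(T) = (1 - L^{-1})^2 + (L^{-1} - u) (1 - L^{-1} u) Z_f(u)`
and the local version, with `L^{-n} (1 - L^{-1})^2 u^2` in place of `(1 - L^{-1})^2`.
-/

noncomputable section

namespace MPb07157

open MvPolynomial

variable {n : ℕ}

/-- `∑ i u^i`. -/
def serI : PowerSeries Mot := PowerSeries.mk fun i => (i : Mot)

/-- `∑ u^i`. -/
def serO : PowerSeries Mot := PowerSeries.mk fun _ => (1 : Mot)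

theorem serO_mul : (1 - PowerSeries.X) * serO = 1 := by
  ext k
  rw [sub_mul, one_mul, map_sub, PowerSeries.coeff_one]
  unfold serO
  cases k with
  | zero => simp
  | succ k =>
    rw [PowerSeries.coeff_succ_X_mul, PowerSeries.coeff_mk, PowerSeries.coeff_mk, sub_self,
      if_neg (Nat.succ_ne_zero k)]

theorem serI_eq : (1 - PowerSeries.X) * serI = PowerSeries.X * serO := by
  ext k
  rw [sub_mul, one_mul, map_sub]
  unfold serI serO
  cases k with
  | zero => simp
  | succ k =>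
    rw [PowerSeries.coeff_succ_X_mul, PowerSeries.coeff_succ_X_mul, PowerSeries.coeff_mk,
      PowerSeries.coeff_mk, PowerSeries.coeff_mk]
    push_cast
    ring

theorem serI_mul : (1 - PowerSeries.X) ^ 2 * serI = PowerSeries.X := by
  have h1 := serI_eq
  have h2 := serO_mul
  linear_combination (1 - PowerSeries.X) * h1 + PowerSeries.X * h2

/-- The coefficients `∑_{e < m} (m - e) z_e`. -/
theorem coeff_serI_mul (Z : PowerSeries Mot) (m : ℕ) :
    PowerSeries.coeff m (Z * serI) =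
      ∑ e ∈ Finset.range m, ((m - e : ℕ) : Mot) * PowerSeries.coeff e Z := by
  rw [PowerSeries.coeff_mul, Finset.Nat.sum_antidiagonal_eq_sum_range_succ
    (fun i j => PowerSeries.coeff i Z * PowerSeries.coeff j serI), Finset.sum_range_succ]
  unfold serI
  simp only [PowerSeries.coeff_mk]
  rw [Nat.sub_self, Nat.cast_zero, mul_zero, add_zero]
  exact Finset.sum_congr rfl fun e _ => mul_comm _ _

theorem rescale_mem_regularAt {s₀ : ℚ} {Z : PowerSeries Mot} (hZ : Z ∈ regularAt (s₀ - 1)) :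
    PowerSeries.rescale (LU : Mot) Z ∈ regularAt s₀ := by
  induction hZ using Algebra.adjoin_induction with
  | mem Z hZ =>
    rcases hZ with hZ | ⟨a, b, hb, hab, hZ⟩
    · rw [Set.mem_singleton_iff.1 hZ, PowerSeries.rescale_X]
      exact mul_mem (C_mem_regularAt s₀ _) (X_mem_regularAt s₀)
    · refine Algebra.subset_adjoin (Or.inr ⟨a - b, b, hb, ?_, ?_⟩)
      · intro h
        apply hab
        have hb' : (b : ℚ) ≠ 0 := by exact_mod_cast hb.ne'
        push_cast at h
        field_simp at h ⊢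
        linarith
      · have h := congrArg (PowerSeries.rescale (LU : Mot)) hZ
        rw [map_mul, map_sub, map_one, map_mul, map_pow, PowerSeries.rescale_X] at h
        have h2 : PowerSeries.rescale (LU : Mot) (PowerSeries.C (↑(LU ^ (-a)) : Mot)) =
            PowerSeries.C (↑(LU ^ (-a)) : Mot) := by
          ext k
          rw [PowerSeries.coeff_rescale, PowerSeries.coeff_C]
          split_ifs with hk
          · rw [hk, pow_zero, one_mul]
          · rw [mul_zero]
        have h3 : (↑(LU ^ (-(a - (b : ℤ)))) : Mot) = ↑(LU ^ (-a)) * (LU : Mot) ^ b := by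
          rw [← Units.val_pow_eq_pow_val, ← Units.val_mul, ← zpow_natCast, ← zpow_add]
          congr 2
          ring
        rw [h2, mul_pow, ← mul_assoc, ← map_pow, ← map_mul, ← h3] at h
        exact h
  | algebraMap r =>
    have h : PowerSeries.rescale (LU : Mot) (algebraMap Mot (PowerSeries Mot) r) =
        algebraMap Mot (PowerSeries Mot) r := by
      change PowerSeries.rescale (LU : Mot) (PowerSeries.C r) = PowerSeries.C r
      ext k
      rw [PowerSeries.coeff_rescale, PowerSeries.coeff_C]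
      split_ifs with hk
      · rw [hk, pow_zero, one_mul]
      · rw [mul_zero]
    rw [h]
    exact Subalgebra.algebraMap_mem _ r
  | add x y _ _ hx hy =>
    rw [map_add]
    exact add_mem hx hy
  | mul x y _ _ hx hy =>
    rw [map_mul]
    exact mul_mem hx hy

/-- The series `1 / (1 - L^{-a} T)` is regular at `s₀ ≠ -a`. -/
theorem exists_geo {s₀ : ℚ} (a : ℤ) (h : (a : ℚ) ≠ -s₀) :
    ∃ g ∈ regularAt s₀, g * (1 - PowerSeries.C (↑(LU ^ (-a)) : Mot) * PowerSeries.X) = 1 := by
  have h1 : (PowerSeries.mk fun k => (↑(LU ^ (-a)) : Mot) ^ k) *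
      (1 - PowerSeries.C (↑(LU ^ (-a)) : Mot) * PowerSeries.X) = 1 := by
    ext k
    rw [mul_sub, mul_one, map_sub, ← mul_assoc, PowerSeries.coeff_one]
    cases k with
    | zero => simp
    | succ k =>
      rw [PowerSeries.coeff_succ_mul_X, PowerSeries.coeff_mul_C, PowerSeries.coeff_mk,
        PowerSeries.coeff_mk, pow_succ, sub_self, if_neg (Nat.succ_ne_zero k)]
  refine ⟨_, Algebra.subset_adjoin (Or.inr ⟨a, 1, one_pos, ?_, ?_⟩), h1⟩
  · rwa [Nat.cast_one, div_one]
  · rw [pow_one]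
    exact h1

/-- If `Z_h(L u)` with `(1 - u)^2 Z_h(L u) = P + (L^{-1} - u) (1 - L^{-1} u) Z_f(u)` is regular at
`s₀ ≠ 1, -1` then so is `Z_f`. -/
theorem mem_regularAt_of_stab {Z A P : PowerSeries Mot} {s₀ : ℚ} (h1 : s₀ ≠ -1) (h2 : s₀ ≠ 1)
    (hP : P ∈ regularAt s₀) (hA : A ∈ regularAt s₀)
    (h : (1 - PowerSeries.X) ^ 2 * A = P +
      (PowerSeries.C ((LU⁻¹ : Motˣ) : Mot) - PowerSeries.X) *
        (1 - PowerSeries.C ((LU⁻¹ : Motˣ) : Mot) * PowerSeries.X) * Z) : Z ∈ regularAt s₀ := by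
  obtain ⟨g1, hg1, e1⟩ := exists_geo (s₀ := s₀) 1 (by
    intro h
    apply h1
    push_cast at h
    linarith)
  obtain ⟨g2, hg2, e2⟩ := exists_geo (s₀ := s₀) (-1) (by
    intro h
    apply h2
    push_cast at h
    linarith)
  rw [zpow_neg, zpow_one] at e1
  rw [neg_neg, zpow_one] at e2
  have e3 : PowerSeries.C ((LU : Motˣ) : Mot) * PowerSeries.C ((LU⁻¹ : Motˣ) : Mot) = 1 := by
    rw [← map_mul, Units.mul_inv, map_one]
  have e4 : Z = g1 * g2 * PowerSeries.C ((LU : Motˣ) : Mot) *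
      ((1 - PowerSeries.X) ^ 2 * A - P) := by
    have h3 : (1 - PowerSeries.X) ^ 2 * A - P =
        (PowerSeries.C ((LU⁻¹ : Motˣ) : Mot) - PowerSeries.X) *
        (1 - PowerSeries.C ((LU⁻¹ : Motˣ) : Mot) * PowerSeries.X) * Z := by
      rw [h]
      ring
    rw [h3]
    have h4 : g1 * g2 * PowerSeries.C ((LU : Motˣ) : Mot) *
        ((PowerSeries.C ((LU⁻¹ : Motˣ) : Mot) - PowerSeries.X) *
        (1 - PowerSeries.C ((LU⁻¹ : Motˣ) : Mot) * PowerSeries.X) * Z) =
        (g1 * (1 - PowerSeries.C ((LU⁻¹ : Motˣ) : Mot) * PowerSeries.X)) *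
        (g2 * (PowerSeries.C ((LU : Motˣ) : Mot) * PowerSeries.C ((LU⁻¹ : Motˣ) : Mot) -
          PowerSeries.C ((LU : Motˣ) : Mot) * PowerSeries.X)) * Z := by ring
    rw [h4, e3, e1, e2, one_mul, one_mul]
  rw [e4]
  refine mul_mem (mul_mem (mul_mem hg1 hg2) (C_mem_regularAt s₀ _)) (sub_mem (mul_mem ?_ hA) hP)
  exact pow_mem (sub_mem (one_mem _) (X_mem_regularAt s₀)) 2

theorem isPole_stab {f : MvPolynomial (Fin n) ℂ} {s₀ : ℚ} (h1 : s₀ ≠ -1) (h2 : s₀ ≠ 1)
    (hp : IsPole (Zmot f) s₀) : IsPole (Zmot (stab f)) (s₀ - 1) := by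
  intro hreg
  apply hp
  have hA := rescale_mem_regularAt hreg
  set l : Mot := ((LU⁻¹ : Motˣ) : Mot) with hl
  have hAeq : PowerSeries.rescale (LU : Mot) (Zmot (stab f)) =
      PowerSeries.C ((1 - l) ^ 2) * (serI + serO - Zmot f * serI) +
        PowerSeries.C l * Zmot f := by
    ext m
    rw [PowerSeries.coeff_rescale, map_add, PowerSeries.coeff_C_mul, PowerSeries.coeff_C_mul,
      map_sub, map_add, coeff_serI_mul]
    unfold Zmot serI serO
    simp only [PowerSeries.coeff_mk]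
    rw [Zcoeff_stab, ← mul_assoc, ← mul_pow, Units.mul_inv, one_pow, one_mul]
    push_cast
    ring
  refine mem_regularAt_of_stab h1 h2 (P := PowerSeries.C ((1 - l) ^ 2))
    (C_mem_regularAt s₀ _) hA ?_
  rw [hAeq]
  have e1 := serI_mul
  have e2 := serO_mul
  rw [← hl, map_pow, map_sub, map_one]
  linear_combination ((1 - PowerSeries.C l) ^ 2 * (1 - Zmot f)) * e1 +
    ((1 - PowerSeries.C l) ^ 2 * (1 - PowerSeries.X)) * e2

theorem isPole0_stab {f : MvPolynomial (Fin n) ℂ} (h0 : coeff 0 f = 0) {s₀ : ℚ} (h1 : s₀ ≠ -1)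
    (h2 : s₀ ≠ 1) (hp : IsPole (Zmot0 f) s₀) : IsPole (Zmot0 (stab f)) (s₀ - 1) := by
  intro hreg
  apply hp
  have hA := rescale_mem_regularAt hreg
  set l : Mot := ((LU⁻¹ : Motˣ) : Mot) with hl
  have hAeq : PowerSeries.rescale (LU : Mot) (Zmot0 (stab f)) =
      PowerSeries.C ((1 - l) ^ 2) * (PowerSeries.C (l ^ n) * (PowerSeries.X * serI) -
        Zmot0 f * serI) + PowerSeries.C l * Zmot0 f := by
    ext m
    rw [PowerSeries.coeff_rescale, map_add, PowerSeries.coeff_C_mul, PowerSeries.coeff_C_mul,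
      map_sub, PowerSeries.coeff_C_mul, coeff_serI_mul (Zmot0 f)]
    have h3 : PowerSeries.coeff m (PowerSeries.X * serI) = ((m - 1 : ℕ) : Mot) := by
      unfold serI
      cases m with
      | zero => simp
      | succ m => rw [PowerSeries.coeff_succ_X_mul, PowerSeries.coeff_mk, Nat.add_sub_cancel]
    rw [h3]
    unfold Zmot0
    simp only [PowerSeries.coeff_mk]
    rw [Zcoeff0_stab f h0, ← mul_assoc, ← mul_pow, Units.mul_inv, one_pow, one_mul]
  refine mem_regularAt_of_stab h1 h2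
    (P := PowerSeries.C ((1 - l) ^ 2) * PowerSeries.C (l ^ n) * PowerSeries.X ^ 2)
    (mul_mem (mul_mem (C_mem_regularAt s₀ _) (C_mem_regularAt s₀ _))
      (pow_mem (X_mem_regularAt s₀) 2)) hA ?_
  rw [hAeq]
  have e1 := serI_mul
  rw [← hl, map_pow PowerSeries.C (1 - l), map_sub, map_one]
  linear_combination ((1 - PowerSeries.C l) ^ 2 * (PowerSeries.C (l ^ n) * PowerSeries.X -
    Zmot0 f)) * e1

end MPb07157
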