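import Pool.Agent.Lib.MP_b07157_agE.EMain
import Pool.Agent.Lib.MP_b07157_agS.SP
import Pool.Agent.Lib.MP_b07157_agS.SB
import Pool.Agent.Lib.MP_b07157_agS.SE

/-!
# The strong monodromy conjecture for polynomials which are non-degenerate after adding a
non-degenerate quadratic form in new variables and a change of coordinates
-/

noncomputable section

namespace MPb07157

open MvPolynomial

variable {n : ℕ}

/-- All formal Bernstein–Sato polynomials vanish at the negative poles of `Z_{f,0}`. -/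
def SmcLoc (f : MvPolynomial (Fin n) ℂ) : Prop :=
  ∀ s₀ : ℚ, s₀ < 0 → IsPole (Zmot0 f) s₀ → ∀ b : Polynomial ℂ,
    InDnForm f 1 (b.map (MvPowerSeries.C (σ := Fin n) (R := ℂ))) → b.eval (s₀ : ℂ) = 0

/-- All Bernstein–Sato polynomials vanish at the negative poles of `Z_f`. -/
def SmcGlob (f : MvPolynomial (Fin n) ℂ) : Prop :=
  ∀ s₀ : ℚ, s₀ < 0 → IsPole (Zmot f) s₀ → IsBernsteinSatoRoot f s₀

theorem coeff_zero_stab {f : MvPolynomial (Fin n) ℂ} (h0 : coeff 0 f = 0) :
    coeff 0 (stab f) = 0 := by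
  rw [← constantCoeff_eq] at h0 ⊢
  unfold stab
  rw [map_add, map_mul, constantCoeff_X, zero_mul, add_zero, constantCoeff_rename, h0]

theorem SmcLoc.of_stab {f : MvPolynomial (Fin n) ℂ} (hf : f ≠ 0) (h0 : coeff 0 f = 0)
    (h : SmcLoc (stab f)) : SmcLoc f := by
  intro s₀ hs hp b hb
  have h0' : (0 : Fin n →₀ ℕ) ∉ f.support := by rwa [notMem_support_iff]
  by_cases h1 : s₀ = -1
  · subst h1
    exact neg_one_root hf h0' b hb
  obtain ⟨b', rfl, hb'⟩ := form_stab hf h0 hb
  have h2 := h (s₀ - 1) (by linarith) (isPole0_stab h0 h1 (by linarith) hp) _ hb'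
  rw [Polynomial.eval_mul, Polynomial.eval_comp] at h2
  simp only [Polynomial.eval_add, Polynomial.eval_X, Polynomial.eval_one] at h2
  push_cast at h2
  rw [sub_add_cancel] at h2
  have h3 : (s₀ : ℂ) ≠ 0 := by exact_mod_cast hs.ne
  rw [Polynomial.eval_mul, (mul_eq_zero.1 h2).resolve_left h3, mul_zero]

theorem SmcGlob.of_stab {f : MvPolynomial (Fin n) ℂ} (hf : f ≠ 0) (h0 : coeff 0 f = 0)
    (h : SmcGlob (stab f)) : SmcGlob f := by
  intro s₀ hs hp b hb
  have h0' : (0 : Fin n →₀ ℕ) ∉ f.support := by rwa [notMem_support_iff]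
  by_cases h1 : s₀ = -1
  · subst h1
    exact (roots_of_form (f := f) (s₀ := -1) fun b hb => neg_one_root hf h0' b hb).1 b hb
  obtain ⟨b', rfl, hb'⟩ := isBernsteinSato_stab hf h0 hb
  have h2 := h (s₀ - 1) (by linarith) (isPole_stab h1 (by linarith) hp) _ hb'
  rw [Polynomial.eval_mul, Polynomial.eval_comp] at h2
  simp only [Polynomial.eval_add, Polynomial.eval_X, Polynomial.eval_one] at h2
  push_cast at h2
  rw [sub_add_cancel] at h2
  have h3 : (s₀ : ℂ) ≠ 0 := by exact_mod_cast hs.ne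
  rw [Polynomial.eval_mul, (mul_eq_zero.1 h2).resolve_left h3, mul_zero]

theorem stabs_ne_zero {f : MvPolynomial (Fin n) ℂ} (hf : f ≠ 0) (r : ℕ) : stabs f r ≠ 0 := by
  cases r with
  | zero => exact hf
  | succ r => exact stab_ne_zero _

theorem coeff_zero_stabs {f : MvPolynomial (Fin n) ℂ} (h0 : coeff 0 f = 0) (r : ℕ) :
    coeff 0 (stabs f r) = 0 := by
  induction r with
  | zero => exact h0
  | succ r ih => exact coeff_zero_stab ih

theorem SmcLoc.of_stabs {f : MvPolynomial (Fin n) ℂ} (hf : f ≠ 0) (h0 : coeff 0 f = 0) (r : ℕ)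
    (h : SmcLoc (stabs f r)) : SmcLoc f := by
  induction r with
  | zero => exact h
  | succ r ih => exact ih (SmcLoc.of_stab (stabs_ne_zero hf r) (coeff_zero_stabs h0 r) h)

theorem SmcGlob.of_stabs {f : MvPolynomial (Fin n) ℂ} (hf : f ≠ 0) (h0 : coeff 0 f = 0) (r : ℕ)
    (h : SmcGlob (stabs f r)) : SmcGlob f := by
  induction r with
  | zero => exact h
  | succ r ih => exact ih (SmcGlob.of_stab (stabs_ne_zero hf r) (coeff_zero_stabs h0 r) h)

theorem SmcLoc.of_formEquivPow {f g : MvPolynomial (Fin n) ℂ} {m : ℕ} (hm : 0 < m)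
    (h : FormEquivPow f g m) (hg : SmcLoc g) : SmcLoc f := by
  intro s₀ hs hp b hb
  have hm0 : (0 : ℚ) < m := by exact_mod_cast hm
  have h1 := hg (m * s₀) (by nlinarith) (isPole_of_formEquivPow hm h hp) _
    (form_of_formEquivPow hm h hb)
  have hm' : (m : ℂ) ≠ 0 := by exact_mod_cast hm.ne'
  rw [Polynomial.eval_comp] at h1
  simp only [Polynomial.eval_mul, Polynomial.eval_C, Polynomial.eval_X] at h1
  push_cast at h1
  rw [inv_mul_cancel_left₀ hm'] at h1
  exact h1

theorem SmcGlob.of_polyEquivPow {f g : MvPolynomial (Fin n) ℂ} {m : ℕ} (hm : 0 < m)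
    (h : PolyEquivPow f g m) (hg : SmcGlob g) : SmcGlob f := by
  intro s₀ hs hp b hb
  have hm0 : (0 : ℚ) < m := by exact_mod_cast hm
  have h1 := hg (m * s₀) (by nlinarith) (isPole_of_polyEquivPow hm h hp) _
    (isBernsteinSato_of_polyEquivPow hm h hb)
  have hm' : (m : ℂ) ≠ 0 := by exact_mod_cast hm.ne'
  rw [Polynomial.eval_comp] at h1
  simp only [Polynomial.eval_mul, Polynomial.eval_C, Polynomial.eval_X] at h1
  push_cast at h1
  rw [inv_mul_cancel_left₀ hm'] at h1
  exact h1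

/-- The germ of `f` at the origin is stably non-degenerate: after adding a sum
`x_{n+1} x_{n+2} + ⋯ + x_{n+2r-1} x_{n+2r}` in new variables it is, up to a unit and a formal change
of coordinates, a power of a polynomial which is non-degenerate on the compact faces of its Newton
polyhedron. -/
def StablyNondeg (f : MvPolynomial (Fin n) ℂ) : Prop :=
  ∃ (r m : ℕ) (H : MvPolynomial (Fin (n + 2 * r)) ℂ), 0 < m ∧ FormEquivPow (stabs f r) H m ∧
    ∀ w : Fin (n + 2 * r) → ℕ, (∀ j, 0 < w j) → IsNondeg (initialPart H w)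

theorem SmcLoc.of_stablyNondeg {f : MvPolynomial (Fin n) ℂ} (hf : f ≠ 0) (h0 : coeff 0 f = 0)
    (h : StablyNondeg f) : SmcLoc f := by
  obtain ⟨r, m, H, hm, hH, hnd⟩ := h
  have h1 : SmcLoc H := fun s₀ _ hp b hb => eval_eq_zero_of_form
    (ne_zero_of_formEquivPow hm hH (stabs_ne_zero hf r))
    (coeff_zero_eq_zero_of_formEquivPow hm hH (coeff_zero_stabs h0 r)) hnd s₀ hp b hb
  exact SmcLoc.of_stabs hf h0 r (SmcLoc.of_formEquivPow hm hH h1)

/-- **The strong monodromy conjecture, local version**, for stably non-degenerate germs. -/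
theorem smc_local_stable {f : MvPolynomial (Fin n) ℂ} (hf : f ≠ 0) (h0 : coeff 0 f = 0)
    (h : StablyNondeg f) (s₀ : ℚ) (hs : s₀ < 0) (hp : IsPole (Zmot0 f) s₀) :
    IsLocalBernsteinSatoRoot f s₀ :=
  (roots_of_form fun b hb => SmcLoc.of_stablyNondeg hf h0 h s₀ hs hp b hb).2

/-- **The strong monodromy conjecture, global version**: polynomials which, after adding a sum
`x_{n+1} x_{n+2} + ⋯ + x_{n+2r-1} x_{n+2r}` in new variables and a polynomial automorphism, are
powers of polynomials which are non-degenerate on all faces. -/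
theorem smc_global_stable {f : MvPolynomial (Fin n) ℂ} (hf : f ≠ 0) (h0 : coeff 0 f = 0)
    (r m : ℕ) (hm : 0 < m) (H : MvPolynomial (Fin (n + 2 * r)) ℂ) (hH0 : coeff 0 H = 0)
    (hH : PolyEquivPow (stabs f r) H m)
    (hnd : ∀ w : Fin (n + 2 * r) → ℕ, IsNondeg (initialPart H w))
    (hnd' : ∀ (w : Fin (n + 2 * r) → ℕ) (ω : Fin (n + 2 * r) → ℤ),
      (∀ v ∈ H.support, 0 < ∑ j, w j * v j) → IsNondeg (initialPartZ (initialPart H w) ω))
    (s₀ : ℚ) (hs : s₀ < 0) (hp : IsPole (Zmot f) s₀) : IsBernsteinSatoRoot f s₀ := by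
  have hH' : H ≠ 0 := by
    rintro rfl
    obtain ⟨e, c, hc, h⟩ := hH
    apply stabs_ne_zero hf r
    rw [h, map_zero, zero_pow hm.ne', mul_zero]
  have h1 : SmcGlob H := fun s₀ _ hp => smc_initialPart hH' hH0 hnd hnd' s₀ hp
  exact SmcGlob.of_stabs hf h0 r (SmcGlob.of_polyEquivPow hm hH h1) s₀ hs hp

/-- **The strong monodromy conjecture, global version**, for hypersurfaces with isolated
singularities each of which is stably non-degenerate. -/
theorem smc_isolated_stable {f : MvPolynomial (Fin n) ℂ} (hf : f ≠ 0) (h0 : coeff 0 f = 0)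
    (hfin : {p : Fin n → ℂ | eval p f = 0 ∧ ∀ j, eval p (pderiv j f) = 0}.Finite)
    (hnd : ∀ p : Fin n → ℂ, eval p f = 0 → (∀ j, eval p (pderiv j f) = 0) →
      StablyNondeg (translate p f))
    (s₀ : ℚ) (hs : s₀ < 0) (hp : IsPole (Zmot f) s₀) : IsBernsteinSatoRoot f s₀ := by
  have h0' : (0 : Fin n →₀ ℕ) ∉ f.support := by rwa [notMem_support_iff]
  by_cases h1 : s₀ = -1
  · subst h1
    exact (roots_of_form (f := f) (s₀ := -1) fun b hb => neg_one_root hf h0' b hb).1
  obtain ⟨p, ⟨hp1, hp2⟩, hp3⟩ := exists_pole_of_isolated hf hfin h1 hp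
  intro b hb
  exact SmcLoc.of_stablyNondeg (translate_ne_zero hf p) (coeff_zero_translate hp1)
    (hnd p hp1 hp2) s₀ hs hp3 b (form_translate p hb)

end MPb07157
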