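import Pool.Agent.Lib.MP_b07157_agE.EB
import Pool.Agent.Lib.MP_b07157_agS.SMain

/-!
# A dummy variable

`f(x_1, …, x_n)` seen as a polynomial in `n + 1` variables `x_0, x_1, …, x_n`.
-/

noncomputable section

namespace MPb07157

open MvPolynomial

variable {n : ℕ}

/-- `f(x_1, …, x_n)` as a polynomial in `x_0, x_1, …, x_n`. -/
def dum (f : MvPolynomial (Fin n) ℂ) : MvPolynomial (Fin (n + 1)) ℂ := rename Fin.succ f

namespace CubD

/-! ### Zeta functions -/

/-- The coordinates `x_1, …, x_n` of a jet. -/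
def gD {N : ℕ} (x : Fin (n + 1) × Fin N → ℂ) : Fin n × Fin N → ℂ := fun p => x (p.1.succ, p.2)

/-- The coordinate `x_0` of a jet. -/
def hD {N : ℕ} (x : Fin (n + 1) × Fin N → ℂ) : Fin N → ℂ := fun j => x (0, j)

theorem aeval_dum {N : ℕ} (f : MvPolynomial (Fin n) ℂ) (x : Fin (n + 1) × Fin N → ℂ) :
    (aeval (arc x) (dum f) : PowerSeries ℂ) = aeval (arc (gD x)) f := by
  unfold dum
  rw [aeval_rename]
  rfl

/-- The numbering of the coordinates. -/
def eDf (n N : ℕ) : (Fin n × Fin N) ⊕ Fin N → Fin (n + 1) × Fin N :=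
  Sum.elim (fun p => (p.1.succ, p.2)) (fun j => (0, j))

theorem eDf_bijective (n N : ℕ) : Function.Bijective (eDf n N) := by
  constructor
  · rintro (⟨i, j⟩ | j) (⟨i', j'⟩ | j') h
    · simp only [eDf, Sum.elim_inl, Prod.mk.injEq, Fin.succ_inj] at h
      rw [h.1, h.2]
    · simp only [eDf, Sum.elim_inl, Sum.elim_inr, Prod.mk.injEq] at h
      exact absurd h.1 (Fin.succ_ne_zero i)
    · simp only [eDf, Sum.elim_inl, Sum.elim_inr, Prod.mk.injEq] at h
      exact absurd h.1.symm (Fin.succ_ne_zero i')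
    · simp only [eDf, Sum.elim_inr, Prod.mk.injEq, true_and] at h
      rw [h]
  · rintro ⟨i, j⟩
    refine Fin.cases ⟨Sum.inr j, rfl⟩ (fun i => ⟨Sum.inl (i, j), rfl⟩) i

/-- The numbering of the coordinates. -/
def eD (n N : ℕ) : (Fin n × Fin N) ⊕ Fin N ≃ Fin (n + 1) × Fin N :=
  Equiv.ofBijective _ (eDf_bijective n N)

theorem clsD {N : ℕ} {A : Set (Fin n × Fin N → ℂ)} {B : Set (Fin N → ℂ)} (hA : IsConstr A)
    (hB : IsConstr B) :
    cls {x : Fin (n + 1) × Fin N → ℂ | gD x ∈ A ∧ hD x ∈ B} = cls A * cls B := by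
  rw [← cls_prodSum hA hB, ← cls_equiv (eD n N) (isConstr_prodSum hA hB)]
  congr 1

theorem arcs_dum (f : MvPolynomial (Fin n) ℂ) (ε N m : ℕ) :
    arcs (dum f) N m ∩ Start (n + 1) ε N =
      {x : Fin (n + 1) × Fin N → ℂ | gD x ∈ arcs f N m ∩ Start n ε N ∧ hD x ∈ SZ.staS N ε} := by
  ext x
  simp only [Set.mem_inter_iff, Set.mem_ofPred_eq, arcs, aeval_dum, Start, SZ.mem_staS]
  constructor
  · rintro ⟨h1, h2⟩
    exact ⟨⟨h1, fun j k hk => h2 j.succ k hk⟩, fun k hk => h2 0 k hk⟩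
  · rintro ⟨⟨h1, h2⟩, h3⟩
    exact ⟨h1, fun j k hk => Fin.cases (h3 k hk) (fun j => h2 j k hk) j⟩

theorem muE_dum (f : MvPolynomial (Fin n) ℂ) {ε N : ℕ} (m : ℕ) (hε : ε ≤ N) :
    muE (dum f) ε N m = ((LU⁻¹ : Motˣ) : Mot) ^ ε * muE f ε N m := by
  unfold muE clsM
  rw [arcs_dum, clsD ((isConstr_arcs f N m).inter (isConstr_Start n ε N)) (SZ.isConstr_staS N ε),
    SZ.cls_staS hε, map_mul, map_pow]
  have h1 : algebraMap K0 Mot L = (LU : Mot) := rfl
  have h2 : ((LU⁻¹ : Motˣ) : Mot) ^ N * (LU : Mot) ^ (N - ε) = ((LU⁻¹ : Motˣ) : Mot) ^ ε := by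
    conv_lhs => rw [← Nat.sub_add_cancel hε, pow_add, Nat.add_sub_cancel]
    rw [mul_right_comm, ← mul_pow, Units.inv_mul, one_pow, one_mul]
  have h3 : (↑((LU ^ ((n + 1) * N))⁻¹) : Mot) =
      ↑((LU ^ (n * N))⁻¹) * ((LU⁻¹ : Motˣ) : Mot) ^ N := by
    rw [← Units.val_pow_eq_pow_val, ← Units.val_mul, add_mul, one_mul, pow_add, mul_inv, inv_pow]
  rw [h1, h3, ← h2]
  ring

end CubD

theorem Zmot_dum (f : MvPolynomial (Fin n) ℂ) : Zmot (dum f) = Zmot f := by
  rw [Zmot_eq, Zmot_eq]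
  ext k
  unfold ZE
  rw [PowerSeries.coeff_mk, PowerSeries.coeff_mk, CubD.muE_dum f k (by omega), pow_zero, one_mul]

theorem Zmot0_dum (f : MvPolynomial (Fin n) ℂ) :
    Zmot0 (dum f) = PowerSeries.C ((LU⁻¹ : Motˣ) : Mot) * Zmot0 f := by
  rw [Zmot0_eq, Zmot0_eq]
  ext k
  unfold ZE
  rw [PowerSeries.coeff_C_mul, PowerSeries.coeff_mk, PowerSeries.coeff_mk,
    CubD.muE_dum f k (by omega), pow_one]

theorem isPole_dum {f : MvPolynomial (Fin n) ℂ} {s₀ : ℚ} (hp : IsPole (Zmot f) s₀) :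
    IsPole (Zmot (dum f)) s₀ := by
  rwa [Zmot_dum]

theorem isPole0_dum {f : MvPolynomial (Fin n) ℂ} {s₀ : ℚ} (hp : IsPole (Zmot0 f) s₀) :
    IsPole (Zmot0 (dum f)) s₀ := by
  intro h
  apply hp
  rw [Zmot0_dum] at h
  have h1 := mul_mem (C_mem_regularAt s₀ ((LU : Motˣ) : Mot)) h
  rwa [← mul_assoc, ← map_mul, Units.mul_inv, map_one, one_mul] at h1

/-! ### Formal Bernstein–Sato polynomials -/

namespace CubD

theorem pderiv_rename_emb' {m : ℕ} (e : Fin n ↪ Fin m) (i : Fin n) (p : MvPowerSeries (Fin n) ℂ) :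
    MvPowerSeries.pderiv ℂ (e i) (MvPowerSeries.rename e p) =
      MvPowerSeries.rename e (MvPowerSeries.pderiv ℂ i p) := by
  ext x
  rw [MvPowerSeries.coeff_pderiv]
  by_cases hx : x ∈ Set.range (Finsupp.embDomain e)
  · obtain ⟨y, rfl⟩ := hx
    rw [MvPowerSeries.coeff_embDomain_rename, MvPowerSeries.coeff_pderiv,
      Finsupp.embDomain_apply_self, ← Finsupp.embDomain_single, ← Finsupp.embDomain_add,
      MvPowerSeries.coeff_embDomain_rename]
  · have h1 : x ∉ Set.range (Finsupp.mapDomain e) := by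
      rintro ⟨y, hy⟩
      exact hx ⟨y, by rw [Finsupp.embDomain_eq_mapDomain]; exact hy⟩
    rw [MvPowerSeries.coeff_rename_eq_zero _ _ h1, MvPowerSeries.coeff_rename_eq_zero, zero_mul]
    rintro ⟨y, hy⟩
    apply h1
    refine ⟨y - Finsupp.single i 1, ?_⟩
    rw [← Finsupp.embDomain_eq_mapDomain] at hy ⊢
    ext j
    have hj := DFunLike.congr_fun hy j
    by_cases hj' : j ∈ Set.range e
    · obtain ⟨k, rfl⟩ := hj'
      rw [Finsupp.embDomain_apply_self] at hj ⊢
      by_cases hk : k = i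
      · subst hk
        simp only [Finsupp.coe_add, Pi.add_apply, Finsupp.single_eq_same] at hj
        simp only [Finsupp.coe_tsub, Pi.sub_apply, Finsupp.single_eq_same]
        omega
      · have hk' : e k ≠ e i := fun h => hk (e.injective h)
        simp only [Finsupp.coe_add, Pi.add_apply, Finsupp.single_eq_of_ne hk'] at hj
        simp only [Finsupp.coe_tsub, Pi.sub_apply, Finsupp.single_eq_of_ne hk]
        omega
    · rw [Finsupp.embDomain_of_notMem_range _ _ _ hj'] at hj ⊢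
      simp only [Finsupp.coe_add, Pi.add_apply] at hj
      omega

/-- The inclusion `ℂ[[x_1, …, x_n]] → ℂ[[x_0, …, x_n]]`. -/
def ren (n : ℕ) : MvPowerSeries (Fin n) ℂ →ₐ[ℂ] MvPowerSeries (Fin (n + 1)) ℂ :=
  MvPowerSeries.rename (R := ℂ) (Fin.succEmb n : Fin n ↪ Fin (n + 1))

theorem pderiv_ren (i : Fin n) (p : MvPowerSeries (Fin n) ℂ) :
    MvPowerSeries.pderiv ℂ i.succ (ren n p) = ren n (MvPowerSeries.pderiv ℂ i p) :=
  pderiv_rename_emb' (Fin.succEmb n) i p

theorem ren_coe (f : MvPolynomial (Fin n) ℂ) :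
    ren n (f : MvPowerSeries (Fin n) ℂ) = (dum f : MvPowerSeries (Fin (n + 1)) ℂ) := by
  unfold ren dum
  rw [MvPowerSeries.rename_coe]
  rfl

theorem derivC_map_ren (i : Fin n) (g : Polynomial (MvPowerSeries (Fin n) ℂ)) :
    derivC i.succ (g.map (ren n : MvPowerSeries (Fin n) ℂ →+* MvPowerSeries (Fin (n + 1)) ℂ)) =
      (derivC i g).map (ren n : MvPowerSeries (Fin n) ℂ →+* MvPowerSeries (Fin (n + 1)) ℂ) := by
  ext1 j
  rw [coeff_derivC, Polynomial.coeff_map, Polynomial.coeff_map, coeff_derivC]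
  exact pderiv_ren i _

theorem inPs_ren {F : MvPowerSeries (Fin n) ℂ} {k : ℕ} {g : Polynomial (MvPowerSeries (Fin n) ℂ)}
    (h : InPs F k g) : InPs (ren n F) k
      (g.map (ren n : MvPowerSeries (Fin n) ℂ →+* MvPowerSeries (Fin (n + 1)) ℂ)) := by
  induction h with
  | base => rw [Polynomial.map_one]; exact InPs.base
  | add _ _ ih1 ih2 => rw [Polynomial.map_add]; exact ih1.add ih2
  | mul c _ ih => rw [Polynomial.map_mul]; exact ih.mul _
  | deriv i _ ih =>
    refine (ih.deriv i.succ).of_eq rfl ?_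
    rw [derivC_map_ren, pderiv_ren]
    simp
  | raise _ ih => rw [Polynomial.map_mul, Polynomial.map_C]; exact ih.raise
  | lower _ ih => rw [Polynomial.map_mul, Polynomial.map_C] at ih; exact ih.lower

theorem map_C_ren (b : Polynomial ℂ) : (b.map (MvPowerSeries.C (σ := Fin n) (R := ℂ))).map
    (ren n : MvPowerSeries (Fin n) ℂ →+* MvPowerSeries (Fin (n + 1)) ℂ) =
      b.map (MvPowerSeries.C (σ := Fin (n + 1)) (R := ℂ)) := by
  rw [Polynomial.map_map]
  congr 1
  apply RingHom.ext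
  intro a
  exact (ren n).commutes a

end CubD

theorem form_dum {f : MvPolynomial (Fin n) ℂ} {k : ℕ} {b : Polynomial ℂ}
    (h : InDnForm f k (b.map (MvPowerSeries.C (σ := Fin n) (R := ℂ)))) :
    InDnForm (dum f) k (b.map (MvPowerSeries.C (σ := Fin (n + 1)) (R := ℂ))) := by
  have h1 := CubD.inPs_ren (inPs_of_form h)
  rw [CubD.map_C_ren, CubD.ren_coe] at h1
  exact form_of_inPs h1

/-- A dummy variable does not matter for the local conjecture. -/
theorem SmcLoc.of_dum {f : MvPolynomial (Fin n) ℂ} (h : SmcLoc (dum f)) : SmcLoc f :=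
  fun s₀ hs hp b hb => h s₀ hs (isPole0_dum hp) b (form_dum hb)

/-! ### Global Bernstein–Sato polynomials -/

theorem inDn_dum {f : MvPolynomial (Fin n) ℂ} {k : ℕ} {g : MvPolynomial (Fin n) (Polynomial ℂ)}
    (h : InDn f k g) : InDn (dum f) k (rename Fin.succ g) := by
  have hl : ∀ p : MvPolynomial (Fin n) ℂ, rename Fin.succ (liftS p) = liftS (dum p) := by
    intro p
    unfold liftS dum
    rw [map_rename]
  have hd : ∀ (i : Fin n) (p : MvPolynomial (Fin n) ℂ),
      dum (pderiv i p) = pderiv i.succ (dum p) := by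
    intro i p
    unfold dum
    rw [pderiv_rename (Fin.succ_injective n)]
  induction h with
  | base => rw [map_one]; exact InDn.base
  | add _ _ ih1 ih2 => rw [map_add]; exact ih1.add ih2
  | mul c _ ih => rw [map_mul]; exact InDn.mul _ ih
  | deriv i _ ih =>
    have h1 := InDn.deriv i.succ ih
    rw [map_add, map_mul, map_mul, map_mul, hl, hl, rename_C, hd,
      ← pderiv_rename (Fin.succ_injective n)]
    exact h1
  | raise _ ih => rw [map_mul, hl]; exact InDn.raise ih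
  | lower _ ih => rw [map_mul, hl] at ih; exact InDn.lower ih

theorem isBernsteinSato_dum {f : MvPolynomial (Fin n) ℂ} {b : Polynomial ℂ}
    (h : IsBernsteinSato f b) : IsBernsteinSato (dum f) b := by
  have h1 := inDn_dum h
  rw [rename_C] at h1
  exact h1

/-- A dummy variable does not matter for the global conjecture. -/
theorem SmcGlob.of_dum {f : MvPolynomial (Fin n) ℂ} (h : SmcGlob (dum f)) : SmcGlob f :=
  fun s₀ hs hp b hb => h s₀ hs (isPole_dum hp) b (isBernsteinSato_dum hb)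

end MPb07157
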