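import Pool.Agent.Lib.MP_b07157_agS.Cub
import Pool.Agent.Lib.MP_b07157_agS.CubD

/-!
# Reduction of the strong monodromy conjecture to cubic forms, local version
-/

noncomputable section

namespace MPb07157

open MvPolynomial

variable {n : ℕ}

namespace Cub

/-! ### Formal automorphisms -/

/-- The automorphism of the ring of power series given by two substitutions inverse to each
other. -/
def psEquiv (a b : Fin n → MvPowerSeries (Fin n) ℂ)
    (ha : ∀ i, MvPowerSeries.constantCoeff (a i) = 0)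
    (hb : ∀ i, MvPowerSeries.constantCoeff (b i) = 0)
    (hab : ∀ i, MvPowerSeries.subst a (b i) = (MvPowerSeries.X i : MvPowerSeries (Fin n) ℂ))
    (hba : ∀ i, MvPowerSeries.subst b (a i) = (MvPowerSeries.X i : MvPowerSeries (Fin n) ℂ)) :
    MvPowerSeries (Fin n) ℂ ≃ₐ[ℂ] MvPowerSeries (Fin n) ℂ :=
  AlgEquiv.ofAlgHom (MvPowerSeries.substAlgHom (MvPowerSeries.hasSubst_of_constantCoeff_zero ha))
    (MvPowerSeries.substAlgHom (MvPowerSeries.hasSubst_of_constantCoeff_zero hb))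
    (by
      apply AlgHom.ext
      intro f
      rw [AlgHom.comp_apply, MvPowerSeries.substAlgHom_apply, MvPowerSeries.substAlgHom_apply,
        MvPowerSeries.subst_comp_subst_apply (MvPowerSeries.hasSubst_of_constantCoeff_zero hb)
          (MvPowerSeries.hasSubst_of_constantCoeff_zero ha), AlgHom.id_apply, funext hab,
        MvPowerSeries.subst_self]
      rfl)
    (by
      apply AlgHom.ext
      intro f
      rw [AlgHom.comp_apply, MvPowerSeries.substAlgHom_apply, MvPowerSeries.substAlgHom_apply,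
        MvPowerSeries.subst_comp_subst_apply (MvPowerSeries.hasSubst_of_constantCoeff_zero ha)
          (MvPowerSeries.hasSubst_of_constantCoeff_zero hb), AlgHom.id_apply, funext hba,
        MvPowerSeries.subst_self]
      rfl)

theorem psEquiv_coe (a b : Fin n → MvPowerSeries (Fin n) ℂ)
    (ha : ∀ i, MvPowerSeries.constantCoeff (a i) = 0)
    (hb : ∀ i, MvPowerSeries.constantCoeff (b i) = 0)
    (hab : ∀ i, MvPowerSeries.subst a (b i) = (MvPowerSeries.X i : MvPowerSeries (Fin n) ℂ))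
    (hba : ∀ i, MvPowerSeries.subst b (a i) = (MvPowerSeries.X i : MvPowerSeries (Fin n) ℂ))
    (p : MvPolynomial (Fin n) ℂ) :
    psEquiv a b ha hb hab hba (p : MvPowerSeries (Fin n) ℂ) = aeval a p := by
  show MvPowerSeries.substAlgHom (MvPowerSeries.hasSubst_of_constantCoeff_zero ha)
    (p : MvPowerSeries (Fin n) ℂ) = _
  rw [MvPowerSeries.substAlgHom_coe]

theorem aeval_coe (q : Fin n → MvPolynomial (Fin n) ℂ) (p : MvPolynomial (Fin n) ℂ) :
    (aeval (fun i => (q i : MvPowerSeries (Fin n) ℂ)) p : MvPowerSeries (Fin n) ℂ) =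
      ((aeval q p : MvPolynomial (Fin n) ℂ) : MvPowerSeries (Fin n) ℂ) := by
  have h : (aeval (fun i => (q i : MvPowerSeries (Fin n) ℂ)) :
      MvPolynomial (Fin n) ℂ →ₐ[ℂ] MvPowerSeries (Fin n) ℂ) =
      (MvPolynomial.coeToMvPowerSeries.algHom ℂ).comp (aeval q) := by
    apply MvPolynomial.algHom_ext
    intro i
    rw [AlgHom.comp_apply, aeval_X, aeval_X, MvPolynomial.coeToMvPowerSeries.algHom_apply]
    rfl
  rw [h, AlgHom.comp_apply, MvPolynomial.coeToMvPowerSeries.algHom_apply]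
  rfl

/-- A polynomial automorphism that fixes the origin is a formal change of coordinates. -/
theorem formEquivPow_of_polyEquiv (e : MvPolynomial (Fin n) ℂ ≃ₐ[ℂ] MvPolynomial (Fin n) ℂ)
    (he : ∀ i, constantCoeff (e (X i)) = 0) (he' : ∀ i, constantCoeff (e.symm (X i)) = 0)
    (g : MvPolynomial (Fin n) ℂ) : FormEquivPow (e g) g 1 := by
  have hc : ∀ q : MvPolynomial (Fin n) ℂ, constantCoeff q = 0 →
      MvPowerSeries.constantCoeff (q : MvPowerSeries (Fin n) ℂ) = 0 := by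
    intro q hq
    rw [← MvPowerSeries.coeff_zero_eq_constantCoeff_apply, coeff_coe, ← constantCoeff_eq, hq]
  have hi : ∀ (e : MvPolynomial (Fin n) ℂ ≃ₐ[ℂ] MvPolynomial (Fin n) ℂ) (p : MvPolynomial (Fin n) ℂ),
      aeval (fun i => e (X i)) p = e p := by
    intro e p
    have h : (aeval (fun i => e (X i)) : MvPolynomial (Fin n) ℂ →ₐ[ℂ] MvPolynomial (Fin n) ℂ) =
        (e : MvPolynomial (Fin n) ℂ →ₐ[ℂ] MvPolynomial (Fin n) ℂ) := by
      apply MvPolynomial.algHom_ext
      intro i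
      rw [aeval_X]
      rfl
    rw [h]
    rfl
  refine ⟨psEquiv (fun i => (e (X i) : MvPowerSeries (Fin n) ℂ))
    (fun i => (e.symm (X i) : MvPowerSeries (Fin n) ℂ)) (fun i => hc _ (he i))
    (fun i => hc _ (he' i)) (fun i => ?_) (fun i => ?_), 1, ?_⟩
  · rw [MvPowerSeries.subst_coe, aeval_coe, hi, AlgEquiv.apply_symm_apply, coe_X]
  · rw [MvPowerSeries.subst_coe, aeval_coe, hi, AlgEquiv.symm_apply_apply, coe_X]
  · rw [psEquiv_coe, aeval_coe, hi, pow_one, Units.val_one, one_mul]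

theorem formEquivPow_symm {f g : MvPolynomial (Fin n) ℂ} (h : FormEquivPow f g 1) :
    FormEquivPow g f 1 := by
  obtain ⟨e, u, h⟩ := h
  rw [pow_one] at h
  refine ⟨e.symm, Units.map (e.symm : MvPowerSeries (Fin n) ℂ →* MvPowerSeries (Fin n) ℂ) u⁻¹, ?_⟩
  have h1 : e.symm (f : MvPowerSeries (Fin n) ℂ) =
      e.symm (u : MvPowerSeries (Fin n) ℂ) * (g : MvPowerSeries (Fin n) ℂ) := by
    rw [h, map_mul, AlgEquiv.symm_apply_apply]
  have h2 : ((Units.map (e.symm : MvPowerSeries (Fin n) ℂ →* MvPowerSeries (Fin n) ℂ) u⁻¹ :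
      (MvPowerSeries (Fin n) ℂ)ˣ) : MvPowerSeries (Fin n) ℂ) =
      e.symm ((u⁻¹ : (MvPowerSeries (Fin n) ℂ)ˣ) : MvPowerSeries (Fin n) ℂ) := rfl
  rw [pow_one, h1, h2, ← mul_assoc, ← map_mul, Units.inv_mul, map_one, one_mul]

/-! ### The step -/

theorem formEquivPow_stp {a g f' : MvPolynomial (Fin n) ℂ} (ha : coeff 0 a = 0)
    (hg : coeff 0 g = 0) : FormEquivPow (stab (a * g + f')) (stp a g f') 1 := by
  have key : ∀ a g : MvPolynomial (Fin n) ℂ, coeff 0 a = 0 → coeff 0 g = 0 → ∀ i,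
      constantCoeff (sh a g i) = 0 := by
    intro a g ha hg i
    rw [← constantCoeff_eq] at ha hg
    refine Fin.addCases (fun i => ?_) (fun k => ?_) i
    · rw [sh_castAdd, constantCoeff_X]
    · rw [sh_natAdd, map_add, constantCoeff_X, zero_add]
      split_ifs
      · rw [em, constantCoeff_rename, ha]
      · rw [em, constantCoeff_rename, hg]
  rw [← shear_stp]
  refine formEquivPow_of_polyEquiv (shear (-a) g) (fun i => ?_) (fun i => ?_) _
  · rw [shear_apply, aeval_X]
    exact key _ _ (by rw [coeff_neg, ha, neg_zero]) hg i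
  · show constantCoeff (aeval (sh (- -a) (-g)) (X i)) = 0
    rw [aeval_X]
    exact key _ _ (by rw [neg_neg, ha]) (by rw [coeff_neg, hg, neg_zero]) i

/-- The local strong monodromy conjecture follows from its case of polynomials of degree at
most three. -/
theorem smcLoc_of_cubic
    (h : ∀ (n : ℕ) (f : MvPolynomial (Fin n) ℂ), f ≠ 0 → coeff 0 f = 0 → f.totalDegree ≤ 3 →
      SmcLoc f) :
    ∀ (k n : ℕ) (f : MvPolynomial (Fin n) ℂ), mu f ≤ k → f ≠ 0 → coeff 0 f = 0 → SmcLoc f := by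
  intro k
  induction k with
  | zero =>
    intro n f hk hf h0
    by_cases hd : f.totalDegree ≤ 3
    · exact h n f hf h0 hd
    · obtain ⟨a, g, f', rfl, h1, h2, h3, h4⟩ := exists_step h0 (by omega)
      omega
  | succ k ih =>
    intro n f hk hf h0
    by_cases hd : f.totalDegree ≤ 3
    · exact h n f hf h0 hd
    · obtain ⟨a, g, f', rfl, h1, h2, h3, h4⟩ := exists_step h0 (by omega)
      exact SmcLoc.of_stab hf h0 (SmcLoc.of_formEquivPow one_pos (formEquivPow_stp h2 h3)
        (ih _ _ (by omega) (stp_ne_zero a g f') (coeff_zero_stp h1)))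

/-! ### Homogenisation -/

/-- The cubic form `t^3 H(y/t)`. -/
def hom3 (H : MvPolynomial (Fin n) ℂ) : MvPolynomial (Fin (n + 1)) ℂ :=
  ∑ v ∈ H.support, X 0 ^ (3 - v.degree) * dum (monomial v (coeff v H))

theorem isHomogeneous_hom3 {H : MvPolynomial (Fin n) ℂ} (h : H.totalDegree ≤ 3) :
    (hom3 H).IsHomogeneous 3 := by
  refine IsHomogeneous.sum _ _ _ fun v hv => ?_
  have h1 : v.degree ≤ 3 := (le_totalDegree hv).trans h
  have h2 : (3 - v.degree) + v.degree = 3 := by omega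
  conv => arg 2; rw [← h2]
  refine IsHomogeneous.mul ?_ ?_
  · have h3 := (isHomogeneous_X ℂ (0 : Fin (n + 1))).pow (3 - v.degree)
    rwa [one_mul] at h3
  · unfold dum
    exact (isHomogeneous_monomial _ rfl).rename_isHomogeneous

/-- The point `(1, 0, …, 0)`. -/
def pt (n : ℕ) : Fin (n + 1) → ℂ := Fin.cons 1 (fun _ => 0)

/-- The series `1 + t`. -/
def tt (n : ℕ) : MvPowerSeries (Fin (n + 1)) ℂ := MvPowerSeries.X 0 + 1

theorem constantCoeff_tt (n : ℕ) : MvPowerSeries.constantCoeff (tt n) = 1 := by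
  simp [tt]

/-- `1 + t` as a unit. -/
def tu (n : ℕ) : (MvPowerSeries (Fin (n + 1)) ℂ)ˣ :=
  Units.mk (tt n) (tt n)⁻¹ (MvPowerSeries.mul_inv_cancel _ (by rw [constantCoeff_tt]; exact one_ne_zero))
    (MvPowerSeries.inv_mul_cancel _ (by rw [constantCoeff_tt]; exact one_ne_zero))

theorem tu_val (n : ℕ) : (tu n : MvPowerSeries (Fin (n + 1)) ℂ) = tt n := rfl

/-- The substitution `t ↦ t`, `y_i ↦ y_i v`. -/
def hs (v : MvPowerSeries (Fin (n + 1)) ℂ) : Fin (n + 1) → MvPowerSeries (Fin (n + 1)) ℂ :=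
  Fin.cons (MvPowerSeries.X 0) (fun i => MvPowerSeries.X i.succ * v)

theorem hs_zero (v : MvPowerSeries (Fin (n + 1)) ℂ) : hs v 0 = MvPowerSeries.X 0 := rfl

theorem hs_succ (v : MvPowerSeries (Fin (n + 1)) ℂ) (i : Fin n) :
    hs v i.succ = MvPowerSeries.X i.succ * v := rfl

theorem constantCoeff_hs (v : MvPowerSeries (Fin (n + 1)) ℂ) (i : Fin (n + 1)) :
    MvPowerSeries.constantCoeff (hs v i) = 0 := by
  refine Fin.cases ?_ (fun i => ?_) i
  · rw [hs_zero, MvPowerSeries.constantCoeff_X]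
  · rw [hs_succ, map_mul, MvPowerSeries.constantCoeff_X, zero_mul]

theorem subst_hs_X (v : MvPowerSeries (Fin (n + 1)) ℂ) (i : Fin (n + 1)) :
    MvPowerSeries.subst (hs v) (MvPowerSeries.X i : MvPowerSeries (Fin (n + 1)) ℂ) = hs v i :=
  MvPowerSeries.subst_X (MvPowerSeries.hasSubst_of_constantCoeff_zero (constantCoeff_hs v)) i

theorem subst_hs_tt (v : MvPowerSeries (Fin (n + 1)) ℂ) :
    MvPowerSeries.subst (hs v) (tt n) = tt n := by
  have h := MvPowerSeries.hasSubst_of_constantCoeff_zero (constantCoeff_hs v)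
  unfold tt
  rw [← MvPowerSeries.substAlgHom_apply h, map_add, map_one, MvPowerSeries.substAlgHom_apply h,
    subst_hs_X, hs_zero]

theorem subst_hs_inv (v : MvPowerSeries (Fin (n + 1)) ℂ) :
    MvPowerSeries.subst (hs v) ((tu n)⁻¹ : (MvPowerSeries (Fin (n + 1)) ℂ)ˣ).val =
      ((tu n)⁻¹ : (MvPowerSeries (Fin (n + 1)) ℂ)ˣ).val := by
  have h := MvPowerSeries.hasSubst_of_constantCoeff_zero (constantCoeff_hs v)
  have h1 : MvPowerSeries.subst (hs v) ((tu n)⁻¹ : (MvPowerSeries (Fin (n + 1)) ℂ)ˣ).val *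
      tt n = 1 := by
    conv_lhs => rw [← subst_hs_tt v]
    rw [← MvPowerSeries.subst_mul h, ← tu_val, Units.inv_mul, ← MvPowerSeries.substAlgHom_apply h,
      map_one]
  calc _ = MvPowerSeries.subst (hs v) ((tu n)⁻¹ : (MvPowerSeries (Fin (n + 1)) ℂ)ˣ).val *
        ((tu n : MvPowerSeries (Fin (n + 1)) ℂ) *
          ((tu n)⁻¹ : (MvPowerSeries (Fin (n + 1)) ℂ)ˣ).val) := by rw [Units.mul_inv, mul_one]
    _ = _ := by rw [← mul_assoc, tu_val, h1, one_mul]

/-- The formal change of coordinates `t ↦ t`, `y_i ↦ y_i / (1 + t)`. -/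
def hE (n : ℕ) : MvPowerSeries (Fin (n + 1)) ℂ ≃ₐ[ℂ] MvPowerSeries (Fin (n + 1)) ℂ :=
  psEquiv (hs ((tu n)⁻¹ : (MvPowerSeries (Fin (n + 1)) ℂ)ˣ).val) (hs (tt n))
    (constantCoeff_hs _) (constantCoeff_hs _)
    (by
      intro i
      have h := MvPowerSeries.hasSubst_of_constantCoeff_zero
        (constantCoeff_hs ((tu n)⁻¹ : (MvPowerSeries (Fin (n + 1)) ℂ)ˣ).val)
      refine Fin.cases ?_ (fun i => ?_) i
      · rw [hs_zero, subst_hs_X, hs_zero]
      · rw [hs_succ, MvPowerSeries.subst_mul h, subst_hs_X, subst_hs_tt, hs_succ, mul_assoc,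
          ← tu_val, Units.inv_mul, mul_one])
    (by
      intro i
      have h := MvPowerSeries.hasSubst_of_constantCoeff_zero (constantCoeff_hs (tt n))
      refine Fin.cases ?_ (fun i => ?_) i
      · rw [hs_zero, subst_hs_X, hs_zero]
      · rw [hs_succ, MvPowerSeries.subst_mul h, subst_hs_X, subst_hs_inv, hs_succ, mul_assoc,
          ← tu_val, Units.mul_inv, mul_one])

theorem translate_hom3 (H : MvPolynomial (Fin n) ℂ) :
    translate (pt n) (hom3 H) =
      ∑ v ∈ H.support, (X 0 + 1) ^ (3 - v.degree) * dum (monomial v (coeff v H)) := by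
  have hp0 : pt n 0 = 1 := rfl
  have hps : ∀ i : Fin n, pt n i.succ = 0 := fun i => rfl
  unfold hom3 translate
  rw [map_sum]
  refine Finset.sum_congr rfl fun v _ => ?_
  have h1 : (aeval fun i => X i + C (pt n i)) (dum (monomial v (coeff v H))) =
      dum (monomial v (coeff v H)) := by
    unfold dum
    rw [aeval_rename]
    have h2 : (aeval ((fun i => X i + C (pt n i)) ∘ Fin.succ) :
        MvPolynomial (Fin n) ℂ →ₐ[ℂ] MvPolynomial (Fin (n + 1)) ℂ) = rename Fin.succ := by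
      apply MvPolynomial.algHom_ext
      intro i
      rw [aeval_X, rename_X, Function.comp_apply, hps, map_zero, add_zero]
    rw [h2]
  rw [map_mul, map_pow, aeval_X, h1, hp0, map_one]

theorem aeval_hs_dum (v : MvPowerSeries (Fin (n + 1)) ℂ) (u : Fin n →₀ ℕ) (c : ℂ) :
    (aeval (hs v) (dum (monomial u c)) : MvPowerSeries (Fin (n + 1)) ℂ) =
      v ^ u.degree * ((dum (monomial u c) : MvPolynomial (Fin (n + 1)) ℂ) :
        MvPowerSeries (Fin (n + 1)) ℂ) := by
  have h1 : (dum (monomial u c) : MvPolynomial (Fin (n + 1)) ℂ) = C c * ∏ i, X i.succ ^ u i := by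
    unfold dum
    rw [monomial_eq, map_mul, rename_C, Finsupp.prod_fintype _ _ (fun _ => pow_zero _), map_prod]
    simp only [map_pow, rename_X]
  rw [h1, map_mul, map_prod, aeval_C]
  simp only [map_pow, aeval_X, hs_succ, mul_pow, Finset.prod_mul_distrib]
  rw [Finset.prod_pow_eq_pow_sum, ← Finsupp.degree_eq_sum]
  have h2 : ((C c * ∏ i, X i.succ ^ u i : MvPolynomial (Fin (n + 1)) ℂ) :
      MvPowerSeries (Fin (n + 1)) ℂ) = MvPowerSeries.C c * ∏ i, MvPowerSeries.X i.succ ^ u i := by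
    rw [← MvPolynomial.coeToMvPowerSeries.ringHom_apply, map_mul, map_prod]
    simp only [map_pow, MvPolynomial.coeToMvPowerSeries.ringHom_apply, coe_X, coe_C]
  rw [h2]
  have h3 : algebraMap ℂ (MvPowerSeries (Fin (n + 1)) ℂ) c = MvPowerSeries.C c := rfl
  rw [h3]
  ring

/-- The germ of the cubic form at `(1, 0, …, 0)`. -/
theorem formEquivPow_hom3 {H : MvPolynomial (Fin n) ℂ} (h : H.totalDegree ≤ 3) :
    FormEquivPow (translate (pt n) (hom3 H)) (dum H) 1 := by
  refine ⟨hE n, tu n ^ 3, ?_⟩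
  have h1 : hE n ((dum H : MvPolynomial (Fin (n + 1)) ℂ) : MvPowerSeries (Fin (n + 1)) ℂ) =
      ∑ v ∈ H.support, ((tu n)⁻¹ : (MvPowerSeries (Fin (n + 1)) ℂ)ˣ).val ^ v.degree *
        ((dum (monomial v (coeff v H)) : MvPolynomial (Fin (n + 1)) ℂ) :
          MvPowerSeries (Fin (n + 1)) ℂ) := by
    unfold hE
    rw [psEquiv_coe]
    conv_lhs => rw [← MvPolynomial.support_sum_monomial_coeff H]
    have h2 : dum (∑ v ∈ H.support, monomial v (coeff v H)) =
        ∑ v ∈ H.support, dum (monomial v (coeff v H)) := by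
      unfold dum
      rw [map_sum]
    rw [h2, map_sum]
    exact Finset.sum_congr rfl fun v _ => aeval_hs_dum _ v _
  rw [pow_one, h1, translate_hom3, Finset.mul_sum, ← MvPolynomial.coeToMvPowerSeries.ringHom_apply,
    map_sum]
  refine Finset.sum_congr rfl fun v hv => ?_
  have h3 : v.degree ≤ 3 := (le_totalDegree hv).trans h
  rw [map_mul, map_pow, map_add, map_one]
  simp only [MvPolynomial.coeToMvPowerSeries.ringHom_apply, coe_X]
  have h4 : ((tu n ^ 3 : (MvPowerSeries (Fin (n + 1)) ℂ)ˣ) : MvPowerSeries (Fin (n + 1)) ℂ) *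
      ((tu n)⁻¹ : (MvPowerSeries (Fin (n + 1)) ℂ)ˣ).val ^ v.degree =
      (MvPowerSeries.X 0 + 1) ^ (3 - v.degree) := by
    rw [← Units.val_pow_eq_pow_val, ← Units.val_mul]
    have h5 : tu n ^ 3 * (tu n)⁻¹ ^ v.degree = tu n ^ (3 - v.degree) := by
      rw [inv_pow, mul_inv_eq_iff_eq_mul, ← pow_add, Nat.sub_add_cancel h3]
    rw [h5, Units.val_pow_eq_pow_val]
    rfl
  rw [← mul_assoc, h4]

theorem dum_ne_zero {H : MvPolynomial (Fin n) ℂ} (h : H ≠ 0) : dum H ≠ 0 := by
  unfold dum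
  intro h1
  exact h (rename_injective _ (Fin.succ_injective n) (by rw [h1, map_zero]))

theorem hom3_ne_zero {H : MvPolynomial (Fin n) ℂ} (h : H.totalDegree ≤ 3) (hH : H ≠ 0) :
    hom3 H ≠ 0 := by
  intro h1
  have h2 := formEquivPow_symm (formEquivPow_hom3 h)
  refine dum_ne_zero hH ?_
  obtain ⟨e, u, h3⟩ := h2
  have h4 : translate (pt n) (hom3 H) = 0 := by
    rw [h1]
    unfold translate
    rw [map_zero]
  rw [h4, pow_one] at h3
  have h5 : ((0 : MvPolynomial (Fin (n + 1)) ℂ) : MvPowerSeries (Fin (n + 1)) ℂ) = 0 := by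
    simp
  rw [h5, map_zero, mul_zero] at h3
  exact MvPolynomial.coe_injective _ _ (by rw [h3, h5])

theorem eval_pt_hom3 {H : MvPolynomial (Fin n) ℂ} (h : H.totalDegree ≤ 3) (h0 : coeff 0 H = 0) :
    eval (pt n) (hom3 H) = 0 := by
  have h1 : coeff 0 (dum H) = 0 := by
    unfold dum
    rw [← constantCoeff_eq] at h0 ⊢
    rw [constantCoeff_rename, h0]
  have h2 := coeff_zero_eq_zero_of_formEquivPow one_pos (formEquivPow_symm (formEquivPow_hom3 h)) h1
  have h3 : coeff 0 (translate (pt n) (hom3 H)) = eval (pt n) (hom3 H) := by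
    rw [← constantCoeff_eq]
    unfold translate
    rw [aeval_def, hom_eval₂]
    simp [eval_eq', eval₂_eq']
  rw [← h3, h2]

/-- The local strong monodromy conjecture follows from its case of cubic forms at arbitrary
points. -/
theorem smcLoc_of_cubicForms
    (h : ∀ (n : ℕ) (F : MvPolynomial (Fin n) ℂ) (p : Fin n → ℂ), F ≠ 0 → F.IsHomogeneous 3 →
      eval p F = 0 → SmcLoc (translate p F)) :
    ∀ (n : ℕ) (f : MvPolynomial (Fin n) ℂ), f ≠ 0 → coeff 0 f = 0 → SmcLoc f := by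
  intro n f hf h0
  refine smcLoc_of_cubic (fun n H hH hH0 hd => ?_) (mu f) n f le_rfl hf h0
  refine SmcLoc.of_dum (SmcLoc.of_formEquivPow one_pos (formEquivPow_symm (formEquivPow_hom3 hd))
    (h _ _ _ (hom3_ne_zero hd hH) (isHomogeneous_hom3 hd) (eval_pt_hom3 hd hH0)))

end Cub

end MPb07157
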