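import Pool.Agent.Lib.MP_b07157_agS.SClass

/-!
# Re-embeddings

If `f(x) = Φ(x, g(x))` and `Φ(x, z) + w (z - g(x))` belongs to the class of stably non-degenerate
polynomials, so does `f`.
-/

noncomputable section

namespace MPb07157

open MvPolynomial

namespace Graph

variable {σ : Type} [DecidableEq σ]

/-- The images of the variables under `x_i ↦ x_i + p`. -/
def el (i : σ) (p : MvPolynomial σ ℂ) : σ → MvPolynomial σ ℂ := Function.update X i (X i + p)

theorem aeval_el {i : σ} (p : MvPolynomial σ ℂ) {q : MvPolynomial σ ℂ} (hq : i ∉ q.vars) :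
    aeval (el i p) q = q := by
  conv_rhs => rw [← aeval_X_left_apply q]
  rw [aeval_def, aeval_def, ← coe_eval₂Hom, ← coe_eval₂Hom]
  refine eval₂Hom_congr' rfl (fun j h1 _ => ?_) rfl
  unfold el
  rw [Function.update_of_ne]
  rintro rfl
  exact hq h1

theorem aeval_el_comp {i : σ} {p : MvPolynomial σ ℂ} (hp : i ∉ p.vars) :
    (aeval (el i p) : MvPolynomial σ ℂ →ₐ[ℂ] MvPolynomial σ ℂ).comp (aeval (el i (-p))) =
      AlgHom.id ℂ _ := by
  apply MvPolynomial.algHom_ext
  intro j
  rw [AlgHom.comp_apply, aeval_X, AlgHom.id_apply]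
  by_cases hj : j = i
  · subst hj
    have h1 : el j (-p) j = X j + -p := by simp [el]
    have h2 : el j p j = X j + p := by simp [el]
    rw [h1, map_add, aeval_X, h2, map_neg, aeval_el p hp]
    ring
  · have h1 : el i (-p) j = X j := by simp [el, hj]
    have h2 : el i p j = X j := by simp [el, hj]
    rw [h1, aeval_X, h2]

/-- The automorphism `x_i ↦ x_i + p`, where `p` does not involve `x_i`. -/
def elem (i : σ) (p : MvPolynomial σ ℂ) (hp : i ∉ p.vars) :
    MvPolynomial σ ℂ ≃ₐ[ℂ] MvPolynomial σ ℂ :=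
  AlgEquiv.ofAlgHom (aeval (el i p)) (aeval (el i (-p))) (aeval_el_comp hp) (by
    have h := aeval_el_comp (i := i) (p := -p) (by rwa [vars_neg])
    rwa [neg_neg] at h)

theorem elem_apply (i : σ) (p : MvPolynomial σ ℂ) (hp : i ∉ p.vars) (q : MvPolynomial σ ℂ) :
    elem i p hp q = aeval (el i p) q := rfl

theorem elem_X_self (i : σ) (p : MvPolynomial σ ℂ) (hp : i ∉ p.vars) :
    elem i p hp (X i) = X i + p := by
  rw [elem_apply, aeval_X, el, Function.update_self]

theorem elem_of_notMem (i : σ) (p : MvPolynomial σ ℂ) (hp : i ∉ p.vars) {q : MvPolynomial σ ℂ}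
    (hq : i ∉ q.vars) : elem i p hp q = q := aeval_el p hq

end Graph

variable {n : ℕ}

/-- The polynomial `Φ(x, g(x))`. -/
def substLast (Φ : MvPolynomial (Fin (n + 1)) ℂ) (g : MvPolynomial (Fin n) ℂ) :
    MvPolynomial (Fin n) ℂ := aeval (Fin.snoc (α := fun _ => MvPolynomial (Fin n) ℂ) X g) Φ

/-- The polynomial `Φ(x, z) + w (z - g(x))` in `x_1, …, x_n, z, w`. -/
def graphPoly (Φ : MvPolynomial (Fin (n + 1)) ℂ) (g : MvPolynomial (Fin n) ℂ) :
    MvPolynomial (Fin (n + 2)) ℂ :=
  rename Fin.castSucc Φ + X (Fin.natAdd n 1) * (X (Fin.natAdd n 0) - rename (Fin.castAdd 2) g)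

/-- `Φ(x, z) - Φ(x, g(x))` is divisible by `z - g(x)`. -/
theorem exists_graph_quot (Φ : MvPolynomial (Fin (n + 1)) ℂ) (g : MvPolynomial (Fin n) ℂ) :
    ∃ A : MvPolynomial (Fin (n + 1)) ℂ,
      Φ - rename Fin.castSucc (substLast Φ g) =
        (X (Fin.last n) - rename Fin.castSucc g) * A := by
  have h : (Ideal.Quotient.mkₐ ℂ (Ideal.span {(X (Fin.last n) - rename Fin.castSucc g :
      MvPolynomial (Fin (n + 1)) ℂ)})).comp (AlgHom.id ℂ _) =
      (Ideal.Quotient.mkₐ ℂ (Ideal.span {(X (Fin.last n) - rename Fin.castSucc g :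
      MvPolynomial (Fin (n + 1)) ℂ)})).comp
        ((rename Fin.castSucc).comp
          (aeval (Fin.snoc (α := fun _ => MvPolynomial (Fin n) ℂ) X g))) := by
    apply MvPolynomial.algHom_ext
    intro j
    refine Fin.lastCases ?_ (fun i => ?_) j
    · rw [AlgHom.comp_apply, AlgHom.comp_apply, AlgHom.comp_apply, aeval_X, Fin.snoc_last,
        AlgHom.id_apply, Ideal.Quotient.mkₐ_eq_mk, Ideal.Quotient.eq]
      exact Ideal.subset_span rfl
    · rw [AlgHom.comp_apply, AlgHom.comp_apply, AlgHom.comp_apply, aeval_X, Fin.snoc_castSucc,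
        AlgHom.id_apply, rename_X]
  have h1 := congrArg (fun φ => φ Φ) h
  simp only [AlgHom.comp_apply, AlgHom.id_apply, Ideal.Quotient.mkₐ_eq_mk] at h1
  rw [Ideal.Quotient.eq, Ideal.mem_span_singleton] at h1
  exact h1

theorem notMem_vars_rename {τ υ : Type} [DecidableEq υ] (φ : τ → υ) (p : MvPolynomial τ ℂ) {j : υ}
    (h : ∀ i, φ i ≠ j) : j ∉ (rename φ p).vars := by
  intro hj
  have h1 := vars_rename φ p hj
  rw [Finset.mem_image] at h1
  obtain ⟨i, -, hi⟩ := h1
  exact h i hi

theorem polyEquivPow_graph (Φ : MvPolynomial (Fin (n + 1)) ℂ) (g : MvPolynomial (Fin n) ℂ) :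
    PolyEquivPow (stab (substLast Φ g)) (graphPoly Φ g) 1 := by
  obtain ⟨A, hA⟩ := exists_graph_quot Φ g
  have hz : (Fin.natAdd n (0 : Fin 2)) = (Fin.last n).castSucc := by
    ext
    simp
  have hg : (Fin.natAdd n (0 : Fin 2)) ∉
      (rename (Fin.castAdd 2) (-g) : MvPolynomial (Fin (n + 2)) ℂ).vars :=
    notMem_vars_rename _ _ fun i h => by
      have := congrArg Fin.val h
      simp at this
      omega
  have hA' : (Fin.natAdd n (1 : Fin 2)) ∉
      (rename Fin.castSucc A : MvPolynomial (Fin (n + 2)) ℂ).vars :=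
    notMem_vars_rename _ _ fun i h => by
      have := congrArg Fin.val h
      simp at this
      omega
  set e1 := Graph.elem _ _ hg with he1
  set e2 := Graph.elem _ _ hA' with he2
  refine ⟨(e1.trans e2).symm, 1, one_ne_zero, ?_⟩
  rw [map_one, one_mul, pow_one, eq_comm, AlgEquiv.symm_apply_eq, AlgEquiv.trans_apply]
  have hF1 : (Fin.natAdd n (0 : Fin 2)) ∉
      (rename (Fin.castAdd 2) (substLast Φ g) : MvPolynomial (Fin (n + 2)) ℂ).vars :=
    notMem_vars_rename _ _ fun i h => by
      have := congrArg Fin.val h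
      simp at this
      omega
  have hF2 : (Fin.natAdd n (1 : Fin 2)) ∉
      (rename (Fin.castAdd 2) (substLast Φ g) : MvPolynomial (Fin (n + 2)) ℂ).vars :=
    notMem_vars_rename _ _ fun i h => by
      have := congrArg Fin.val h
      simp at this
      omega
  have hg2 : (Fin.natAdd n (1 : Fin 2)) ∉
      (rename (Fin.castAdd 2) g : MvPolynomial (Fin (n + 2)) ℂ).vars :=
    notMem_vars_rename _ _ fun i h => by
      have := congrArg Fin.val h
      simp at this
      omega
  have hz2 : (Fin.natAdd n (1 : Fin 2)) ∉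
      (X (Fin.natAdd n (0 : Fin 2)) : MvPolynomial (Fin (n + 2)) ℂ).vars := by
    rw [vars_X, Finset.mem_singleton]
    intro h
    have := congrArg Fin.val h
    simp at this
  have hw1 : (Fin.natAdd n (0 : Fin 2)) ∉
      (X (Fin.natAdd n (1 : Fin 2)) : MvPolynomial (Fin (n + 2)) ℂ).vars := by
    rw [vars_X, Finset.mem_singleton]
    intro h
    have := congrArg Fin.val h
    simp at this
  have h1 : e1 (stab (substLast Φ g)) = rename (Fin.castAdd 2) (substLast Φ g) +
      (X (Fin.natAdd n 0) - rename (Fin.castAdd 2) g) * X (Fin.natAdd n 1) := by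
    unfold stab
    rw [map_add, map_mul, he1, Graph.elem_of_notMem _ _ _ hF1, Graph.elem_X_self,
      Graph.elem_of_notMem _ _ _ hw1, map_neg, ← sub_eq_add_neg]
  rw [h1, map_add, map_mul, map_sub, he2, Graph.elem_of_notMem _ _ _ hF2,
    Graph.elem_of_notMem _ _ _ hz2, Graph.elem_of_notMem _ _ _ hg2, Graph.elem_X_self]
  have h2 := congrArg (rename Fin.castSucc :
    MvPolynomial (Fin (n + 1)) ℂ → MvPolynomial (Fin (n + 1 + 1)) ℂ) hA
  rw [map_sub, map_mul, map_sub, rename_rename, rename_rename, rename_X] at h2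
  have h3 : (Fin.castSucc ∘ Fin.castSucc : Fin n → Fin (n + 1 + 1)) = Fin.castAdd 2 := by
    funext i
    ext
    simp
  rw [h3, ← hz] at h2
  unfold graphPoly
  linear_combination h2

theorem StableGlob.graph {Φ : MvPolynomial (Fin (n + 1)) ℂ} {g : MvPolynomial (Fin n) ℂ}
    (h : StableGlob (n + 2) (graphPoly Φ g)) (h0 : coeff 0 (substLast Φ g) = 0) :
    StableGlob n (substLast Φ g) :=
  StableGlob.stab _ (StableGlob.equiv _ _ 1 one_pos (coeff_zero_stab h0)
    (polyEquivPow_graph Φ g) h)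

end MPb07157
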