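import Pool.Agent.Lib.MP_b07157_agS.SDefs
import Pool.Agent.Lib.MP_b07157_agE.EZ

/-!
# Stabilization and motivic zeta functions: coefficients
-/

noncomputable section

namespace MPb07157

open MvPolynomial

variable {n : ℕ}

namespace SZ

/-! ### Series -/

/-- The polynomial with coefficients `w`, as a power series. -/
def ser {N : ℕ} (w : Fin N → ℂ) : PowerSeries ℂ :=
  ∑ j : Fin N, PowerSeries.C (w j) * PowerSeries.X ^ (j : ℕ)

theorem coeff_ser {N : ℕ} (w : Fin N → ℂ) (k : ℕ) :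
    PowerSeries.coeff k (ser w) = if h : k < N then w ⟨k, h⟩ else 0 :=
  coeff_arc (n := 1) (fun p : Fin 1 × Fin N => w p.2) 0 k

/-- `ord w ≥ k`. -/
def staS (N k : ℕ) : Set (Fin N → ℂ) := {w | ∀ j ∈ Finset.univ.filter (fun j : Fin N => (j : ℕ) < k),
  w j = 0}

theorem mem_staS {N k : ℕ} {w : Fin N → ℂ} : w ∈ staS N k ↔ ∀ j : Fin N, (j : ℕ) < k → w j = 0 := by
  simp [staS]

theorem isConstr_staS (N k : ℕ) : IsConstr (staS N k) := by
  unfold staS
  refine isConstr_forall_mem _ _ fun j _ => ?_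
  have h := isConstr_eq_zero (X j : MvPolynomial (Fin N) ℂ)
  simpa using h

/-- `ord w = k`. -/
def ordS (N k : ℕ) : Set (Fin N → ℂ) := staS N k \ staS N (k + 1)

theorem isConstr_ordS (N k : ℕ) : IsConstr (ordS N k) :=
  (isConstr_staS N k).diff (isConstr_staS N (k + 1))

theorem mem_ordS {N k : ℕ} {w : Fin N → ℂ} (hk : k < N) :
    w ∈ ordS N k ↔ (∀ j : Fin N, (j : ℕ) < k → w j = 0) ∧ w ⟨k, hk⟩ ≠ 0 := by
  unfold ordS
  rw [Set.mem_sdiff, mem_staS, mem_staS]
  refine and_congr_right fun h => ⟨fun h1 h2 => h1 fun j hj => ?_, fun h1 h2 => h1 (h2 _ ?_)⟩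
  · rcases Nat.lt_succ_iff_lt_or_eq.1 hj with h3 | h3
    · exact h j h3
    · have h4 : j = ⟨k, hk⟩ := by
        ext
        exact h3
      rw [h4]
      exact h2
  · exact Nat.lt_succ_self k

theorem card_filter_lt (N k : ℕ) (hk : k ≤ N) :
    (Finset.univ.filter (fun j : Fin N => (j : ℕ) < k)).card = k := by
  have h := Fin.card_filter_val_lt (n := N) (m := k)
  rw [h]
  omega

theorem cls_staS {N k : ℕ} (hk : k ≤ N) : cls (staS N k) = L ^ (N - k) := by
  have h := cls_cell (σ := Fin N) (κ := Empty) (fun e => e.elim) (fun e => e.elim) Set.univ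
    IsConstr.univ (Finset.univ.filter (fun j : Fin N => (j : ℕ) < k)) (fun e => e.elim) (N - k)
    (by rw [card_filter_lt N k hk]; simp; omega)
  rw [cls_univ_eq] at h
  simp only [Set.mem_univ, true_and, Fintype.card_empty, pow_zero, one_mul] at h
  exact h

theorem staS_succ_subset (N k : ℕ) : staS N (k + 1) ⊆ staS N k := by
  intro w hw
  rw [mem_staS] at hw ⊢
  exact fun j hj => hw j (by omega)

theorem staS_eq_union (N k : ℕ) : staS N k = ordS N k ∪ staS N (k + 1) :=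
  (Set.sdiff_union_of_subset (staS_succ_subset N k)).symm

theorem disjoint_ordS (N k : ℕ) : Disjoint (ordS N k) (staS N (k + 1)) :=
  Set.disjoint_sdiff_left

theorem cls_ordS {N k : ℕ} (hk : k < N) : cls (ordS N k) = (L - 1) * L ^ (N - 1 - k) := by
  have h := cls_union (isConstr_ordS N k) (isConstr_staS N (k + 1)) (disjoint_ordS N k)
  rw [← staS_eq_union, cls_staS hk.le, cls_staS hk] at h
  have h2 : N - k = (N - 1 - k) + 1 := by omega
  have h3 : N - (k + 1) = N - 1 - k := by omega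
  rw [h2, h3] at h
  rw [sub_mul, one_mul, eq_sub_iff_add_eq, ← h, pow_succ, mul_comm]

theorem exists_unit_of_ordS {N k : ℕ} (hk : k < N) {w : Fin N → ℂ} (hw : w ∈ ordS N k) :
    ∃ U : PowerSeries ℂ, PowerSeries.constantCoeff U ≠ 0 ∧ ser w = PowerSeries.X ^ k * U := by
  rw [mem_ordS hk] at hw
  refine ⟨PowerSeries.mk fun l => PowerSeries.coeff (l + k) (ser w), ?_, ?_⟩
  · rw [← PowerSeries.coeff_zero_eq_constantCoeff_apply, PowerSeries.coeff_mk, zero_add, coeff_ser,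
      dif_pos hk]
    exact hw.2
  · ext l
    rw [PowerSeries.coeff_X_pow_mul', PowerSeries.coeff_mk]
    split_ifs with h
    · rw [Nat.sub_add_cancel h]
    · rw [coeff_ser]
      split_ifs with h2
      · exact hw.1 _ (not_le.1 h)
      · rfl

/-! ### Coordinates -/

/-- The coordinates `x_1, …, x_n` of a jet. -/
def gx {N : ℕ} (x : Fin (n + 2) × Fin N → ℂ) : Fin n × Fin N → ℂ :=
  fun p => x (Fin.castAdd 2 p.1, p.2)

/-- The coordinate `x_{n+1}`. -/
def wx {N : ℕ} (x : Fin (n + 2) × Fin N → ℂ) : Fin N → ℂ := fun j => x (Fin.natAdd n 0, j)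

/-- The coordinate `x_{n+2}`. -/
def zx {N : ℕ} (x : Fin (n + 2) × Fin N → ℂ) : Fin N → ℂ := fun j => x (Fin.natAdd n 1, j)

theorem arc_gx {N : ℕ} (x : Fin (n + 2) × Fin N → ℂ) (i : Fin n) :
    arc x (Fin.castAdd 2 i) = arc (gx x) i := rfl

theorem arc_wx {N : ℕ} (x : Fin (n + 2) × Fin N → ℂ) : arc x (Fin.natAdd n 0) = ser (wx x) := rfl

theorem arc_zx {N : ℕ} (x : Fin (n + 2) × Fin N → ℂ) : arc x (Fin.natAdd n 1) = ser (zx x) := rfl

theorem aeval_stab {N : ℕ} (f : MvPolynomial (Fin n) ℂ) (x : Fin (n + 2) × Fin N → ℂ) :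
    (aeval (arc x) (stab f) : PowerSeries ℂ) =
      aeval (arc (gx x)) f + ser (wx x) * ser (zx x) := by
  unfold stab
  rw [map_add, map_mul, aeval_X, aeval_X, aeval_rename, arc_wx, arc_zx]
  rfl

/-- The jet with given coordinates. -/
def mk3 {N : ℕ} (g : Fin n × Fin N → ℂ) (w z : Fin N → ℂ) : Fin (n + 2) × Fin N → ℂ :=
  fun p => Fin.addCases (fun i => g (i, p.2)) (fun i : Fin 2 => if i = 0 then w p.2 else z p.2) p.1

theorem gx_mk3 {N : ℕ} (g : Fin n × Fin N → ℂ) (w z : Fin N → ℂ) : gx (mk3 g w z) = g := by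
  funext p
  simp [gx, mk3]

theorem wx_mk3 {N : ℕ} (g : Fin n × Fin N → ℂ) (w z : Fin N → ℂ) : wx (mk3 g w z) = w := by
  funext p
  simp only [wx, mk3, Fin.addCases_right, if_pos]

theorem zx_mk3 {N : ℕ} (g : Fin n × Fin N → ℂ) (w z : Fin N → ℂ) : zx (mk3 g w z) = z := by
  funext p
  simp only [zx, mk3, Fin.addCases_right]
  rw [if_neg]
  exact one_ne_zero

theorem ext3 {N : ℕ} {x y : Fin (n + 2) × Fin N → ℂ} (h1 : gx x = gx y) (h2 : wx x = wx y)
    (h3 : zx x = zx y) : x = y := by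
  funext p
  obtain ⟨i, j⟩ := p
  refine Fin.addCases (fun i => ?_) (fun i => ?_) i
  · exact congrFun h1 (i, j)
  · have h4 : i = 0 ∨ i = 1 := by omega
    rcases h4 with rfl | rfl
    · exact congrFun h2 j
    · exact congrFun h3 j

/-- The numbering of the coordinates. -/
def e3f (n N : ℕ) : (Fin n × Fin N) ⊕ (Fin N ⊕ Fin N) → Fin (n + 2) × Fin N :=
  Sum.elim (fun p => (Fin.castAdd 2 p.1, p.2))
    (Sum.elim (fun j => (Fin.natAdd n 0, j)) (fun j => (Fin.natAdd n 1, j)))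

theorem e3f_bijective (n N : ℕ) : Function.Bijective (e3f n N) := by
  constructor
  · rintro (⟨i, j⟩ | j | j) (⟨i', j'⟩ | j' | j') h
    all_goals
      simp only [e3f, Sum.elim_inl, Sum.elim_inr, Prod.mk.injEq, Fin.ext_iff, Fin.val_castAdd,
        Fin.val_natAdd, Fin.val_zero, Fin.val_one] at h
    · rw [Sum.inl.injEq, Prod.mk.injEq, Fin.ext_iff, Fin.ext_iff]
      exact h
    · exfalso; omega
    · exfalso; omega
    · exfalso; omega
    · rw [Sum.inr.injEq, Sum.inl.injEq, Fin.ext_iff]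
      exact h.2
    · exfalso; omega
    · exfalso; omega
    · exfalso; omega
    · rw [Sum.inr.injEq, Sum.inr.injEq, Fin.ext_iff]
      exact h.2
  · rintro ⟨i, j⟩
    refine Fin.addCases (fun i => ⟨Sum.inl (i, j), rfl⟩) (fun i => ?_) i
    have h4 : i = 0 ∨ i = 1 := by omega
    rcases h4 with rfl | rfl
    · exact ⟨Sum.inr (Sum.inl j), rfl⟩
    · exact ⟨Sum.inr (Sum.inr j), rfl⟩

/-- The numbering of the coordinates. -/
def e3 (n N : ℕ) : (Fin n × Fin N) ⊕ (Fin N ⊕ Fin N) ≃ Fin (n + 2) × Fin N :=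
  Equiv.ofBijective _ (e3f_bijective n N)

theorem cls3 {N : ℕ} {A : Set (Fin n × Fin N → ℂ)} {B C : Set (Fin N → ℂ)} (hA : IsConstr A)
    (hB : IsConstr B) (hC : IsConstr C) :
    cls {x : Fin (n + 2) × Fin N → ℂ | gx x ∈ A ∧ wx x ∈ B ∧ zx x ∈ C} =
      cls A * (cls B * cls C) := by
  rw [← cls_prodSum hB hC, ← cls_prodSum hA (isConstr_prodSum hB hC),
    ← cls_equiv (e3 n N) (isConstr_prodSum hA (isConstr_prodSum hB hC))]
  congr 1

theorem isConstr_gx {N : ℕ} {A : Set (Fin n × Fin N → ℂ)} (hA : IsConstr A) :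
    IsConstr {x : Fin (n + 2) × Fin N → ℂ | gx x ∈ A} :=
  hA.reindex (fun p : Fin n × Fin N => ((Fin.castAdd 2 p.1, p.2) : Fin (n + 2) × Fin N))

theorem isConstr_wx {N : ℕ} {A : Set (Fin N → ℂ)} (hA : IsConstr A) :
    IsConstr {x : Fin (n + 2) × Fin N → ℂ | wx x ∈ A} :=
  hA.reindex (fun j : Fin N => ((Fin.natAdd n 0, j) : Fin (n + 2) × Fin N))

theorem isConstr_zx {N : ℕ} {A : Set (Fin N → ℂ)} (hA : IsConstr A) :
    IsConstr {x : Fin (n + 2) × Fin N → ℂ | zx x ∈ A} :=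
  hA.reindex (fun j : Fin N => ((Fin.natAdd n 1, j) : Fin (n + 2) × Fin N))

theorem isConstr3 {N : ℕ} {A : Set (Fin n × Fin N → ℂ)} {B C : Set (Fin N → ℂ)} (hA : IsConstr A)
    (hB : IsConstr B) (hC : IsConstr C) :
    IsConstr {x : Fin (n + 2) × Fin N → ℂ | gx x ∈ A ∧ wx x ∈ B ∧ zx x ∈ C} :=
  (isConstr_gx hA).inter ((isConstr_wx hB).inter (isConstr_zx hC))

/-! ### The twist -/

/-- The map that replaces the coefficients of `z` by the coefficients of `f + w z` of index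
`k, k + 1, …`. -/
def tw (f : MvPolynomial (Fin n) ℂ) (N k : ℕ) (p : Fin (n + 2) × Fin N) :
    MvPolynomial (Fin (n + 2) × Fin N) ℂ :=
  if p.1 = Fin.natAdd n 1 then (exists_coeff_poly (N := N) (stab f) (k + p.2)).choose else X p

theorem polyMap_tw_of_ne (f : MvPolynomial (Fin n) ℂ) {N : ℕ} (k : ℕ)
    (x : Fin (n + 2) × Fin N → ℂ) {p : Fin (n + 2) × Fin N} (hp : p.1 ≠ Fin.natAdd n 1) :
    polyMap (tw f N k) x p = x p := by
  unfold polyMap tw
  rw [if_neg hp, eval_X]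

theorem gx_tw (f : MvPolynomial (Fin n) ℂ) {N : ℕ} (k : ℕ) (x : Fin (n + 2) × Fin N → ℂ) :
    gx (polyMap (tw f N k) x) = gx x := by
  funext p
  refine polyMap_tw_of_ne f k x ?_
  intro h
  have h1 := congrArg Fin.val h
  simp only [Fin.val_castAdd, Fin.val_natAdd] at h1
  omega

theorem wx_tw (f : MvPolynomial (Fin n) ℂ) {N : ℕ} (k : ℕ) (x : Fin (n + 2) × Fin N → ℂ) :
    wx (polyMap (tw f N k) x) = wx x := by
  funext p
  refine polyMap_tw_of_ne f k x ?_
  intro h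
  have h1 := congrArg Fin.val h
  simp only [Fin.val_natAdd, Fin.val_zero, Fin.val_one] at h1
  omega

theorem zx_tw (f : MvPolynomial (Fin n) ℂ) {N : ℕ} (k : ℕ) (x : Fin (n + 2) × Fin N → ℂ)
    (j : Fin N) : zx (polyMap (tw f N k) x) j =
      PowerSeries.coeff (k + j) (aeval (arc x) (stab f) : PowerSeries ℂ) := by
  unfold zx polyMap tw
  rw [if_pos rfl]
  exact ((exists_coeff_poly (N := N) (stab f) (k + j)).choose_spec x).symm

theorem coeff_tw {f : MvPolynomial (Fin n) ℂ} {N k : ℕ} {x : Fin (n + 2) × Fin N → ℂ}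
    {U : PowerSeries ℂ} (hU : ser (wx x) = PowerSeries.X ^ k * U) (j : ℕ) :
    PowerSeries.coeff (k + j) (aeval (arc x) (stab f) : PowerSeries ℂ) =
      PowerSeries.coeff (k + j) (aeval (arc (gx x)) f : PowerSeries ℂ) +
        PowerSeries.coeff j (U * ser (zx x)) := by
  rw [aeval_stab, map_add, hU, mul_assoc, add_comm k j, PowerSeries.coeff_X_pow_mul]

theorem coeff_lt {f : MvPolynomial (Fin n) ℂ} {N k : ℕ} {x : Fin (n + 2) × Fin N → ℂ}
    {U : PowerSeries ℂ} (hU : ser (wx x) = PowerSeries.X ^ k * U) {l : ℕ} (hl : l < k) :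
    PowerSeries.coeff l (aeval (arc x) (stab f) : PowerSeries ℂ) =
      PowerSeries.coeff l (aeval (arc (gx x)) f : PowerSeries ℂ) := by
  rw [aeval_stab, map_add, hU, mul_assoc, PowerSeries.coeff_X_pow_mul', if_neg (by omega),
    add_zero]

theorem bijOn_tw (f : MvPolynomial (Fin n) ℂ) {N k : ℕ} (hk : k < N) :
    Set.BijOn (polyMap (tw f N k)) {x | wx x ∈ ordS N k} {x | wx x ∈ ordS N k} := by
  refine ⟨?_, ?_, ?_⟩
  · intro x hx
    show wx (polyMap (tw f N k) x) ∈ ordS N k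
    rw [wx_tw]
    exact hx
  · intro x hx y hy hxy
    have h1 : gx x = gx y := by rw [← gx_tw f k x, hxy, gx_tw]
    have h2 : wx x = wx y := by rw [← wx_tw f k x, hxy, wx_tw]
    refine ext3 h1 h2 ?_
    obtain ⟨U, hU, hUx⟩ := exists_unit_of_ordS hk hx
    have hUy : ser (wx y) = PowerSeries.X ^ k * U := by rw [← h2]; exact hUx
    have h3 : (PowerSeries.X : PowerSeries ℂ) ^ N ∣ U * (ser (zx x) - ser (zx y)) := by
      rw [PowerSeries.X_pow_dvd_iff]
      intro j hj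
      have h4 := congrFun (congrArg zx hxy) ⟨j, hj⟩
      rw [zx_tw, zx_tw] at h4
      simp only at h4
      rw [coeff_tw hUx, coeff_tw hUy, h1] at h4
      rw [mul_sub, map_sub, sub_eq_zero]
      exact add_left_cancel h4
    have h5 : (PowerSeries.X : PowerSeries ℂ) ^ N ∣ ser (zx x) - ser (zx y) := by
      have h6 := h3.mul_left U⁻¹
      rwa [← mul_assoc, PowerSeries.inv_mul_cancel U hU, one_mul] at h6
    rw [PowerSeries.X_pow_dvd_iff] at h5
    funext j
    have h7 := h5 j j.2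
    rw [map_sub, coeff_ser, coeff_ser, dif_pos j.2, dif_pos j.2, sub_eq_zero] at h7
    exact h7
  · intro y hy
    obtain ⟨U, hU, hUy⟩ := exists_unit_of_ordS hk hy
    let R : PowerSeries ℂ := ser (zx y) -
      PowerSeries.mk fun j => PowerSeries.coeff (k + j) (aeval (arc (gx y)) f : PowerSeries ℂ)
    let z : Fin N → ℂ := fun j => PowerSeries.coeff j (U⁻¹ * R)
    refine ⟨mk3 (gx y) (wx y) z, ?_, ?_⟩
    · show wx (mk3 (gx y) (wx y) z) ∈ ordS N k
      rw [wx_mk3]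
      exact hy
    · refine ext3 ?_ ?_ ?_
      · rw [gx_tw, gx_mk3]
      · rw [wx_tw, wx_mk3]
      · funext j
        rw [zx_tw, coeff_tw (U := U) (by rw [wx_mk3]; exact hUy), gx_mk3, zx_mk3]
        have h1 : (PowerSeries.X : PowerSeries ℂ) ^ N ∣ ser z - U⁻¹ * R := by
          rw [PowerSeries.X_pow_dvd_iff]
          intro l hl
          rw [map_sub, coeff_ser, dif_pos hl, sub_self]
        have h2 : (PowerSeries.X : PowerSeries ℂ) ^ N ∣ U * ser z - R := by
          have h3 := h1.mul_left U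
          rwa [mul_sub, ← mul_assoc U, PowerSeries.mul_inv_cancel U hU, one_mul] at h3
        rw [PowerSeries.X_pow_dvd_iff] at h2
        have h4 := h2 j j.2
        rw [map_sub, sub_eq_zero] at h4
        rw [h4]
        show _ + PowerSeries.coeff (j : ℕ) (ser (zx y) - PowerSeries.mk _) = zx y j
        rw [map_sub, PowerSeries.coeff_mk, coeff_ser, dif_pos j.2]
        ring

theorem cls_tw (f : MvPolynomial (Fin n) ℂ) {N k : ℕ} (hk : k < N)
    {A B : Set (Fin (n + 2) × Fin N → ℂ)} (hA : IsConstr A) (hB : IsConstr B)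
    (hA' : ∀ x ∈ A, wx x ∈ ordS N k) (hB' : ∀ x ∈ B, wx x ∈ ordS N k)
    (h : ∀ x, wx x ∈ ordS N k → (x ∈ A ↔ polyMap (tw f N k) x ∈ B)) : cls A = cls B := by
  have hb := bijOn_tw f hk
  refine cls_bijOn hA hB (tw f N k) ⟨fun x hx => (h x (hA' x hx)).1 hx,
    fun x hx y hy hxy => hb.injOn (hA' x hx) (hA' y hy) hxy, fun y hy => ?_⟩
  obtain ⟨x, hx, rfl⟩ := hb.surjOn (hB' y hy)
  exact ⟨x, (h x hx).2 hy, rfl⟩

/-! ### Arcs with `ord f ≥ k` -/

/-- The arcs with `ord f ≥ k`. -/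
def Gk (f : MvPolynomial (Fin n) ℂ) (N k : ℕ) : Set (Fin n × Fin N → ℂ) :=
  {γ | ∀ l ∈ Finset.range k, PowerSeries.coeff l (aeval (arc γ) f : PowerSeries ℂ) = 0}

theorem isConstr_Gk (f : MvPolynomial (Fin n) ℂ) (N k : ℕ) : IsConstr (Gk f N k) := by
  refine isConstr_forall_mem _ _ fun l _ => ?_
  obtain ⟨P, hP⟩ := exists_coeff_poly (N := N) f l
  simp only [hP]
  exact isConstr_eq_zero P

theorem mem_Gk {f : MvPolynomial (Fin n) ℂ} {N k : ℕ} {γ : Fin n × Fin N → ℂ} :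
    γ ∈ Gk f N k ↔ ∀ l < k, PowerSeries.coeff l (aeval (arc γ) f : PowerSeries ℂ) = 0 := by
  simp [Gk]

theorem Gk_eq_union (f : MvPolynomial (Fin n) ℂ) (N k : ℕ) :
    Gk f N k = arcs f N k ∪ Gk f N (k + 1) := by
  ext γ
  rw [Set.mem_union, mem_Gk, mem_Gk]
  simp only [arcs, Set.mem_ofPred_eq, PowerSeries.order_eq_nat]
  constructor
  · intro h
    by_cases h0 : PowerSeries.coeff k (aeval (arc γ) f : PowerSeries ℂ) = 0
    · refine Or.inr fun l hl => ?_
      rcases Nat.lt_succ_iff_lt_or_eq.1 hl with h3 | h3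
      · exact h l h3
      · rw [h3]; exact h0
    · exact Or.inl ⟨h0, h⟩
  · rintro (⟨_, h⟩ | h)
    · exact h
    · exact fun l hl => h l (by omega)

theorem disjoint_Gk (f : MvPolynomial (Fin n) ℂ) (N k : ℕ) :
    Disjoint (arcs f N k) (Gk f N (k + 1)) := by
  rw [Set.disjoint_left]
  intro γ h1 h2
  rw [mem_Gk] at h2
  simp only [arcs, Set.mem_ofPred_eq, PowerSeries.order_eq_nat] at h1
  exact h1.1 (h2 k (Nat.lt_succ_self k))

theorem cls_Gk_succ (f : MvPolynomial (Fin n) ℂ) (ε N k : ℕ) :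
    cls (Gk f N k ∩ Start n ε N) =
      cls (arcs f N k ∩ Start n ε N) + cls (Gk f N (k + 1) ∩ Start n ε N) := by
  rw [Gk_eq_union, Set.union_inter_distrib_right]
  exact cls_union ((isConstr_arcs f N k).inter (isConstr_Start n ε N))
    ((isConstr_Gk f N (k + 1)).inter (isConstr_Start n ε N))
    ((disjoint_Gk f N k).mono Set.inter_subset_left Set.inter_subset_left)

theorem cls_Start {ε N : ℕ} (hε : ε ≤ N) : cls (Start n ε N) = L ^ (n * (N - ε)) := by
  have h := cls_cell (σ := Fin n × Fin N) (κ := Empty) (fun e => e.elim) (fun e => e.elim) Set.univ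
    IsConstr.univ (Finset.univ ×ˢ Finset.univ.filter (fun j : Fin N => (j : ℕ) < ε))
    (fun e => e.elim) (n * (N - ε))
    (by
      rw [Finset.card_product, card_filter_lt N ε hε]
      simp only [Fintype.card_prod, Fintype.card_fin, Fintype.card_empty, Finset.card_univ,
        zero_add]
      rw [← mul_add, Nat.add_sub_cancel' hε])
  rw [cls_univ_eq] at h
  simp only [Set.mem_univ, true_and, Fintype.card_empty, pow_zero, one_mul] at h
  rw [← h]
  congr 1
  ext γ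
  simp only [Start, Set.mem_ofPred_eq, Finset.mem_product, Finset.mem_univ, true_and,
    Finset.mem_filter, Prod.forall]

theorem cls_Gk (f : MvPolynomial (Fin n) ℂ) {ε N : ℕ} (hε : ε ≤ N) (k : ℕ) :
    cls (Gk f N k ∩ Start n ε N) = L ^ (n * (N - ε)) -
      ∑ e ∈ Finset.range k, cls (arcs f N e ∩ Start n ε N) := by
  induction k with
  | zero =>
    rw [Finset.range_zero, Finset.sum_empty, sub_zero, ← cls_Start hε]
    congr 1
    ext γ
    simp [Gk]
  | succ k ih =>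
    rw [Finset.sum_range_succ, ← sub_sub, ← ih, cls_Gk_succ f ε N k, add_sub_cancel_left]

/-! ### Stratification by the order of `w` -/

theorem cls_strat {N : ℕ} {A : Set (Fin (n + 2) × Fin N → ℂ)} (hA : IsConstr A) (K : ℕ) :
    cls A = ∑ k ∈ Finset.range K, cls (A ∩ {x | wx x ∈ ordS N k}) +
      cls (A ∩ {x | wx x ∈ staS N K}) := by
  induction K with
  | zero =>
    rw [Finset.range_zero, Finset.sum_empty, zero_add]
    congr 1
    ext x
    simp [staS]
  | succ K ih =>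
    rw [Finset.sum_range_succ, add_assoc, ← cls_union (hA.inter (isConstr_wx (isConstr_ordS N K)))
      (hA.inter (isConstr_wx (isConstr_staS N (K + 1)))), ← Set.inter_union_distrib_left]
    · rw [ih]
      congr 2
      rw [staS_eq_union]
      rfl
    · rw [Set.disjoint_left]
      rintro x ⟨-, h1⟩ ⟨-, h2⟩
      exact Set.disjoint_left.1 (disjoint_ordS N K) h1 h2

theorem mem_arcs_stab (f : MvPolynomial (Fin n) ℂ) {N m k : ℕ} (hm : m < N) (hk : k ≤ m)
    {x : Fin (n + 2) × Fin N → ℂ} (hx : wx x ∈ ordS N k) :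
    x ∈ arcs (stab f) N m ↔ gx x ∈ Gk f N k ∧ zx (polyMap (tw f N k) x) ∈ ordS N (m - k) := by
  obtain ⟨U, hU, hUx⟩ := exists_unit_of_ordS (hk.trans_lt hm) hx
  rw [mem_Gk, mem_ordS (by omega : m - k < N), zx_tw]
  simp only [arcs, Set.mem_ofPred_eq, PowerSeries.order_eq_nat, Nat.add_sub_cancel' hk]
  constructor
  · rintro ⟨h1, h2⟩
    refine ⟨fun l hl => ?_, fun j hj => ?_, h1⟩
    · rw [← coeff_lt hUx hl]
      exact h2 l (by omega)
    · rw [zx_tw]
      exact h2 _ (by omega)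
  · rintro ⟨h1, h2, h3⟩
    refine ⟨h3, fun l hl => ?_⟩
    by_cases hlk : l < k
    · rw [coeff_lt hUx hlk]
      exact h1 l hlk
    · have h4 := h2 ⟨l - k, by omega⟩ (show l - k < m - k by omega)
      rw [zx_tw] at h4
      rwa [show k + ((⟨l - k, by omega⟩ : Fin N) : ℕ) = l from by simp only; omega] at h4

theorem mem_Start_iff {N ε : ℕ} {x : Fin (n + 2) × Fin N → ℂ} :
    x ∈ Start (n + 2) ε N ↔ gx x ∈ Start n ε N ∧ wx x ∈ staS N ε ∧ zx x ∈ staS N ε := by
  rw [mem_staS, mem_staS]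
  constructor
  · intro h
    exact ⟨fun j k hk => h (Fin.castAdd 2 j) k hk, fun k hk => h (Fin.natAdd n 0) k hk,
      fun k hk => h (Fin.natAdd n 1) k hk⟩
  · rintro ⟨h1, h2, h3⟩ i k hk
    revert hk
    refine Fin.addCases (fun i => ?_) (fun i => ?_) i
    · exact fun hk => h1 i k hk
    · have h4 : i = 0 ∨ i = 1 := by omega
      rcases h4 with rfl | rfl
      · exact fun hk => h2 k hk
      · exact fun hk => h3 k hk

theorem cls_stratum (f : MvPolynomial (Fin n) ℂ) {N m k : ℕ} (hm : m < N) (hk : k ≤ m) (ε : ℕ)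
    {A : Set (Fin n × Fin N → ℂ)} (hA : IsConstr A)
    (h : ∀ x : Fin (n + 2) × Fin N → ℂ, wx x ∈ ordS N k →
      (x ∈ arcs (stab f) N m ∩ Start (n + 2) ε N ↔
        gx x ∈ A ∧ zx (polyMap (tw f N k) x) ∈ ordS N (m - k))) :
    cls (arcs (stab f) N m ∩ Start (n + 2) ε N ∩ {x | wx x ∈ ordS N k}) =
      cls A * ((L - 1) * L ^ (N - 1 - k) * ((L - 1) * L ^ (N - 1 - (m - k)))) := by
  rw [← cls_ordS (hk.trans_lt hm), ← cls_ordS (by omega : m - k < N),
    ← cls3 hA (isConstr_ordS N k) (isConstr_ordS N (m - k))]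
  refine cls_tw f (hk.trans_lt hm) (((isConstr_arcs _ _ _).inter (isConstr_Start _ _ _)).inter
    (isConstr_wx (isConstr_ordS N k))) (isConstr3 hA (isConstr_ordS N k) (isConstr_ordS N (m - k)))
    (fun x hx => hx.2) (fun x hx => hx.2.1) fun x hx => ?_
  simp only [Set.mem_inter_iff, Set.mem_ofPred_eq, gx_tw, wx_tw]
  have h1 := h x hx
  simp only [Set.mem_inter_iff] at h1
  tauto

theorem mem_arcs_stab_of_dvd (f : MvPolynomial (Fin n) ℂ) {N m : ℕ}
    {x : Fin (n + 2) × Fin N → ℂ}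
    (h : (PowerSeries.X : PowerSeries ℂ) ^ (m + 1) ∣ ser (wx x) * ser (zx x)) :
    x ∈ arcs (stab f) N m ↔ gx x ∈ arcs f N m := by
  simp only [arcs, Set.mem_ofPred_eq]
  refine order_congr (Nat.lt_succ_self m) ?_
  rw [aeval_stab, add_sub_cancel_left]
  exact h

theorem cls_zero (f : MvPolynomial (Fin n) ℂ) {N : ℕ} (m ε : ℕ) (hε : ε ≤ N) :
    cls (arcs (stab f) N m ∩ Start (n + 2) ε N ∩ {x | wx x ∈ staS N N}) =
      cls (arcs f N m ∩ Start n ε N) * L ^ (N - ε) := by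
  have h1 := cls3 (n := n) ((isConstr_arcs f N m).inter (isConstr_Start n ε N))
    (isConstr_staS N N) (isConstr_staS N ε)
  rw [cls_staS le_rfl, cls_staS hε, Nat.sub_self, pow_zero, one_mul] at h1
  rw [← h1]
  congr 1
  ext x
  simp only [Set.mem_inter_iff, Set.mem_ofPred_eq, mem_Start_iff]
  have h2 : wx x ∈ staS N N → (wx x ∈ staS N ε ∧
      (x ∈ arcs (stab f) N m ↔ gx x ∈ arcs f N m)) := by
    intro h
    rw [mem_staS] at h
    refine ⟨mem_staS.2 fun j _ => h j j.2, mem_arcs_stab_of_dvd f ?_⟩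
    have h3 : ser (wx x) = 0 := by
      ext l
      rw [coeff_ser]
      split_ifs with hl
      · rw [h _ hl]
        simp
      · simp
    rw [h3, zero_mul]
    exact dvd_zero _
  tauto

/-- The class for `ε = 0`. -/
theorem cls_total0 (f : MvPolynomial (Fin n) ℂ) (m : ℕ) :
    cls (arcs (stab f) (m + 1) m ∩ Start (n + 2) 0 (m + 1)) =
      ∑ k ∈ Finset.range (m + 1), cls (Gk f (m + 1) k ∩ Start n 0 (m + 1)) *
        ((L - 1) ^ 2 * L ^ m) + cls (arcs f (m + 1) m ∩ Start n 0 (m + 1)) * L ^ (m + 1) := by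
  rw [cls_strat ((isConstr_arcs _ _ _).inter (isConstr_Start _ _ _)) (m + 1),
    cls_zero f m 0 (Nat.zero_le _), Nat.sub_zero]
  congr 1
  refine Finset.sum_congr rfl fun k hk => ?_
  have hk' : k ≤ m := Nat.lt_succ_iff.1 (Finset.mem_range.1 hk)
  rw [cls_stratum f (Nat.lt_succ_self m) hk' 0
    ((isConstr_Gk f (m + 1) k).inter (isConstr_Start n 0 (m + 1)))]
  · congr 1
    have h1 : m + 1 - 1 - (m - k) = k := by omega
    have h2 : m + 1 - 1 - k = m - k := by omega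
    rw [h1, h2]
    have h3 : L ^ m = L ^ (m - k) * L ^ k := by rw [← pow_add, Nat.sub_add_cancel hk']
    rw [h3]
    ring
  · intro x hx
    have h1 : x ∈ Start (n + 2) 0 (m + 1) := fun j k hk => absurd hk (Nat.not_lt_zero _)
    have h2 : gx x ∈ Start n 0 (m + 1) := fun j k hk => absurd hk (Nat.not_lt_zero _)
    have h3 := mem_arcs_stab f (Nat.lt_succ_self m) hk' hx
    simp only [Set.mem_inter_iff]
    tauto

theorem cls_first1 (f : MvPolynomial (Fin n) ℂ) (m : ℕ) :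
    cls (arcs (stab f) (m + 1) m ∩ Start (n + 2) 1 (m + 1) ∩ {x | wx x ∈ ordS (m + 1) 0}) = 0 := by
  rw [← cls_empty (σ := Fin (n + 2) × Fin (m + 1))]
  congr 1
  rw [Set.eq_empty_iff_forall_notMem]
  rintro x ⟨⟨-, h1⟩, h2⟩
  exact h2.2 (mem_Start_iff.1 h1).2.1

theorem cls_mid1 (f : MvPolynomial (Fin n) ℂ) {m k : ℕ} (hk1 : 1 ≤ k) (hk : k < m) :
    cls (arcs (stab f) (m + 1) m ∩ Start (n + 2) 1 (m + 1) ∩ {x | wx x ∈ ordS (m + 1) k}) =
      cls (Gk f (m + 1) (k + 1) ∩ Start n 1 (m + 1)) * ((L - 1) ^ 2 * L ^ m) := by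
  rw [cls_stratum f (Nat.lt_succ_self m) hk.le 1
    ((isConstr_Gk f (m + 1) (k + 1)).inter (isConstr_Start n 1 (m + 1)))]
  · congr 1
    have h1 : m + 1 - 1 - (m - k) = k := by omega
    have h2 : m + 1 - 1 - k = m - k := by omega
    rw [h1, h2]
    have h3 : L ^ m = L ^ (m - k) * L ^ k := by rw [← pow_add, Nat.sub_add_cancel hk.le]
    rw [h3]
    ring
  · intro x hx
    have hkm : k < m + 1 := by omega
    obtain ⟨U, hU, hUx⟩ := exists_unit_of_ordS hkm hx
    have h1 : wx x ∈ staS (m + 1) 1 := by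
      rw [mem_staS]
      exact fun j hj => ((mem_ordS hkm).1 hx).1 j (by omega)
    have h2 := mem_arcs_stab f (Nat.lt_succ_self m) hk.le hx
    simp only [Set.mem_inter_iff, mem_Start_iff]
    have h3 : zx (polyMap (tw f (m + 1) k) x) ∈ ordS (m + 1) (m - k) →
        (zx x ∈ staS (m + 1) 1 ↔
          PowerSeries.coeff k (aeval (arc (gx x)) f : PowerSeries ℂ) = 0) := by
      intro h
      rw [mem_ordS (by omega : m - k < m + 1)] at h
      have h4 := h.1 0 (by simp only [Fin.val_zero]; omega)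
      rw [zx_tw, coeff_tw hUx, Fin.val_zero, add_zero,
        PowerSeries.coeff_zero_eq_constantCoeff_apply, map_mul,
        ← PowerSeries.coeff_zero_eq_constantCoeff_apply (φ := ser (zx x)), coeff_ser,
        dif_pos (Nat.succ_pos m)] at h4
      rw [mem_staS]
      constructor
      · intro h5
        rw [h5 ⟨0, Nat.succ_pos m⟩ (by simp), mul_zero, add_zero] at h4
        exact h4
      · intro h5 j hj
        rw [h5, zero_add] at h4
        have h6 : j = ⟨0, Nat.succ_pos m⟩ := by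
          ext
          simp only
          omega
        rw [h6]
        exact (mul_eq_zero.1 h4).resolve_left hU
    have h7 : gx x ∈ Gk f (m + 1) (k + 1) ↔ gx x ∈ Gk f (m + 1) k ∧
        PowerSeries.coeff k (aeval (arc (gx x)) f : PowerSeries ℂ) = 0 := by
      rw [mem_Gk, mem_Gk]
      constructor
      · exact fun h => ⟨fun l hl => h l (by omega), h k (by omega)⟩
      · rintro ⟨h8, h9⟩ l hl
        rcases Nat.lt_succ_iff_lt_or_eq.1 hl with h10 | h10
        · exact h8 l h10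
        · rw [h10]; exact h9
    tauto

theorem cls_last1 (f : MvPolynomial (Fin n) ℂ) {m : ℕ} (hm : 1 ≤ m) :
    cls (arcs (stab f) (m + 1) m ∩ Start (n + 2) 1 (m + 1) ∩ {x | wx x ∈ ordS (m + 1) m}) =
      cls (arcs f (m + 1) m ∩ Start n 1 (m + 1)) * ((L - 1) * L ^ m) := by
  have h1 := cls3 (n := n) ((isConstr_arcs f (m + 1) m).inter (isConstr_Start n 1 (m + 1)))
    (isConstr_ordS (m + 1) m) (isConstr_staS (m + 1) 1)
  rw [cls_staS (by omega), cls_ordS (by omega : m < m + 1), Nat.add_sub_cancel, Nat.sub_self,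
    pow_zero, mul_one] at h1
  rw [← h1]
  congr 1
  ext x
  simp only [Set.mem_inter_iff, Set.mem_ofPred_eq, mem_Start_iff]
  have h2 : wx x ∈ ordS (m + 1) m → wx x ∈ staS (m + 1) 1 := by
    intro h
    rw [mem_ordS (Nat.lt_succ_self m)] at h
    exact mem_staS.2 fun j hj => h.1 j (by omega)
  have h3 : wx x ∈ ordS (m + 1) m → zx x ∈ staS (m + 1) 1 →
      (x ∈ arcs (stab f) (m + 1) m ↔ gx x ∈ arcs f (m + 1) m) := by
    intro h h'
    refine mem_arcs_stab_of_dvd f ?_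
    obtain ⟨U, hU, hUx⟩ := exists_unit_of_ordS (Nat.lt_succ_self m) h
    rw [hUx, pow_succ]
    refine mul_dvd_mul (Dvd.intro _ rfl) ?_
    rw [PowerSeries.X_dvd_iff, ← PowerSeries.coeff_zero_eq_constantCoeff_apply, coeff_ser,
      dif_pos (Nat.succ_pos m)]
    exact mem_staS.1 h' _ (by simp)
  tauto

/-- The class for `ε = 1`. -/
theorem cls_total1 (f : MvPolynomial (Fin n) ℂ) (m : ℕ) :
    cls (arcs (stab f) (m + 1 + 1) (m + 1) ∩ Start (n + 2) 1 (m + 1 + 1)) =
      ∑ k ∈ Finset.range m, cls (Gk f (m + 1 + 1) (k + 2) ∩ Start n 1 (m + 1 + 1)) *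
        ((L - 1) ^ 2 * L ^ (m + 1)) +
        cls (arcs f (m + 1 + 1) (m + 1) ∩ Start n 1 (m + 1 + 1)) * L ^ (m + 1 + 1) := by
  rw [cls_strat ((isConstr_arcs _ _ _).inter (isConstr_Start _ _ _)) (m + 1 + 1),
    cls_zero f (m + 1) 1 (by omega), Finset.sum_range_succ, Finset.sum_range_succ',
    cls_last1 f (by omega), cls_first1, add_zero, add_assoc]
  congr 1
  · refine Finset.sum_congr rfl fun k hk => ?_
    rw [cls_mid1 f (by omega) (by have := Finset.mem_range.1 hk; omega)]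
  · have h1 : m + 1 + 1 - 1 = m + 1 := by omega
    rw [h1, pow_succ L (m + 1)]
    ring

/-! ### Normalisation -/

theorem coe_inv_pow (k : ℕ) : (((LU ^ k)⁻¹ : Motˣ) : Mot) = ((LU⁻¹ : Motˣ) : Mot) ^ k := by
  rw [← inv_pow, Units.val_pow_eq_pow_val]

theorem inv_mul_L : ((LU⁻¹ : Motˣ) : Mot) * algebraMap K0 Mot L = 1 := by
  rw [← LU_val]
  exact Units.inv_mul LU

theorem sum_tri (z : ℕ → Mot) (M : ℕ) :
    ∑ e ∈ Finset.range (M + 1), ((M + 1 - e : ℕ) : Mot) * z e =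
      ∑ e ∈ Finset.range M, ((M - e : ℕ) : Mot) * z e + ∑ e ∈ Finset.range (M + 1), z e := by
  rw [Finset.sum_range_succ, Finset.sum_range_succ z, ← add_assoc, ← Finset.sum_add_distrib]
  congr 1
  · refine Finset.sum_congr rfl fun e he => ?_
    have h := Finset.mem_range.1 he
    rw [show M + 1 - e = (M - e) + 1 by omega]
    push_cast
    ring
  · rw [show M + 1 - M = 1 by omega]
    simp

theorem sum_tri0 (c : Mot) (z : ℕ → Mot) (m : ℕ) :
    ∑ k ∈ Finset.range (m + 1), (c - ∑ e ∈ Finset.range k, z e) =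
      c * ((m + 1 : ℕ) : Mot) - ∑ e ∈ Finset.range m, ((m - e : ℕ) : Mot) * z e := by
  induction m with
  | zero => simp
  | succ m ih =>
    rw [Finset.sum_range_succ, ih, sum_tri]
    push_cast
    ring

theorem sum_tri1 (c : Mot) (z : ℕ → Mot) (h0 : z 0 = 0) (m : ℕ) :
    ∑ k ∈ Finset.range m, (c - ∑ e ∈ Finset.range (k + 2), z e) =
      c * ((m : ℕ) : Mot) - ∑ e ∈ Finset.range (m + 1), ((m + 1 - e : ℕ) : Mot) * z e := by
  induction m with
  | zero => simp [h0]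
  | succ m ih =>
    rw [Finset.sum_range_succ, ih, sum_tri z (m + 1)]
    push_cast
    ring

theorem Zcoeff_eq_muE (f : MvPolynomial (Fin n) ℂ) (k : ℕ) :
    Zcoeff f k = muE f 0 (k + 1) k := by
  have h := congrArg (PowerSeries.coeff k) (Zmot_eq f)
  rwa [Zmot, ZE, PowerSeries.coeff_mk, PowerSeries.coeff_mk] at h

theorem muE_mul_eq (f : MvPolynomial (Fin n) ℂ) (ε : ℕ) (hε : ε ≤ 1) {m e : ℕ} (he : e < m + 1) :
    ((LU⁻¹ : Motˣ) : Mot) ^ (n * (m + 1)) *
      algebraMap K0 Mot (cls (arcs f (m + 1) e ∩ Start n ε (m + 1))) = muE f ε (e + 1) e := by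
  rw [← muE_eq f he hε, ← coe_inv_pow]
  rfl

theorem Gk_mul_eq (f : MvPolynomial (Fin n) ℂ) (ε : ℕ) (hε : ε ≤ 1) {m k : ℕ} (hk : k ≤ m + 1) :
    ((LU⁻¹ : Motˣ) : Mot) ^ (n * (m + 1)) *
      algebraMap K0 Mot (cls (Gk f (m + 1) k ∩ Start n ε (m + 1))) =
      ((LU⁻¹ : Motˣ) : Mot) ^ (n * ε) - ∑ e ∈ Finset.range k, muE f ε (e + 1) e := by
  rw [cls_Gk f (by omega : ε ≤ m + 1), map_sub, mul_sub, map_sum, Finset.mul_sum, map_pow]
  congr 1
  · have h1 : n * (m + 1) = n * ε + n * (m + 1 - ε) := by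
      rw [← mul_add]
      congr 1
      omega
    rw [h1, pow_add, mul_assoc, ← mul_pow, inv_mul_L, one_pow, mul_one]
  · refine Finset.sum_congr rfl fun e he => ?_
    exact muE_mul_eq f ε hε (by have := Finset.mem_range.1 he; omega)

end SZ

/-- The coefficients of the motivic zeta function of `f + w z`. -/
theorem Zcoeff_stab (f : MvPolynomial (Fin n) ℂ) (m : ℕ) :
    Zcoeff (stab f) m = ((LU⁻¹ : Motˣ) : Mot) ^ m *
      ((1 - ((LU⁻¹ : Motˣ) : Mot)) ^ 2 * (((m + 1 : ℕ) : Mot) -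
        ∑ e ∈ Finset.range m, ((m - e : ℕ) : Mot) * Zcoeff f e) +
        ((LU⁻¹ : Motˣ) : Mot) * Zcoeff f m) := by
  have h1 : ∑ k ∈ Finset.range (m + 1), (1 - ∑ e ∈ Finset.range k, Zcoeff f e) =
      ((m + 1 : ℕ) : Mot) - ∑ e ∈ Finset.range m, ((m - e : ℕ) : Mot) * Zcoeff f e := by
    rw [SZ.sum_tri0, one_mul]
  rw [← h1, SZ.Zcoeff_eq_muE (stab f)]
  unfold muE clsM
  rw [SZ.coe_inv_pow, SZ.cls_total0, map_add, map_mul, map_sum, map_pow]
  have h2 : ∀ k ∈ Finset.range (m + 1), (1 - ∑ e ∈ Finset.range k, Zcoeff f e) =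
      ((LU⁻¹ : Motˣ) : Mot) ^ (n * (m + 1)) *
        algebraMap K0 Mot (cls (SZ.Gk f (m + 1) k ∩ Start n 0 (m + 1))) := by
    intro k hk
    rw [SZ.Gk_mul_eq f 0 (by omega) (Finset.mem_range.1 hk).le, mul_zero, pow_zero]
    congr 1
    exact Finset.sum_congr rfl fun e _ => SZ.Zcoeff_eq_muE f e
  rw [Finset.sum_congr rfl h2, SZ.Zcoeff_eq_muE f m, ← SZ.muE_mul_eq f 0 (by omega)
    (Nat.lt_succ_self m), ← Finset.mul_sum]
  simp only [map_mul, map_pow, map_sub, map_one]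
  rw [← Finset.sum_mul]
  generalize ∑ k ∈ Finset.range (m + 1), algebraMap K0 Mot
    (cls (SZ.Gk f (m + 1) k ∩ Start n 0 (m + 1))) = G
  generalize algebraMap K0 Mot (cls (arcs f (m + 1) m ∩ Start n 0 (m + 1))) = A
  have h3 := SZ.inv_mul_L
  generalize algebraMap K0 Mot L = l at *
  generalize ((LU⁻¹ : Motˣ) : Mot) = q at *
  have h4 : q ^ ((n + 2) * (m + 1)) * (G * ((l - 1) ^ 2 * l ^ m) + A * l ^ (m + 1)) =
      (q * l) ^ m * (q ^ m * (q ^ (n * (m + 1)) * ((q * l - q) ^ 2 * G +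
        (q * l) * q * A))) := by
    ring
  rw [h4, h3]
  ring

/-- The coefficients of the local motivic zeta function of `f + w z`. -/
theorem Zcoeff0_stab (f : MvPolynomial (Fin n) ℂ) (h0 : coeff 0 f = 0) (m : ℕ) :
    Zcoeff0 (stab f) m = ((LU⁻¹ : Motˣ) : Mot) ^ m *
      ((1 - ((LU⁻¹ : Motˣ) : Mot)) ^ 2 * (((LU⁻¹ : Motˣ) : Mot) ^ n * ((m - 1 : ℕ) : Mot) -
        ∑ e ∈ Finset.range m, ((m - e : ℕ) : Mot) * Zcoeff0 f e) +
        ((LU⁻¹ : Motˣ) : Mot) * Zcoeff0 f m) := by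
  have hz : ∀ {k : ℕ} (g : MvPolynomial (Fin k) ℂ), coeff 0 g = 0 → Zcoeff0 g 0 = 0 := by
    intro k g hg
    rw [Zcoeff0_eq_muE]
    unfold muE clsM
    have h1 : arcs g (0 + 1) 0 ∩ Start k 1 (0 + 1) = ∅ := by
      rw [Set.eq_empty_iff_forall_notMem]
      rintro γ ⟨h1, h2⟩
      rw [mem_Start_one] at h2
      simp only [arcs, Set.mem_ofPred_eq, PowerSeries.order_eq_nat] at h1
      apply h1.1
      rw [PowerSeries.coeff_zero_eq_constantCoeff_apply,
        constantCoeff_aeval (constantCoeff_arc h2), hg]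
    rw [h1, cls_empty, map_zero, mul_zero]
  have hs : coeff 0 (stab f) = 0 := by
    rw [← constantCoeff_eq] at h0 ⊢
    unfold stab
    rw [map_add, map_mul, constantCoeff_X, zero_mul, add_zero, constantCoeff_rename, h0]
  rcases Nat.eq_zero_or_pos m with rfl | hm
  · rw [hz _ hs, hz _ h0]
    simp
  obtain ⟨M, rfl⟩ := Nat.exists_eq_succ_of_ne_zero hm.ne'
  rw [Nat.succ_eq_add_one, Nat.add_sub_cancel]
  have h1 : ∑ k ∈ Finset.range M, (((LU⁻¹ : Motˣ) : Mot) ^ n -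
      ∑ e ∈ Finset.range (k + 2), Zcoeff0 f e) = ((LU⁻¹ : Motˣ) : Mot) ^ n * ((M : ℕ) : Mot) -
        ∑ e ∈ Finset.range (M + 1), ((M + 1 - e : ℕ) : Mot) * Zcoeff0 f e :=
    SZ.sum_tri1 _ _ (hz _ h0) M
  rw [← h1, Zcoeff0_eq_muE (stab f)]
  unfold muE clsM
  rw [SZ.coe_inv_pow, SZ.cls_total1, map_add, map_mul, map_sum, map_pow]
  have h2 : ∀ k ∈ Finset.range M, (((LU⁻¹ : Motˣ) : Mot) ^ n -
      ∑ e ∈ Finset.range (k + 2), Zcoeff0 f e) =
      ((LU⁻¹ : Motˣ) : Mot) ^ (n * (M + 1 + 1)) *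
        algebraMap K0 Mot (cls (SZ.Gk f (M + 1 + 1) (k + 2) ∩ Start n 1 (M + 1 + 1))) := by
    intro k hk
    rw [SZ.Gk_mul_eq f 1 le_rfl (by have := Finset.mem_range.1 hk; omega), mul_one]
    congr 1
    exact Finset.sum_congr rfl fun e _ => Zcoeff0_eq_muE f e
  rw [Finset.sum_congr rfl h2, Zcoeff0_eq_muE f (M + 1), ← SZ.muE_mul_eq f 1 le_rfl
    (Nat.lt_succ_self (M + 1)), ← Finset.mul_sum]
  simp only [map_mul, map_pow, map_sub, map_one]
  rw [← Finset.sum_mul]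
  generalize ∑ k ∈ Finset.range M, algebraMap K0 Mot
    (cls (SZ.Gk f (M + 1 + 1) (k + 2) ∩ Start n 1 (M + 1 + 1))) = G
  generalize algebraMap K0 Mot (cls (arcs f (M + 1 + 1) (M + 1) ∩ Start n 1 (M + 1 + 1))) = A
  have h3 := SZ.inv_mul_L
  generalize algebraMap K0 Mot L = l at *
  generalize ((LU⁻¹ : Motˣ) : Mot) = q at *
  have h4 : q ^ ((n + 2) * (M + 1 + 1)) * (G * ((l - 1) ^ 2 * l ^ (M + 1)) +
      A * l ^ (M + 1 + 1)) =
      (q * l) ^ (M + 1) * (q ^ (M + 1) * (q ^ (n * (M + 1 + 1)) * ((q * l - q) ^ 2 * G +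
        (q * l) * q * A))) := by
    ring
  rw [h4, h3]
  ring

end MPb07157
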