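import Pool.Agent.Lib.MP_b07157_agS.SClass

/-!
# Further members of the class of stably non-degenerate germs: two variables, corank two
-/

noncomputable section

namespace MPb07157

open MvPolynomial

variable {n : ℕ}

/-- Units. -/
theorem StableLoc.of_coeff_ne {f : MvPolynomial (Fin n) ℂ} (h : coeff 0 f ≠ 0) :
    StableLoc n f := by
  classical
  refine StableLoc.nondeg f fun w hw p hp hz => ?_
  exfalso
  apply h
  have h1 : initialPart f w = monomial 0 (coeff 0 f) := by
    unfold initialPart
    rw [Finset.sum_eq_single 0]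
    · intro v hv hv0
      exfalso
      apply hv0
      rw [Finset.mem_filter] at hv
      have h2 := hv.2 0 (mem_support_iff.2 h)
      simp only [Finsupp.coe_zero, Pi.zero_apply, mul_zero, Finset.sum_const_zero] at h2
      have h3 := Finset.sum_eq_zero_iff.1 (Nat.le_zero.1 h2)
      refine Finsupp.ext fun j => ?_
      have h4 := h3 j (Finset.mem_univ j)
      rw [Finsupp.coe_zero, Pi.zero_apply]
      exact (Nat.mul_eq_zero.1 h4).resolve_left (hw j).ne'
    · intro h2
      exfalso
      apply h2
      rw [Finset.mem_filter]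
      refine ⟨mem_support_iff.2 h, fun u _ => ?_⟩
      simp
  rw [h1, eval_monomial, Finsupp.prod_zero_index, mul_one] at hz
  exact hz

theorem suspP_zero (g : MvPowerSeries (Fin 2) ℂ) (e : Fin 0 → ℕ) :
    SU.suspP (r := 0) g e = g := by
  have h1 : SU.suspP (r := 0) g e = MvPowerSeries.subst (fun j : Fin 2 =>
      (MvPowerSeries.X j : MvPowerSeries (Fin 2) ℂ)) g := by
    unfold SU.suspP
    rw [Finset.univ_eq_empty, Finset.sum_empty]
    exact add_zero _
  rw [h1]
  exact congrFun MvPowerSeries.subst_self g

/-- All polynomials in two variables. -/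
theorem StableLoc.plane (f : MvPolynomial (Fin 2) ℂ) : StableLoc 2 f := by
  by_cases h0 : coeff 0 f = 0
  · refine StableLoc.susp (r := 0) f AlgEquiv.refl 1 (f : MvPowerSeries (Fin 2) ℂ) Fin.elim0
      (fun i => i.elim0) ?_ ?_
    · rw [← MvPowerSeries.coeff_zero_eq_constantCoeff_apply, MvPolynomial.coeff_coe, h0]
    · rw [suspP_zero]
      exact (one_mul _).symm
  · exact StableLoc.of_coeff_ne h0

/-- A variable. -/
theorem StableLoc.of_X (i : Fin n) : StableLoc n (X i : MvPolynomial (Fin n) ℂ) := by
  classical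
  refine StableLoc.nondeg _ fun w _ => SU.NdH.isNondeg_of_own (X_ne_zero i) ?_ w
  intro v hv
  rw [support_X, Finset.mem_singleton] at hv
  subst hv
  refine ⟨i, by rw [Finsupp.single_eq_same]; exact one_ne_zero, fun u hu _ => ?_⟩
  rw [support_X, Finset.mem_singleton] at hu
  exact hu

/-- Smooth germs. -/
theorem StableLoc.smooth {f : MvPolynomial (Fin n) ℂ} (h0 : coeff 0 f = 0) {i : Fin n}
    (hi : coeff (Finsupp.single i 1) f ≠ 0) : StableLoc n f := by
  classical
  have hps : ∀ j, MvPowerSeries.constantCoeff (MvPowerSeries.pderiv ℂ j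
      (f : MvPowerSeries (Fin n) ℂ)) = coeff (Finsupp.single j 1) f := by
    intro j
    rw [Spl.cc_pderiv, MvPolynomial.coeff_coe]
  obtain ⟨e, he⟩ := Spl.exists_equiv' (a := fun j => if j = i then
      (f : MvPowerSeries (Fin n) ℂ) else MvPowerSeries.X j)
    (by
      intro j
      split_ifs with h
      · rw [← MvPowerSeries.coeff_zero_eq_constantCoeff_apply, MvPolynomial.coeff_coe, h0]
      · rw [MvPowerSeries.constantCoeff_X])
    (by
      intro v hv
      have h1 : ∀ j, j ≠ i → v j = 0 := by
        intro j hj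
        have h2 := hv j
        simp only [if_neg hj, Spl.pderiv_X] at h2
        rw [Finset.sum_eq_single j] at h2
        · rwa [if_pos rfl, map_one, one_mul] at h2
        · intro l _ hl
          rw [if_neg hl, map_zero, zero_mul]
        · intro h
          exact absurd (Finset.mem_univ _) h
      have h2 := hv i
      simp only [if_true, hps] at h2
      rw [Finset.sum_eq_single i] at h2
      · funext j
        by_cases hj : j = i
        · rw [hj]
          exact (mul_eq_zero.1 h2).resolve_left hi
        · exact h1 j hj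
      · intro l _ hl
        rw [h1 l hl, mul_zero]
      · intro h
        exact absurd (Finset.mem_univ _) h)
  refine StableLoc.equiv f (X i) 1 one_pos ⟨e, 1, ?_⟩ (StableLoc.of_X i)
  rw [pow_one, Units.val_one, one_mul, MvPolynomial.coe_X, he, if_pos rfl]

/-- One variable. -/
theorem StableLoc.one {f : MvPolynomial (Fin 1) ℂ} (hf : f ≠ 0) : StableLoc 1 f := by
  classical
  refine StableLoc.nondeg f fun w hw u hu hz => ?_
  exfalso
  obtain ⟨v, hv, hmin⟩ := Finset.exists_min_image f.support (fun v => ∑ j, w j * v j)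
    (MvPolynomial.support_nonempty.2 hf)
  unfold initialPart at hz
  rw [map_sum, Finset.sum_eq_single v] at hz
  · rw [eval_monomial, Finsupp.prod_fintype _ _ fun _ => pow_zero _] at hz
    exact mul_ne_zero (mem_support_iff.1 hv)
      (Finset.prod_ne_zero_iff.2 fun i _ => pow_ne_zero _ (hu i)) hz
  · intro v' hv' hne
    exfalso
    apply hne
    rw [Finset.mem_filter] at hv'
    have h1 := hmin v' hv'.1
    have h2 := hv'.2 v hv
    simp only [Fin.sum_univ_one] at h1 h2
    have h3 : w 0 * v 0 = w 0 * v' 0 := le_antisymm h1 h2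
    refine Finsupp.ext fun i => ?_
    rw [Subsingleton.elim i 0]
    exact (Nat.eq_of_mul_eq_mul_left (hw 0) h3).symm
  · intro h
    exact absurd (Finset.mem_filter.2 ⟨hv, hmin⟩) h

theorem StableLoc.corank_aux {N r : ℕ} (hN : N = 2 + r) {f : MvPolynomial (Fin N) ℂ}
    (h0 : coeff 0 f = 0) (hs : ∀ i, coeff (Finsupp.single i 1) f = 0)
    (hH : r ≤ (SU.hess f).rank) : StableLoc N f := by
  subst hN
  obtain ⟨e, g, hg, he⟩ := Spl.splitting r (f : MvPowerSeries (Fin (2 + r)) ℂ)
    (by rw [← MvPowerSeries.coeff_zero_eq_constantCoeff_apply, MvPolynomial.coeff_coe, h0])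
    (by
      funext i
      unfold Spl.Gr
      rw [Spl.cc_pderiv, MvPolynomial.coeff_coe, hs]
      rfl)
    (by
      have h1 : Spl.Hs (f : MvPowerSeries (Fin (2 + r)) ℂ) = SU.hess f := by
        ext i j
        rw [Spl.Hs_apply, MvPowerSeries.pderiv_coe, MvPowerSeries.pderiv_coe,
          ← MvPowerSeries.coeff_zero_eq_constantCoeff_apply, MvPolynomial.coeff_coe]
        rfl
      rw [h1]
      exact hH)
  refine StableLoc.susp f e.symm 1 g (fun _ => 2) (fun _ => le_rfl) hg ?_
  rw [Units.val_one, one_mul, ← he, AlgEquiv.symm_apply_apply]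

/-- **Germs of corank at most two.** -/
theorem StableLoc.corank {f : MvPolynomial (Fin n) ℂ} (hf : f ≠ 0)
    (hH : n ≤ (SU.hess f).rank + 2) : StableLoc n f := by
  classical
  by_cases h0 : coeff 0 f = 0
  swap
  · exact StableLoc.of_coeff_ne h0
  by_cases hs : ∃ i, coeff (Finsupp.single i 1) f ≠ 0
  · obtain ⟨i, hi⟩ := hs
    exact StableLoc.smooth h0 hi
  push Not at hs
  rcases n with _ | _ | n
  · exfalso
    apply hf
    ext v
    rw [Subsingleton.elim v 0, h0, coeff_zero]
  · exact StableLoc.one hf
  · exact StableLoc.corank_aux (r := n) (by omega) h0 hs (by omega)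

end MPb07157
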