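import Pool.Agent.Lib.MP_b07157_agS.SMain

/-!
# Reduction of the strong monodromy conjecture to cubic polynomials, global version

If `f = a g + f'`, then the automorphism `w ↦ w - a`, `z ↦ z + g` maps
`H = f' + a z - g w + w z` to `f + w z`.
-/

noncomputable section

namespace MPb07157

open MvPolynomial

variable {n : ℕ}

namespace Cub

/-- A polynomial in `x`, seen as a polynomial in `x, w, z`. -/
def em (p : MvPolynomial (Fin n) ℂ) : MvPolynomial (Fin (n + 2)) ℂ := rename (Fin.castAdd 2) p

/-- The variable `w`. -/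
def W (n : ℕ) : MvPolynomial (Fin (n + 2)) ℂ := X (Fin.natAdd n 0)

/-- The variable `z`. -/
def Y (n : ℕ) : MvPolynomial (Fin (n + 2)) ℂ := X (Fin.natAdd n 1)

/-- The images of the variables under `w ↦ w + a`, `z ↦ z + g`. -/
def sh (a g : MvPolynomial (Fin n) ℂ) (i : Fin (n + 2)) : MvPolynomial (Fin (n + 2)) ℂ :=
  Fin.addCases (fun i => X (Fin.castAdd 2 i))
    (fun k : Fin 2 => X (Fin.natAdd n k) + if k = 0 then em a else em g) i

theorem sh_castAdd (a g : MvPolynomial (Fin n) ℂ) (i : Fin n) :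
    sh a g (Fin.castAdd 2 i) = X (Fin.castAdd 2 i) := by
  simp [sh]

theorem sh_natAdd (a g : MvPolynomial (Fin n) ℂ) (k : Fin 2) :
    sh a g (Fin.natAdd n k) = X (Fin.natAdd n k) + if k = 0 then em a else em g := by
  simp [sh]

theorem aeval_sh_em (a g p : MvPolynomial (Fin n) ℂ) : aeval (sh a g) (em p) = em p := by
  unfold em
  rw [aeval_rename]
  have h : (sh a g ∘ Fin.castAdd 2) = fun i => X (Fin.castAdd 2 i) := by
    funext i
    exact sh_castAdd a g i
  have h2 : (aeval fun i => (X (Fin.castAdd 2 i) : MvPolynomial (Fin (n + 2)) ℂ)) =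
      (rename (Fin.castAdd 2) : MvPolynomial (Fin n) ℂ →ₐ[ℂ] MvPolynomial (Fin (n + 2)) ℂ) := by
    apply MvPolynomial.algHom_ext
    intro i
    simp
  rw [h, h2]

theorem aeval_sh_comp (a g : MvPolynomial (Fin n) ℂ) :
    (aeval (sh a g) : MvPolynomial (Fin (n + 2)) ℂ →ₐ[ℂ] MvPolynomial (Fin (n + 2)) ℂ).comp
      (aeval (sh (-a) (-g))) = AlgHom.id ℂ _ := by
  apply MvPolynomial.algHom_ext
  intro i
  rw [AlgHom.comp_apply, aeval_X, AlgHom.id_apply]
  refine Fin.addCases (fun i => ?_) (fun k => ?_) i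
  · rw [sh_castAdd, aeval_X, sh_castAdd]
  · rw [sh_natAdd, map_add, aeval_X, sh_natAdd]
    split_ifs
    · rw [aeval_sh_em]
      unfold em
      rw [map_neg]
      ring
    · rw [aeval_sh_em]
      unfold em
      rw [map_neg]
      ring

/-- The automorphism `w ↦ w + a`, `z ↦ z + g`. -/
def shear (a g : MvPolynomial (Fin n) ℂ) :
    MvPolynomial (Fin (n + 2)) ℂ ≃ₐ[ℂ] MvPolynomial (Fin (n + 2)) ℂ :=
  AlgEquiv.ofAlgHom (aeval (sh a g)) (aeval (sh (-a) (-g))) (aeval_sh_comp a g)
    (by
      have h := aeval_sh_comp (-a) (-g)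
      rwa [neg_neg, neg_neg] at h)

theorem shear_apply (a g : MvPolynomial (Fin n) ℂ) (p : MvPolynomial (Fin (n + 2)) ℂ) :
    shear a g p = aeval (sh a g) p := rfl

/-- The polynomial `f' + a z - g w + w z`. -/
def stp (a g f' : MvPolynomial (Fin n) ℂ) : MvPolynomial (Fin (n + 2)) ℂ :=
  em f' + em a * Y n - em g * W n + W n * Y n

theorem shear_stp (a g f' : MvPolynomial (Fin n) ℂ) :
    shear (-a) g (stp a g f') = stab (a * g + f') := by
  have hW : aeval (sh (-a) g) (W n) = W n - em a := by
    unfold W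
    rw [aeval_X, sh_natAdd, if_pos rfl, em, map_neg, em, sub_eq_add_neg]
  have hY : aeval (sh (-a) g) (Y n) = Y n + em g := by
    unfold Y
    rw [aeval_X, sh_natAdd, if_neg one_ne_zero]
  rw [shear_apply, stp, map_add, map_sub, map_add, map_mul, map_mul, map_mul, aeval_sh_em,
    aeval_sh_em, aeval_sh_em, hW, hY]
  have h : stab (a * g + f') = em a * em g + em f' + W n * Y n := by
    unfold stab em W Y
    rw [map_add, map_mul]
  rw [h]
  ring

theorem polyEquivPow_stp (a g f' : MvPolynomial (Fin n) ℂ) :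
    PolyEquivPow (stab (a * g + f')) (stp a g f') 1 :=
  ⟨shear (-a) g, 1, one_ne_zero, by rw [shear_stp, pow_one, map_one, one_mul]⟩

theorem stp_ne_zero (a g f' : MvPolynomial (Fin n) ℂ) : stp a g f' ≠ 0 := by
  intro h
  have h1 := shear_stp a g f'
  rw [h, map_zero] at h1
  exact stab_ne_zero _ h1.symm

theorem coeff_zero_stp {a g f' : MvPolynomial (Fin n) ℂ} (h : coeff 0 f' = 0) :
    coeff 0 (stp a g f') = 0 := by
  rw [← constantCoeff_eq] at h ⊢
  unfold stp W Y em
  rw [map_add, map_sub, map_add, map_mul, map_mul, map_mul, constantCoeff_X, constantCoeff_X,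
    constantCoeff_rename, h]
  ring

/-! ### The measure -/

/-- The weight of a monomial. -/
def om {n : ℕ} (v : Fin n →₀ ℕ) : ℕ := if 4 ≤ v.degree then 3 ^ v.degree else 0

/-- The measure of a polynomial. -/
def mu (f : MvPolynomial (Fin n) ℂ) : ℕ := ∑ v ∈ f.support, om v

theorem mu_le_of_subset {f : MvPolynomial (Fin n) ℂ} {s : Finset (Fin n →₀ ℕ)}
    (h : f.support ⊆ s) : mu f ≤ ∑ v ∈ s, om v :=
  Finset.sum_le_sum_of_subset h

theorem mu_add (f g : MvPolynomial (Fin n) ℂ) : mu (f + g) ≤ mu f + mu g := by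
  classical
  refine (mu_le_of_subset (support_add (p := f) (q := g))).trans ?_
  rw [mu, mu, ← Finset.sum_union_inter]
  exact Nat.le_add_right _ _

theorem mu_neg (f : MvPolynomial (Fin n) ℂ) : mu (-f) = mu f := by
  unfold mu
  rw [support_neg]

theorem mu_sub (f g : MvPolynomial (Fin n) ℂ) : mu (f - g) ≤ mu f + mu g := by
  rw [sub_eq_add_neg]
  exact (mu_add f (-g)).trans (by rw [mu_neg])

theorem mu_monomial (v : Fin n →₀ ℕ) (c : ℂ) : mu (monomial v c) ≤ om v := by
  classical
  refine (mu_le_of_subset (support_monomial_subset)).trans ?_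
  rw [Finset.sum_singleton]

theorem mu_em (f : MvPolynomial (Fin n) ℂ) : mu (em f) = mu f := by
  classical
  unfold mu em
  rw [support_rename_of_injective (Fin.castAdd_injective n 2), Finset.sum_image]
  · refine Finset.sum_congr rfl fun v _ => ?_
    unfold om
    rw [Finsupp.degree_mapDomain]
  · intro v _ w _ h
    exact Finsupp.mapDomain_injective (Fin.castAdd_injective n 2) h

theorem mu_em_mul_X (v : Fin n →₀ ℕ) (c : ℂ) (k : Fin (n + 2)) {d : ℕ} (hd : v.degree + 1 = d) :
    mu (em (monomial v c) * X k) ≤ if 4 ≤ d then 3 ^ d else 0 := by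
  have h : em (monomial v c) * X k =
      monomial (Finsupp.mapDomain (Fin.castAdd 2) v + Finsupp.single k 1) c := by
    unfold em X
    rw [rename_monomial, monomial_mul, mul_one]
  rw [h]
  refine (mu_monomial _ _).trans ?_
  unfold om
  rw [map_add, Finsupp.degree_mapDomain, Finsupp.degree_single, hd]

theorem mu_WY : mu (W n * Y n) = 0 := by
  have h : W n * Y n = monomial (Finsupp.single (Fin.natAdd n (0 : Fin 2)) 1 +
      Finsupp.single (Fin.natAdd n (1 : Fin 2)) 1) 1 := by
    unfold W Y X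
    rw [monomial_mul, mul_one]
  have h1 := mu_monomial (Finsupp.single (Fin.natAdd n (0 : Fin 2)) 1 +
      Finsupp.single (Fin.natAdd n (1 : Fin 2)) 1) (1 : ℂ)
  rw [← h] at h1
  unfold om at h1
  rw [map_add, Finsupp.degree_single, Finsupp.degree_single, if_neg (by norm_num)] at h1
  exact Nat.le_zero.1 h1

theorem mu_erase {f : MvPolynomial (Fin n) ℂ} {v : Fin n →₀ ℕ} (hv : v ∈ f.support) :
    mu (f - monomial v (coeff v f)) + om v ≤ mu f := by
  classical
  have h : (f - monomial v (coeff v f)).support ⊆ f.support.erase v := by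
    intro u hu
    rw [mem_support_iff, coeff_sub, coeff_monomial] at hu
    rw [Finset.mem_erase, mem_support_iff]
    by_cases huv : v = u
    · subst huv
      rw [if_pos rfl, sub_self] at hu
      exact absurd rfl hu
    · rw [if_neg huv, sub_zero] at hu
      exact ⟨fun h => huv h.symm, hu⟩
  rw [add_comm]
  unfold mu
  rw [← Finset.add_sum_erase _ _ hv]
  exact Nat.add_le_add_left (Finset.sum_le_sum_of_subset h) _

/-- One step of the reduction. -/
theorem exists_step {f : MvPolynomial (Fin n) ℂ} (h0 : coeff 0 f = 0) (hd : 3 < f.totalDegree) :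
    ∃ a g f' : MvPolynomial (Fin n) ℂ, f = a * g + f' ∧ coeff 0 f' = 0 ∧
      coeff 0 a = 0 ∧ coeff 0 g = 0 ∧ mu (stp a g f') < mu f := by
  obtain ⟨v, hv, hdv⟩ : ∃ v ∈ f.support, 4 ≤ v.degree := by
    by_contra hcon
    push Not at hcon
    have h1 : f.totalDegree ≤ 3 := by
      refine Finset.sup_le fun v hv => ?_
      have h2 := hcon v hv
      have h3 : (v.sum fun _ e => e) = v.degree := rfl
      omega
    omega
  obtain ⟨u, huv, hu⟩ := Finsupp.exists_le_degree_eq v 2 (by omega)
  obtain ⟨w, rfl⟩ := exists_add_of_le huv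
  have hw : w.degree + 2 = (u + w).degree := by
    rw [map_add, hu]
    omega
  have hu0 : u ≠ 0 := by
    rintro rfl
    rw [map_zero] at hu
    omega
  have hw0 : w ≠ 0 := by
    rintro rfl
    rw [map_zero] at hw
    omega
  refine ⟨monomial u (coeff (u + w) f), monomial w 1, f - monomial (u + w) (coeff (u + w) f),
    ?_, ?_, ?_, ?_, ?_⟩
  · rw [monomial_mul, mul_one]
    ring
  · rw [coeff_sub, h0, coeff_monomial, if_neg, sub_zero]
    intro h
    rw [h, map_zero] at hdv
    omega
  · rw [coeff_monomial, if_neg hu0]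
  · rw [coeff_monomial, if_neg hw0]
  · have h1 := mu_erase hv
    have h2 := mu_em_mul_X u (coeff (u + w) f) (Fin.natAdd n 1) (d := 3) (by rw [hu])
    rw [if_neg (by norm_num)] at h2
    have h3 := mu_em_mul_X w (1 : ℂ) (Fin.natAdd n 0) rfl
    have h4 : (if 4 ≤ w.degree + 1 then 3 ^ (w.degree + 1) else 0) ≤ 3 ^ (w.degree + 1) := by
      split_ifs
      · exact le_rfl
      · exact Nat.zero_le _
    have h5 : om (u + w) = 3 ^ (w.degree + 1) * 3 := by
      unfold om
      rw [if_pos hdv, ← hw, ← pow_succ]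
    have h6 : 0 < 3 ^ (w.degree + 1) := by positivity
    have h7 := mu_add (em (f - monomial (u + w) (coeff (u + w) f)) +
      em (monomial u (coeff (u + w) f)) * Y n - em (monomial w 1) * W n) (W n * Y n)
    have h8 := mu_sub (em (f - monomial (u + w) (coeff (u + w) f)) +
      em (monomial u (coeff (u + w) f)) * Y n) (em (monomial w 1) * W n)
    have h9 := mu_add (em (f - monomial (u + w) (coeff (u + w) f)))
      (em (monomial u (coeff (u + w) f)) * Y n)
    rw [mu_em] at h9
    rw [mu_WY] at h7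
    unfold stp
    unfold W Y at *
    omega

/-- The global strong monodromy conjecture follows from its case of polynomials of degree at
most three. -/
theorem smcGlob_of_cubic
    (h : ∀ (n : ℕ) (f : MvPolynomial (Fin n) ℂ), f ≠ 0 → coeff 0 f = 0 → f.totalDegree ≤ 3 →
      SmcGlob f) :
    ∀ (k n : ℕ) (f : MvPolynomial (Fin n) ℂ), mu f ≤ k → f ≠ 0 → coeff 0 f = 0 → SmcGlob f := by
  intro k
  induction k with
  | zero =>
    intro n f hk hf h0
    by_cases hd : f.totalDegree ≤ 3
    · exact h n f hf h0 hd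
    · obtain ⟨a, g, f', rfl, h1, h2, h3, h4⟩ := exists_step h0 (by omega)
      omega
  | succ k ih =>
    intro n f hk hf h0
    by_cases hd : f.totalDegree ≤ 3
    · exact h n f hf h0 hd
    · obtain ⟨a, g, f', rfl, h1, h2, h3, h4⟩ := exists_step h0 (by omega)
      exact SmcGlob.of_stab hf h0 (SmcGlob.of_polyEquivPow one_pos (polyEquivPow_stp a g f')
        (ih _ _ (by omega) (stp_ne_zero a g f') (coeff_zero_stp h1)))

end Cub

end MPb07157
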