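import Pool.Agent.Lib.MP_b07157_agS.SE
import Pool.Agent.Lib.MP_b07157_agE.EB
import Pool.Agent.Lib.MP_b07157_ag.NewtRootLoc

/-!
# From formal to algebraic local Bernstein–Sato polynomials (flatness)
-/

noncomputable section

namespace MPb07157

open MvPolynomial

variable {n : ℕ}

/-- If `b f^s` is in the formal module `D[[x]][s] f^{s+1}`, then `u b f^s ∈ D_n[s] f^{s+1}` for some
polynomial `u` with `u(0) = 1`.

Proof.  (A) For `InDnForm f k g` there is `l` such that `f^l g` is a finite sum `∑ c_i h_i`, with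
`c_i ∈ ℂ[[x]][s]` and `h_i ∈ ℂ[x][s]`, `InDn f (k + l) h_i` (induction; in the step `deriv` use
`f ∂(f^l g) + (s+1-k-l) ∂f f^l g = f^l (f ∂g + (s+1-k) ∂f g)` and the Leibniz rule for `c_i h_i`;
in the step `lower` replace `l` by `l + 1`).
(B) With `R = ℂ[x]`, `m = (x)`, `D` larger than all degrees in `s` (of the `c_i h_i`): in the finite
`R`-module `M = R^D / Q`, `Q` spanned by the vectors of coefficients of the `s^j h_i` (of `s`-degree
`< D`), the class of `f^l b` is in `m^N M` for all `N` (truncate the `c_i`), so by Krull's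
intersection theorem (`Ideal.mem_iInf_smul_pow_eq_bot_iff`) `(1 - r) f^l b ∈ Q` for some `r ∈ m`;
lower `l` times. -/
theorem exists_inDn_of_form {f : MvPolynomial (Fin n) ℂ} {b : Polynomial ℂ}
    (h : InDnForm f 1 (b.map (MvPowerSeries.C (σ := Fin n) (R := ℂ)))) :
    ∃ u : MvPolynomial (Fin n) ℂ, coeff 0 u = 1 ∧ InDn f 1 (liftS u * C b) := by
  obtain ⟨u, hu, h⟩ := h.exists_poly
  exact ⟨u, by rwa [← constantCoeff_eq], by rwa [mul_comm]⟩

end MPb07157
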