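import Pool.Agent.Lib.MP_b07157_agS.CubF1

/-!
# From formal to analytic local Bernstein–Sato polynomials
-/

noncomputable section

namespace MPb07157

open MvPolynomial

variable {n : ℕ}

theorem isConv_toForm (g : MvPolynomial (Fin n) (Polynomial ℂ)) (j : ℕ) :
    IsConv ((MPb07157.toForm g).coeff j) := by
  refine ⟨∑ m ∈ g.support, ‖(coeff m g).coeff j‖, 1, fun m => ?_⟩
  rw [coeff_toForm, one_pow, mul_one]
  by_cases hm : m ∈ g.support
  · exact Finset.single_le_sum (f := fun m => ‖(coeff m g).coeff j‖)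
      (fun _ _ => norm_nonneg _) hm
  · rw [MvPolynomial.notMem_support_iff.1 hm, Polynomial.coeff_zero, norm_zero]
    exact Finset.sum_nonneg fun _ _ => norm_nonneg _

/-- `InDn` implies `InDnLoc`. -/
theorem InDn.toLoc {f : MvPolynomial (Fin n) ℂ} {k : ℕ}
    {g : MvPolynomial (Fin n) (Polynomial ℂ)} (h : InDn f k g) :
    InDnLoc f k (MPb07157.toForm g) := by
  induction h with
  | base => rw [map_one]; exact InDnLoc.base
  | add _ _ ih1 ih2 => rw [map_add]; exact InDnLoc.add ih1 ih2
  | mul c _ ih => rw [map_mul]; exact InDnLoc.mul _ (fun i => isConv_toForm c i) ih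
  | deriv i _ ih =>
    rw [toForm_deriv_step]
    exact InDnLoc.deriv i ih
  | raise _ ih => rw [map_mul, toForm_liftS]; exact InDnLoc.raise ih
  | @lower k g _ ih =>
    rw [map_mul, toForm_liftS] at ih
    exact InDnLoc.lower (fun i => isConv_toForm g i) ih

/-- The inverse of a polynomial `u` with `u(0) = 1` converges near the origin: `|c_m| ≤ B^{|m|}`
with `B = 1 + ∑ |u_e|`. -/
theorem isConv_inv {u : MvPolynomial (Fin n) ℂ} (h : coeff 0 u = 1) :
    ∃ v : MvPowerSeries (Fin n) ℂ, v * (u : MvPowerSeries (Fin n) ℂ) = 1 ∧ IsConv v := by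
  classical
  have hu : MvPowerSeries.constantCoeff (u : MvPowerSeries (Fin n) ℂ) ≠ 0 := by
    rw [← MvPowerSeries.coeff_zero_eq_constantCoeff_apply, MvPolynomial.coeff_coe, h]
    exact one_ne_zero
  refine ⟨(u : MvPowerSeries (Fin n) ℂ)⁻¹, MvPowerSeries.inv_mul_cancel _ hu, 1,
    1 + ∑ e ∈ u.support, ‖coeff e u‖, ?_⟩
  set v := (u : MvPowerSeries (Fin n) ℂ)⁻¹ with hv
  set S := ∑ e ∈ u.support, ‖coeff e u‖ with hS
  have hS0 : 0 ≤ S := Finset.sum_nonneg fun _ _ => norm_nonneg _
  have hvu : v * (u : MvPowerSeries (Fin n) ℂ) = 1 := MvPowerSeries.inv_mul_cancel _ hu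
  suffices H : ∀ N : ℕ, ∀ m : Fin n →₀ ℕ, ∑ j, m j = N → ‖MvPowerSeries.coeff m v‖ ≤ (1 + S) ^ N by
    intro m
    rw [one_mul]
    exact H _ m rfl
  intro N
  induction N using Nat.strong_induction_on with
  | _ N ih =>
  intro m hm
  have hc := congrArg (MvPowerSeries.coeff m) hvu
  rw [MvPowerSeries.coeff_mul] at hc
  have hmem : ((m, 0) : (Fin n →₀ ℕ) × (Fin n →₀ ℕ)) ∈ Finset.HasAntidiagonal.antidiagonal m := by
    rw [Finset.HasAntidiagonal.mem_antidiagonal]
    simp
  rw [← Finset.add_sum_erase _ _ hmem] at hc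
  simp only [MvPolynomial.coeff_coe] at hc
  rw [h, mul_one] at hc
  have hc' : MvPowerSeries.coeff m v = MvPowerSeries.coeff m (1 : MvPowerSeries (Fin n) ℂ) -
      ∑ p ∈ (Finset.HasAntidiagonal.antidiagonal m).erase (m, 0),
        MvPowerSeries.coeff p.1 v * MvPolynomial.coeff p.2 u := by
    rw [← hc]
    ring
  rcases Nat.eq_zero_or_pos N with hN | hN
  · have hm0 : m = 0 := by
      ext j
      rw [hN] at hm
      simpa using (Finset.sum_eq_zero_iff.1 hm) j (Finset.mem_univ j)
    subst hm0
    rw [hc', hN, pow_zero]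
    have : (Finset.HasAntidiagonal.antidiagonal (0 : Fin n →₀ ℕ)).erase (0, 0) = ∅ := by
      rw [Finsupp.antidiagonal_zero]
      rfl
    rw [this, Finset.sum_empty, sub_zero, MvPowerSeries.coeff_zero_one, norm_one]
  · have hm0 : m ≠ 0 := by
      rintro rfl
      simp at hm
      omega
    have h1 : MvPowerSeries.coeff m (1 : MvPowerSeries (Fin n) ℂ) = 0 := by
      rw [MvPowerSeries.coeff_one, if_neg hm0]
    rw [hc', h1, zero_sub, norm_neg]
    have hB : (1 : ℝ) ≤ 1 + S := by linarith
    calc ‖∑ p ∈ (Finset.HasAntidiagonal.antidiagonal m).erase (m, 0),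
          MvPowerSeries.coeff p.1 v * MvPolynomial.coeff p.2 u‖
        ≤ ∑ p ∈ (Finset.HasAntidiagonal.antidiagonal m).erase (m, 0),
          ‖MvPowerSeries.coeff p.1 v * MvPolynomial.coeff p.2 u‖ := norm_sum_le _ _
      _ ≤ ∑ p ∈ (Finset.HasAntidiagonal.antidiagonal m).erase (m, 0),
          (1 + S) ^ (N - 1) * ‖MvPolynomial.coeff p.2 u‖ := by
        refine Finset.sum_le_sum fun p hp => ?_
        rw [norm_mul]
        refine mul_le_mul_of_nonneg_right ?_ (norm_nonneg _)
        rw [Finset.mem_erase, Finset.HasAntidiagonal.mem_antidiagonal] at hp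
        obtain ⟨hp1, hp2⟩ := hp
        have hsum : ∑ j, p.1 j + ∑ j, p.2 j = N := by
          rw [← hm, ← hp2, ← Finset.sum_add_distrib]
          rfl
        have hp0 : 0 < ∑ j, p.2 j := by
          rw [Nat.pos_iff_ne_zero]
          intro h0
          apply hp1
          have : p.2 = 0 := by
            ext j
            simpa using (Finset.sum_eq_zero_iff.1 h0) j (Finset.mem_univ j)
          rw [this, add_zero] at hp2
          exact Prod.ext hp2 this
        refine (ih _ (by omega) p.1 rfl).trans (pow_le_pow_right₀ hB (by omega))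
      _ = (1 + S) ^ (N - 1) * ∑ p ∈ (Finset.HasAntidiagonal.antidiagonal m).erase (m, 0),
          ‖MvPolynomial.coeff p.2 u‖ := by rw [Finset.mul_sum]
      _ ≤ (1 + S) ^ (N - 1) * S := by
        refine mul_le_mul_of_nonneg_left ?_ (by positivity)
        have hinj : Set.InjOn Prod.snd
            (((Finset.HasAntidiagonal.antidiagonal m).erase (m, 0) :
              Finset ((Fin n →₀ ℕ) × (Fin n →₀ ℕ))) : Set ((Fin n →₀ ℕ) × (Fin n →₀ ℕ))) := by
          intro p hp q hq hpq
          simp only [Finset.coe_erase, Set.mem_sdiff, Finset.mem_coe,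
            Finset.HasAntidiagonal.mem_antidiagonal] at hp hq
          have : p.1 = q.1 := by
            have := hp.1.trans hq.1.symm
            rw [hpq] at this
            exact add_right_cancel this
          exact Prod.ext this hpq
        rw [← Finset.sum_image (f := fun e => ‖MvPolynomial.coeff e u‖) hinj, hS]
        rw [← Finset.sum_filter_ne_zero]
        refine Finset.sum_le_sum_of_subset_of_nonneg ?_ fun _ _ _ => norm_nonneg _
        intro e he
        rw [Finset.mem_filter] at he
        rw [MvPolynomial.mem_support_iff]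
        exact fun h0 => he.2 (by rw [h0, norm_zero])
      _ ≤ (1 + S) ^ (N - 1) * (1 + S) := by
        refine mul_le_mul_of_nonneg_left (by linarith) (by positivity)
      _ = (1 + S) ^ N := by
        rw [← pow_succ]
        congr 1
        omega

/-- The formal and the analytic local Bernstein–Sato polynomial of a polynomial agree. -/
theorem isLocalBernsteinSato_of_form {f : MvPolynomial (Fin n) ℂ} {b : Polynomial ℂ}
    (h : InDnForm f 1 (b.map (MvPowerSeries.C (σ := Fin n) (R := ℂ)))) :
    IsLocalBernsteinSato f b := by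
  obtain ⟨u, hu, h⟩ := exists_inDn_of_form h
  obtain ⟨v, hv, hc⟩ := isConv_inv hu
  have h1 := h.toLoc
  rw [map_mul, toForm_liftS, toForm_C] at h1
  have h2 := InDnLoc.mul (Polynomial.C v) (fun i => ?_) h1
  · rw [← mul_assoc, ← map_mul, hv, map_one, one_mul] at h2
    exact h2
  · rw [Polynomial.coeff_C]
    split_ifs with h0
    · exact hc
    · exact ⟨0, 0, fun m => by simp⟩

end MPb07157
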