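import Pool.Agent.Lib.MP_b07157_agS.CubA
import Pool.Agent.Lib.MP_b07157_agS.CubF2

/-!
# The strong monodromy conjecture reduces to cubic polynomials
-/

noncomputable section

namespace MPb07157

open MvPolynomial

/-- Global version. -/
theorem cubic_global :
    (∀ (n : ℕ) (f : MvPolynomial (Fin n) ℂ), f ≠ 0 → coeff 0 f = 0 →
      ∀ s₀ : ℚ, s₀ < 0 → IsPole (Zmot f) s₀ → IsBernsteinSatoRoot f s₀) ↔
    (∀ (n : ℕ) (f : MvPolynomial (Fin n) ℂ), f ≠ 0 → coeff 0 f = 0 → f.totalDegree ≤ 3 →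
      ∀ s₀ : ℚ, s₀ < 0 → IsPole (Zmot f) s₀ → IsBernsteinSatoRoot f s₀) := by
  refine ⟨fun h n f hf h0 _ => h n f hf h0, fun h n f hf h0 => ?_⟩
  exact Cub.smcGlob_of_cubic (fun n f hf h0 hd => h n f hf h0 hd) (Cub.mu f) n f le_rfl hf h0

/-- Local version. -/
theorem cubic_local :
    (∀ (n : ℕ) (f : MvPolynomial (Fin n) ℂ), f ≠ 0 → coeff 0 f = 0 →
      ∀ s₀ : ℚ, s₀ < 0 → IsPole (Zmot0 f) s₀ → IsLocalBernsteinSatoRoot f s₀) ↔
    (∀ (n : ℕ) (F : MvPolynomial (Fin n) ℂ) (p : Fin n → ℂ), F ≠ 0 → F.IsHomogeneous 3 →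
      eval p F = 0 → ∀ s₀ : ℚ, s₀ < 0 → IsPole (Zmot0 (translate p F)) s₀ →
        IsLocalBernsteinSatoRoot (translate p F) s₀) := by
  refine ⟨fun h n F p hF _ hp => h n _ (translate_ne_zero hF p) (coeff_zero_translate hp),
    fun h n f hf h0 s₀ hs hpole => ?_⟩
  have h1 := Cub.smcLoc_of_cubicForms (fun n F p hF hF3 hp => ?_) n f hf h0
  · exact (roots_of_form fun b hb => h1 s₀ hs hpole b hb).2
  · intro s₀ hs hpole b hb
    exact h n F p hF hF3 hp s₀ hs hpole b (isLocalBernsteinSato_of_form hb)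

end MPb07157
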