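import Pool.Agent.Lib.MP_b07157_agS.SB

/-!
# Lagrange multiplier and Bernstein–Sato polynomials

`H = f + w z`, `z = y h - 1`, where `h` is a polynomial in the old variables.
If `u b(s) f^s = P f^{s+1}`, `b = (s+1) b'`, and `u` divides `h`, then
`(s+1) b'(s+1) H^s` is in `D[s] H^{s+1}`: after multiplication by a power of `h` the proof for
`f + w z` applies, with `h ∂_i - y ∂_i(h) ∂_y` in place of `∂_i`; and `z (s+1) H^s = ∂_w H^{s+1}`,
`1 = (y h)^N + (…) z`.
-/

noncomputable section

namespace MPb07157S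

open Polynomial

variable {A : Type*} [CommRing A] [Algebra ℂ A] {ι : Type*} {D : ι → Derivation ℂ A A} {F : A}
  {A' : Type*} [CommRing A'] [Algebra ℂ A'] {ι' : Type*} {D' : ι' → Derivation ℂ A' A'}
  {j : A →ₐ[ℂ] A'} {w y : A'} {J : ι → ι'} {iw iy : ι'}

/-- `z = y h - 1`. -/
def lz (j : A →ₐ[ℂ] A') (y : A') (h : A) : A' := y * j h - 1

theorem Ext.D_w_lz (hE : Ext D D' j w y J iw iy) (h : A) : D' iw (lz j y h) = 0 := by
  unfold lz
  rw [map_sub, Derivation.leibniz, hE.hw, hE.wz, Derivation.map_one_eq_zero]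
  simp

theorem Ext.D_y_lz (hE : Ext D D' j w y J iw iy) (h : A) : D' iy (lz j y h) = j h := by
  unfold lz
  rw [map_sub, Derivation.leibniz, hE.hz, hE.zz, Derivation.map_one_eq_zero]
  simp

theorem Ext.D_J_lz (hE : Ext D D' j w y J iw iy) (h : A) (i : ι) :
    D' (J i) (lz j y h) = y * j (D i h) := by
  unfold lz
  rw [map_sub, Derivation.leibniz, hE.hJ, hE.Jz, Derivation.map_one_eq_zero]
  simp

theorem Ext.D_w_wlz (hE : Ext D D' j w y J iw iy) (h : A) :
    D' iw (w * lz j y h) = lz j y h := by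
  rw [Derivation.leibniz, hE.ww, hE.D_w_lz, smul_zero, zero_add, smul_eq_mul, mul_one]

theorem Ext.theta' (hE : Ext D D' j w y J iw iy) (h : A) (i : ℕ) (a : A) :
    w * D' iw ((w * lz j y h) ^ i * j a) = (i : A') * ((w * lz j y h) ^ i * j a) := by
  rw [Derivation.leibniz, hE.hw, smul_zero, zero_add, smul_eq_mul]
  rw [Derivation.leibniz_pow, hE.D_w_wlz]
  cases i with
  | zero => simp
  | succ i =>
    rw [Nat.add_sub_cancel, nsmul_eq_mul, smul_eq_mul]
    ring

theorem Ext.sub_theta_tr' (hE : Ext D D' j w y J iw iy) (h : A) (Φ : ℕ → A) (m : ℕ) :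
    ((m : A') - 1) * tr j w (lz j y h) Φ m - w * D' iw (tr j w (lz j y h) Φ m) =
      tr j w (lz j y h) (fun m => ((m : A) - 1) * Φ m) m := by
  unfold tr
  rw [map_sum, Finset.mul_sum, Finset.mul_sum, ← Finset.sum_sub_distrib]
  refine Finset.sum_congr rfl fun i hi => ?_
  have hi' : i ≤ m := Nat.lt_succ_iff.1 (Finset.mem_range.1 hi)
  have h1 : D' iw ((m.choose i : A') * (w * lz j y h) ^ i * j (Φ (m - i))) =
      (m.choose i : A') * D' iw ((w * lz j y h) ^ i * j (Φ (m - i))) := by
    rw [mul_assoc, Derivation.leibniz, Derivation.map_natCast, smul_zero, add_zero, smul_eq_mul]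
  have h2 := hE.theta' h i (Φ (m - i))
  have h3 : j (((m - i : ℕ) : A) - 1) = (m : A') - (i : A') - 1 := by
    rw [map_sub, map_natCast, map_one, Nat.cast_sub hi']
  rw [h1, map_mul j, h3]
  linear_combination (-(m.choose i : A')) * h2

theorem Ext.D_w_jpow (hE : Ext D D' j w y J iw iy) (h : A) (K : ℕ) (x : A') :
    D' iw (j h ^ K * x) = j h ^ K * D' iw x := by
  rw [← map_pow, Derivation.leibniz, hE.hw, smul_zero, add_zero, smul_eq_mul]

theorem Ext.tr_mul' (hE : Ext D D' j w y J iw iy) (h : A) (K : ℕ) {H : A'} (c : Polynomial A) :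
    ∀ {Φ : ℕ → A}, Op D' H (fun m => j h ^ K * tr j w (lz j y h) Φ m) →
      Op D' H (fun m => j h ^ K * tr j w (lz j y h) (fun m => c.eval ((m : A) - 1) * Φ m) m) := by
  induction c using Polynomial.induction_on' with
  | add p q hp hq =>
    intro Φ hΦ
    refine ((hp hΦ).add (hq hΦ)).congr fun m => ?_
    rw [← mul_add, ← tr_add]
    congr 2
    funext m
    rw [eval_add]
    ring
  | monomial k a =>
    induction k with
    | zero =>
      intro Φ hΦ
      refine (Op.const (j a) hΦ).congr fun m => ?_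
      rw [mul_left_comm, ← tr_const_mul]
      congr 2
      funext m
      simp
    | succ k ih =>
      intro Φ hΦ
      have h1 : Op D' H (fun m => j h ^ K *
          tr j w (lz j y h) (fun m => ((m : A) - 1) * Φ m) m) := by
        refine (Op.sub_theta iw w hΦ).congr fun m => ?_
        rw [hE.D_w_jpow, ← hE.sub_theta_tr']
        ring
      refine (ih h1).congr fun m => ?_
      congr 2
      funext m
      rw [eval_monomial, eval_monomial, pow_succ]
      ring

theorem Ext.tr_deriv' (hE : Ext D D' j w y J iw iy) (h : A) (i : ι) (Φ : ℕ → A) (m : ℕ) :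
    j h * D' (J i) (tr j w (lz j y h) Φ m) - y * j (D i h) * D' iy (tr j w (lz j y h) Φ m) =
      j h * tr j w (lz j y h) (fun m => D i (Φ m)) m := by
  unfold tr
  rw [map_sum, map_sum, Finset.mul_sum, Finset.mul_sum, Finset.mul_sum, ← Finset.sum_sub_distrib]
  refine Finset.sum_congr rfl fun k _ => ?_
  have h1 : D' (J i) ((w * lz j y h) ^ k) =
      (k : A') * (w * lz j y h) ^ (k - 1) * (w * (y * j (D i h))) := by
    rw [Derivation.leibniz_pow, Derivation.leibniz, hE.Jw, hE.D_J_lz, nsmul_eq_mul]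
    simp only [smul_eq_mul, mul_zero, add_zero]
    ring
  have h2 : D' iy ((w * lz j y h) ^ k) =
      (k : A') * (w * lz j y h) ^ (k - 1) * (w * j h) := by
    rw [Derivation.leibniz_pow, Derivation.leibniz, hE.zw, hE.D_y_lz, nsmul_eq_mul]
    simp only [smul_eq_mul, mul_zero, add_zero]
    ring
  rw [Derivation.leibniz, Derivation.leibniz, Derivation.map_natCast, h1, hE.hJ,
    Derivation.leibniz, Derivation.leibniz, Derivation.map_natCast, h2, hE.hz]
  simp only [smul_eq_mul]
  ring

theorem op_tr_lag (hE : Ext D D' j w y J iw iy) (h : A) {Φ : ℕ → A} (hΦ : Op D F Φ) :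
    ∃ K : ℕ, Op D' (j F + w * lz j y h) (fun m => j h ^ K * tr j w (lz j y h) Φ m) := by
  induction hΦ with
  | base =>
    refine ⟨0, Op.base.congr fun m => ?_⟩
    rw [pow_zero, one_mul]
    exact (tr_base m).symm
  | @add Φ Ψ _ _ ih1 ih2 =>
    obtain ⟨K₁, h1⟩ := ih1
    obtain ⟨K₂, h2⟩ := ih2
    refine ⟨K₁ + K₂, ((h1.const (j h ^ K₂)).add (h2.const (j h ^ K₁))).congr fun m => ?_⟩
    rw [tr_add]
    ring
  | mul c _ ih =>
    obtain ⟨K, h1⟩ := ih
    exact ⟨K, hE.tr_mul' h K c h1⟩
  | @deriv Φ i _ ih =>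
    obtain ⟨K, h1⟩ := ih
    refine ⟨K + 1, ?_⟩
    have h2 := ((h1.deriv (J i)).const (j h)).sub ((h1.deriv iy).const (y * j (D i h)))
    have h3 := h1.const ((K : A') * j (D i h))
    refine (h2.sub h3).congr fun m => ?_
    have h4 := hE.tr_deriv' h i Φ m
    have h5 : j h * D' (J i) (j h ^ K) = (K : A') * j h ^ K * j (D i h) := by
      rw [mul_D_pow, hE.hJ]
    have h6 : D' iy (j h ^ K) = 0 := by
      rw [← map_pow, hE.hz]
    rw [Derivation.leibniz, Derivation.leibniz, h6]
    simp only [smul_eq_mul, mul_zero, add_zero]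
    rw [pow_succ]
    linear_combination (j h ^ K) * h4 + tr j w (lz j y h) Φ m * h5

theorem Ext.op_theta' (hE : Ext D D' j w y J iw iy) (h : A) :
    Op D' (j F + w * lz j y h) (fun m => j h * ((m : A') * (j F + w * lz j y h) ^ (m - 1) +
      w * D' iw ((m : A') * (j F + w * lz j y h) ^ (m - 1)))) := by
  have h1 := (Op.base (D := D') (F := j F + w * lz j y h)).deriv iy |>.deriv iw
  refine h1.congr fun m => ?_
  have h2 : D' iy (j F + w * lz j y h) = w * j h := by
    rw [map_add, hE.hz, Derivation.leibniz, hE.zw, hE.D_y_lz]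
    simp
  have h3 : D' iw (w * j h) = j h := by
    rw [Derivation.leibniz, hE.ww, hE.hw]
    simp
  rw [Derivation.leibniz_pow, h2, nsmul_eq_mul, smul_eq_mul, ← mul_assoc, Derivation.leibniz,
    h3, smul_eq_mul, smul_eq_mul]
  ring

/-- `h ((s - θ)^a (s+1) H^s - (s+1)^a (s+1) H^s)`. -/
theorem Ext.op_diff' (hE : Ext D D' j w y J iw iy) (h : A) (a : ℕ) :
    Op D' (j F + w * lz j y h) (fun m => j h *
      (tr j w (lz j y h) (fun m => ((m : A) - 1) ^ a * ((m : A) * F ^ (m - 1))) m -
        (m : A') ^ a * ((m : A') * (j F + w * lz j y h) ^ (m - 1)))) := by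
  induction a with
  | zero =>
    refine Op.zero.congr fun m => ?_
    simp only [pow_zero, one_mul]
    rw [tr_one, sub_self, mul_zero]
  | succ a ih =>
    have h1 := Op.sub_theta iw w ih
    have h2 := Op.mul ((X + 1) ^ a) (hE.op_theta' (F := F) h)
    refine (h1.sub h2).congr fun m => ?_
    have h3 := hE.sub_theta_tr' h (fun m => ((m : A) - 1) ^ a * ((m : A) * F ^ (m - 1))) m
    have h4 : (fun m : ℕ => ((m : A) - 1) * (((m : A) - 1) ^ a * ((m : A) * F ^ (m - 1)))) =
        fun m : ℕ => ((m : A) - 1) ^ (a + 1) * ((m : A) * F ^ (m - 1)) := by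
      funext m
      ring
    rw [h4] at h3
    have h5 : D' iw ((m : A') ^ a * ((m : A') * (j F + w * lz j y h) ^ (m - 1))) =
        (m : A') ^ a * D' iw ((m : A') * (j F + w * lz j y h) ^ (m - 1)) := by
      rw [Derivation.leibniz, Derivation.leibniz_pow, Derivation.map_natCast]
      simp
    have h6 := hE.D_w_jpow h 1
      (tr j w (lz j y h) (fun m => ((m : A) - 1) ^ a * ((m : A) * F ^ (m - 1))) m -
        (m : A') ^ a * ((m : A') * (j F + w * lz j y h) ^ (m - 1)))
    rw [pow_one] at h6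
    rw [h6, map_sub, h5, ← h3]
    simp only [eval_pow, eval_add, eval_X, eval_one, sub_add_cancel]
    ring

theorem Ext.op_diff_poly' (hE : Ext D D' j w y J iw iy) (h : A) (c : Polynomial ℂ) :
    Op D' (j F + w * lz j y h) (fun m => j h *
      (tr j w (lz j y h) (fun m => (c.map (algebraMap ℂ A)).eval ((m : A) - 1) *
          ((m : A) * F ^ (m - 1))) m -
        (c.map (algebraMap ℂ A')).eval (m : A') *
          ((m : A') * (j F + w * lz j y h) ^ (m - 1)))) := by
  induction c using Polynomial.induction_on' with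
  | add p q hp hq =>
    refine (hp.add hq).congr fun m => ?_
    have : (fun m : ℕ => ((p + q).map (algebraMap ℂ A)).eval ((m : A) - 1) *
        ((m : A) * F ^ (m - 1))) = fun m : ℕ =>
        (p.map (algebraMap ℂ A)).eval ((m : A) - 1) * ((m : A) * F ^ (m - 1)) +
        (q.map (algebraMap ℂ A)).eval ((m : A) - 1) * ((m : A) * F ^ (m - 1)) := by
      funext m
      rw [Polynomial.map_add, eval_add]
      ring
    rw [this, tr_add, Polynomial.map_add, eval_add]
    ring
  | monomial a α =>
    refine (Op.const (algebraMap ℂ A' α) (hE.op_diff' (F := F) h a)).congr fun m => ?_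
    have : (fun m : ℕ => ((monomial a α).map (algebraMap ℂ A)).eval ((m : A) - 1) *
        ((m : A) * F ^ (m - 1))) = fun m : ℕ =>
        algebraMap ℂ A α * (((m : A) - 1) ^ a * ((m : A) * F ^ (m - 1))) := by
      funext m
      rw [Polynomial.map_monomial, eval_monomial]
      ring
    rw [this, tr_const_mul, Polynomial.map_monomial, eval_monomial, AlgHom.commutes]
    ring

/-- **Lagrange multiplier.** -/
theorem Ext.lag_main [IsDomain A] [IsDomain A'] [CharZero A'] (hE : Ext D D' j w y J iw iy)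
    (hF : F ≠ 0) {u h : A} (hu : u ∣ h) (hH : j F + w * lz j y h ≠ 0) {b' : Polynomial ℂ}
    (hb : InA D F 1 (C u * ((X + 1) * b').map (algebraMap ℂ A))) :
    InA D' (j F + w * lz j y h) 1 (((X + 1) * b'.comp (X + 1)).map (algebraMap ℂ A')) := by
  obtain ⟨Φ, hΦ, e⟩ := hb.toOp hF
  obtain ⟨v, rfl⟩ := hu
  have hΦ' : ∀ m : ℕ, Φ m = u * ((b'.map (algebraMap ℂ A)).eval ((m : A) - 1) *
      ((m : A) * F ^ (m - 1))) := by
    intro m
    have h1 := e m
    rw [pow_one, Polynomial.map_mul, eval_mul, eval_mul, eval_C] at h1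
    simp only [Polynomial.map_add, Polynomial.map_X, Polynomial.map_one, eval_add, eval_X,
      eval_one, sub_add_cancel] at h1
    apply mul_left_cancel₀ hF
    rw [h1]
    cases m with
    | zero => simp
    | succ k =>
      rw [Nat.add_sub_cancel, pow_succ]
      ring
  set h : A := u * v with hh
  set z : A' := lz j y h with hz
  set H : A' := j F + w * z with hHdef
  set Ψ : ℕ → A' := fun m => (b'.map (algebraMap ℂ A')).eval (m : A') *
    ((m : A') * H ^ (m - 1)) with hΨ
  obtain ⟨K, h2⟩ := op_tr_lag hE h (hΦ.const v)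
  have h3 : (fun m => v * Φ m) = fun m : ℕ => h * ((b'.map (algebraMap ℂ A)).eval ((m : A) - 1) *
      ((m : A) * F ^ (m - 1))) := by
    funext m
    rw [hΦ', hh]
    ring
  rw [h3] at h2
  have h4 : Op D' H (fun m => j h ^ (K + 1) * Ψ m) := by
    refine (h2.sub ((hE.op_diff_poly' (F := F) h b').const (j h ^ K))).congr fun m => ?_
    rw [tr_const_mul, hΨ, pow_succ]
    ring
  have h5 : Op D' H (fun m => z * Ψ m) := by
    have h6 := Op.mul ((b'.comp (X + 1)).map (algebraMap ℂ A'))
      ((Op.base (D := D') (F := H)).deriv iw)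
    refine h6.congr fun m => ?_
    have h7 : D' iw H = z := by
      rw [hHdef, map_add, hE.hw, zero_add, hE.D_w_wlz]
    rw [Derivation.leibniz_pow, h7, Polynomial.map_comp, eval_comp, hΨ]
    simp only [Polynomial.map_add, Polynomial.map_X, Polynomial.map_one, eval_add, eval_X,
      eval_one, sub_add_cancel, nsmul_eq_mul, smul_eq_mul]
    ring
  obtain ⟨q, hq⟩ : z ∣ (y * j h) ^ (K + 1) - 1 := by
    have h8 := sub_one_dvd_pow_sub_one (y * j h) (K + 1)
    exact h8
  have h9 : Op D' H Ψ := by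
    refine ((h4.const (y ^ (K + 1))).sub (h5.const q)).congr fun m => ?_
    rw [← mul_assoc, ← mul_pow]
    linear_combination (Ψ m) * hq
  refine h9.toInA hH fun m => ?_
  rw [Polynomial.map_mul, eval_mul, Polynomial.map_comp, eval_comp, hΨ]
  simp only [Polynomial.map_add, Polynomial.map_X, Polynomial.map_one, eval_add, eval_X, eval_one,
    sub_add_cancel, pow_one]
  cases m with
  | zero => simp
  | succ k =>
    rw [Nat.add_sub_cancel, pow_succ]
    ring

end MPb07157S
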