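import Pool.Agent.Lib.MP_b07157_agS.LQA

/-!
# Lagrange multiplier: Bernstein–Sato polynomials of `f + w (y h - 1)`
-/

noncomputable section

namespace MPb07157

open MvPolynomial MPb07157S

variable {n : ℕ}

/-- The polynomial `f + w (y h - 1)`. -/
def lag (f h : MvPolynomial (Fin n) ℂ) : MvPolynomial (Fin (n + 2)) ℂ :=
  rename (Fin.castAdd 2) f +
    X (Fin.natAdd n 0) * (X (Fin.natAdd n 1) * rename (Fin.castAdd 2) h - 1)

/-- The point `(x, w, y)`. -/
def pt2 (x : Fin n → ℂ) (w y : ℂ) : Fin (n + 2) → ℂ :=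
  Fin.addCases x (fun i : Fin 2 => if i = 0 then w else y)

theorem pt2_castAdd (x : Fin n → ℂ) (w y : ℂ) (i : Fin n) :
    pt2 x w y (Fin.castAdd 2 i) = x i := by simp [pt2]

theorem pt2_w (x : Fin n → ℂ) (w y : ℂ) : pt2 x w y (Fin.natAdd n 0) = w := by
  unfold pt2
  rw [Fin.addCases_right, if_pos rfl]

theorem pt2_y (x : Fin n → ℂ) (w y : ℂ) : pt2 x w y (Fin.natAdd n 1) = y := by
  unfold pt2
  rw [Fin.addCases_right, if_neg one_ne_zero]

theorem eval_lag (f h : MvPolynomial (Fin n) ℂ) (p : Fin (n + 2) → ℂ) :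
    eval p (lag f h) = eval (fun i => p (Fin.castAdd 2 i)) f +
      p (Fin.natAdd n 0) * (p (Fin.natAdd n 1) * eval (fun i => p (Fin.castAdd 2 i)) h - 1) := by
  unfold lag
  rw [map_add, map_mul, map_sub, map_mul, map_one, eval_rename, eval_rename, eval_X, eval_X]
  rfl

theorem eval_lag_pt2 (f h : MvPolynomial (Fin n) ℂ) (w : ℂ) :
    eval (pt2 (fun _ : Fin n => (0 : ℂ)) w 0) (lag f h) = constantCoeff f - w := by
  rw [eval_lag, pt2_w, pt2_y]
  have h3 : (fun i => pt2 (fun _ : Fin n => (0 : ℂ)) w 0 (Fin.castAdd 2 i)) = 0 := by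
    funext i
    rw [pt2_castAdd]
    rfl
  rw [h3, eval_zero, zero_mul, zero_sub]
  ring

theorem lag_ne_zero (f h : MvPolynomial (Fin n) ℂ) : lag f h ≠ 0 := by
  intro h1
  have h2 := eval_lag_pt2 f h (constantCoeff f + 1)
  rw [h1, map_zero] at h2
  have h3 : (0 : ℂ) = -1 := by
    rw [h2]
    ring
  norm_num at h3

theorem exists_zero_lag (f h : MvPolynomial (Fin n) ℂ) : ∃ p, eval p (lag f h) = 0 :=
  ⟨_, (eval_lag_pt2 f h (constantCoeff f)).trans (sub_self _)⟩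

theorem isBernsteinSato_lag {f : MvPolynomial (Fin n) ℂ} (hf : f ≠ 0)
    {u h : MvPolynomial (Fin n) ℂ} (hu : u ∣ h) {b' : Polynomial ℂ}
    (hb : InDn f 1 (liftS u * C ((Polynomial.X + 1) * b'))) :
    IsBernsteinSato (lag f h) ((Polynomial.X + 1) * b'.comp (Polynomial.X + 1)) := by
  rw [isBernsteinSato_iff]
  have h1 := inA_of_inDn hb
  rw [map_mul, sw_liftS, sw_C, map_C_eq_po] at h1
  exact (ext_po n).lag_main hf hu (lag_ne_zero f h) h1

end MPb07157
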