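import Pool.Agent.Lib.MP_b07157_agS.SP
import Pool.Agent.Lib.MP_b07157_agK.K1

/-!
# The arcs of `f + w z` whose base point lies over a constructible set
-/

noncomputable section

namespace MPb07157

open MvPolynomial

variable {n : ℕ}

/-- The points over `W`. -/
def upW (W : Set (Fin n → ℂ)) : Set (Fin (n + 2) → ℂ) := {p | (fun i => p (Fin.castAdd 2 i)) ∈ W}

theorem isConstr_upW {W : Set (Fin n → ℂ)} (hW : IsConstr W) : IsConstr (upW W) :=
  hW.reindex (fun i => Fin.castAdd 2 i)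

theorem AtW_upW (W : Set (Fin n → ℂ)) (N : ℕ) :
    AtW (upW W) N = {x : Fin (n + 2) × Fin (N + 1) → ℂ | SZ.gx x ∈ AtW W N} := rfl

namespace SZ

theorem cls_stratumB (f : MvPolynomial (Fin n) ℂ) {N m k : ℕ} (hm : m < N) (hk : k ≤ m)
    {B : Set (Fin n × Fin N → ℂ)} (hB : IsConstr B) :
    cls (arcs (stab f) N m ∩ {x | gx x ∈ B} ∩ {x | wx x ∈ ordS N k}) =
      cls (Gk f N k ∩ B) * ((L - 1) * L ^ (N - 1 - k) * ((L - 1) * L ^ (N - 1 - (m - k)))) := by
  rw [← cls_ordS (hk.trans_lt hm), ← cls_ordS (by omega : m - k < N),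
    ← cls3 ((isConstr_Gk f N k).inter hB) (isConstr_ordS N k) (isConstr_ordS N (m - k))]
  refine cls_tw f (hk.trans_lt hm) (((isConstr_arcs _ _ _).inter (isConstr_gx hB)).inter
    (isConstr_wx (isConstr_ordS N k))) (isConstr3 ((isConstr_Gk f N k).inter hB)
      (isConstr_ordS N k) (isConstr_ordS N (m - k)))
    (fun x hx => hx.2) (fun x hx => hx.2.1) fun x hx => ?_
  simp only [Set.mem_inter_iff, Set.mem_ofPred_eq, gx_tw, wx_tw]
  have h1 := mem_arcs_stab f hm hk hx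
  tauto

theorem cls_zeroB (f : MvPolynomial (Fin n) ℂ) {N : ℕ} (m : ℕ)
    {B : Set (Fin n × Fin N → ℂ)} (hB : IsConstr B) :
    cls (arcs (stab f) N m ∩ {x | gx x ∈ B} ∩ {x | wx x ∈ staS N N}) =
      cls (arcs f N m ∩ B) * L ^ N := by
  have h1 := cls3 (n := n) ((isConstr_arcs f N m).inter hB)
    (isConstr_staS N N) (IsConstr.univ (σ := Fin N))
  rw [cls_staS le_rfl, cls_univ_eq, Fintype.card_fin, Nat.sub_self, pow_zero, one_mul] at h1
  rw [← h1]
  congr 1
  ext x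
  simp only [Set.mem_inter_iff, Set.mem_ofPred_eq, Set.mem_univ, and_true]
  have h2 : wx x ∈ staS N N → (x ∈ arcs (stab f) N m ↔ gx x ∈ arcs f N m) := by
    intro h
    rw [mem_staS] at h
    refine mem_arcs_stab_of_dvd f ?_
    have h3 : ser (wx x) = 0 := by
      ext l
      rw [coeff_ser]
      split_ifs with hl
      · rw [h _ hl]
        simp
      · simp
    rw [h3, zero_mul]
    exact dvd_zero _
  tauto

/-- The class for the arcs `(γ, w, z)` with `γ ∈ B`. -/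
theorem cls_totalB (f : MvPolynomial (Fin n) ℂ) (m : ℕ) {B : Set (Fin n × Fin (m + 1) → ℂ)}
    (hB : IsConstr B) :
    cls (arcs (stab f) (m + 1) m ∩ {x | gx x ∈ B}) =
      ∑ k ∈ Finset.range (m + 1), cls (Gk f (m + 1) k ∩ B) * ((L - 1) ^ 2 * L ^ m) +
        cls (arcs f (m + 1) m ∩ B) * L ^ (m + 1) := by
  rw [cls_strat ((isConstr_arcs _ _ _).inter (isConstr_gx hB)) (m + 1), cls_zeroB f m hB]
  congr 1
  refine Finset.sum_congr rfl fun k hk => ?_
  have hk' : k ≤ m := Nat.lt_succ_iff.1 (Finset.mem_range.1 hk)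
  rw [cls_stratumB f (Nat.lt_succ_self m) hk' hB]
  congr 1
  have h1 : m + 1 - 1 - (m - k) = k := by omega
  have h2 : m + 1 - 1 - k = m - k := by omega
  rw [h1, h2]
  have h3 : L ^ m = L ^ (m - k) * L ^ k := by rw [← pow_add, Nat.sub_add_cancel hk']
  rw [h3]
  ring

theorem cls_GkB (f : MvPolynomial (Fin n) ℂ) {N : ℕ} {B : Set (Fin n × Fin N → ℂ)}
    (hB : IsConstr B) (k : ℕ) :
    cls (Gk f N k ∩ B) = cls B - ∑ e ∈ Finset.range k, cls (arcs f N e ∩ B) := by
  induction k with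
  | zero =>
    rw [Finset.range_zero, Finset.sum_empty, sub_zero]
    congr 1
    ext γ
    simp [Gk]
  | succ k ih =>
    have h : cls (Gk f N k ∩ B) = cls (arcs f N k ∩ B) + cls (Gk f N (k + 1) ∩ B) := by
      rw [Gk_eq_union, Set.union_inter_distrib_right]
      exact cls_union ((isConstr_arcs f N k).inter hB) ((isConstr_Gk f N (k + 1)).inter hB)
        ((disjoint_Gk f N k).mono Set.inter_subset_left Set.inter_subset_left)
    rw [Finset.sum_range_succ, ← sub_sub, ← ih, h, add_sub_cancel_left]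

/-- The measure of the arcs at `W`. -/
theorem muW_succ (f : MvPolynomial (Fin n) ℂ) {W : Set (Fin n → ℂ)} (hW : IsConstr W) {N e : ℕ}
    (he : e ≤ N) :
    ↑((LU ^ (n * (N + 1 + 1)))⁻¹) * clsM (arcs f (N + 1 + 1) e ∩ AtW W (N + 1)) =
      (↑((LU ^ (n * (N + 1)))⁻¹) : Mot) * clsM (arcs f (N + 1) e ∩ AtW W N) := by
  have h : arcs f (N + 1 + 1) e ∩ AtW W (N + 1) = {γ : Fin n × Fin (N + 1 + 1) → ℂ |
      leftPart γ ∈ arcs f (N + 1) e ∩ AtW W N ∧
      rightPart γ ∈ (Set.univ : Set (Fin n × Fin 1 → ℂ))} := by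
    rw [arcs_succ f (by omega : e < N + 1)]
    ext γ
    simp only [Set.mem_inter_iff, Set.mem_ofPred_eq, Set.mem_univ, and_true, AtW, leftPart]
    rfl
  rw [h, clsM_mul_eq (cls_split ((isConstr_arcs f (N + 1) e).inter (isConstr_AtW hW N))
    IsConstr.univ), clsM_univ]
  simp only [Fintype.card_prod, Fintype.card_fin, mul_one, mul_add, pow_add, mul_inv,
    Units.val_mul]
  rw [mul_comm (clsM _), mul_assoc, ← mul_assoc (((LU ^ n)⁻¹ : Motˣ) : Mot), Units.inv_mul,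
    one_mul]

theorem muW_eq (f : MvPolynomial (Fin n) ℂ) {W : Set (Fin n → ℂ)} (hW : IsConstr W) {N e : ℕ}
    (he : e ≤ N) :
    ((LU⁻¹ : Motˣ) : Mot) ^ (n * (N + 1)) *
      algebraMap K0 Mot (cls (arcs f (N + 1) e ∩ AtW W N)) =
      PowerSeries.coeff e (seriesAt f W) := by
  rw [← coe_inv_pow]
  obtain ⟨k, rfl⟩ := Nat.exists_eq_add_of_le he
  clear he
  induction k with
  | zero =>
    rw [seriesAt, PowerSeries.coeff_mk]
    rfl
  | succ k ih =>
    rw [← ih]
    exact muW_succ f hW (N := e + k) (by omega)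

theorem GkW_mul_eq (f : MvPolynomial (Fin n) ℂ) {W : Set (Fin n → ℂ)} (hW : IsConstr W)
    {m k : ℕ} (hk : k ≤ m + 1) :
    ((LU⁻¹ : Motˣ) : Mot) ^ (n * (m + 1)) *
      algebraMap K0 Mot (cls (Gk f (m + 1) k ∩ AtW W m)) =
      ((LU⁻¹ : Motˣ) : Mot) ^ n * clsM W -
        ∑ e ∈ Finset.range k, PowerSeries.coeff e (seriesAt f W) := by
  rw [cls_GkB f (isConstr_AtW hW m), map_sub, mul_sub, map_sum, Finset.mul_sum]
  congr 1
  · rw [cls_AtW hW m, map_mul, map_pow]
    have h1 : n * (m + 1) = n + n * m := by ring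
    rw [h1, pow_add, mul_assoc, mul_left_comm (((LU⁻¹ : Motˣ) : Mot) ^ (n * m)), ← mul_pow,
      inv_mul_L, one_pow, mul_one]
    rfl
  · refine Finset.sum_congr rfl fun e he => ?_
    exact muW_eq f hW (by have := Finset.mem_range.1 he; omega)

end SZ

/-- The coefficients of the zeta function of `f + w z` over `W`. -/
theorem coeff_seriesAt_stab (f : MvPolynomial (Fin n) ℂ) {W : Set (Fin n → ℂ)}
    (hW : IsConstr W) (m : ℕ) :
    PowerSeries.coeff m (seriesAt (stab f) (upW W)) = ((LU⁻¹ : Motˣ) : Mot) ^ m *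
      ((1 - ((LU⁻¹ : Motˣ) : Mot)) ^ 2 *
        (((LU⁻¹ : Motˣ) : Mot) ^ n * clsM W * ((m + 1 : ℕ) : Mot) -
        ∑ e ∈ Finset.range m, ((m - e : ℕ) : Mot) * PowerSeries.coeff e (seriesAt f W)) +
        ((LU⁻¹ : Motˣ) : Mot) * PowerSeries.coeff m (seriesAt f W)) := by
  rw [← SZ.sum_tri0]
  have h1 : PowerSeries.coeff m (seriesAt (stab f) (upW W)) =
      ((LU⁻¹ : Motˣ) : Mot) ^ ((n + 2) * (m + 1)) *
        algebraMap K0 Mot (cls (arcs (stab f) (m + 1) m ∩
          {x | SZ.gx x ∈ AtW W m})) := by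
    rw [seriesAt, PowerSeries.coeff_mk, SZ.coe_inv_pow]
    rfl
  rw [h1, SZ.cls_totalB f m (isConstr_AtW hW m), map_add, map_mul, map_sum, map_pow]
  have h2 : ∀ k ∈ Finset.range (m + 1), (((LU⁻¹ : Motˣ) : Mot) ^ n * clsM W -
      ∑ e ∈ Finset.range k, PowerSeries.coeff e (seriesAt f W)) =
      ((LU⁻¹ : Motˣ) : Mot) ^ (n * (m + 1)) *
        algebraMap K0 Mot (cls (SZ.Gk f (m + 1) k ∩ AtW W m)) := by
    intro k hk
    rw [SZ.GkW_mul_eq f hW (Finset.mem_range.1 hk).le]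
  rw [Finset.sum_congr rfl h2, ← SZ.muW_eq f hW (le_refl m), ← Finset.mul_sum]
  simp only [map_mul, map_pow, map_sub, map_one]
  rw [← Finset.sum_mul]
  generalize ∑ k ∈ Finset.range (m + 1), algebraMap K0 Mot
    (cls (SZ.Gk f (m + 1) k ∩ AtW W m)) = G
  generalize algebraMap K0 Mot (cls (arcs f (m + 1) m ∩ AtW W m)) = A
  have h3 := SZ.inv_mul_L
  generalize algebraMap K0 Mot L = l at *
  generalize ((LU⁻¹ : Motˣ) : Mot) = q at *
  have h4 : q ^ ((n + 2) * (m + 1)) * (G * ((l - 1) ^ 2 * l ^ m) + A * l ^ (m + 1)) =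
      (q * l) ^ m * (q ^ m * (q ^ (n * (m + 1)) * ((q * l - q) ^ 2 * G +
        (q * l) * q * A))) := by
    ring
  rw [h4, h3]
  ring

theorem seriesAt_mem_of_stab {f : MvPolynomial (Fin n) ℂ} {W : Set (Fin n → ℂ)}
    (hW : IsConstr W) {s₀ : ℚ} (h1 : s₀ ≠ -1) (h2 : s₀ ≠ 1)
    (hreg : seriesAt (stab f) (upW W) ∈ regularAt (s₀ - 1)) : seriesAt f W ∈ regularAt s₀ := by
  have hA := rescale_mem_regularAt hreg
  set l : Mot := ((LU⁻¹ : Motˣ) : Mot) with hl
  set c : Mot := l ^ n * clsM W with hc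
  have hAeq : PowerSeries.rescale (LU : Mot) (seriesAt (stab f) (upW W)) =
      PowerSeries.C ((1 - l) ^ 2) * (PowerSeries.C c * (serI + serO) - seriesAt f W * serI) +
        PowerSeries.C l * seriesAt f W := by
    ext m
    rw [PowerSeries.coeff_rescale, map_add, PowerSeries.coeff_C_mul, PowerSeries.coeff_C_mul,
      map_sub, PowerSeries.coeff_C_mul, map_add, coeff_serI_mul]
    unfold serI serO
    simp only [PowerSeries.coeff_mk]
    rw [coeff_seriesAt_stab f hW, ← mul_assoc, ← mul_pow, Units.mul_inv, one_pow, one_mul]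
    push_cast
    ring
  refine mem_regularAt_of_stab h1 h2 (P := PowerSeries.C ((1 - l) ^ 2) * PowerSeries.C c)
    (mul_mem (C_mem_regularAt s₀ _) (C_mem_regularAt s₀ _)) hA ?_
  rw [hAeq]
  have e1 := serI_mul
  have e2 := serO_mul
  rw [← hl, map_pow, map_sub, map_one]
  linear_combination ((1 - PowerSeries.C l) ^ 2 * (PowerSeries.C c - seriesAt f W)) * e1 +
    ((1 - PowerSeries.C l) ^ 2 * (1 - PowerSeries.X) * PowerSeries.C c) * e2

end MPb07157
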