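import Pool.Agent.Lib.MP_b07157_agS.LQB
import Pool.Agent.Lib.MP_b07157_agS.LQC

/-!
# The zeta function of `f + w (y h - 1)`

The arcs with `y(0) h(x(0)) ≠ 1` are arcs at smooth points.  The substitution `z = y h(x) - 1` is a
bijection of the other ones onto the arcs of `f + w z` with `h(x(0)) ≠ 0`, `z(0) = 0`.
-/

noncomputable section

namespace MPb07157

open MvPolynomial

variable {n : ℕ}

namespace SZ

/-- The polynomial `y h - 1`. -/
def yh (h : MvPolynomial (Fin n) ℂ) : MvPolynomial (Fin (n + 2)) ℂ :=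
  X (Fin.natAdd n 1) * rename (Fin.castAdd 2) h - 1

theorem eval_yh (h : MvPolynomial (Fin n) ℂ) (p : Fin (n + 2) → ℂ) :
    eval p (yh h) = p (Fin.natAdd n 1) * eval (fun i => p (Fin.castAdd 2 i)) h - 1 := by
  unfold yh
  rw [map_sub, map_mul, map_one, eval_rename, eval_X]
  rfl

theorem aeval_yh {N : ℕ} (h : MvPolynomial (Fin n) ℂ) (x : Fin (n + 2) × Fin N → ℂ) :
    (aeval (arc x) (yh h) : PowerSeries ℂ) = ser (zx x) * aeval (arc (gx x)) h - 1 := by
  unfold yh
  rw [map_sub, map_mul, map_one, aeval_X, aeval_rename, arc_zx]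
  rfl

theorem aeval_lag {N : ℕ} (f h : MvPolynomial (Fin n) ℂ) (x : Fin (n + 2) × Fin N → ℂ) :
    (aeval (arc x) (lag f h) : PowerSeries ℂ) =
      aeval (arc (gx x)) f + ser (wx x) * (ser (zx x) * aeval (arc (gx x)) h - 1) := by
  unfold lag
  rw [map_add, map_mul, map_sub, map_mul, map_one, aeval_X, aeval_X, aeval_rename, aeval_rename,
    arc_wx, arc_zx]
  rfl

/-- The map that replaces the coefficients of `y` by those of `y h - 1`. -/
def yw (h : MvPolynomial (Fin n) ℂ) (N : ℕ) (p : Fin (n + 2) × Fin N) :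
    MvPolynomial (Fin (n + 2) × Fin N) ℂ :=
  if p.1 = Fin.natAdd n 1 then (exists_coeff_poly (N := N) (yh h) p.2).choose else X p

theorem polyMap_yw_of_ne (h : MvPolynomial (Fin n) ℂ) {N : ℕ}
    (x : Fin (n + 2) × Fin N → ℂ) {p : Fin (n + 2) × Fin N} (hp : p.1 ≠ Fin.natAdd n 1) :
    polyMap (yw h N) x p = x p := by
  unfold polyMap yw
  rw [if_neg hp, eval_X]

theorem gx_yw (h : MvPolynomial (Fin n) ℂ) {N : ℕ} (x : Fin (n + 2) × Fin N → ℂ) :
    gx (polyMap (yw h N) x) = gx x := by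
  funext p
  refine polyMap_yw_of_ne h x ?_
  intro h
  have h1 := congrArg Fin.val h
  simp only [Fin.val_castAdd, Fin.val_natAdd] at h1
  omega

theorem wx_yw (h : MvPolynomial (Fin n) ℂ) {N : ℕ} (x : Fin (n + 2) × Fin N → ℂ) :
    wx (polyMap (yw h N) x) = wx x := by
  funext p
  refine polyMap_yw_of_ne h x ?_
  intro h
  have h1 := congrArg Fin.val h
  simp only [Fin.val_natAdd, Fin.val_zero, Fin.val_one] at h1
  omega

theorem zx_yw (h : MvPolynomial (Fin n) ℂ) {N : ℕ} (x : Fin (n + 2) × Fin N → ℂ)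
    (j : Fin N) : zx (polyMap (yw h N) x) j =
      PowerSeries.coeff j (ser (zx x) * aeval (arc (gx x)) h - 1) := by
  rw [← aeval_yh]
  unfold zx polyMap yw
  rw [if_pos rfl]
  exact ((exists_coeff_poly (N := N) (yh h) j).choose_spec x).symm

theorem ser_zx_yw (h : MvPolynomial (Fin n) ℂ) {N : ℕ} (x : Fin (n + 2) × Fin N → ℂ) :
    (PowerSeries.X : PowerSeries ℂ) ^ N ∣
      (ser (zx x) * aeval (arc (gx x)) h - 1) - ser (zx (polyMap (yw h N) x)) := by
  rw [PowerSeries.X_pow_dvd_iff]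
  intro k hk
  rw [map_sub, coeff_ser, dif_pos hk, zx_yw, sub_self]

theorem mem_arcs_yw (f h : MvPolynomial (Fin n) ℂ) {N m : ℕ} (hm : m < N)
    (x : Fin (n + 2) × Fin N → ℂ) :
    x ∈ arcs (lag f h) N m ↔ polyMap (yw h N) x ∈ arcs (stab f) N m := by
  simp only [arcs, Set.mem_ofPred_eq]
  refine order_congr hm ?_
  rw [aeval_lag, aeval_stab, gx_yw, wx_yw]
  have h1 : aeval (arc (gx x)) f + ser (wx x) * (ser (zx x) * aeval (arc (gx x)) h - 1) -
      (aeval (arc (gx x)) f + ser (wx x) * ser (zx (polyMap (yw h N) x))) =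
      ser (wx x) * ((ser (zx x) * aeval (arc (gx x)) h - 1) -
        ser (zx (polyMap (yw h N) x))) := by
    ring
  rw [h1]
  exact (ser_zx_yw h x).mul_left _

theorem constCoeff_h {h : MvPolynomial (Fin n) ℂ} (hh : h ≠ 0) {M : ℕ}
    (x : Fin (n + 2) × Fin (M + 1) → ℂ) :
    PowerSeries.constantCoeff (aeval (arc (gx x)) h : PowerSeries ℂ) =
      eval (fun i => x (Fin.castAdd 2 i, 0)) h :=
  constCoeff_aeval_arc hh (gx x)

theorem constCoeff_ser {M : ℕ} (w : Fin (M + 1) → ℂ) :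
    PowerSeries.constantCoeff (ser w) = w 0 := by
  rw [← PowerSeries.coeff_zero_eq_constantCoeff_apply, coeff_ser, dif_pos (Nat.succ_pos M)]
  rfl

theorem bijOn_yw {h : MvPolynomial (Fin n) ℂ} (hh : h ≠ 0) (M : ℕ) :
    Set.BijOn (polyMap (yw h (M + 1)))
      (AtW {p : Fin (n + 2) → ℂ | eval p (yh h) = 0} M)
      (AtW {p : Fin (n + 2) → ℂ | eval (fun i => p (Fin.castAdd 2 i)) h ≠ 0 ∧
        p (Fin.natAdd n 1) = 0} M) := by
  have hunit : ∀ x : Fin (n + 2) × Fin (M + 1) → ℂ,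
      x ∈ AtW {p : Fin (n + 2) → ℂ | eval p (yh h) = 0} M →
      eval (fun i => x (Fin.castAdd 2 i, 0)) h ≠ 0 := by
    intro x hx h0
    have h1 : eval (fun i => x (i, 0)) (yh h) = 0 := hx
    rw [eval_yh, h0, mul_zero, zero_sub, neg_eq_zero] at h1
    exact one_ne_zero h1
  refine ⟨?_, ?_, ?_⟩
  · intro x hx
    have h1 : eval (fun i => x (i, 0)) (yh h) = 0 := hx
    rw [eval_yh] at h1
    refine ⟨?_, ?_⟩
    · have h2 : (fun i => polyMap (yw h (M + 1)) x (Fin.castAdd 2 i, 0)) =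
          fun i => x (Fin.castAdd 2 i, 0) := by
        funext i
        exact congrFun (gx_yw h x) (i, 0)
      show eval (fun i => polyMap (yw h (M + 1)) x (Fin.castAdd 2 i, 0)) h ≠ 0
      rw [h2]
      exact hunit x hx
    · show zx (polyMap (yw h (M + 1)) x) 0 = 0
      rw [zx_yw, Fin.val_zero, PowerSeries.coeff_zero_eq_constantCoeff_apply, map_sub, map_mul,
        map_one, constCoeff_h hh, constCoeff_ser]
      exact h1
  · intro x hx x' hx' heq
    have h1 : gx x = gx x' := by rw [← gx_yw h x, heq, gx_yw]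
    have h2 : wx x = wx x' := by rw [← wx_yw h x, heq, wx_yw]
    refine ext3 h1 h2 ?_
    have hU : PowerSeries.constantCoeff (aeval (arc (gx x)) h : PowerSeries ℂ) ≠ 0 := by
      rw [constCoeff_h hh]
      exact hunit x hx
    have h3 : (PowerSeries.X : PowerSeries ℂ) ^ (M + 1) ∣
        (aeval (arc (gx x)) h : PowerSeries ℂ) * (ser (zx x) - ser (zx x')) := by
      have h4 := dvd_sub (ser_zx_yw h x) (ser_zx_yw h x')
      rw [heq, ← h1] at h4
      have h5 : (aeval (arc (gx x)) h : PowerSeries ℂ) * (ser (zx x) - ser (zx x')) =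
          (ser (zx x) * aeval (arc (gx x)) h - 1) - ser (zx (polyMap (yw h (M + 1)) x')) -
          ((ser (zx x') * aeval (arc (gx x)) h - 1) -
            ser (zx (polyMap (yw h (M + 1)) x'))) := by
        ring
      rw [h5]
      exact h4
    have h5 : (PowerSeries.X : PowerSeries ℂ) ^ (M + 1) ∣ ser (zx x) - ser (zx x') := by
      have h6 := h3.mul_left (aeval (arc (gx x)) h : PowerSeries ℂ)⁻¹
      rwa [← mul_assoc, PowerSeries.inv_mul_cancel _ hU, one_mul] at h6
    rw [PowerSeries.X_pow_dvd_iff] at h5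
    funext j
    have h7 := h5 j j.2
    rw [map_sub, coeff_ser, coeff_ser, dif_pos j.2, dif_pos j.2, sub_eq_zero] at h7
    exact h7
  · rintro y ⟨hy1, hy2⟩
    have hy1' : eval (fun i => y (Fin.castAdd 2 i, 0)) h ≠ 0 := hy1
    have hy2' : zx y 0 = 0 := hy2
    have hU : PowerSeries.constantCoeff (aeval (arc (gx y)) h : PowerSeries ℂ) ≠ 0 := by
      rw [constCoeff_h hh]
      exact hy1'
    let V : PowerSeries ℂ := aeval (arc (gx y)) h
    let z : Fin (M + 1) → ℂ := fun j => PowerSeries.coeff j ((1 + ser (zx y)) * V⁻¹)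
    have h1 : (PowerSeries.X : PowerSeries ℂ) ^ (M + 1) ∣ ser z - (1 + ser (zx y)) * V⁻¹ := by
      rw [PowerSeries.X_pow_dvd_iff]
      intro l hl
      rw [map_sub, coeff_ser, dif_pos hl, sub_self]
    have h2 : (PowerSeries.X : PowerSeries ℂ) ^ (M + 1) ∣ (ser z * V - 1) - ser (zx y) := by
      have h3 := h1.mul_right V
      have h4 : (ser z - (1 + ser (zx y)) * V⁻¹) * V = (ser z * V - 1) - ser (zx y) := by
        rw [sub_mul, mul_assoc, PowerSeries.inv_mul_cancel V hU]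
        ring
      rwa [h4] at h3
    have hg : gx (mk3 (gx y) (wx y) z) = gx y := gx_mk3 _ _ _
    refine ⟨mk3 (gx y) (wx y) z, ?_, ?_⟩
    · show eval (fun i => mk3 (gx y) (wx y) z (i, 0)) (yh h) = 0
      rw [eval_yh]
      have h5 : (fun i => mk3 (gx y) (wx y) z (Fin.castAdd 2 i, 0)) =
          fun i => y (Fin.castAdd 2 i, 0) := by
        funext i
        exact congrFun hg (i, 0)
      have h6 : mk3 (gx y) (wx y) z (Fin.natAdd n 1, 0) = z 0 :=
        congrFun (zx_mk3 (gx y) (wx y) z) 0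
      have h7 : z 0 = (eval (fun i => y (Fin.castAdd 2 i, 0)) h)⁻¹ := by
        show PowerSeries.coeff ((0 : Fin (M + 1)) : ℕ) ((1 + ser (zx y)) * V⁻¹) = _
        rw [Fin.val_zero, PowerSeries.coeff_zero_eq_constantCoeff_apply, map_mul, map_add, map_one,
          constCoeff_ser, hy2', add_zero, one_mul, PowerSeries.constantCoeff_inv]
        show (PowerSeries.constantCoeff (aeval (arc (gx y)) h : PowerSeries ℂ))⁻¹ = _
        rw [constCoeff_h hh]
      rw [h5, h6, h7, inv_mul_cancel₀ hy1', sub_self]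
    · refine ext3 ?_ ?_ ?_
      · rw [gx_yw, gx_mk3]
      · rw [wx_yw, wx_mk3]
      · funext j
        rw [zx_yw, gx_mk3, zx_mk3]
        rw [PowerSeries.X_pow_dvd_iff] at h2
        have h4 := h2 j j.2
        rw [map_sub, coeff_ser, dif_pos j.2, sub_eq_zero] at h4
        exact h4

end SZ

theorem isConstr_yh (h : MvPolynomial (Fin n) ℂ) :
    IsConstr {p : Fin (n + 2) → ℂ | eval p (SZ.yh h) = 0} := isConstr_eq_zero _

theorem isConstr_hz (h : MvPolynomial (Fin n) ℂ) :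
    IsConstr {p : Fin (n + 2) → ℂ | eval (fun i => p (Fin.castAdd 2 i)) h ≠ 0 ∧
        p (Fin.natAdd n 1) = 0} := by
  refine isConstr_setOf_and ?_ ?_
  · have h1 := isConstr_ne_zero (rename (Fin.castAdd 2) h : MvPolynomial (Fin (n + 2)) ℂ)
    simpa only [eval_rename, Function.comp_def] using h1
  · have h1 := isConstr_eq_zero (X (Fin.natAdd n 1) : MvPolynomial (Fin (n + 2)) ℂ)
    simpa only [eval_X] using h1

theorem cls_lag (f : MvPolynomial (Fin n) ℂ) {h : MvPolynomial (Fin n) ℂ} (hh : h ≠ 0) (M : ℕ) :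
    cls (arcs (lag f h) (M + 1) M ∩ AtW {p : Fin (n + 2) → ℂ | eval p (SZ.yh h) = 0} M) =
      cls (arcs (stab f) (M + 1) M ∩ AtW {p : Fin (n + 2) → ℂ |
        eval (fun i => p (Fin.castAdd 2 i)) h ≠ 0 ∧ p (Fin.natAdd n 1) = 0} M) := by
  have hb := SZ.bijOn_yw hh M
  refine cls_bijOn ((isConstr_arcs _ _ _).inter (isConstr_AtW (isConstr_yh h) M))
    ((isConstr_arcs _ _ _).inter (isConstr_AtW (isConstr_hz h) M)) (SZ.yw h (M + 1)) ⟨?_, ?_, ?_⟩
  · intro x hx
    have h3 := (SZ.mem_arcs_yw f h (Nat.lt_succ_self M) x).1 hx.1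
    have h4 := hb.mapsTo hx.2
    exact ⟨h3, h4⟩
  · intro x hx x' hx' heq
    exact hb.injOn hx.2 hx'.2 heq
  · intro y hy
    obtain ⟨x, hx, rfl⟩ := hb.surjOn hy.2
    exact ⟨x, ⟨(SZ.mem_arcs_yw f h (Nat.lt_succ_self M) x).2 hy.1, hx⟩, rfl⟩

theorem seriesAt_lag (f : MvPolynomial (Fin n) ℂ) {h : MvPolynomial (Fin n) ℂ} (hh : h ≠ 0) :
    seriesAt (lag f h) {p : Fin (n + 2) → ℂ | eval p (SZ.yh h) = 0} =
      seriesAt (stab f) {p : Fin (n + 2) → ℂ | eval (fun i => p (Fin.castAdd 2 i)) h ≠ 0 ∧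
        p (Fin.natAdd n 1) = 0} := by
  ext M
  unfold seriesAt clsM
  rw [PowerSeries.coeff_mk, PowerSeries.coeff_mk, cls_lag f hh M]

/-- The arcs at points at which `∂_w` does not vanish. -/
theorem seriesAt_mem_of_pderiv {N : ℕ} {g : MvPolynomial (Fin N) ℂ} (hg : g ≠ 0)
    {W : Set (Fin N → ℂ)} (hW : IsConstr W) (i : Fin N)
    (h : ∀ p ∈ W, eval p (pderiv i g) ≠ 0) {s₀ : ℚ} (hs : s₀ ≠ -1) :
    seriesAt g W ∈ regularAt s₀ := by
  have h1 := seriesAt_mem_of_snc (ι := Unit) (g := fun _ => g) (m := fun _ => 1)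
    (fun _ => hg) (fun _ => one_pos) hW (fun p hp => ?_) (s₀ := s₀) (fun _ _ => by
      rw [Nat.cast_one, div_one]
      exact hs)
  · have h2 : ∏ _i : Unit, g ^ 1 = g := by simp
    rwa [h2] at h1
  · rw [linearIndependent_iff']
    intro t c hc k hk
    have h3 : ∀ k' : {_k : Unit // eval p g = 0}, k' = k := fun k' => Subsingleton.elim _ _
    have h4 : t = {k} := by
      ext k'
      rw [Finset.mem_singleton]
      exact ⟨fun _ => h3 k', fun h => h ▸ hk⟩
    rw [h4, Finset.sum_singleton] at hc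
    have h5 := congrFun hc i
    simp only [Pi.smul_apply, smul_eq_mul, Pi.zero_apply] at h5
    exact (mul_eq_zero.1 h5).resolve_right (h p hp)

theorem pderiv_w_rename (f : MvPolynomial (Fin n) ℂ) (k : Fin 2) :
    pderiv (Fin.natAdd n k) (rename (Fin.castAdd 2) f : MvPolynomial (Fin (n + 2)) ℂ) = 0 :=
  poD_rename_zero k f

theorem pderiv_w_lag (f h : MvPolynomial (Fin n) ℂ) :
    pderiv (Fin.natAdd n 0) (lag f h) = SZ.yh h := by
  unfold lag SZ.yh
  rw [map_add, pderiv_w_rename, zero_add, Derivation.leibniz, map_sub, Derivation.leibniz,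
    pderiv_w_rename, pderiv_X_self, pderiv_X_of_ne natAdd_ne.symm, Derivation.map_one_eq_zero]
  simp

theorem pderiv_w_stab (f : MvPolynomial (Fin n) ℂ) :
    pderiv (Fin.natAdd n 0) (stab f) = X (Fin.natAdd n 1) := by
  unfold stab
  rw [map_add, pderiv_w_rename, zero_add, Derivation.leibniz, pderiv_X_self,
    pderiv_X_of_ne natAdd_ne.symm]
  simp

/-- If the zeta function of `f + w (y h - 1)` is regular at `s₀ - 1`, so is, at `s₀`, that of the
arcs of `f` at the points with `h ≠ 0`. -/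
theorem seriesAt_mem_of_lag {f : MvPolynomial (Fin n) ℂ}
    {h : MvPolynomial (Fin n) ℂ} (hh : h ≠ 0) {s₀ : ℚ} (hs0 : s₀ ≠ 0) (h1 : s₀ ≠ -1)
    (h2 : s₀ ≠ 1) (hreg : Zmot (lag f h) ∈ regularAt (s₀ - 1)) :
    seriesAt f {p | eval p h ≠ 0} ∈ regularAt s₀ := by
  have hs : s₀ - 1 ≠ -1 := by
    intro h
    apply hs0
    linarith
  refine seriesAt_mem_of_stab (isConstr_ne_zero h) h1 h2 ?_
  have e1 : Zmot (lag f h) = seriesAt (lag f h) {p | eval p (SZ.yh h) = 0} +
      seriesAt (lag f h) {p | eval p (SZ.yh h) = 0}ᶜ := by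
    rw [← seriesAt_union _ (isConstr_yh h) (isConstr_yh h).compl disjoint_compl_right,
      Set.union_compl_self, seriesAt_univ]
  have e2 : seriesAt (lag f h) {p | eval p (SZ.yh h) = 0}ᶜ ∈ regularAt (s₀ - 1) := by
    refine seriesAt_mem_of_pderiv (lag_ne_zero f h) (isConstr_yh h).compl (Fin.natAdd n 0)
      (fun p hp => ?_) hs
    rw [pderiv_w_lag]
    exact hp
  have e3 : seriesAt (lag f h) {p | eval p (SZ.yh h) = 0} ∈ regularAt (s₀ - 1) := by
    have e4 : seriesAt (lag f h) {p | eval p (SZ.yh h) = 0} =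
        Zmot (lag f h) - seriesAt (lag f h) {p | eval p (SZ.yh h) = 0}ᶜ := by
      rw [e1]
      ring
    rw [e4]
    exact sub_mem hreg e2
  rw [seriesAt_lag f hh] at e3
  have hc := isConstr_hz h
  have hup := isConstr_upW (isConstr_ne_zero h)
  have e5 : upW {p : Fin n → ℂ | eval p h ≠ 0} =
      {p : Fin (n + 2) → ℂ | eval (fun i => p (Fin.castAdd 2 i)) h ≠ 0 ∧
        p (Fin.natAdd n 1) = 0} ∪ (upW {p : Fin n → ℂ | eval p h ≠ 0} \
        {p : Fin (n + 2) → ℂ | eval (fun i => p (Fin.castAdd 2 i)) h ≠ 0 ∧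
        p (Fin.natAdd n 1) = 0}) := by
    rw [Set.union_sdiff_cancel]
    intro p hp
    exact hp.1
  rw [e5, seriesAt_union _ hc (hup.diff hc) Set.disjoint_sdiff_right]
  refine add_mem e3 (seriesAt_mem_of_pderiv (stab_ne_zero f) (hup.diff hc) (Fin.natAdd n 0)
      (fun p hp => ?_) hs)
  rw [pderiv_w_stab, eval_X]
  intro h3
  exact hp.2 ⟨hp.1, h3⟩

end MPb07157
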