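import Pool.Agent.Lib.MP_b07157_agS.LQD

/-!
# The arcs at the points of a constructible set, inclusion and exclusion
-/

noncomputable section

namespace MPb07157

open MvPolynomial

variable {n : ℕ}

theorem seriesAt_diff (f : MvPolynomial (Fin n) ℂ) {V W : Set (Fin n → ℂ)} (hV : IsConstr V)
    (hW : IsConstr W) (h : W ⊆ V) : seriesAt f (V \ W) = seriesAt f V - seriesAt f W := by
  have h1 := seriesAt_union f hW (hV.diff hW) Set.disjoint_sdiff_right
  rw [Set.union_sdiff_cancel h] at h1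
  rw [h1]
  exact (add_sub_cancel_left _ _).symm

/-- The zeta functions of the arcs of `f` at the points of the sets `{u h ≠ 0} ∩ V` are regular
at `s₀`. -/
def RegOn (f : MvPolynomial (Fin n) ℂ) (s₀ : ℚ) (u : MvPolynomial (Fin n) ℂ)
    (V : Set (Fin n → ℂ)) : Prop :=
  ∀ h : MvPolynomial (Fin n) ℂ, h ≠ 0 →
    seriesAt f ({p | eval p (u * h) ≠ 0} ∩ V) ∈ regularAt s₀

theorem RegOn.inter {f : MvPolynomial (Fin n) ℂ} {s₀ : ℚ} {u : MvPolynomial (Fin n) ℂ}
    {W : Set (Fin n → ℂ)} (hW : IsConstr W) :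
    ∀ {V : Set (Fin n → ℂ)}, IsConstr V → RegOn f s₀ u V → RegOn f s₀ u (V ∩ W) := by
  induction hW with
  | zeros q =>
    intro V hV hR h hh
    by_cases hq : q = 0
    · have e1 : V ∩ {x | eval x q = 0} = V := by
        rw [hq]
        simp
      rw [e1]
      exact hR h hh
    · have e1 : {p | eval p (u * h) ≠ 0} ∩ (V ∩ {x | eval x q = 0}) =
          ({p | eval p (u * h) ≠ 0} ∩ V) \ ({p | eval p (u * (h * q)) ≠ 0} ∩ V) := by
        ext p
        simp only [Set.mem_inter_iff, Set.mem_sdiff, Set.mem_ofPred_eq, map_mul, mul_ne_zero_iff]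
        tauto
      rw [e1, seriesAt_diff f ((isConstr_ne_zero _).inter hV) ((isConstr_ne_zero _).inter hV)]
      · exact sub_mem (hR h hh) (hR (h * q) (mul_ne_zero hh hq))
      · rintro p ⟨h1, h2⟩
        refine ⟨?_, h2⟩
        simp only [Set.mem_ofPred_eq, map_mul, mul_ne_zero_iff] at h1 ⊢
        tauto
  | @compl S hS ih =>
    intro V hV hR h hh
    have e1 : {p | eval p (u * h) ≠ 0} ∩ (V ∩ Sᶜ) =
        ({p | eval p (u * h) ≠ 0} ∩ V) \ ({p | eval p (u * h) ≠ 0} ∩ (V ∩ S)) := by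
      ext p
      simp only [Set.mem_inter_iff, Set.mem_sdiff, Set.mem_compl_iff]
      tauto
    rw [e1, seriesAt_diff f ((isConstr_ne_zero _).inter hV)
      ((isConstr_ne_zero _).inter (hV.inter hS))]
    · exact sub_mem (hR h hh) (ih hV hR h hh)
    · rintro p ⟨h1, h2⟩
      exact ⟨h1, h2.1⟩
  | @inter S T hS hT ih1 ih2 =>
    intro V hV hR
    rw [← Set.inter_assoc]
    exact ih2 (hV.inter hS) (ih1 hV hR)

/-- Gluing. -/
theorem seriesAt_mem_of_cover {f : MvPolynomial (Fin n) ℂ} {s₀ : ℚ}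
    (t : Finset (MvPolynomial (Fin n) ℂ)) :
    (∀ u ∈ t, RegOn f s₀ u Set.univ) → ∀ {W : Set (Fin n → ℂ)}, IsConstr W →
      (∀ p ∈ W, ∃ u ∈ t, eval p u ≠ 0) → seriesAt f W ∈ regularAt s₀ := by
  classical
  induction t using Finset.induction_on with
  | empty =>
    intro _ W _ h
    have : W = ∅ := by
      rw [Set.eq_empty_iff_forall_notMem]
      intro p hp
      obtain ⟨u, hu, -⟩ := h p hp
      exact absurd hu (Finset.notMem_empty u)
    rw [this, seriesAt_empty]
    exact zero_mem _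
  | insert u t _ ih =>
    intro hR W hW h
    have h1 : RegOn f s₀ u (Set.univ ∩ W) :=
      RegOn.inter hW IsConstr.univ (hR u (Finset.mem_insert_self u t))
    rw [Set.univ_inter] at h1
    have h2 := h1 1 one_ne_zero
    rw [mul_one] at h2
    have h3 : seriesAt f (W \ ({p | eval p u ≠ 0} ∩ W)) ∈ regularAt s₀ := by
      refine ih (fun v hv => hR v (Finset.mem_insert_of_mem hv))
        (hW.diff ((isConstr_ne_zero u).inter hW)) fun p hp => ?_
      obtain ⟨v, hv, hpv⟩ := h p hp.1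
      rcases Finset.mem_insert.1 hv with rfl | hv
      · exact absurd ⟨hpv, hp.1⟩ hp.2
      · exact ⟨v, hv, hpv⟩
    rw [seriesAt_diff f hW ((isConstr_ne_zero u).inter hW) Set.inter_subset_right] at h3
    have h4 := add_mem h3 h2
    rwa [sub_add_cancel] at h4

/-- Quasi-compactness. -/
theorem seriesAt_mem_of_local {f : MvPolynomial (Fin n) ℂ} {s₀ : ℚ} {W : Set (Fin n → ℂ)}
    (hW : IsConstr W)
    (h : ∀ p ∈ W, ∃ u : MvPolynomial (Fin n) ℂ, eval p u ≠ 0 ∧ RegOn f s₀ u Set.univ) :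
    seriesAt f W ∈ regularAt s₀ := by
  let S : Set (MvPolynomial (Fin n) ℂ) := {u | RegOn f s₀ u Set.univ}
  obtain ⟨t, ht, hspan⟩ := (Submodule.fg_span_iff_fg_span_finset_subset S).1
    (IsNoetherian.noetherian (Submodule.span (MvPolynomial (Fin n) ℂ) S))
  refine seriesAt_mem_of_cover t (fun u hu => ht hu) hW fun p hp => ?_
  obtain ⟨u, hu, huS⟩ := h p hp
  by_contra hcon
  push Not at hcon
  apply hu
  have h1 : u ∈ Submodule.span (MvPolynomial (Fin n) ℂ) (t : Set (MvPolynomial (Fin n) ℂ)) := by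
    rw [← hspan]
    exact Submodule.subset_span huS
  have h2 : Submodule.span (MvPolynomial (Fin n) ℂ) (t : Set (MvPolynomial (Fin n) ℂ)) ≤
      RingHom.ker (eval p) := by
    rw [Submodule.span_le]
    intro v hv
    exact hcon v hv
  exact h2 h1

/-- The arcs at points outside the hypersurface. -/
theorem seriesAt_mem_of_ne {f : MvPolynomial (Fin n) ℂ} (hf : f ≠ 0) {W : Set (Fin n → ℂ)}
    (hW : IsConstr W) (h : ∀ p ∈ W, eval p f ≠ 0) (s₀ : ℚ) : seriesAt f W ∈ regularAt s₀ := by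
  have h1 := seriesAt_mem_of_snc (ι := Unit) (g := fun _ => f) (m := fun _ => 1)
    (fun _ => hf) (fun _ => one_pos) hW (fun p hp => ?_) (s₀ := s₀) (fun _ ⟨p, hp, h0⟩ =>
      absurd h0 (h p hp))
  · have h2 : ∏ _i : Unit, f ^ 1 = f := by simp
    rwa [h2] at h1
  · have : IsEmpty {_i : Unit // eval p f = 0} := ⟨fun i => h p hp i.2⟩
    exact linearIndependent_empty_type

end MPb07157
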