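import Pool.Agent.Lib.MP_b07157_agS.LQE
import Pool.Agent.Lib.MP_b07157_agS.CubF2
import Pool.Agent.Lib.MP_b07157_agS.SMain

/-!
# The global strong monodromy conjecture implies the conjecture for the arcs at the points of an
arbitrary constructible set
-/

noncomputable section

namespace MPb07157

open MvPolynomial

variable {n : ℕ}

theorem translate_neg_translate (p : Fin n → ℂ) (f : MvPolynomial (Fin n) ℂ) :
    translate (-p) (translate p f) = f := by
  unfold translate
  rw [← AlgHom.comp_apply, comp_aeval]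
  convert aeval_X_left_apply f using 2
  congr 1
  funext i
  simp

theorem translate_translate_neg (p : Fin n → ℂ) (f : MvPolynomial (Fin n) ℂ) :
    translate p (translate (-p) f) = f := by
  have h := translate_neg_translate (-p) f
  rwa [neg_neg] at h

theorem constantCoeff_translate (p : Fin n → ℂ) (f : MvPolynomial (Fin n) ℂ) :
    constantCoeff (translate p f) = eval p f := by
  unfold translate
  rw [aeval_def, hom_eval₂]
  simp [eval_eq', eval₂_eq']

/-- Translation as an automorphism. -/
def trE (p : Fin n → ℂ) : MvPolynomial (Fin n) ℂ ≃ₐ[ℂ] MvPolynomial (Fin n) ℂ :=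
  AlgEquiv.ofAlgHom (aeval fun i => X i + C (p i)) (aeval fun i => X i - C (p i))
    (by
      apply MvPolynomial.algHom_ext
      intro i
      rw [AlgHom.comp_apply, aeval_X, map_sub, aeval_X, AlgHom.id_apply, ← algebraMap_eq,
        AlgHom.commutes]
      ring)
    (by
      apply MvPolynomial.algHom_ext
      intro i
      rw [AlgHom.comp_apply, aeval_X, map_add, aeval_X, AlgHom.id_apply, ← algebraMap_eq,
        AlgHom.commutes]
      ring)

theorem trE_apply (p : Fin n → ℂ) (f : MvPolynomial (Fin n) ℂ) : trE p f = translate p f := by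
  unfold trE translate
  rw [AlgEquiv.ofAlgHom_apply]

theorem SmcGlob.of_translate {f : MvPolynomial (Fin n) ℂ} (p : Fin n → ℂ)
    (h : SmcGlob (translate p f)) : SmcGlob f := by
  refine SmcGlob.of_polyEquivPow one_pos ⟨trE (-p), 1, one_ne_zero, ?_⟩ h
  rw [pow_one, map_one, one_mul, trE_apply, translate_neg_translate]

/-- A local equation on a neighbourhood of `p`. -/
theorem exists_inDn_at {f : MvPolynomial (Fin n) ℂ} (p : Fin n → ℂ) {b : Polynomial ℂ}
    (hb : IsLocalBernsteinSato (translate p f) b) :
    ∃ u : MvPolynomial (Fin n) ℂ, eval p u ≠ 0 ∧ InDn f 1 (liftS u * C b) := by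
  obtain ⟨u, hu, h⟩ := exists_inDn_of_form (InDnLoc.toForm hb)
  have h1 := InDn.translate (-p) h
  rw [translate_neg_translate, map_mul, translateS_liftS] at h1
  have h2 : translateS (-p) (C b) = C b := by simp [translateS]
  rw [h2] at h1
  refine ⟨translate (-p) u, ?_, h1⟩
  rw [← constantCoeff_translate, translate_translate_neg, constantCoeff_eq, hu]
  exact one_ne_zero

/-- The hypothesis is the global strong monodromy conjecture for polynomials in `n + 2`
variables. -/
theorem regOn_of_inDn
    (hgl : ∀ F : MvPolynomial (Fin (n + 2)) ℂ, F ≠ 0 → coeff 0 F = 0 → SmcGlob F)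
    {f : MvPolynomial (Fin n) ℂ} (hf : f ≠ 0) {u : MvPolynomial (Fin n) ℂ} (hu : u ≠ 0)
    {b : Polynomial ℂ} (hb : InDn f 1 (liftS u * C b)) {s₀ : ℚ} (hs : s₀ < 0) (hs1 : s₀ ≠ -1)
    (hbs : b.eval (s₀ : ℂ) ≠ 0) : RegOn f s₀ u Set.univ := by
  intro h hh
  rw [Set.inter_univ]
  refine seriesAt_mem_of_lag (mul_ne_zero hu hh) hs.ne hs1 (by
    intro h2
    rw [h2] at hs
    norm_num at hs) ?_
  have hb1 : InDn f 1 (liftS u * C ((Polynomial.X + 1) * b)) := by
    have h1 := InDn.mul (C (Polynomial.X + 1)) hb
    have h2 : (C (Polynomial.X + 1) : MvPolynomial (Fin n) (Polynomial ℂ)) * (liftS u * C b) =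
        liftS u * C ((Polynomial.X + 1) * b) := by
      rw [map_mul]
      ring
    rwa [h2] at h1
  by_contra hpole
  obtain ⟨p, hp⟩ := exists_zero_lag f (u * h)
  have hG : SmcGlob (lag f (u * h)) :=
    SmcGlob.of_translate p (hgl _ (translate_ne_zero (lag_ne_zero f _) p)
      (coeff_zero_translate hp))
  have h3 := hG (s₀ - 1) (by linarith) hpole _ (isBernsteinSato_lag hf (Dvd.intro _ rfl) hb1)
  rw [Polynomial.eval_mul, Polynomial.eval_comp] at h3
  simp only [Polynomial.eval_add, Polynomial.eval_X, Polynomial.eval_one] at h3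
  push_cast at h3
  rw [sub_add_cancel] at h3
  have h4 : (s₀ : ℂ) ≠ 0 := by exact_mod_cast hs.ne
  exact hbs ((mul_eq_zero.1 h3).resolve_left h4)

/-- The global strong monodromy conjecture for polynomials in `n + 2` variables implies the
conjecture for polynomials in `n` variables and the arcs at the points of any constructible set. -/
theorem smcConstr_of_glob
    (hgl : ∀ F : MvPolynomial (Fin (n + 2)) ℂ, F ≠ 0 → coeff 0 F = 0 → SmcGlob F)
    (f : MvPolynomial (Fin n) ℂ) (hf : f ≠ 0) (W : Set (Fin n → ℂ)) (hW : IsConstr W)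
    (s₀ : ℚ) (hs : s₀ < 0) (hp : IsPole (seriesAt f W) s₀) :
    ∃ p ∈ W, eval p f = 0 ∧ IsLocalBernsteinSatoRoot (translate p f) s₀ := by
  by_contra hcon
  push Not at hcon
  apply hp
  by_cases h1 : s₀ = -1
  · subst h1
    refine seriesAt_mem_of_ne hf hW (fun p hpW h0 => ?_) _
    refine hcon p hpW h0 (roots_of_form fun b hb => ?_).2
    refine neg_one_root (translate_ne_zero hf p) ?_ b hb
    rw [notMem_support_iff]
    exact coeff_zero_translate h0
  · refine seriesAt_mem_of_local hW fun p hpW => ?_
    by_cases h0 : eval p f = 0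
    · have h2 := hcon p hpW h0
      unfold IsLocalBernsteinSatoRoot at h2
      push Not at h2
      obtain ⟨b, hb, hbs⟩ := h2
      obtain ⟨u, hu, hub⟩ := exists_inDn_at p hb
      refine ⟨u, hu, regOn_of_inDn hgl hf ?_ hub hs h1 hbs⟩
      rintro rfl
      exact hu (map_zero _)
    · refine ⟨f, h0, regOn_of_inDn hgl hf hf (b := 1) ?_ hs h1 ?_⟩
      · rw [map_one]
        exact InDn.raise InDn.base
      · rw [Polynomial.eval_one]
        exact one_ne_zero

/-- The arcs at the origin. -/
theorem seriesAt_zero (f : MvPolynomial (Fin n) ℂ) : seriesAt f {0} = Zmot0 f := by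
  rw [seriesAt_singleton]
  congr 1
  unfold translate
  simp only [Pi.zero_apply, map_zero, add_zero]
  exact aeval_X_left_apply f

end MPb07157
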