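import Pool.Agent.Lib.MP_b07157_agS.TriB

/-!
# The germs of the trilinear form `t_0 t_1 t_2 H(y / t)` at the points `(1, 1, 1, q)`
-/

noncomputable section

namespace MPb07157

open MvPolynomial

variable {n : ℕ}

namespace Tri

/-- The substitution `t_k ↦ t_k`, `y_i ↦ (y_i + q_i) V_{c(i)} - q_i`. -/
def hq (c : Fin n → Fin 3) (q : Fin n → ℂ) (V : Fin 3 → MvPowerSeries (Fin (n + 3)) ℂ) :
    Fin (n + 3) → MvPowerSeries (Fin (n + 3)) ℂ :=
  cons3 (fun k => MvPowerSeries.X (tv n k))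
    (fun i => (MvPowerSeries.X (e3 i) + MvPowerSeries.C (q i)) * V (c i) - MvPowerSeries.C (q i))

theorem hq_tv (c : Fin n → Fin 3) (q : Fin n → ℂ) (V : Fin 3 → MvPowerSeries (Fin (n + 3)) ℂ)
    (k : Fin 3) : hq c q V (tv n k) = MvPowerSeries.X (tv n k) := cons3_tv _ _ _

theorem hq_e3 (c : Fin n → Fin 3) (q : Fin n → ℂ) (V : Fin 3 → MvPowerSeries (Fin (n + 3)) ℂ)
    (i : Fin n) : hq c q V (e3 i) =
      (MvPowerSeries.X (e3 i) + MvPowerSeries.C (q i)) * V (c i) - MvPowerSeries.C (q i) := rfl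

theorem constantCoeff_hq (c : Fin n → Fin 3) (q : Fin n → ℂ)
    {V : Fin 3 → MvPowerSeries (Fin (n + 3)) ℂ} (hV : ∀ k, MvPowerSeries.constantCoeff (V k) = 1)
    (i : Fin (n + 3)) : MvPowerSeries.constantCoeff (hq c q V i) = 0 := by
  refine ind3 (fun k => ?_) (fun i => ?_) i
  · rw [hq_tv, MvPowerSeries.constantCoeff_X]
  · rw [hq_e3, map_sub, map_mul, map_add, MvPowerSeries.constantCoeff_X, hV,
      MvPowerSeries.constantCoeff_C]
    ring

theorem constantCoeff_ti (k : Fin 3) : MvPowerSeries.constantCoeff (ti n k) = 1 := by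
  have h1 : ti n k * tt n k = 1 := by
    rw [← tu_val]
    exact Units.inv_mul _
  have h2 := congrArg (MvPowerSeries.constantCoeff (σ := Fin (n + 3)) (R := ℂ)) h1
  rwa [map_mul, constantCoeff_tt, mul_one, map_one] at h2

section

variable (c : Fin n → Fin 3) (q : Fin n → ℂ) {V : Fin 3 → MvPowerSeries (Fin (n + 3)) ℂ}
  (hV : ∀ k, MvPowerSeries.constantCoeff (V k) = 1)

include hV

theorem hasSubst_hq : MvPowerSeries.HasSubst (hq c q V) :=
  MvPowerSeries.hasSubst_of_constantCoeff_zero (constantCoeff_hq c q hV)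

theorem subst_hq_X (i : Fin (n + 3)) :
    MvPowerSeries.subst (hq c q V) (MvPowerSeries.X i : MvPowerSeries (Fin (n + 3)) ℂ) =
      hq c q V i :=
  MvPowerSeries.subst_X (hasSubst_hq c q hV) i

theorem subst_hq_C (a : ℂ) :
    MvPowerSeries.subst (hq c q V) (MvPowerSeries.C a : MvPowerSeries (Fin (n + 3)) ℂ) =
      MvPowerSeries.C a := by
  rw [← MvPowerSeries.substAlgHom_apply (hasSubst_hq c q hV), MvPowerSeries.c_eq_algebraMap]
  exact AlgHom.commutes _ a

theorem subst_hq_tt (k : Fin 3) : MvPowerSeries.subst (hq c q V) (tt n k) = tt n k := by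
  unfold tt
  rw [← MvPowerSeries.substAlgHom_apply (hasSubst_hq c q hV), map_add, map_one,
    MvPowerSeries.substAlgHom_apply, subst_hq_X c q hV, hq_tv]

theorem subst_hq_ti (k : Fin 3) : MvPowerSeries.subst (hq c q V) (ti n k) = ti n k := by
  have h := hasSubst_hq c q hV
  have h0 : ti n k * tt n k = 1 := by
    rw [← tu_val]
    exact Units.inv_mul _
  have h1 : MvPowerSeries.subst (hq c q V) (ti n k) * tt n k = 1 := by
    conv_lhs => rw [← subst_hq_tt c q hV]
    rw [← MvPowerSeries.subst_mul h, h0, ← MvPowerSeries.substAlgHom_apply h, map_one]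
  calc _ = MvPowerSeries.subst (hq c q V) (ti n k) * (ti n k * tt n k) := by rw [h0, mul_one]
    _ = MvPowerSeries.subst (hq c q V) (ti n k) * tt n k * ti n k := by ring
    _ = _ := by rw [h1, one_mul]

theorem subst_hq_e3 {V' : Fin 3 → MvPowerSeries (Fin (n + 3)) ℂ}
    (hVV : ∀ k, V k * V' k = 1)
    (hs : ∀ k, MvPowerSeries.subst (hq c q V) (V' k) = V' k) (i : Fin n) :
    MvPowerSeries.subst (hq c q V) (hq c q V' (e3 i)) = MvPowerSeries.X (e3 i) := by
  have h := hasSubst_hq c q hV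
  rw [hq_e3, ← MvPowerSeries.substAlgHom_apply h, map_sub, map_mul, map_add,
    MvPowerSeries.substAlgHom_apply, MvPowerSeries.substAlgHom_apply,
    MvPowerSeries.substAlgHom_apply, subst_hq_X c q hV, subst_hq_C c q hV, hs, hq_e3]
  have h1 := hVV (c i)
  calc _ = (MvPowerSeries.X (e3 i) + MvPowerSeries.C (q i)) * (V (c i) * V' (c i)) -
        MvPowerSeries.C (q i) := by ring
    _ = _ := by rw [h1]; ring

end

theorem ti_mul_tt (k : Fin 3) : ti n k * tt n k = 1 := by
  rw [← tu_val]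
  exact Units.inv_mul _

/-- The formal change of coordinates `t_k ↦ t_k`, `y_i ↦ (y_i + q_i) / (1 + t_{c(i)}) - q_i`. -/
def hEq (c : Fin n → Fin 3) (q : Fin n → ℂ) :
    MvPowerSeries (Fin (n + 3)) ℂ ≃ₐ[ℂ] MvPowerSeries (Fin (n + 3)) ℂ :=
  Cub.psEquiv (hq c q (ti n)) (hq c q (tt n)) (constantCoeff_hq c q constantCoeff_ti)
    (constantCoeff_hq c q (constantCoeff_tt n))
    (by
      intro i
      refine ind3 (fun k => ?_) (fun i => ?_) i
      · rw [hq_tv, subst_hq_X c q constantCoeff_ti, hq_tv]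
      · exact subst_hq_e3 c q constantCoeff_ti ti_mul_tt
          (fun k => subst_hq_tt c q constantCoeff_ti k) i)
    (by
      intro i
      refine ind3 (fun k => ?_) (fun i => ?_) i
      · rw [hq_tv, subst_hq_X c q (constantCoeff_tt n), hq_tv]
      · exact subst_hq_e3 c q (constantCoeff_tt n) (fun k => by rw [mul_comm, ti_mul_tt])
          (fun k => subst_hq_ti c q (constantCoeff_tt n) k) i)

/-- The point `(1, 1, 1, q)`. -/
def ptq (q : Fin n → ℂ) : Fin (n + 3) → ℂ := cons3 (fun _ => 1) q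

theorem dum3_translate_monomial (q : Fin n → ℂ) (u : Fin n →₀ ℕ) (b : ℂ) :
    dum3 (translate q (monomial u b)) = C b * ∏ i, (X (e3 i) + C (q i)) ^ u i := by
  rw [dum3_eq, monomial_eq, Finsupp.prod_fintype _ _ (fun _ => pow_zero _)]
  unfold translate
  rw [map_mul, map_mul, map_prod, map_prod, ← algebraMap_eq, AlgHom.commutes, AlgHom.commutes]
  simp only [map_pow, aeval_X, map_add, rename_X, rename_C, algebraMap_eq]

theorem translate_tri_q (c : Fin n → Fin 3) (q : Fin n → ℂ) (H : MvPolynomial (Fin n) ℂ) :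
    translate (ptq q) (tri c H) =
      ∑ v ∈ H.support, (∏ k, (X (tv n k) + 1) ^ (1 - cdeg c k v)) *
        dum3 (translate q (monomial v (coeff v H))) := by
  unfold tri
  have h0 : ∀ g : MvPolynomial (Fin (n + 3)) ℂ,
      translate (ptq q) g = aeval (fun i => X i + C (ptq q i)) g := fun _ => rfl
  rw [h0, map_sum]
  refine Finset.sum_congr rfl fun v _ => ?_
  have h1 : (aeval fun i => X i + C (ptq q i)) (dum3 (monomial v (coeff v H))) =
      dum3 (translate q (monomial v (coeff v H))) := by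
    unfold translate
    rw [dum3_eq, dum3_eq, aeval_rename, ← AlgHom.comp_apply]
    congr 1
    apply MvPolynomial.algHom_ext
    intro i
    rw [aeval_X, AlgHom.comp_apply, aeval_X, map_add, rename_X, rename_C, Function.comp_apply,
      ptq, cons3_e3]
  have h3 : (aeval fun i => X i + C (ptq q i)) (∏ k, X (tv n k) ^ (1 - cdeg c k v) :
      MvPolynomial (Fin (n + 3)) ℂ) = ∏ k, (X (tv n k) + 1) ^ (1 - cdeg c k v) := by
    rw [map_prod]
    refine Finset.prod_congr rfl fun k _ => ?_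
    rw [map_pow, aeval_X, ptq, cons3_tv, map_one]
  rw [map_mul, h1, h3]

theorem aeval_hq_dum3 (c : Fin n → Fin 3) (q : Fin n → ℂ)
    (V : Fin 3 → MvPowerSeries (Fin (n + 3)) ℂ) (u : Fin n →₀ ℕ) (b : ℂ) :
    (aeval (hq c q V) (dum3 (translate q (monomial u b))) : MvPowerSeries (Fin (n + 3)) ℂ) =
      (∏ k, V k ^ cdeg c k u) *
        ((dum3 (translate q (monomial u b)) : MvPolynomial (Fin (n + 3)) ℂ) :
        MvPowerSeries (Fin (n + 3)) ℂ) := by
  have hC : ∀ a : ℂ, algebraMap ℂ (MvPowerSeries (Fin (n + 3)) ℂ) a = MvPowerSeries.C a :=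
    fun _ => rfl
  rw [dum3_translate_monomial, map_mul, map_prod, aeval_C]
  have h0 : ∀ i, (aeval (hq c q V) (X (e3 i) + C (q i)) : MvPowerSeries (Fin (n + 3)) ℂ) =
      (MvPowerSeries.X (e3 i) + MvPowerSeries.C (q i)) * V (c i) := by
    intro i
    rw [map_add, aeval_X, aeval_C, hq_e3, hC]
    ring
  simp only [map_pow, h0, mul_pow, Finset.prod_mul_distrib]
  have h4 : ∏ i, V (c i) ^ u i = ∏ k, V k ^ cdeg c k u := by
    rw [← Finset.prod_fiberwise Finset.univ c]
    refine Finset.prod_congr rfl fun k _ => ?_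
    unfold cdeg
    rw [← Finset.prod_pow_eq_pow_sum]
    refine Finset.prod_congr rfl fun i hi => ?_
    rw [(Finset.mem_filter.1 hi).2]
  have h2 : ((C b * ∏ i, (X (e3 i) + C (q i)) ^ u i : MvPolynomial (Fin (n + 3)) ℂ) :
      MvPowerSeries (Fin (n + 3)) ℂ) =
      MvPowerSeries.C b * ∏ i, (MvPowerSeries.X (e3 i) + MvPowerSeries.C (q i)) ^ u i := by
    rw [← MvPolynomial.coeToMvPowerSeries.ringHom_apply, map_mul, map_prod]
    simp only [map_pow, map_add, MvPolynomial.coeToMvPowerSeries.ringHom_apply, coe_X, coe_C]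
  rw [h2, h4, hC]
  ring

/-- The germ of the trilinear form at `(1, 1, 1, q)`. -/
theorem formEquivPow_tri_q (c : Fin n → Fin 3) (q : Fin n → ℂ) {H : MvPolynomial (Fin n) ℂ}
    (h : ∀ v ∈ H.support, ∀ k, cdeg c k v ≤ 1) :
    FormEquivPow (translate (ptq q) (tri c H)) (dum3 (translate q H)) 1 := by
  refine ⟨hEq c q, ∏ k, tu n k, ?_⟩
  have h1 : hEq c q ((dum3 (translate q H) : MvPolynomial (Fin (n + 3)) ℂ) :
      MvPowerSeries (Fin (n + 3)) ℂ) =
      ∑ v ∈ H.support, (∏ k, ti n k ^ cdeg c k v) *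
        ((dum3 (translate q (monomial v (coeff v H))) : MvPolynomial (Fin (n + 3)) ℂ) :
          MvPowerSeries (Fin (n + 3)) ℂ) := by
    unfold hEq
    rw [Cub.psEquiv_coe]
    have h2 : dum3 (translate q H) =
        ∑ v ∈ H.support, dum3 (translate q (monomial v (coeff v H))) := by
      conv_lhs => rw [← MvPolynomial.support_sum_monomial_coeff H]
      unfold translate
      rw [dum3_eq, map_sum, map_sum]
      simp only [dum3_eq]
    rw [h2, map_sum]
    exact Finset.sum_congr rfl fun v _ => aeval_hq_dum3 c q _ v _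
  rw [pow_one, h1, translate_tri_q, Finset.mul_sum,
    ← MvPolynomial.coeToMvPowerSeries.ringHom_apply, map_sum]
  refine Finset.sum_congr rfl fun v hv => ?_
  rw [map_mul, map_prod]
  simp only [map_pow, map_add, map_one, MvPolynomial.coeToMvPowerSeries.ringHom_apply, coe_X]
  have h4 : ((∏ k, tu n k : (MvPowerSeries (Fin (n + 3)) ℂ)ˣ) : MvPowerSeries (Fin (n + 3)) ℂ) *
      ∏ k, ti n k ^ cdeg c k v =
      ∏ k, (MvPowerSeries.X (tv n k) + 1 : MvPowerSeries (Fin (n + 3)) ℂ) ^ (1 - cdeg c k v) := by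
    rw [Units.coe_prod, ← Finset.prod_mul_distrib]
    refine Finset.prod_congr rfl fun k _ => ?_
    have h3 := h v hv k
    unfold ti
    rw [← Units.val_pow_eq_pow_val, ← Units.val_mul]
    have h5 : tu n k * (tu n k)⁻¹ ^ cdeg c k v = tu n k ^ (1 - cdeg c k v) := by
      rw [inv_pow, mul_inv_eq_iff_eq_mul, ← pow_add, Nat.sub_add_cancel h3, pow_one]
    rw [h5, Units.val_pow_eq_pow_val]
    rfl
  rw [← mul_assoc, h4]

/-- Local Bernstein–Sato polynomials of the trilinear form. -/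
theorem isLocalBernsteinSato_tri (c : Fin n → Fin 3) (q : Fin n → ℂ)
    {H : MvPolynomial (Fin n) ℂ} (h : ∀ v ∈ H.support, ∀ k, cdeg c k v ≤ 1) {b : Polynomial ℂ}
    (hb : IsBernsteinSato H b) : IsLocalBernsteinSato (translate (ptq q) (tri c H)) b := by
  have h1 : InDnForm (dum3 (translate q H)) 1
      (b.map (MvPowerSeries.C (σ := Fin (n + 3)) (R := ℂ))) :=
    form_dum (form_dum (form_dum (form_translate q hb)))
  have h2 := form_of_formEquivPow one_pos (Cub.formEquivPow_symm (formEquivPow_tri_q c q h)) h1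
  rw [Nat.cast_one, inv_one, map_one, one_mul, Polynomial.comp_X] at h2
  exact isLocalBernsteinSato_of_form h2

end Tri

end MPb07157
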