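import Pool.Agent.Lib.MP_b07157_agS.LQG
import Pool.Agent.Lib.MP_b07157_agS.LQF

/-!
# The zeta function of the trilinear form `t_0 t_1 t_2 H(y / t)` at the points with `t = 1`
-/

noncomputable section

namespace MPb07157

open MvPolynomial

variable {n : ℕ}

theorem cls_single (p : Fin n → ℂ) : cls ({p} : Set (Fin n → ℂ)) = 1 := by
  have h0 : cls (Set.univ : Set (Fin 0 → ℂ)) = 1 := by
    rw [cls_univ_eq]
    simp
  rw [← h0]
  symm
  refine cls_bijOn IsConstr.univ (isConstr_point p) (fun j => C (p j)) ⟨?_, ?_, ?_⟩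
  · intro x _
    show polyMap (fun j => C (p j)) x = p
    funext j
    simp [polyMap]
  · intro x _ y _ _
    exact Subsingleton.elim _ _
  · intro y hy
    refine ⟨fun i => i.elim0, Set.mem_univ _, ?_⟩
    rw [Set.mem_singleton_iff.1 hy]
    funext j
    simp [polyMap]

namespace Tri

/-! ### Coordinates of jets -/

/-- The coordinates `y` of a jet. -/
def yJ {N : ℕ} (x : Fin (n + 3) × Fin N → ℂ) : Fin n × Fin N → ℂ := fun p => x (e3 p.1, p.2)

/-- The coordinates `t` of a jet. -/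
def tJ {N : ℕ} (x : Fin (n + 3) × Fin N → ℂ) : Fin 3 × Fin N → ℂ := fun p => x (tv n p.1, p.2)

/-- The numbering of the coordinates. -/
def eTf (n N : ℕ) : (Fin n × Fin N) ⊕ (Fin 3 × Fin N) → Fin (n + 3) × Fin N :=
  Sum.elim (fun p => (e3 p.1, p.2)) (fun p => (tv n p.1, p.2))

theorem tv_injective : Function.Injective (tv n) := by
  intro a b h
  have h1 := congrArg (cons3 (n := n) (id : Fin 3 → Fin 3) (fun _ => 0)) h
  rw [cons3_tv, cons3_tv] at h1
  exact h1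

theorem tv_ne_e3 (k : Fin 3) (i : Fin n) : tv n k ≠ e3 i := by
  intro h
  have h1 := congrArg (cons3 (n := n) (fun _ => (0 : ℕ)) (fun _ => 1)) h
  rw [cons3_tv, cons3_e3] at h1
  exact zero_ne_one h1

theorem eTf_bijective (n N : ℕ) : Function.Bijective (eTf n N) := by
  constructor
  · rintro (⟨i, j⟩ | ⟨i, j⟩) (⟨i', j'⟩ | ⟨i', j'⟩) h
    · simp only [eTf, Sum.elim_inl, Prod.mk.injEq] at h
      rw [e3_injective h.1, h.2]
    · simp only [eTf, Sum.elim_inl, Sum.elim_inr, Prod.mk.injEq] at h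
      exact absurd h.1.symm (tv_ne_e3 _ _)
    · simp only [eTf, Sum.elim_inl, Sum.elim_inr, Prod.mk.injEq] at h
      exact absurd h.1 (tv_ne_e3 _ _)
    · simp only [eTf, Sum.elim_inr, Prod.mk.injEq] at h
      rw [tv_injective h.1, h.2]
  · rintro ⟨i, j⟩
    refine ind3 (P := fun i => ∃ a, eTf n N a = (i, j)) (fun k => ?_) (fun i => ?_) i
    · exact ⟨Sum.inr (k, j), rfl⟩
    · exact ⟨Sum.inl (i, j), rfl⟩

/-- The numbering of the coordinates. -/
def eT (n N : ℕ) : (Fin n × Fin N) ⊕ (Fin 3 × Fin N) ≃ Fin (n + 3) × Fin N :=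
  Equiv.ofBijective _ (eTf_bijective n N)

theorem clsT {N : ℕ} {A : Set (Fin n × Fin N → ℂ)} {B : Set (Fin 3 × Fin N → ℂ)}
    (hA : IsConstr A) (hB : IsConstr B) :
    cls {x : Fin (n + 3) × Fin N → ℂ | yJ x ∈ A ∧ tJ x ∈ B} = cls A * cls B := by
  rw [← cls_prodSum hA hB, ← cls_equiv (eT n N) (isConstr_prodSum hA hB)]
  congr 1

theorem isConstr_yt {N : ℕ} {A : Set (Fin n × Fin N → ℂ)} {B : Set (Fin 3 × Fin N → ℂ)}
    (hA : IsConstr A) (hB : IsConstr B) :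
    IsConstr {x : Fin (n + 3) × Fin N → ℂ | yJ x ∈ A ∧ tJ x ∈ B} :=
  (hA.reindex (fun p : Fin n × Fin N => ((e3 p.1, p.2) : Fin (n + 3) × Fin N))).inter
    (hB.reindex (fun p : Fin 3 × Fin N => ((tv n p.1, p.2) : Fin (n + 3) × Fin N)))

theorem extT {N : ℕ} {x x' : Fin (n + 3) × Fin N → ℂ} (h1 : yJ x = yJ x') (h2 : tJ x = tJ x') :
    x = x' := by
  funext p
  obtain ⟨i, j⟩ := p
  refine ind3 (P := fun i => x (i, j) = x' (i, j)) (fun k => ?_) (fun i => ?_) i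
  · exact congrFun h2 (k, j)
  · exact congrFun h1 (i, j)

/-- The jet with given coordinates. -/
def mkT {N : ℕ} (y : Fin n × Fin N → ℂ) (t : Fin 3 × Fin N → ℂ) : Fin (n + 3) × Fin N → ℂ :=
  fun p => cons3 (fun k => t (k, p.2)) (fun i => y (i, p.2)) p.1

theorem yJ_mkT {N : ℕ} (y : Fin n × Fin N → ℂ) (t : Fin 3 × Fin N → ℂ) : yJ (mkT y t) = y := rfl

theorem tJ_mkT {N : ℕ} (y : Fin n × Fin N → ℂ) (t : Fin 3 × Fin N → ℂ) : tJ (mkT y t) = t := by
  funext p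
  unfold tJ mkT
  rw [cons3_tv]

/-! ### The substitution -/

/-- The polynomials `t_k`, `t_{c(i)} y_i`. -/
def mulv (c : Fin n → Fin 3) : Fin (n + 3) → MvPolynomial (Fin (n + 3)) ℂ :=
  cons3 (fun k => X (tv n k)) (fun i => X (tv n (c i)) * X (e3 i))

/-- The map that replaces the coefficients of `y_i` by those of `t_{c(i)} y_i`. -/
def yt (c : Fin n → Fin 3) (N : ℕ) (p : Fin (n + 3) × Fin N) :
    MvPolynomial (Fin (n + 3) × Fin N) ℂ :=
  (exists_coeff_poly (N := N) (mulv c p.1) p.2).choose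

theorem polyMap_yt (c : Fin n → Fin 3) {N : ℕ} (x : Fin (n + 3) × Fin N → ℂ)
    (p : Fin (n + 3) × Fin N) : polyMap (yt c N) x p =
      PowerSeries.coeff p.2 (aeval (arc x) (mulv c p.1) : PowerSeries ℂ) :=
  ((exists_coeff_poly (N := N) (mulv c p.1) p.2).choose_spec x).symm

theorem coeff_arc_lt {N m : ℕ} (x : Fin m × Fin N → ℂ) (i : Fin m) (j : Fin N) :
    PowerSeries.coeff (j : ℕ) (arc x i) = x (i, j) := by
  rw [coeff_arc, dif_pos j.2]

theorem tJ_yt (c : Fin n → Fin 3) {N : ℕ} (x : Fin (n + 3) × Fin N → ℂ) :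
    tJ (polyMap (yt c N) x) = tJ x := by
  funext p
  show polyMap (yt c N) x (tv n p.1, p.2) = x (tv n p.1, p.2)
  rw [polyMap_yt]
  simp only [mulv]
  rw [cons3_tv, aeval_X, coeff_arc_lt]

theorem yJ_yt (c : Fin n → Fin 3) {N : ℕ} (x : Fin (n + 3) × Fin N → ℂ) (i : Fin n)
    (j : Fin N) : yJ (polyMap (yt c N) x) (i, j) =
      PowerSeries.coeff j (arc (tJ x) (c i) * arc (yJ x) i : PowerSeries ℂ) := by
  show polyMap (yt c N) x (e3 i, j) = _
  rw [polyMap_yt]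
  simp only [mulv]
  rw [cons3_e3, map_mul, aeval_X, aeval_X]
  rfl

theorem arc_yt (c : Fin n → Fin 3) {N : ℕ} (x : Fin (n + 3) × Fin N → ℂ) (i : Fin (n + 3)) :
    (PowerSeries.X : PowerSeries ℂ) ^ N ∣
      arc (polyMap (yt c N) x) i - cons3 (arc (tJ x)) (fun i => arc (tJ x) (c i) * arc (yJ x) i) i := by
  rw [PowerSeries.X_pow_dvd_iff]
  intro k hk
  rw [map_sub, coeff_arc, dif_pos hk]
  refine ind3 (P := fun i => polyMap (yt c N) x (i, ⟨k, hk⟩) - PowerSeries.coeff k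
    (cons3 (arc (tJ x)) (fun i => arc (tJ x) (c i) * arc (yJ x) i) i) = 0)
    (fun l => ?_) (fun i => ?_) i
  · rw [cons3_tv, sub_eq_zero]
    have h1 := congrFun (tJ_yt c x) (l, ⟨k, hk⟩)
    rw [← coeff_arc_lt (tJ x) l ⟨k, hk⟩] at h1
    exact h1
  · rw [cons3_e3, sub_eq_zero]
    exact yJ_yt c x i ⟨k, hk⟩

theorem aeval_tri {B : Type*} [CommRing B] [Algebra ℂ B] (c : Fin n → Fin 3)
    {H : MvPolynomial (Fin n) ℂ} (h : ∀ v ∈ H.support, ∀ k, cdeg c k v ≤ 1) (T : Fin 3 → B)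
    (Y : Fin n → B) :
    aeval (cons3 T (fun i => T (c i) * Y i)) (tri c H) = (∏ k, T k) * aeval Y H := by
  have h0 : aeval Y H = ∑ v ∈ H.support, algebraMap ℂ B (coeff v H) * ∏ i, Y i ^ v i := by
    conv_lhs => rw [← MvPolynomial.support_sum_monomial_coeff H, map_sum]
    refine Finset.sum_congr rfl fun v _ => ?_
    rw [aeval_monomial, Finsupp.prod_fintype _ _ (fun _ => pow_zero _)]
  rw [h0, Finset.mul_sum]
  unfold tri
  rw [map_sum]
  refine Finset.sum_congr rfl fun v hv => ?_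
  rw [map_mul, map_prod, dum3_eq, aeval_rename, aeval_monomial,
    Finsupp.prod_fintype _ _ (fun _ => pow_zero _)]
  simp only [map_pow, aeval_X, cons3_tv, Function.comp_apply, cons3_e3, mul_pow,
    Finset.prod_mul_distrib]
  have h4 : ∏ i, T (c i) ^ v i = ∏ k, T k ^ cdeg c k v := by
    rw [← Finset.prod_fiberwise Finset.univ c]
    refine Finset.prod_congr rfl fun k _ => ?_
    unfold cdeg
    rw [← Finset.prod_pow_eq_pow_sum]
    refine Finset.prod_congr rfl fun i hi => ?_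
    rw [(Finset.mem_filter.1 hi).2]
  rw [h4]
  have h5 : (∏ k, T k ^ (1 - cdeg c k v)) * ∏ k, T k ^ cdeg c k v = ∏ k, T k := by
    rw [← Finset.prod_mul_distrib]
    refine Finset.prod_congr rfl fun k _ => ?_
    rw [← pow_add, Nat.sub_add_cancel (h v hv k), pow_one]
  rw [← h5]
  ring

theorem mem_arcs_yt (c : Fin n → Fin 3) {H : MvPolynomial (Fin n) ℂ}
    (h : ∀ v ∈ H.support, ∀ k, cdeg c k v ≤ 1) {N m : ℕ} (hm : m < N)
    (x : Fin (n + 3) × Fin N → ℂ)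
    (hx : ∀ k, IsUnit (arc (tJ x) k : PowerSeries ℂ)) :
    polyMap (yt c N) x ∈ arcs (tri c H) N m ↔ yJ x ∈ arcs H N m := by
  simp only [arcs, Set.mem_ofPred_eq]
  have h1 := aeval_congr_X_pow N (tri c H) _ _ (arc_yt c x)
  rw [aeval_tri c h] at h1
  rw [order_congr hm h1, PowerSeries.order_mul, PowerSeries.order_prod]
  have h2 : ∑ k, (arc (tJ x) k : PowerSeries ℂ).order = 0 := by
    refine Finset.sum_eq_zero fun k _ => ?_
    exact PowerSeries.order_zero_of_unit (hx k)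
  rw [h2, zero_add]

/-- The points with `t = 1`. -/
def W1 (n : ℕ) : Set (Fin (n + 3) → ℂ) := {p | (fun k => p (tv n k)) ∈ ({fun _ => 1} : Set (Fin 3 → ℂ))}

theorem isConstr_W1 (n : ℕ) : IsConstr (W1 n) :=
  (isConstr_point (fun _ : Fin 3 => (1 : ℂ))).reindex (tv n)

theorem mem_W1 {p : Fin (n + 3) → ℂ} (hp : p ∈ W1 n) : p = ptq (fun i => p (e3 i)) := by
  have h1 : (fun k => p (tv n k)) = fun _ => 1 := hp
  funext i
  refine ind3 (P := fun i => p i = ptq (fun i => p (e3 i)) i) (fun k => ?_) (fun i => ?_) i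
  · unfold ptq
    rw [cons3_tv]
    exact congrFun h1 k
  · rfl

theorem AtW_W1 (n M : ℕ) : AtW (W1 n) M =
    {x : Fin (n + 3) × Fin (M + 1) → ℂ | tJ x ∈ AtW ({fun _ => 1} : Set (Fin 3 → ℂ)) M} := rfl

theorem isUnit_tJ {M : ℕ} {x : Fin (n + 3) × Fin (M + 1) → ℂ}
    (hx : tJ x ∈ AtW ({fun _ => 1} : Set (Fin 3 → ℂ)) M) (k : Fin 3) :
    IsUnit (arc (tJ x) k : PowerSeries ℂ) := by
  rw [PowerSeries.isUnit_iff_constantCoeff, ← PowerSeries.coeff_zero_eq_constantCoeff_apply]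
  have h1 := coeff_arc_lt (tJ x) k (0 : Fin (M + 1))
  rw [Fin.val_zero] at h1
  rw [h1]
  have h2 : (fun i => tJ x (i, 0)) = fun _ => 1 := hx
  rw [congrFun h2 k]
  exact isUnit_one

theorem bijOn_yt (c : Fin n → Fin 3) (M : ℕ) :
    Set.BijOn (polyMap (yt c (M + 1))) (AtW (W1 n) M) (AtW (W1 n) M) := by
  rw [AtW_W1]
  refine ⟨?_, ?_, ?_⟩
  · intro x hx
    show tJ (polyMap (yt c (M + 1)) x) ∈ AtW ({fun _ => 1} : Set (Fin 3 → ℂ)) M
    rw [tJ_yt]
    exact hx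
  · intro x hx x' hx' heq
    have h1 : tJ x = tJ x' := by rw [← tJ_yt c x, heq, tJ_yt]
    refine extT ?_ h1
    funext p
    obtain ⟨i, j⟩ := p
    have hu := isUnit_tJ hx (c i)
    have h3 : (PowerSeries.X : PowerSeries ℂ) ^ (M + 1) ∣
        arc (tJ x) (c i) * (arc (yJ x) i - arc (yJ x') i) := by
      rw [PowerSeries.X_pow_dvd_iff]
      intro k hk
      have h4 := congrFun (congrArg yJ heq) (i, ⟨k, hk⟩)
      rw [yJ_yt, yJ_yt, ← h1] at h4
      rw [mul_sub, map_sub, sub_eq_zero]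
      exact h4
    have h5 := (hu.dvd_mul_left).1 h3
    rw [PowerSeries.X_pow_dvd_iff] at h5
    have h6 := h5 j j.2
    rw [map_sub, coeff_arc_lt, coeff_arc_lt, sub_eq_zero] at h6
    exact h6
  · intro x hx
    let V : Fin 3 → PowerSeries ℂ := fun k => (arc (tJ x) k)⁻¹
    have hU : ∀ k, PowerSeries.constantCoeff (arc (tJ x) k : PowerSeries ℂ) ≠ 0 := fun k =>
      ((PowerSeries.isUnit_iff_constantCoeff).1 (isUnit_tJ hx k)).ne_zero
    let y : Fin n × Fin (M + 1) → ℂ := fun p =>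
      PowerSeries.coeff p.2 (V (c p.1) * arc (yJ x) p.1)
    refine ⟨mkT y (tJ x), ?_, ?_⟩
    · show tJ (mkT y (tJ x)) ∈ AtW ({fun _ => 1} : Set (Fin 3 → ℂ)) M
      rw [tJ_mkT]
      exact hx
    · refine extT ?_ ?_
      · funext p
        obtain ⟨i, j⟩ := p
        rw [yJ_yt, tJ_mkT, yJ_mkT]
        have h1 : (PowerSeries.X : PowerSeries ℂ) ^ (M + 1) ∣
            arc y i - V (c i) * arc (yJ x) i := by
          rw [PowerSeries.X_pow_dvd_iff]
          intro l hl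
          rw [map_sub, coeff_arc, dif_pos hl, sub_self]
        have h2 : (PowerSeries.X : PowerSeries ℂ) ^ (M + 1) ∣
            arc (tJ x) (c i) * arc y i - arc (yJ x) i := by
          have h3 := h1.mul_left (arc (tJ x) (c i))
          have h4 : arc (tJ x) (c i) * V (c i) = 1 := PowerSeries.mul_inv_cancel _ (hU (c i))
          rwa [mul_sub, ← mul_assoc, h4, one_mul] at h3
        rw [PowerSeries.X_pow_dvd_iff] at h2
        have h5 := h2 j j.2
        rw [map_sub, sub_eq_zero, coeff_arc_lt] at h5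
        exact h5
      · rw [tJ_yt, tJ_mkT]

theorem cls_tri (c : Fin n → Fin 3) {H : MvPolynomial (Fin n) ℂ}
    (h : ∀ v ∈ H.support, ∀ k, cdeg c k v ≤ 1) (M : ℕ) :
    cls (arcs (tri c H) (M + 1) M ∩ AtW (W1 n) M) = cls (arcs H (M + 1) M) * L ^ (3 * M) := by
  have h1 : cls (AtW ({fun _ => 1} : Set (Fin 3 → ℂ)) M) = L ^ (3 * M) := by
    rw [cls_AtW (isConstr_point _), cls_single, one_mul]
  rw [← h1, ← clsT (isConstr_arcs _ _ _) (isConstr_AtW (isConstr_point _) M)]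
  have hb := bijOn_yt c M
  symm
  refine cls_bijOn (isConstr_yt (isConstr_arcs _ _ _) (isConstr_AtW (isConstr_point _) M))
    ((isConstr_arcs _ _ _).inter (isConstr_AtW (isConstr_W1 n) M)) (yt c (M + 1)) ⟨?_, ?_, ?_⟩
  · intro x hx
    have h3 := (mem_arcs_yt c h (Nat.lt_succ_self M) x (isUnit_tJ hx.2)).2 hx.1
    have h4 : x ∈ AtW (W1 n) M := hx.2
    exact ⟨h3, hb.mapsTo h4⟩
  · intro x hx x' hx' heq
    have h4 : x ∈ AtW (W1 n) M := hx.2
    have h5 : x' ∈ AtW (W1 n) M := hx'.2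
    exact hb.injOn h4 h5 heq
  · intro y hy
    obtain ⟨x, hx, rfl⟩ := hb.surjOn hy.2
    have h4 : tJ x ∈ AtW ({fun _ => 1} : Set (Fin 3 → ℂ)) M := hx
    exact ⟨x, ⟨(mem_arcs_yt c h (Nat.lt_succ_self M) x (isUnit_tJ h4)).1 hy.1, h4⟩, rfl⟩

theorem seriesAt_tri (c : Fin n → Fin 3) {H : MvPolynomial (Fin n) ℂ}
    (h : ∀ v ∈ H.support, ∀ k, cdeg c k v ≤ 1) :
    seriesAt (tri c H) (W1 n) = PowerSeries.C (((LU⁻¹ : Motˣ) : Mot) ^ 3) * Zmot H := by
  ext M
  rw [PowerSeries.coeff_C_mul]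
  unfold seriesAt Zmot Zcoeff clsM
  rw [PowerSeries.coeff_mk, PowerSeries.coeff_mk, cls_tri c h M, map_mul, map_pow,
    SZ.coe_inv_pow, SZ.coe_inv_pow]
  have h3 := SZ.inv_mul_L
  generalize algebraMap K0 Mot (cls (arcs H (M + 1) M)) = A
  generalize algebraMap K0 Mot L = l at *
  generalize ((LU⁻¹ : Motˣ) : Mot) = q at *
  have h4 : q ^ ((n + 3) * (M + 1)) * (A * l ^ (3 * M)) =
      (q * l) ^ (3 * M) * (q ^ 3 * (q ^ (n * (M + 1)) * A)) := by
    ring
  rw [h4, h3, one_pow, one_mul]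

theorem isPole_tri (c : Fin n → Fin 3) {H : MvPolynomial (Fin n) ℂ}
    (h : ∀ v ∈ H.support, ∀ k, cdeg c k v ≤ 1) {s₀ : ℚ} (hp : IsPole (Zmot H) s₀) :
    IsPole (seriesAt (tri c H) (W1 n)) s₀ := by
  intro h1
  apply hp
  rw [seriesAt_tri c h] at h1
  have h2 := mul_mem (C_mem_regularAt s₀ (((LU : Motˣ) : Mot) ^ 3)) h1
  rwa [← mul_assoc, ← map_mul, ← mul_pow, Units.mul_inv, one_pow, map_one, one_mul] at h2

end Tri

end MPb07157
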