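import Pool.Agent.Lib.MP_b07157_agS.LQJ

/-!
# Equivalent forms of the strong monodromy conjecture
-/

noncomputable section

namespace MPb07157

open MvPolynomial

variable {n : ℕ}

/-- The strong monodromy conjecture for polynomials in `n` variables, global version. -/
def Q1 (n : ℕ) : Prop :=
  ∀ f : MvPolynomial (Fin n) ℂ, f ≠ 0 → coeff 0 f = 0 →
    ∀ s₀ : ℚ, s₀ < 0 → IsPole (Zmot f) s₀ → IsBernsteinSatoRoot f s₀

/-- The strong monodromy conjecture for polynomials in `n` variables, local version. -/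
def Q2 (n : ℕ) : Prop :=
  ∀ f : MvPolynomial (Fin n) ℂ, f ≠ 0 → coeff 0 f = 0 →
    ∀ s₀ : ℚ, s₀ < 0 → IsPole (Zmot0 f) s₀ → IsLocalBernsteinSatoRoot f s₀

/-- The strong monodromy conjecture for polynomials in `n` variables and the arcs at the points of
an arbitrary constructible set `W`: each pole is a root of the local Bernstein–Sato polynomial at
some point of `W`. -/
def QW (n : ℕ) : Prop :=
  ∀ f : MvPolynomial (Fin n) ℂ, f ≠ 0 → ∀ W : Set (Fin n → ℂ), IsConstr W →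
    ∀ s₀ : ℚ, s₀ < 0 → IsPole (seriesAt f W) s₀ →
      ∃ p ∈ W, eval p f = 0 ∧ IsLocalBernsteinSatoRoot (translate p f) s₀

/-- The variables are divided into three groups, `m` of them are in the first group. -/
def Groups (m : ℕ) (c : Fin n → Fin 3) : Prop := (Finset.univ.filter fun i => c i = 0).card = m

/-- The global version for the polynomials of degree at most one in each of three groups of
variables, the first group having `m` variables. -/
def Q1Tri (m : ℕ) : Prop :=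
  ∀ (n : ℕ) (f : MvPolynomial (Fin n) ℂ) (c : Fin n → Fin 3), Groups m c →
    (∀ v ∈ f.support, ∀ k, ∑ i with c i = k, v i ≤ 1) → f ≠ 0 → coeff 0 f = 0 →
    ∀ s₀ : ℚ, s₀ < 0 → IsPole (Zmot f) s₀ → IsBernsteinSatoRoot f s₀

/-- The local version for the germs of the trilinear forms in three groups of variables, the first
group having `m` variables, at the points all of whose three components are nonzero. -/
def Q2Tri (m : ℕ) : Prop :=
  ∀ (n : ℕ) (F : MvPolynomial (Fin n) ℂ) (c : Fin n → Fin 3) (p : Fin n → ℂ), Groups m c →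
    (∀ v ∈ F.support, ∀ k, ∑ i with c i = k, v i = 1) → (∀ k, ∃ i, c i = k ∧ p i ≠ 0) →
    F ≠ 0 → eval p F = 0 → ∀ s₀ : ℚ, s₀ < 0 → IsPole (Zmot0 (translate p F)) s₀ →
      IsLocalBernsteinSatoRoot (translate p F) s₀

/-- The version with the arcs at constructible sets for the trilinear forms in three groups of
variables, the first group having `m` variables, and sets of points all of whose three components
are nonzero. -/
def QWTri (m : ℕ) : Prop :=
  ∀ (n : ℕ) (F : MvPolynomial (Fin n) ℂ) (c : Fin n → Fin 3), Groups m c →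
    (∀ v ∈ F.support, ∀ k, ∑ i with c i = k, v i = 1) → F ≠ 0 →
    ∀ W : Set (Fin n → ℂ), IsConstr W → (∀ p ∈ W, ∀ k, ∃ i, c i = k ∧ p i ≠ 0) →
    ∀ s₀ : ℚ, s₀ < 0 → IsPole (seriesAt F W) s₀ →
      ∃ p ∈ W, eval p F = 0 ∧ IsLocalBernsteinSatoRoot (translate p F) s₀

namespace Tri

theorem groups_c3 {m : ℕ} {c : Fin n → Fin 3} (hc : Groups m c) : Groups (m + 1) (c3 c) := by
  unfold Groups at *
  rw [Finset.card_filter] at *
  rw [Fin.sum_univ_succ, Fin.sum_univ_succ, Fin.sum_univ_succ]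
  have h0 : c3 c 0 = 0 := c3_tv c 0
  have h1 : c3 c (Fin.succ 0) = 1 := c3_tv c 1
  have h2 : c3 c (Fin.succ (Fin.succ 0)) = 2 := c3_tv c 2
  have h3 : ∀ i : Fin n, c3 c i.succ.succ.succ = c i := fun i => c3_e3 c i
  rw [h0, h1, h2]
  simp only [h3]
  rw [hc]
  simp
  omega

theorem mem_W1_ne (c : Fin n → Fin 3) {p : Fin (n + 3) → ℂ} (hp : p ∈ W1 n) (k : Fin 3) :
    ∃ i, c3 c i = k ∧ p i ≠ 0 := by
  refine ⟨tv n k, c3_tv c k, ?_⟩
  have h1 : (fun k => p (tv n k)) = fun _ => 1 := hp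
  rw [congrFun h1 k]
  exact one_ne_zero

end Tri

theorem q1_of_q1Tri {m : ℕ} (h : Q1Tri m) : Q1 m := by
  intro f hf h0
  exact Tri.smcGlob_of_bil (fun n f c hc hf h0 hd => h n f c hc hd hf h0) (Tri.nu 0 f) m 0 f
    (Tri.n0_zero m) le_rfl (Tri.bil_zero f) hf h0

theorem q1Tri_of_qWTri {m : ℕ} (h : QWTri (m + 1)) : Q1Tri m := by
  intro n f c hc hd hf h0 s₀ hs hp b hb
  obtain ⟨p, hpW, -, h1⟩ := h _ (Tri.tri c f) (Tri.c3 c) (Tri.groups_c3 hc)
    (fun v hv k => Tri.cdeg_tri c hd hv k) (Tri.tri_ne_zero c hd hf) (Tri.W1 n)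
    (Tri.isConstr_W1 n) (fun p hp k => Tri.mem_W1_ne c hp k) s₀ hs (Tri.isPole_tri c hd hp)
  rw [Tri.mem_W1 hpW] at h1
  exact h1 b (Tri.isLocalBernsteinSato_tri c _ hd hb)

theorem qW_of_qWTri {m : ℕ} (h : QWTri (m + 1)) : QW m := by
  intro f hf W hW
  refine Tri.smcW_of_bil (fun n H c hc hH hd W hW => Tri.smcW_of_tri c hd hW ?_) (Tri.nu 0 f) m 0 f
    (Tri.n0_zero m) le_rfl (Tri.bil_zero f) hf W hW
  exact h _ (Tri.tri c H) (Tri.c3 c) (Tri.groups_c3 hc) (fun v hv k => Tri.cdeg_tri c hd hv k)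
    (Tri.tri_ne_zero c hd hH) (Tri.W1W W) (Tri.isConstr_W1W hW)
    (fun p hp k => Tri.mem_W1_ne c hp.1 k)

theorem q2_of_q2Tri {m : ℕ} (h : Q2Tri (m + 1)) : Q2 m := by
  intro f hf h0 s₀ hs hpole
  have h1 : SmcLoc f := by
    refine Tri.smcLoc_of_bil (fun n H c hc hH hH0 hd => ?_) (Tri.nu 0 f) m 0 f
      (Tri.n0_zero m) le_rfl (Tri.bil_zero f) hf h0
    have h2 : SmcLoc (Tri.dum3 H) := by
      refine SmcLoc.of_formEquivPow one_pos (Cub.formEquivPow_symm (Tri.formEquivPow_tri c hd)) ?_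
      intro s₀ hs hpole b hb
      exact h _ (Tri.tri c H) (Tri.c3 c) (Tri.pt3 n) (Tri.groups_c3 hc)
        (fun v hv k => Tri.cdeg_tri c hd hv k)
        (fun k => ⟨Tri.tv n k, Tri.c3_tv c k, by rw [Tri.pt3, Tri.cons3_tv]; exact one_ne_zero⟩)
        (Tri.tri_ne_zero c hd hH) (Tri.eval_pt3_tri c hd hH0) s₀ hs hpole b
        (isLocalBernsteinSato_of_form hb)
    exact SmcLoc.of_dum (SmcLoc.of_dum (SmcLoc.of_dum h2))
  exact (roots_of_form fun b hb => h1 s₀ hs hpole b hb).2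

theorem qW_of_q1 {n : ℕ} (h : Q1 (n + 2)) : QW n :=
  fun f hf W hW s₀ hs hp => smcConstr_of_glob h f hf W hW s₀ hs hp

theorem q1_of_qW {n : ℕ} (h : QW n) : Q1 n := by
  intro f hf _ s₀ hs hp b hb
  rw [← seriesAt_univ] at hp
  obtain ⟨p, -, -, h1⟩ := h f hf Set.univ IsConstr.univ s₀ hs hp
  exact h1 b (isLocalBernsteinSato_of_form (form_translate p hb))

theorem q2_of_qW {n : ℕ} (h : QW n) : Q2 n := by
  intro f hf _ s₀ hs hp
  rw [← seriesAt_zero] at hp
  obtain ⟨p, hpW, -, h1⟩ := h f hf {0} (isConstr_point 0) s₀ hs hp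
  rw [Set.mem_singleton_iff.1 hpW] at h1
  have h2 : translate (0 : Fin n → ℂ) f = f := by
    unfold translate
    simp only [Pi.zero_apply, map_zero, add_zero]
    exact aeval_X_left_apply f
  rwa [h2] at h1

/-- **Equivalent forms of the strong monodromy conjecture.** -/
theorem smc_forms :
    List.TFAE [∀ n, Q1 n, ∀ n, QW n, ∀ n, Q1Tri n, ∀ n, QWTri n] ∧
      ((∀ n, Q1 n) → ∀ n, Q2 n) ∧ ((∀ n, Q2 n) ↔ ∀ n, Q2Tri n) ∧
      ∀ n, (Q1 (n + 2) → QW n) ∧ (QWTri (n + 1) → QW n) ∧ (QW n → Q1 n ∧ Q2 n) ∧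
        (QWTri (n + 1) → Q1Tri n) ∧ (Q1Tri n → Q1 n) ∧ (Q2Tri (n + 1) → Q2 n) := by
  refine ⟨?_, fun h n => q2_of_qW (qW_of_q1 (h (n + 2))), ⟨fun h m n F c p _ _ _ hF hp =>
    h n _ (translate_ne_zero hF p) (coeff_zero_translate hp), fun h n => q2_of_q2Tri (h (n + 1))⟩,
    fun n => ⟨qW_of_q1, qW_of_qWTri, fun h => ⟨q1_of_qW h, q2_of_qW h⟩, q1Tri_of_qWTri,
      q1_of_q1Tri, q2_of_q2Tri⟩⟩
  tfae_have 1 → 2 := fun h n => qW_of_q1 (h (n + 2))
  tfae_have 2 → 4 := fun h m n F c _ _ hF W hW _ s₀ hs hp => h n F hF W hW s₀ hs hp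
  tfae_have 4 → 3 := fun h m => q1Tri_of_qWTri (h (m + 1))
  tfae_have 3 → 1 := fun h n => q1_of_q1Tri (h n)
  tfae_finish

end MPb07157
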