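import Pool.Agent.Lib.MP_b07157_agS.Tri

/-!
# Linearisation in the first group of variables

A polynomial of degree at most one in each of the groups `1` and `2` of variables is reduced to one
of degree at most one in each of the three groups, without new variables in the group `0`: a
monomial `z_i β(z) x y` is the product of `z_i x` and `β(z) y`.
-/

noncomputable section

namespace MPb07157

open MvPolynomial

variable {n : ℕ}

namespace Tri

open Cub (W Y stp shear)

/-- The excess of a polynomial in the variables of the group `0`. -/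
def nu (c : Fin n → Fin 3) (f : MvPolynomial (Fin n) ℂ) : ℕ :=
  ∑ v ∈ f.support, (cdeg c 0 v - 1)

theorem nu_le_of_subset (c : Fin n → Fin 3) {f : MvPolynomial (Fin n) ℂ}
    {s : Finset (Fin n →₀ ℕ)} (h : f.support ⊆ s) : nu c f ≤ ∑ v ∈ s, (cdeg c 0 v - 1) :=
  Finset.sum_le_sum_of_subset h

theorem nu_add (c : Fin n → Fin 3) (f g : MvPolynomial (Fin n) ℂ) :
    nu c (f + g) ≤ nu c f + nu c g := by
  classical
  refine (nu_le_of_subset c (support_add (p := f) (q := g))).trans ?_
  rw [nu, nu, ← Finset.sum_union_inter]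
  exact Nat.le_add_right _ _

theorem nu_neg (c : Fin n → Fin 3) (f : MvPolynomial (Fin n) ℂ) : nu c (-f) = nu c f := by
  unfold nu
  rw [support_neg]

theorem nu_sub (c : Fin n → Fin 3) (f g : MvPolynomial (Fin n) ℂ) :
    nu c (f - g) ≤ nu c f + nu c g := by
  rw [sub_eq_add_neg]
  exact (nu_add c f (-g)).trans (by rw [nu_neg])

theorem nu_monomial (c : Fin n → Fin 3) (v : Fin n →₀ ℕ) (b : ℂ) :
    nu c (monomial v b) ≤ cdeg c 0 v - 1 := by
  classical
  refine (nu_le_of_subset c (support_monomial_subset)).trans ?_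
  rw [Finset.sum_singleton]

theorem nu_erase (c : Fin n → Fin 3) {f : MvPolynomial (Fin n) ℂ} {v : Fin n →₀ ℕ}
    (hv : v ∈ f.support) : nu c (f - monomial v (coeff v f)) + (cdeg c 0 v - 1) ≤ nu c f := by
  classical
  have h : (f - monomial v (coeff v f)).support ⊆ f.support.erase v := by
    intro u hu
    rw [mem_support_iff, coeff_sub, coeff_monomial] at hu
    rw [Finset.mem_erase, mem_support_iff]
    by_cases huv : v = u
    · subst huv
      rw [if_pos rfl, sub_self] at hu
      exact absurd rfl hu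
    · rw [if_neg huv, sub_zero] at hu
      exact ⟨fun h => huv h.symm, hu⟩
  rw [add_comm]
  unfold nu
  rw [← Finset.add_sum_erase _ _ hv]
  exact Nat.add_le_add_left (Finset.sum_le_sum_of_subset h) _

theorem nu_em (c : Fin n → Fin 3) (kw kz : Fin 3) (f : MvPolynomial (Fin n) ℂ) :
    nu (cl c kw kz) (Cub.em f) = nu c f := by
  classical
  unfold nu Cub.em
  rw [support_rename_of_injective (Fin.castAdd_injective n 2), Finset.sum_image]
  · refine Finset.sum_congr rfl fun v _ => ?_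
    rw [cdeg_mapDomain]
  · intro v _ w _ h
    exact Finsupp.mapDomain_injective (Fin.castAdd_injective n 2) h

theorem em_mul_X (v : Fin n →₀ ℕ) (b : ℂ) (k : Fin (n + 2)) :
    Cub.em (monomial v b) * X k =
      monomial (Finsupp.mapDomain (Fin.castAdd 2) v + Finsupp.single k 1) b := by
  unfold Cub.em X
  rw [rename_monomial, monomial_mul, mul_one]

theorem WY_eq (n : ℕ) : W n * Y n = monomial (Finsupp.single (Fin.natAdd n (0 : Fin 2)) 1 +
    Finsupp.single (Fin.natAdd n (1 : Fin 2)) 1) 1 := by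
  unfold W Y X
  rw [monomial_mul, mul_one]

/-- The degree in the variables of the groups `1` and `2` is at most one. -/
def Bil (c : Fin n → Fin 3) (f : MvPolynomial (Fin n) ℂ) : Prop :=
  ∀ v ∈ f.support, cdeg c 1 v ≤ 1 ∧ cdeg c 2 v ≤ 1

theorem Bil.add {c : Fin n → Fin 3} {f g : MvPolynomial (Fin n) ℂ} (hf : Bil c f)
    (hg : Bil c g) : Bil c (f + g) := by
  classical
  intro v hv
  rcases Finset.mem_union.1 (support_add hv) with h | h
  · exact hf v h
  · exact hg v h

theorem Bil.neg {c : Fin n → Fin 3} {f : MvPolynomial (Fin n) ℂ} (hf : Bil c f) :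
    Bil c (-f) := by
  intro v hv
  rw [support_neg] at hv
  exact hf v hv

theorem Bil.sub {c : Fin n → Fin 3} {f g : MvPolynomial (Fin n) ℂ} (hf : Bil c f)
    (hg : Bil c g) : Bil c (f - g) := by
  rw [sub_eq_add_neg]
  exact hf.add hg.neg

theorem bil_monomial {c : Fin n → Fin 3} {v : Fin n →₀ ℕ} (b : ℂ)
    (h : cdeg c 1 v ≤ 1 ∧ cdeg c 2 v ≤ 1) : Bil c (monomial v b) := by
  classical
  intro w hw
  have := support_monomial_subset hw
  rw [Finset.mem_singleton] at this
  rw [this]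
  exact h

theorem bil_em {c : Fin n → Fin 3} {f : MvPolynomial (Fin n) ℂ} (h : Bil c f) (kw kz : Fin 3) :
    Bil (cl c kw kz) (Cub.em f) := by
  classical
  intro v hv
  unfold Cub.em at hv
  rw [support_rename_of_injective (Fin.castAdd_injective n 2)] at hv
  obtain ⟨u, hu, rfl⟩ := Finset.mem_image.1 hv
  rw [cdeg_mapDomain, cdeg_mapDomain]
  exact h u hu

/-- One step of the linearisation. -/
theorem exists_step0_aux (c : Fin n → Fin 3) {f : MvPolynomial (Fin n) ℂ}
    (hB : Bil c f) (hd : ¬ ∀ v ∈ f.support, ∀ k, cdeg c k v ≤ 1) :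
    ∃ (a g f' : MvPolynomial (Fin n) ℂ), f = a * g + f' ∧ (coeff 0 f = 0 → coeff 0 f' = 0) ∧
      coeff 0 a = 0 ∧ coeff 0 g = 0 ∧ nu (cl c 2 1) (stp a g f') < nu c f ∧
      Bil (cl c 2 1) (stp a g f') := by
  classical
  push Not at hd
  obtain ⟨v, hv, k, hk⟩ := hd
  obtain ⟨hv1, hv2⟩ := hB v hv
  have hv0 : 2 ≤ cdeg c 0 v := by
    fin_cases k
    · exact hk
    · exact absurd hv1 (by simpa using hk)
    · exact absurd hv2 (by simpa using hk)
  obtain ⟨i, hi, hvi⟩ : ∃ i, c i = 0 ∧ v i ≠ 0 := by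
    by_contra hcon
    push Not at hcon
    have : cdeg c 0 v = 0 := by
      unfold cdeg
      refine Finset.sum_eq_zero fun i hi => hcon i ?_
      simpa using hi
    omega
  set v1 : Fin n →₀ ℕ := v.filter fun j => c j = 1 with hv1def
  have hfil : ∀ k, cdeg c k v1 = if k = 1 then cdeg c 1 v else 0 := by
    intro k
    unfold cdeg
    split_ifs with h
    · subst h
      refine Finset.sum_congr rfl fun j hj => ?_
      rw [hv1def, Finsupp.filter_apply_pos]
      exact (Finset.mem_filter.1 hj).2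
    · refine Finset.sum_eq_zero fun j hj => ?_
      rw [hv1def, Finsupp.filter_apply_neg]
      rw [(Finset.mem_filter.1 hj).2]
      exact h
  have hle : Finsupp.single i 1 + v1 ≤ v := by
    intro j
    rw [Finsupp.add_apply]
    by_cases hj : c j = 1
    · have hji : i ≠ j := by
        rintro rfl
        rw [hi] at hj
        exact absurd hj (by decide)
      rw [Finsupp.single_eq_of_ne hji.symm, zero_add, hv1def,
        Finsupp.filter_apply_pos (fun j => c j = 1) v hj]
    · rw [hv1def, Finsupp.filter_apply_neg (fun j => c j = 1) v hj, add_zero]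
      by_cases hji : i = j
      · subst hji
        rw [Finsupp.single_eq_same]
        omega
      · rw [Finsupp.single_eq_of_ne (fun h => hji h.symm)]
        exact Nat.zero_le _
  obtain ⟨u, hu⟩ := exists_add_of_le hle
  set w : Fin n →₀ ℕ := Finsupp.single i 1 + v1 with hw
  have hwd : ∀ k, cdeg c k w = if k = 0 then 1 else if k = 1 then cdeg c 1 v else 0 := by
    intro k
    rw [hw, cdeg_add, cdeg_single, hfil, hi]
    fin_cases k <;> simp
  have hud : ∀ k, cdeg c k w + cdeg c k u = cdeg c k v := by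
    intro k
    rw [← cdeg_add, ← hu]
  have w0 := hwd 0
  have w1 := hwd 1
  have w2 := hwd 2
  have u0 := hud 0
  have u1 := hud 1
  have u2 := hud 2
  simp only [if_true, show (1 : Fin 3) ≠ 0 by decide, show (2 : Fin 3) ≠ 0 by decide,
    show (2 : Fin 3) ≠ 1 by decide, if_false] at w0 w1 w2
  have hun : u ≠ 0 := by
    rintro rfl
    have : cdeg c 0 (0 : Fin n →₀ ℕ) = 0 := by simp [cdeg]
    omega
  have hwn : w ≠ 0 := by
    intro h
    rw [h] at w0
    have : cdeg c 0 (0 : Fin n →₀ ℕ) = 0 := by simp [cdeg]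
    omega
  have hvn : v ≠ 0 := by
    rintro rfl
    have : cdeg c 0 (0 : Fin n →₀ ℕ) = 0 := by simp [cdeg]
    omega
  have hY : ∀ k, cdeg (cl c 2 1) k (Finsupp.mapDomain (Fin.castAdd 2) u +
      Finsupp.single (Fin.natAdd n 1) 1) = cdeg c k u + if k = 1 then 1 else 0 := by
    intro k
    rw [cdeg_add, cdeg_mapDomain, cdeg_single, cl_z]
    by_cases h : k = 1
    · rw [h]
    · rw [if_neg (fun h' => h h'.symm), if_neg h]
  have hW : ∀ k, cdeg (cl c 2 1) k (Finsupp.mapDomain (Fin.castAdd 2) w +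
      Finsupp.single (Fin.natAdd n 0) 1) = cdeg c k w + if k = 2 then 1 else 0 := by
    intro k
    rw [cdeg_add, cdeg_mapDomain, cdeg_single, cl_w]
    by_cases h : k = 2
    · rw [h]
    · rw [if_neg (fun h' => h h'.symm), if_neg h]
  have hWY : ∀ k, cdeg (cl c 2 1) k (Finsupp.single (Fin.natAdd n (0 : Fin 2)) 1 +
      Finsupp.single (Fin.natAdd n (1 : Fin 2)) 1) = if k = 0 then 0 else 1 := by
    intro k
    rw [cdeg_add, cdeg_single, cdeg_single, cl_w, cl_z]
    fin_cases k <;> simp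
  have Y0 := hY 0
  have Y1 := hY 1
  have Y2 := hY 2
  have W0 := hW 0
  have W1 := hW 1
  have W2 := hW 2
  have WY0 := hWY 0
  have WY1 := hWY 1
  have WY2 := hWY 2
  simp only [if_true, show (1 : Fin 3) ≠ 0 by decide, show (2 : Fin 3) ≠ 0 by decide,
    show (2 : Fin 3) ≠ 1 by decide, show (0 : Fin 3) ≠ 1 by decide,
    show (0 : Fin 3) ≠ 2 by decide, show (1 : Fin 3) ≠ 2 by decide, if_false]
    at Y0 Y1 Y2 W0 W1 W2 WY0 WY1 WY2
  set f' : MvPolynomial (Fin n) ℂ := f - monomial v (coeff v f) with hf'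
  refine ⟨monomial u (coeff v f), monomial w 1, f', ?_, ?_, ?_, ?_, ?_, ?_⟩
  · rw [monomial_mul, mul_one, add_comm u w, ← hu, hf']
    ring
  · intro h0
    rw [hf', coeff_sub, h0, coeff_monomial, if_neg hvn, sub_zero]
  · rw [coeff_monomial, if_neg hun]
  · rw [coeff_monomial, if_neg hwn]
  · have h1 := nu_erase c hv
    rw [← hf'] at h1
    have h2 := nu_monomial (cl c 2 1) (Finsupp.mapDomain (Fin.castAdd 2) u +
      Finsupp.single (Fin.natAdd n 1) 1) (coeff v f)
    have h3 := nu_monomial (cl c 2 1) (Finsupp.mapDomain (Fin.castAdd 2) w +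
      Finsupp.single (Fin.natAdd n 0) 1) 1
    have h4 := nu_monomial (cl c 2 1) (Finsupp.single (Fin.natAdd n (0 : Fin 2)) 1 +
      Finsupp.single (Fin.natAdd n (1 : Fin 2)) 1) 1
    have h5 := nu_em c 2 1 f'
    rw [← em_mul_X] at h2 h3
    rw [← WY_eq] at h4
    have h7 := nu_add (cl c 2 1) (Cub.em f' + Cub.em (monomial u (coeff v f)) * Y n -
      Cub.em (monomial w 1) * W n) (W n * Y n)
    have h8 := nu_sub (cl c 2 1) (Cub.em f' + Cub.em (monomial u (coeff v f)) * Y n)
      (Cub.em (monomial w 1) * W n)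
    have h9 := nu_add (cl c 2 1) (Cub.em f') (Cub.em (monomial u (coeff v f)) * Y n)
    unfold stp
    unfold W Y at *
    omega
  · unfold stp
    refine Bil.add (Bil.sub (Bil.add (bil_em ?_ 2 1) ?_) ?_) ?_
    · rw [hf']
      exact hB.sub (bil_monomial _ ⟨hv1, hv2⟩)
    · unfold Y
      rw [em_mul_X]
      exact bil_monomial _ ⟨by omega, by omega⟩
    · unfold W
      rw [em_mul_X]
      exact bil_monomial _ ⟨by omega, by omega⟩
    · rw [WY_eq]
      exact bil_monomial _ ⟨by omega, by omega⟩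

theorem exists_step0 (c : Fin n → Fin 3) {f : MvPolynomial (Fin n) ℂ} (h0 : coeff 0 f = 0)
    (hB : Bil c f) (hd : ¬ ∀ v ∈ f.support, ∀ k, cdeg c k v ≤ 1) :
    ∃ (a g f' : MvPolynomial (Fin n) ℂ), f = a * g + f' ∧ coeff 0 f' = 0 ∧
      coeff 0 a = 0 ∧ coeff 0 g = 0 ∧ nu (cl c 2 1) (stp a g f') < nu c f ∧
      Bil (cl c 2 1) (stp a g f') := by
  obtain ⟨a, g, f', h1, h2, h3⟩ := exists_step0_aux c hB hd
  exact ⟨a, g, f', h1, h2 h0, h3⟩

theorem exists_step0' (c : Fin n → Fin 3) {f : MvPolynomial (Fin n) ℂ}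
    (hB : Bil c f) (hd : ¬ ∀ v ∈ f.support, ∀ k, cdeg c k v ≤ 1) :
    ∃ (a g f' : MvPolynomial (Fin n) ℂ), f = a * g + f' ∧
      nu (cl c 2 1) (stp a g f') < nu c f ∧ Bil (cl c 2 1) (stp a g f') := by
  obtain ⟨a, g, f', h1, -, -, -, h3⟩ := exists_step0_aux c hB hd
  exact ⟨a, g, f', h1, h3⟩

/-- The number of variables of the group `0`. -/
def n0 (c : Fin n → Fin 3) : ℕ := (Finset.univ.filter fun i => c i = 0).card

theorem n0_cl (c : Fin n → Fin 3) : n0 (cl c 2 1) = n0 c := by
  unfold n0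
  rw [Finset.card_filter, Finset.card_filter, Fin.sum_univ_add]
  have h1 : ∑ i : Fin 2, (if cl c 2 1 (Fin.natAdd n i) = 0 then 1 else 0) = 0 := by
    rw [Fin.sum_univ_two, cl_w, cl_z]
    rfl
  rw [h1, add_zero]
  refine Finset.sum_congr rfl fun i _ => ?_
  rw [cl_castAdd]

theorem n0_zero (n : ℕ) : n0 (0 : Fin n → Fin 3) = n := by
  unfold n0
  simp

theorem smcGlob_of_bil {m : ℕ}
    (h : ∀ (n : ℕ) (f : MvPolynomial (Fin n) ℂ) (c : Fin n → Fin 3), n0 c = m → f ≠ 0 →
      coeff 0 f = 0 → (∀ v ∈ f.support, ∀ k, cdeg c k v ≤ 1) → SmcGlob f) :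
    ∀ (k n : ℕ) (c : Fin n → Fin 3) (f : MvPolynomial (Fin n) ℂ), n0 c = m → nu c f ≤ k →
      Bil c f → f ≠ 0 → coeff 0 f = 0 → SmcGlob f := by
  intro k
  induction k with
  | zero =>
    intro n c f hc hk hB hf h0
    by_cases hd : ∀ v ∈ f.support, ∀ k, cdeg c k v ≤ 1
    · exact h n f c hc hf h0 hd
    · obtain ⟨a, g, f', rfl, h1, h2, h3, h4, h5⟩ := exists_step0 c h0 hB hd
      omega
  | succ k ih =>
    intro n c f hc hk hB hf h0
    by_cases hd : ∀ v ∈ f.support, ∀ k, cdeg c k v ≤ 1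
    · exact h n f c hc hf h0 hd
    · obtain ⟨a, g, f', rfl, h1, h2, h3, h4, h5⟩ := exists_step0 c h0 hB hd
      exact SmcGlob.of_stab hf h0 (SmcGlob.of_polyEquivPow one_pos
        (Cub.polyEquivPow_stp a g f') (ih _ (cl c 2 1) _ (by rw [n0_cl, hc]) (by omega) h5
          (Cub.stp_ne_zero a g f') (Cub.coeff_zero_stp h1)))

theorem smcLoc_of_bil {m : ℕ}
    (h : ∀ (n : ℕ) (f : MvPolynomial (Fin n) ℂ) (c : Fin n → Fin 3), n0 c = m → f ≠ 0 →
      coeff 0 f = 0 → (∀ v ∈ f.support, ∀ k, cdeg c k v ≤ 1) → SmcLoc f) :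
    ∀ (k n : ℕ) (c : Fin n → Fin 3) (f : MvPolynomial (Fin n) ℂ), n0 c = m → nu c f ≤ k →
      Bil c f → f ≠ 0 → coeff 0 f = 0 → SmcLoc f := by
  intro k
  induction k with
  | zero =>
    intro n c f hc hk hB hf h0
    by_cases hd : ∀ v ∈ f.support, ∀ k, cdeg c k v ≤ 1
    · exact h n f c hc hf h0 hd
    · obtain ⟨a, g, f', rfl, h1, h2, h3, h4, h5⟩ := exists_step0 c h0 hB hd
      omega
  | succ k ih =>
    intro n c f hc hk hB hf h0
    by_cases hd : ∀ v ∈ f.support, ∀ k, cdeg c k v ≤ 1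
    · exact h n f c hc hf h0 hd
    · obtain ⟨a, g, f', rfl, h1, h2, h3, h4, h5⟩ := exists_step0 c h0 hB hd
      exact SmcLoc.of_stab hf h0 (SmcLoc.of_formEquivPow one_pos (Cub.formEquivPow_stp h2 h3)
        (ih _ (cl c 2 1) _ (by rw [n0_cl, hc]) (by omega) h5 (Cub.stp_ne_zero a g f')
          (Cub.coeff_zero_stp h1)))

theorem bil_zero (f : MvPolynomial (Fin n) ℂ) : Bil (0 : Fin n → Fin 3) f := by
  intro v _
  constructor
  · unfold cdeg
    rw [Finset.filter_false_of_mem]
    · simp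
    · intro i _ h
      exact absurd h (by simp)
  · unfold cdeg
    rw [Finset.filter_false_of_mem]
    · simp
    · intro i _ h
      exact absurd h (by simp)

end Tri

end MPb07157
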