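import Pool.Agent.Lib.MP_b07157_agS.LQH
import Pool.Agent.Lib.MP_b07157_agS.LQT

/-!
# The reduction to trilinear forms for the arcs at the points of a constructible set
-/

noncomputable section

namespace MPb07157S

open Polynomial

variable {A : Type*} [CommRing A] [Algebra ℂ A] {ι : Type*} {D : ι → Derivation ℂ A A} {F : A}
  {A' : Type*} [CommRing A'] [Algebra ℂ A'] {ι' : Type*} {D' : ι' → Derivation ℂ A' A'}
  {j : A →ₐ[ℂ] A'} {w z : A'} {J : ι → ι'} {iw iz : ι'}

/-- Stabilization, with a denominator. -/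
theorem Ext.stab_main_u [IsDomain A] [IsDomain A'] [CharZero A'] (hE : Ext D D' j w z J iw iz)
    (hF : F ≠ 0) (hH : j F + w * z ≠ 0) {u : A} {b' : Polynomial ℂ}
    (hb : InA D F 1 (C u * ((X + 1) * b').map (algebraMap ℂ A))) :
    InA D' (j F + w * z) 1
      (C (j u) * ((X + 1) * b'.comp (X + 1)).map (algebraMap ℂ A')) := by
  obtain ⟨Φ, hΦ, e⟩ := hb.toOp hF
  have hΦ' : Φ = fun m : ℕ => u * ((b'.map (algebraMap ℂ A)).eval ((m : A) - 1) *
      ((m : A) * F ^ (m - 1))) := by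
    funext m
    have h1 := e m
    rw [pow_one, Polynomial.map_mul, eval_mul, eval_mul, eval_C] at h1
    simp only [Polynomial.map_add, Polynomial.map_X, Polynomial.map_one, eval_add, eval_X,
      eval_one, sub_add_cancel] at h1
    apply mul_left_cancel₀ hF
    rw [h1]
    cases m with
    | zero => simp
    | succ k =>
      rw [Nat.add_sub_cancel, pow_succ]
      ring
  have h2 := Op.tr hE hΦ
  rw [hΦ'] at h2
  have h4 := h2.sub ((hE.op_diff_poly (F := F) b').const (j u))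
  refine h4.toInA hH fun m => ?_
  rw [tr_const_mul, Polynomial.map_mul, eval_mul, eval_mul, eval_C, Polynomial.map_comp, eval_comp]
  simp only [Polynomial.map_add, Polynomial.map_X, Polynomial.map_one, eval_add, eval_X, eval_one,
    sub_add_cancel, pow_one]
  cases m with
  | zero => simp
  | succ k =>
    rw [Nat.add_sub_cancel, pow_succ]
    ring

end MPb07157S

namespace MPb07157

open MvPolynomial MPb07157S

variable {n : ℕ}

theorem inDn_stab_u {f : MvPolynomial (Fin n) ℂ} (hf : f ≠ 0) {u : MvPolynomial (Fin n) ℂ}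
    {b' : Polynomial ℂ} (hb : InDn f 1 (liftS u * C ((Polynomial.X + 1) * b'))) :
    InDn (stab f) 1 (liftS (rename (Fin.castAdd 2) u) *
      C ((Polynomial.X + 1) * b'.comp (Polynomial.X + 1))) := by
  have h1 := inA_of_inDn hb
  rw [map_mul, sw_liftS, sw_C, map_C_eq_po] at h1
  have h2 := (ext_po n).stab_main_u hf (stab_ne_zero f) h1
  have h3 := inDn_of_inA h2
  rw [map_mul, sw'_C, ← map_C_eq_po, sw'_map_C] at h3
  exact h3

/-- Zariski-local Bernstein–Sato polynomials are local. -/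
theorem isLocalBernsteinSato_of_inDn {f u : MvPolynomial (Fin n) ℂ} {b : Polynomial ℂ}
    (p : Fin n → ℂ) (hu : eval p u ≠ 0) (h : InDn f 1 (liftS u * C b)) :
    IsLocalBernsteinSato (translate p f) b := by
  have h1 := InDn.toForm (InDn.translate p h)
  rw [map_mul, translateS_liftS] at h1
  have h2 : translateS p (C b) = C b := by simp [translateS]
  rw [h2, map_mul, toForm_liftS, toForm_C] at h1
  have hc : MvPowerSeries.constantCoeff ((translate p u : MvPolynomial (Fin n) ℂ) :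
      MvPowerSeries (Fin n) ℂ) ≠ 0 := by
    rw [← MvPowerSeries.coeff_zero_eq_constantCoeff_apply, coeff_coe, ← constantCoeff_eq,
      constantCoeff_translate]
    exact hu
  have h3 := InDnForm.mul (Polynomial.C ((translate p u : MvPolynomial (Fin n) ℂ) :
      MvPowerSeries (Fin n) ℂ)⁻¹) h1
  rw [← mul_assoc, ← map_mul, MvPowerSeries.inv_mul_cancel _ hc, map_one, one_mul] at h3
  exact isLocalBernsteinSato_of_form h3

/-- The conjecture for `f` and the arcs at the points of `W`. -/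
def SmcW (f : MvPolynomial (Fin n) ℂ) (W : Set (Fin n → ℂ)) : Prop :=
  ∀ s₀ : ℚ, s₀ < 0 → IsPole (seriesAt f W) s₀ →
    ∃ p ∈ W, eval p f = 0 ∧ IsLocalBernsteinSatoRoot (translate p f) s₀

theorem one_isLocalBernsteinSato {f : MvPolynomial (Fin n) ℂ} {p : Fin n → ℂ}
    (h : eval p f ≠ 0) : IsLocalBernsteinSato (translate p f) 1 := by
  refine isLocalBernsteinSato_of_inDn (u := f) p h ?_
  rw [map_one]
  exact InDn.raise InDn.base

theorem eval_eq_zero_of_root {f : MvPolynomial (Fin n) ℂ} {p : Fin n → ℂ} {s₀ : ℚ}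
    (h : IsLocalBernsteinSatoRoot (translate p f) s₀) : eval p f = 0 := by
  by_contra h0
  have h1 := h 1 (one_isLocalBernsteinSato h0)
  rw [Polynomial.eval_one] at h1
  exact one_ne_zero h1

theorem proj_upW {W : Set (Fin n → ℂ)} {P : Fin (n + 2) → ℂ} (h : P ∈ upW W) :
    (fun i => P (Fin.castAdd 2 i)) ∈ W := h

theorem SmcW.of_stab {f : MvPolynomial (Fin n) ℂ} (hf : f ≠ 0) {W : Set (Fin n → ℂ)}
    (hW : IsConstr W) (h : SmcW (stab f) (upW W)) : SmcW f W := by
  intro s₀ hs hp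
  by_cases h1 : s₀ = -1
  · subst h1
    by_contra hcon
    push Not at hcon
    apply hp
    refine seriesAt_mem_of_ne hf hW (fun p hpW h0 => ?_) _
    refine hcon p hpW h0 (roots_of_form fun b hb => ?_).2
    refine neg_one_root (translate_ne_zero hf p) ?_ b hb
    rw [notMem_support_iff]
    exact coeff_zero_translate h0
  have h2 : s₀ ≠ 1 := by
    rintro rfl
    norm_num at hs
  have hp' : IsPole (seriesAt (stab f) (upW W)) (s₀ - 1) := fun hreg =>
    hp (seriesAt_mem_of_stab hW h1 h2 hreg)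
  obtain ⟨P, hPW, -, hr⟩ := h (s₀ - 1) (by linarith) hp'
  set p : Fin n → ℂ := fun i => P (Fin.castAdd 2 i) with hpdef
  have hroot : IsLocalBernsteinSatoRoot (translate p f) s₀ := by
    intro b hb
    obtain ⟨u, hu, hub⟩ := exists_inDn_at p hb
    have hb1 : InDn f 1 (liftS u * C ((Polynomial.X + 1) * b)) := by
      have h3 := InDn.mul (C (Polynomial.X + 1)) hub
      have h4 : (C (Polynomial.X + 1) : MvPolynomial (Fin n) (Polynomial ℂ)) *
          (liftS u * C b) = liftS u * C ((Polynomial.X + 1) * b) := by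
        rw [map_mul]
        ring
      rwa [h4] at h3
    have h5 := inDn_stab_u hf hb1
    have h6 : eval P (rename (Fin.castAdd 2) u : MvPolynomial (Fin (n + 2)) ℂ) ≠ 0 := by
      rw [eval_rename]
      exact hu
    have h7 := hr _ (isLocalBernsteinSato_of_inDn P h6 h5)
    rw [Polynomial.eval_mul, Polynomial.eval_comp] at h7
    simp only [Polynomial.eval_add, Polynomial.eval_X, Polynomial.eval_one] at h7
    push_cast at h7
    rw [sub_add_cancel] at h7
    have h8 : (s₀ : ℂ) ≠ 0 := by exact_mod_cast hs.ne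
    exact (mul_eq_zero.1 h7).resolve_left h8
  exact ⟨p, proj_upW hPW, eval_eq_zero_of_root hroot, hroot⟩

/-! ### Automorphisms -/

theorem eval_algEquiv (e : MvPolynomial (Fin n) ℂ ≃ₐ[ℂ] MvPolynomial (Fin n) ℂ)
    (p : Fin n → ℂ) (g : MvPolynomial (Fin n) ℂ) :
    eval p (e g) = eval (fun i => eval p (e (X i))) g := by
  induction g using MvPolynomial.induction_on with
  | C a =>
    rw [← algebraMap_eq, AlgEquiv.commutes, algebraMap_eq, eval_C, eval_C]
  | add a b ha hb => rw [map_add, map_add, map_add, ha, hb]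
  | mul_X a i ha => rw [map_mul, map_mul, map_mul, ha, eval_X]

theorem eval_symm_eval (e : MvPolynomial (Fin n) ℂ ≃ₐ[ℂ] MvPolynomial (Fin n) ℂ)
    (q : Fin n → ℂ) :
    (fun i => eval (fun i => eval q (e.symm (X i))) (e (X i))) = q := by
  funext i
  rw [← eval_algEquiv e.symm q (e (X i)), AlgEquiv.symm_apply_apply, eval_X]

theorem isConstr_preimage (e : MvPolynomial (Fin n) ℂ ≃ₐ[ℂ] MvPolynomial (Fin n) ℂ)
    {V : Set (Fin n → ℂ)} (hV : IsConstr V) :
    IsConstr {p : Fin n → ℂ | (fun i => eval p (e (X i))) ∈ V} :=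
  hV.preimage (fun i => e (X i))

theorem jet_base (e : MvPolynomial (Fin n) ℂ ≃ₐ[ℂ] MvPolynomial (Fin n) ℂ) {M : ℕ}
    (γ : Fin n × Fin (M + 1) → ℂ) :
    (fun i => polyMap (jetPoly (fun j => e (X j)) (M + 1)) γ (i, 0)) =
      fun i => eval (fun i => γ (i, 0)) (e (X i)) := by
  funext i
  have h0 : e (X i) ≠ 0 := by
    intro h
    exact X_ne_zero i ((map_eq_zero_iff e e.injective).1 h)
  rw [polyMap_jetPoly]
  exact coeff_zero_Fv h0 γ

theorem seriesAt_algEquiv (e : MvPolynomial (Fin n) ℂ ≃ₐ[ℂ] MvPolynomial (Fin n) ℂ)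
    (g : MvPolynomial (Fin n) ℂ) {V : Set (Fin n → ℂ)} (hV : IsConstr V) :
    seriesAt (e g) {p | (fun i => eval p (e (X i))) ∈ V} = seriesAt g V := by
  have hf : e g = C 1 * e g ^ 1 := by rw [pow_one, map_one, one_mul]
  have key : ∀ M : ℕ, cls (arcs (e g) (M + 1) M ∩
      AtW {p | (fun i => eval p (e (X i))) ∈ V} M) = cls (arcs g (M + 1) M ∩ AtW V M) := by
    intro M
    refine cls_bijOn ((isConstr_arcs _ _ _).inter (isConstr_AtW (isConstr_preimage e hV) M))
      ((isConstr_arcs _ _ _).inter (isConstr_AtW hV M)) (jetPoly (fun j => e (X j)) (M + 1))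
      ⟨?_, ?_, ?_⟩
    · intro γ hγ
      refine ⟨?_, ?_⟩
      · have h1 := (order_jetG one_ne_zero hf γ (Nat.lt_succ_self M)).1 hγ.1
        rwa [one_smul] at h1
      · show (fun i => polyMap (jetPoly (fun j => e (X j)) (M + 1)) γ (i, 0)) ∈ V
        rw [jet_base]
        exact hγ.2
    · intro γ _ γ' _ heq
      rw [← jetG_jetG e γ, heq, jetG_jetG e γ']
    · intro γ hγ
      have h3 : polyMap (jetPoly (fun j => e (X j)) (M + 1))
          (polyMap (jetPoly (fun j => e.symm (X j)) (M + 1)) γ) = γ := jetG_jetG e.symm γ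
      refine ⟨polyMap (jetPoly (fun j => e.symm (X j)) (M + 1)) γ, ⟨?_, ?_⟩, h3⟩
      · refine (order_jetG one_ne_zero hf _ (Nat.lt_succ_self M)).2 ?_
        rw [h3, one_smul]
        exact hγ.1
      · show (fun i => eval (fun i => polyMap (jetPoly (fun j => e.symm (X j)) (M + 1)) γ (i, 0))
          (e (X i))) ∈ V
        rw [← jet_base, h3]
        exact hγ.2
  ext M
  unfold seriesAt clsM
  rw [PowerSeries.coeff_mk, PowerSeries.coeff_mk, key M]

theorem trE_X (p : Fin n → ℂ) (i : Fin n) : trE p (X i) = X i + C (p i) := by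
  rw [trE_apply]
  unfold translate
  rw [aeval_X]

theorem trE_symm_apply (p : Fin n → ℂ) (f : MvPolynomial (Fin n) ℂ) :
    (trE p).symm f = translate (-p) f := by
  rw [AlgEquiv.symm_apply_eq, trE_apply, translate_translate_neg]

/-- The germs of `e g` at `p` and of `g` at the image of `p`. -/
theorem formEquivPow_translate (e : MvPolynomial (Fin n) ℂ ≃ₐ[ℂ] MvPolynomial (Fin n) ℂ)
    (g : MvPolynomial (Fin n) ℂ) (p : Fin n → ℂ) :
    FormEquivPow (translate p (e g)) (translate (fun i => eval p (e (X i))) g) 1 := by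
  set q : Fin n → ℂ := fun i => eval p (e (X i)) with hq
  have h1 : ((trE (-q)).trans (e.trans (trE p))) (translate q g) = translate p (e g) := by
    rw [AlgEquiv.trans_apply, AlgEquiv.trans_apply, trE_apply p, trE_apply (-q),
      translate_neg_translate]
  rw [← h1]
  refine Cub.formEquivPow_of_polyEquiv _ (fun i => ?_) (fun i => ?_) _
  · rw [AlgEquiv.trans_apply, AlgEquiv.trans_apply, trE_apply p, constantCoeff_translate, trE_X,
      map_add, map_add, ← algebraMap_eq, AlgEquiv.commutes, algebraMap_eq, eval_C, Pi.neg_apply]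
    exact add_neg_cancel _
  · have h2 : ((trE (-q)).trans (e.trans (trE p))).symm (X i) =
        (trE (-q)).symm (e.symm ((trE p).symm (X i))) := rfl
    have h3 : translate (-p) (X i) = (X i + C (-p i) : MvPolynomial (Fin n) ℂ) := by
      unfold translate
      rw [aeval_X]
      rfl
    rw [h2, trE_symm_apply, trE_symm_apply, neg_neg, constantCoeff_translate, h3, map_add,
      map_add, ← algebraMap_eq, AlgEquiv.commutes, algebraMap_eq, eval_C, hq,
      ← eval_algEquiv e, AlgEquiv.apply_symm_apply, eval_X]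
    exact add_neg_cancel _

theorem SmcW.of_algEquiv (e : MvPolynomial (Fin n) ℂ ≃ₐ[ℂ] MvPolynomial (Fin n) ℂ)
    {g : MvPolynomial (Fin n) ℂ} {V : Set (Fin n → ℂ)} (hV : IsConstr V) (h : SmcW g V) :
    SmcW (e g) {p | (fun i => eval p (e (X i))) ∈ V} := by
  intro s₀ hs hp
  rw [seriesAt_algEquiv e g hV] at hp
  obtain ⟨q, hq, hq0, hr⟩ := h s₀ hs hp
  have h1 := eval_symm_eval e q
  refine ⟨fun i => eval q (e.symm (X i)), ?_, ?_, ?_⟩
  · show (fun i => eval (fun i => eval q (e.symm (X i))) (e (X i))) ∈ V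
    rw [h1]
    exact hq
  · rw [eval_algEquiv, h1]
    exact hq0
  · intro b hb
    apply hr
    have h2 := formEquivPow_translate e g (fun i => eval q (e.symm (X i)))
    rw [h1] at h2
    have h3 := form_of_formEquivPow one_pos h2 (InDnLoc.toForm hb)
    rw [Nat.cast_one, inv_one, map_one, one_mul, Polynomial.comp_X] at h3
    exact isLocalBernsteinSato_of_form h3

theorem SmcW.of_stp {a g f' : MvPolynomial (Fin n) ℂ} {W : Set (Fin n → ℂ)} (hW : IsConstr W)
    (h : SmcW (Cub.stp a g f') (upW W)) : SmcW (stab (a * g + f')) (upW W) := by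
  have h1 := SmcW.of_algEquiv (Cub.shear (-a) g) (isConstr_upW hW) h
  rw [Cub.shear_stp] at h1
  have h2 : {p : Fin (n + 2) → ℂ | (fun i => eval p (Cub.shear (-a) g (X i))) ∈ upW W} =
      upW W := by
    ext p
    have h3 : (fun i => eval p (Cub.shear (-a) g (X (Fin.castAdd 2 i)))) =
        fun i => p (Fin.castAdd 2 i) := by
      funext i
      rw [Cub.shear_apply, aeval_X, Cub.sh_castAdd, eval_X]
    show (fun i => eval p (Cub.shear (-a) g (X (Fin.castAdd 2 i)))) ∈ W ↔
      (fun i => p (Fin.castAdd 2 i)) ∈ W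
    rw [h3]
  rwa [h2] at h1

namespace Tri

/-- The points with `t = 1` over `W`. -/
def W1W (W : Set (Fin n → ℂ)) : Set (Fin (n + 3) → ℂ) := W1 n ∩ {p | (fun i => p (e3 i)) ∈ W}

theorem isConstr_W1W {W : Set (Fin n → ℂ)} (hW : IsConstr W) : IsConstr (W1W W) :=
  (isConstr_W1 n).inter (hW.reindex e3)

theorem yJ_yt_zero (c : Fin n → Fin 3) {M : ℕ} {x : Fin (n + 3) × Fin (M + 1) → ℂ}
    (hx : x ∈ AtW (W1 n) M) :
    (fun i => yJ (polyMap (yt c (M + 1)) x) (i, 0)) = fun i => yJ x (i, 0) := by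
  funext i
  have h2 : (fun i => tJ x (i, 0)) = fun _ => 1 := hx
  have h3 : tJ x (c i, 0) = 1 := congrFun h2 (c i)
  have h4 := coeff_arc_lt (tJ x) (c i) (0 : Fin (M + 1))
  have h5 := coeff_arc_lt (yJ x) i (0 : Fin (M + 1))
  rw [Fin.val_zero, PowerSeries.coeff_zero_eq_constantCoeff_apply] at h4 h5
  rw [yJ_yt, Fin.val_zero, PowerSeries.coeff_zero_eq_constantCoeff_apply, map_mul, h4, h5, h3,
    one_mul]

theorem cls_triW (c : Fin n → Fin 3) {H : MvPolynomial (Fin n) ℂ}
    (h : ∀ v ∈ H.support, ∀ k, cdeg c k v ≤ 1) {W : Set (Fin n → ℂ)} (hW : IsConstr W) (M : ℕ) :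
    cls (arcs (tri c H) (M + 1) M ∩ AtW (W1W W) M) =
      cls (arcs H (M + 1) M ∩ AtW W M) * L ^ (3 * M) := by
  have h1 : cls (AtW ({fun _ => 1} : Set (Fin 3 → ℂ)) M) = L ^ (3 * M) := by
    rw [cls_AtW (isConstr_point _), cls_single, one_mul]
  have hA := (isConstr_arcs H (M + 1) M).inter (isConstr_AtW hW M)
  rw [← h1, ← clsT hA (isConstr_AtW (isConstr_point _) M)]
  have hb := bijOn_yt c M
  symm
  refine cls_bijOn (isConstr_yt hA (isConstr_AtW (isConstr_point _) M))
    ((isConstr_arcs _ _ _).inter (isConstr_AtW (isConstr_W1W hW) M)) (yt c (M + 1)) ⟨?_, ?_, ?_⟩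
  · intro x hx
    have h3 := (mem_arcs_yt c h (Nat.lt_succ_self M) x (isUnit_tJ hx.2)).2 hx.1.1
    have h4 : x ∈ AtW (W1 n) M := hx.2
    refine ⟨h3, hb.mapsTo h4, ?_⟩
    show (fun i => yJ (polyMap (yt c (M + 1)) x) (i, 0)) ∈ W
    rw [yJ_yt_zero c h4]
    exact hx.1.2
  · intro x hx x' hx' heq
    have h4 : x ∈ AtW (W1 n) M := hx.2
    have h5 : x' ∈ AtW (W1 n) M := hx'.2
    exact hb.injOn h4 h5 heq
  · intro y hy
    have hy1 : y ∈ AtW (W1 n) M := hy.2.1
    obtain ⟨x, hx, rfl⟩ := hb.surjOn hy1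
    have h4 : tJ x ∈ AtW ({fun _ => 1} : Set (Fin 3 → ℂ)) M := hx
    have h6 : (fun i => yJ (polyMap (yt c (M + 1)) x) (i, 0)) ∈ W := hy.2.2
    rw [yJ_yt_zero c hx] at h6
    exact ⟨x, ⟨⟨(mem_arcs_yt c h (Nat.lt_succ_self M) x (isUnit_tJ h4)).1 hy.1, h6⟩, h4⟩, rfl⟩

theorem seriesAt_triW (c : Fin n → Fin 3) {H : MvPolynomial (Fin n) ℂ}
    (h : ∀ v ∈ H.support, ∀ k, cdeg c k v ≤ 1) {W : Set (Fin n → ℂ)} (hW : IsConstr W) :
    seriesAt (tri c H) (W1W W) = PowerSeries.C (((LU⁻¹ : Motˣ) : Mot) ^ 3) * seriesAt H W := by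
  ext M
  rw [PowerSeries.coeff_C_mul]
  unfold seriesAt clsM
  rw [PowerSeries.coeff_mk, PowerSeries.coeff_mk, cls_triW c h hW M, map_mul, map_pow,
    SZ.coe_inv_pow, SZ.coe_inv_pow]
  have h3 := SZ.inv_mul_L
  generalize algebraMap K0 Mot (cls (arcs H (M + 1) M ∩ AtW W M)) = A
  generalize algebraMap K0 Mot L = l at *
  generalize ((LU⁻¹ : Motˣ) : Mot) = q at *
  have h4 : q ^ ((n + 3) * (M + 1)) * (A * l ^ (3 * M)) =
      (q * l) ^ (3 * M) * (q ^ 3 * (q ^ (n * (M + 1)) * A)) := by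
    ring
  rw [h4, h3, one_pow, one_mul]

theorem isLocalBernsteinSato_tri_loc (c : Fin n → Fin 3) (q : Fin n → ℂ)
    {H : MvPolynomial (Fin n) ℂ} (h : ∀ v ∈ H.support, ∀ k, cdeg c k v ≤ 1) {b : Polynomial ℂ}
    (hb : IsLocalBernsteinSato (translate q H) b) :
    IsLocalBernsteinSato (translate (ptq q) (tri c H)) b := by
  have h1 : InDnForm (dum3 (translate q H)) 1
      (b.map (MvPowerSeries.C (σ := Fin (n + 3)) (R := ℂ))) :=
    form_dum (form_dum (form_dum (InDnLoc.toForm hb)))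
  have h2 := form_of_formEquivPow one_pos (Cub.formEquivPow_symm (formEquivPow_tri_q c q h)) h1
  rw [Nat.cast_one, inv_one, map_one, one_mul, Polynomial.comp_X] at h2
  exact isLocalBernsteinSato_of_form h2

theorem smcW_of_tri (c : Fin n → Fin 3) {H : MvPolynomial (Fin n) ℂ}
    (h : ∀ v ∈ H.support, ∀ k, cdeg c k v ≤ 1) {W : Set (Fin n → ℂ)} (hW : IsConstr W)
    (hT : SmcW (tri c H) (W1W W)) : SmcW H W := by
  intro s₀ hs hp
  have hp' : IsPole (seriesAt (tri c H) (W1W W)) s₀ := by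
    intro h1
    apply hp
    rw [seriesAt_triW c h hW] at h1
    have h2 := mul_mem (C_mem_regularAt s₀ (((LU : Motˣ) : Mot) ^ 3)) h1
    rwa [← mul_assoc, ← map_mul, ← mul_pow, Units.mul_inv, one_pow, map_one, one_mul] at h2
  obtain ⟨P, hPW, -, hr⟩ := hT s₀ hs hp'
  have h3 := mem_W1 hPW.1
  have h4 : (fun i => P (e3 i)) ∈ W := hPW.2
  have hroot : IsLocalBernsteinSatoRoot (translate (fun i => P (e3 i)) H) s₀ := by
    intro b hb
    apply hr
    rw [h3]
    exact isLocalBernsteinSato_tri_loc c _ h hb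
  exact ⟨_, h4, eval_eq_zero_of_root hroot, hroot⟩

theorem smcW_of_bil {m : ℕ}
    (h : ∀ (n : ℕ) (f : MvPolynomial (Fin n) ℂ) (c : Fin n → Fin 3), n0 c = m → f ≠ 0 →
      (∀ v ∈ f.support, ∀ k, cdeg c k v ≤ 1) → ∀ W : Set (Fin n → ℂ), IsConstr W → SmcW f W) :
    ∀ (k n : ℕ) (c : Fin n → Fin 3) (f : MvPolynomial (Fin n) ℂ), n0 c = m → nu c f ≤ k →
      Bil c f → f ≠ 0 → ∀ W : Set (Fin n → ℂ), IsConstr W → SmcW f W := by
  intro k
  induction k with
  | zero =>
    intro n c f hc hk hB hf W hW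
    by_cases hd : ∀ v ∈ f.support, ∀ k, cdeg c k v ≤ 1
    · exact h n f c hc hf hd W hW
    · obtain ⟨a, g, f', rfl, h4, h5⟩ := exists_step0' c hB hd
      omega
  | succ k ih =>
    intro n c f hc hk hB hf W hW
    by_cases hd : ∀ v ∈ f.support, ∀ k, cdeg c k v ≤ 1
    · exact h n f c hc hf hd W hW
    · obtain ⟨a, g, f', rfl, h4, h5⟩ := exists_step0' c hB hd
      exact SmcW.of_stab hf hW (SmcW.of_stp hW (ih _ (cl c 2 1) _ (by rw [n0_cl, hc])
        (by omega) h5 (Cub.stp_ne_zero a g f') _ (isConstr_upW hW)))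

end Tri

end MPb07157
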