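import Pool.Agent.Lib.MP_b07157_agE.EDefs

/-!
# Stabilization: definitions
-/

noncomputable section

namespace MPb07157

open MvPolynomial

variable {n : ℕ}

/-- The polynomial `f(x_1, …, x_n) + x_{n+1} x_{n+2}`. -/
def stab (f : MvPolynomial (Fin n) ℂ) : MvPolynomial (Fin (n + 2)) ℂ :=
  rename (Fin.castAdd 2) f + X (Fin.natAdd n 0) * X (Fin.natAdd n 1)

/-- The polynomial `f(x_1, …, x_n) + x_{n+1} x_{n+2} + ⋯ + x_{n+2r-1} x_{n+2r}`. -/
def stabs (f : MvPolynomial (Fin n) ℂ) : (r : ℕ) → MvPolynomial (Fin (n + 2 * r)) ℂ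
  | 0 => f
  | r + 1 => stab (stabs f r)

end MPb07157
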