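import Pool.Agent.Lib.MP_b07157_agS.SE
import Pool.Agent.Lib.MP_b07157_agS.SDefs
import Pool.Agent.Lib.MP_b07157_agN.Fin
import Pool.Agent.Lib.MP_b07157_agM.CDefs
import Pool.Agent.Lib.MP_b07157_agM.TDefs

/-!
# The classes of stably non-degenerate germs and polynomials
-/

noncomputable section

namespace MPb07157

open MvPolynomial

/-- The smallest class of germs at the origin which contains the polynomials that are
non-degenerate on the compact faces of their Newton polyhedron, the polynomials whose initial part
for some positive weights has no critical points outside the origin (semi-quasi-homogeneous germs),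
the polynomials which in suitable formal coordinates are a unit times
`g(x_1, x_2) + ∑ x_{i+2}^{e_i}`, `e_i ≥ 2`, for a power series `g`, `g(0) = 0`, the products of
linear forms, the germs of order `d ≥ 3` in at least three variables whose tangent cone has only
finitely many singular points in the projective space, with the conditions `TanCone` and `TRoot`, the
products `f(x) g(y)` of two elements, and the homogeneous polynomials of degree
`d` in `n` variables which outside the origin are trivial along finitely many constructible sets
(that cover their zeros) with a germ in the class, and whose log canonical threshold is `n / d`, or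
whose partial derivatives have only relations generated by the linear ones while the linear vector
fields which kill the polynomial have divergence zero, or for which `f^(-n/d)` is not a sum of
derivatives, or whose critical points outside the origin lie on finitely many lines, with a
polynomial vector field which kills the polynomial and does not vanish there, for each of them
(`ConeRoot`), and which contains `f` if it contains `f + x_{n+1} x_{n+2}`, or if it contains some `g`
such that `f` is a unit times a power of `g` in suitable formal coordinates. -/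
inductive StableLoc : (n : ℕ) → MvPolynomial (Fin n) ℂ → Prop
  | nondeg {n : ℕ} (f : MvPolynomial (Fin n) ℂ)
      (h : ∀ w : Fin n → ℕ, (∀ j, 0 < w j) → IsNondeg (initialPart f w)) : StableLoc n f
  | sqh {n : ℕ} (f : MvPolynomial (Fin n) ℂ) (w : Fin n → ℕ) (hw : ∀ i, 0 < w i)
      (h : ∀ p : Fin n → ℂ, p ≠ 0 → ∃ i, eval p (pderiv i (initialPart f w)) ≠ 0) : StableLoc n f
  | susp {r : ℕ} (f : MvPolynomial (Fin (2 + r)) ℂ)
      (E : MvPowerSeries (Fin (2 + r)) ℂ ≃ₐ[ℂ] MvPowerSeries (Fin (2 + r)) ℂ)
      (u : (MvPowerSeries (Fin (2 + r)) ℂ)ˣ) (g : MvPowerSeries (Fin 2) ℂ) (e : Fin r → ℕ)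
      (he : ∀ i, 2 ≤ e i) (hg : MvPowerSeries.constantCoeff g = 0)
      (h : (f : MvPowerSeries (Fin (2 + r)) ℂ) = u * E (SU.suspP g e)) : StableLoc (2 + r) f
  | equiv {n : ℕ} (f g : MvPolynomial (Fin n) ℂ) (m : ℕ) (hm : 0 < m)
      (h : FormEquivPow f g m) (hg : StableLoc n g) : StableLoc n f
  | stab {n : ℕ} (f : MvPolynomial (Fin n) ℂ) (h : StableLoc (n + 2) (stab f)) : StableLoc n f
  | prod {n m : ℕ} (f : MvPolynomial (Fin n) ℂ) (g : MvPolynomial (Fin m) ℂ) (hf : StableLoc n f)
      (hg : StableLoc m g) : StableLoc (n + m) (prodSep f g)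
  | cone {n : ℕ} (f : MvPolynomial (Fin n) ℂ) (d : ℕ) (hd : 0 < d) (hh : f.IsHomogeneous d)
      (T : Set (Set (Fin n → ℂ))) (hT : T.Finite)
      (hcov : ∀ p, p ≠ 0 → eval p f = 0 → ∃ W ∈ T, p ∈ W)
      (k : Set (Fin n → ℂ) → ℕ) (g : (W : Set (Fin n → ℂ)) → MvPolynomial (Fin (k W)) ℂ)
      (h : ∀ W ∈ T, IsConstr W ∧ TrivAlong f W (g W)) (hg : ∀ W ∈ T, StableLoc (k W) (g W))
      (hroot : ConeRoot f d) : StableLoc n f
  | arr {n r : ℕ} (a : Fin r → Fin n → ℂ) (m : Fin r → ℕ) :
      StableLoc n (∏ j, (∑ i, C (a j i) * X i) ^ m j)
  | tanCone {k : ℕ} (f : MvPolynomial (Fin (k + 1)) ℂ) (d e : ℕ) (h : TanCone f d e)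
      (hroot : TRoot f d) : StableLoc (k + 1) f

/-- The smallest class of polynomials which vanish at the origin, which contains the polynomials
that are non-degenerate on all faces of their Newton polyhedron and on all faces of these faces, the
polynomials `f` whose zero set is covered by finitely many constructible sets `W` along which `f` is
trivial with a germ in the class `StableLoc` (near the points of `W`, `f` is a rational function
without zeros and poles times `g(u_1/q, …, u_k/q)`, where `g` is in `StableLoc`, `q` is a polynomial
without zeros on `W` and the `u_j` are polynomials which vanish on `W` and have linearly independent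
differentials at its points), and the products `f(x) g(y)` of two elements, and which contains `f` if
it contains `f + x_{n+1} x_{n+2}`, or if it contains some `g` such that `f` is a constant times a
power of the image of `g` under an automorphism of the polynomial ring. -/
inductive StableGlob : (n : ℕ) → MvPolynomial (Fin n) ℂ → Prop
  | nondeg {n : ℕ} (f : MvPolynomial (Fin n) ℂ) (h0 : coeff 0 f = 0)
      (h : ∀ w : Fin n → ℕ, IsNondeg (initialPart f w))
      (h' : ∀ (w : Fin n → ℕ) (ω : Fin n → ℤ), (∀ v ∈ f.support, 0 < ∑ j, w j * v j) →
        IsNondeg (initialPartZ (initialPart f w) ω)) : StableGlob n f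
  | strata {n : ℕ} (f : MvPolynomial (Fin n) ℂ) (h0 : coeff 0 f = 0)
      (T : Set (Set (Fin n → ℂ))) (hT : T.Finite) (hcov : ∀ p, eval p f = 0 → ∃ W ∈ T, p ∈ W)
      (h : ∀ W ∈ T, IsConstr W ∧
        ∃ (k : ℕ) (g : MvPolynomial (Fin k) ℂ), StableLoc k g ∧ TrivAlong f W g) :
      StableGlob n f
  | equiv {n : ℕ} (f g : MvPolynomial (Fin n) ℂ) (m : ℕ) (hm : 0 < m) (h0 : coeff 0 f = 0)
      (h : PolyEquivPow f g m) (hg : StableGlob n g) : StableGlob n f
  | stab {n : ℕ} (f : MvPolynomial (Fin n) ℂ) (h : StableGlob (n + 2) (stab f)) : StableGlob n f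
  | prod {n m : ℕ} (f : MvPolynomial (Fin n) ℂ) (g : MvPolynomial (Fin m) ℂ) (hf : StableGlob n f)
      (hg : StableGlob m g) : StableGlob (n + m) (prodSep f g)

end MPb07157
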