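import Pool.Agent.Lib.MP_b07157_agS.SMain
import Pool.Agent.Lib.MP_b07157_agM.MU
import Pool.Agent.Lib.MP_b07157_agM.StrHom
import Pool.Agent.Lib.MP_b07157_agW.WS
import Pool.Agent.Lib.MP_b07157_agM.Arr
import Pool.Agent.Lib.MP_b07157_agV.T1
import Pool.Agent.Lib.MP_b07157_agI.SqM
import Pool.Agent.Lib.MP_b07157_agU.Bridge
import Pool.Agent.Lib.MP_b07157_agS.SInd
import Pool.Agent.Lib.MP_b07157_agYA.Tc

/-!
# The strong monodromy conjecture for the classes of stably non-degenerate germs and polynomials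
-/

noncomputable section

namespace MPb07157

open MvPolynomial

theorem ne_zero_of_prodSep {n m : ℕ} {f : MvPolynomial (Fin n) ℂ} {g : MvPolynomial (Fin m) ℂ}
    (h : prodSep f g ≠ 0) : f ≠ 0 ∧ g ≠ 0 := by
  constructor
  · rintro rfl
    exact h (by unfold prodSep; rw [map_zero, zero_mul])
  · rintro rfl
    exact h (by unfold prodSep; rw [map_zero, mul_zero])

theorem SmcLoc.of_stableLoc {n : ℕ} {f : MvPolynomial (Fin n) ℂ} (h : StableLoc n f)
    (hf : f ≠ 0) (h0 : coeff 0 f = 0) : SmcLoc f := by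
  induction h with
  | nondeg f h => exact fun s₀ _ hp b hb => eval_eq_zero_of_form hf h0 h s₀ hp b hb
  | sqh f w hw h => exact SmcLoc.of_sqh hw h hf h0
  | susp f E u g e he hg h => exact SU.smcLoc_suspP hf h0 hg he h
  | equiv f g m hm h _ ih =>
    exact SmcLoc.of_formEquivPow hm h
      (ih (ne_zero_of_formEquivPow hm h hf) (coeff_zero_eq_zero_of_formEquivPow hm h h0))
  | stab f _ ih => exact SmcLoc.of_stab hf h0 (ih (stab_ne_zero f) (coeff_zero_stab h0))
  | prod f g _ _ ihf ihg =>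
    obtain ⟨hf', hg'⟩ := ne_zero_of_prodSep hf
    refine SmcLoc.prodSep hf' hg' ?_ ?_
    · by_cases h1 : coeff 0 f = 0
      · exact ihf hf' h1
      · exact smcLoc_of_coeff_ne h1
    · by_cases h1 : coeff 0 g = 0
      · exact ihg hg' h1
      · exact smcLoc_of_coeff_ne h1
  | cone f d hd hh T hT hcov k g h _ hroot ih =>
    exact smcLoc_cone hf hd hh hT hcov
      (P := fun k g => g ≠ 0 → coeff 0 g = 0 → SmcLoc g) (fun _ _ hg => hg)
      (fun W hW => ⟨(h W hW).1, k W, g W, ih W hW, (h W hW).2⟩) hroot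
  | arr a m => exact smcLoc_arr a m hf h0
  | tanCone f d e h hroot => exact SmcLoc.of_tanCone h hroot

theorem ne_zero_of_polyEquivPow {n : ℕ} {f g : MvPolynomial (Fin n) ℂ} {m : ℕ} (hm : 0 < m)
    (h : PolyEquivPow f g m) (hf : f ≠ 0) : g ≠ 0 := by
  rintro rfl
  obtain ⟨e, c, -, h⟩ := h
  apply hf
  rw [h, map_zero, zero_pow hm.ne', mul_zero]

theorem coeff_zero_of_stab {n : ℕ} {f : MvPolynomial (Fin n) ℂ} (h : coeff 0 (stab f) = 0) :
    coeff 0 f = 0 := by
  rw [← constantCoeff_eq] at h ⊢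
  unfold stab at h
  rwa [map_add, map_mul, constantCoeff_X, zero_mul, add_zero, constantCoeff_rename] at h

theorem StableGlob.coeff_zero {n : ℕ} {f : MvPolynomial (Fin n) ℂ} (h : StableGlob n f) :
    coeff 0 f = 0 := by
  induction h with
  | nondeg f h0 _ _ => exact h0
  | strata f h0 _ _ _ _ => exact h0
  | equiv f g m hm h0 h _ _ => exact h0
  | stab f _ ih => exact coeff_zero_of_stab ih
  | prod f g _ _ ihf _ => exact coeff_zero_prodSep g ihf

theorem SmcGlob.of_stableGlob {n : ℕ} {f : MvPolynomial (Fin n) ℂ} (h : StableGlob n f)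
    (hf : f ≠ 0) : SmcGlob f := by
  induction h with
  | nondeg f h0 h h' => exact fun s₀ _ hp => smc_initialPart hf h0 h h' s₀ hp
  | strata f _ T hT hcov h =>
    exact smc_strata hf hT hcov (P := fun k g => StableLoc k g)
      (fun k g hg hg0 hg1 => SmcLoc.of_stableLoc hg hg0 hg1) h
  | equiv f g m hm _ h _ ih =>
    exact SmcGlob.of_polyEquivPow hm h (ih (ne_zero_of_polyEquivPow hm h hf))
  | stab f h ih => exact SmcGlob.of_stab hf (coeff_zero_of_stab h.coeff_zero) (ih (stab_ne_zero f))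
  | prod f g _ _ ihf ihg =>
    obtain ⟨hf', hg'⟩ := ne_zero_of_prodSep hf
    exact SmcGlob.prodSep hf' hg' (ihf hf') (ihg hg')

/-- **The strong monodromy conjecture, local version**, for stably non-degenerate germs. -/
theorem smc_stableLoc {n : ℕ} {f : MvPolynomial (Fin n) ℂ} (hf : f ≠ 0) (h0 : coeff 0 f = 0)
    (h : StableLoc n f) (s₀ : ℚ) (hs : s₀ < 0) (hp : IsPole (Zmot0 f) s₀) :
    IsLocalBernsteinSatoRoot f s₀ :=
  (roots_of_form fun b hb => SmcLoc.of_stableLoc h hf h0 s₀ hs hp b hb).2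

/-- **The strong monodromy conjecture, global version**, for stably non-degenerate polynomials. -/
theorem smc_stableGlob {n : ℕ} {f : MvPolynomial (Fin n) ℂ} (hf : f ≠ 0)
    (h : StableGlob n f) (s₀ : ℚ) (hs : s₀ < 0) (hp : IsPole (Zmot f) s₀) :
    IsBernsteinSatoRoot f s₀ :=
  SmcGlob.of_stableGlob h hf s₀ hs hp

end MPb07157
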