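import Pool.Agent.Lib.MP_b07157_agS.CubA

/-!
# Reduction of the strong monodromy conjecture to trilinear forms

The variables have three colours.  A monomial is good if it has at most one variable of each
colour.
-/

noncomputable section

namespace MPb07157

open MvPolynomial

variable {n : ℕ}

namespace Tri

open Cub (W Y stp shear)

/-! ### Colours -/

/-- The degree of a monomial in the variables of colour `k`. -/
def cdeg (c : Fin n → Fin 3) (k : Fin 3) (v : Fin n →₀ ℕ) : ℕ := ∑ i with c i = k, v i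

theorem cdeg_add (c : Fin n → Fin 3) (k : Fin 3) (v w : Fin n →₀ ℕ) :
    cdeg c k (v + w) = cdeg c k v + cdeg c k w := by
  unfold cdeg
  rw [← Finset.sum_add_distrib]
  rfl

theorem cdeg_single (c : Fin n → Fin 3) (k : Fin 3) (i : Fin n) (a : ℕ) :
    cdeg c k (Finsupp.single i a) = if c i = k then a else 0 := by
  unfold cdeg
  rw [Finset.sum_filter, Finset.sum_eq_single i]
  · rw [Finsupp.single_eq_same]
  · intro j _ hj
    rw [Finsupp.single_eq_of_ne hj]
    split_ifs <;> rfl
  · intro h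
    exact absurd (Finset.mem_univ i) h

theorem degree_eq_cdeg (c : Fin n → Fin 3) (v : Fin n →₀ ℕ) : v.degree = ∑ k, cdeg c k v := by
  rw [Finsupp.degree_eq_sum]
  unfold cdeg
  exact (Finset.sum_fiberwise _ c v).symm

/-- The excess of a monomial. -/
def ex (c : Fin n → Fin 3) (v : Fin n →₀ ℕ) : ℕ := ∑ k, (cdeg c k v - 1)

theorem ex_le (c : Fin n → Fin 3) (v : Fin n →₀ ℕ) : ex c v ≤ v.degree := by
  rw [degree_eq_cdeg c]
  exact Finset.sum_le_sum fun k _ => Nat.sub_le _ _

/-- The weight of a monomial. -/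
def om (c : Fin n → Fin 3) (v : Fin n →₀ ℕ) : ℕ := if 4 ≤ v.degree then 3 ^ v.degree else ex c v

theorem om_le {d : ℕ} (c : Fin n → Fin 3) (v : Fin n →₀ ℕ) (h : v.degree ≤ d) :
    om c v ≤ 3 ^ d := by
  unfold om
  split_ifs
  · exact Nat.pow_le_pow_right (by norm_num) h
  · refine (ex_le c v).trans (h.trans ?_)
    exact (Nat.lt_pow_self (by norm_num)).le

/-- The measure of a polynomial. -/
def mu (c : Fin n → Fin 3) (f : MvPolynomial (Fin n) ℂ) : ℕ := ∑ v ∈ f.support, om c v

theorem mu_le_of_subset (c : Fin n → Fin 3) {f : MvPolynomial (Fin n) ℂ}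
    {s : Finset (Fin n →₀ ℕ)} (h : f.support ⊆ s) : mu c f ≤ ∑ v ∈ s, om c v :=
  Finset.sum_le_sum_of_subset h

theorem mu_add (c : Fin n → Fin 3) (f g : MvPolynomial (Fin n) ℂ) :
    mu c (f + g) ≤ mu c f + mu c g := by
  classical
  refine (mu_le_of_subset c (support_add (p := f) (q := g))).trans ?_
  rw [mu, mu, ← Finset.sum_union_inter]
  exact Nat.le_add_right _ _

theorem mu_neg (c : Fin n → Fin 3) (f : MvPolynomial (Fin n) ℂ) : mu c (-f) = mu c f := by
  unfold mu
  rw [support_neg]

theorem mu_sub (c : Fin n → Fin 3) (f g : MvPolynomial (Fin n) ℂ) :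
    mu c (f - g) ≤ mu c f + mu c g := by
  rw [sub_eq_add_neg]
  exact (mu_add c f (-g)).trans (by rw [mu_neg])

theorem mu_monomial (c : Fin n → Fin 3) (v : Fin n →₀ ℕ) (b : ℂ) :
    mu c (monomial v b) ≤ om c v := by
  classical
  refine (mu_le_of_subset c (support_monomial_subset)).trans ?_
  rw [Finset.sum_singleton]

theorem mu_erase (c : Fin n → Fin 3) {f : MvPolynomial (Fin n) ℂ} {v : Fin n →₀ ℕ}
    (hv : v ∈ f.support) : mu c (f - monomial v (coeff v f)) + om c v ≤ mu c f := by
  classical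
  have h : (f - monomial v (coeff v f)).support ⊆ f.support.erase v := by
    intro u hu
    rw [mem_support_iff, coeff_sub, coeff_monomial] at hu
    rw [Finset.mem_erase, mem_support_iff]
    by_cases huv : v = u
    · subst huv
      rw [if_pos rfl, sub_self] at hu
      exact absurd rfl hu
    · rw [if_neg huv, sub_zero] at hu
      exact ⟨fun h => huv h.symm, hu⟩
  rw [add_comm]
  unfold mu
  rw [← Finset.add_sum_erase _ _ hv]
  exact Nat.add_le_add_left (Finset.sum_le_sum_of_subset h) _

/-! ### Two more variables -/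

/-- The colouring of the variables `x, w, z`. -/
def cl (c : Fin n → Fin 3) (kw kz : Fin 3) (i : Fin (n + 2)) : Fin 3 :=
  Fin.addCases c (fun j : Fin 2 => if j = 0 then kw else kz) i

theorem cl_castAdd (c : Fin n → Fin 3) (kw kz : Fin 3) (i : Fin n) :
    cl c kw kz (Fin.castAdd 2 i) = c i := by
  simp [cl]

theorem cl_w (c : Fin n → Fin 3) (kw kz : Fin 3) : cl c kw kz (Fin.natAdd n 0) = kw := by
  unfold cl
  rw [Fin.addCases_right, if_pos rfl]

theorem cl_z (c : Fin n → Fin 3) (kw kz : Fin 3) : cl c kw kz (Fin.natAdd n 1) = kz := by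
  unfold cl
  rw [Fin.addCases_right, if_neg one_ne_zero]

theorem cdeg_mapDomain (c : Fin n → Fin 3) (kw kz k : Fin 3) (v : Fin n →₀ ℕ) :
    cdeg (cl c kw kz) k (Finsupp.mapDomain (Fin.castAdd 2) v) = cdeg c k v := by
  induction v using Finsupp.induction_linear with
  | zero =>
    rw [Finsupp.mapDomain_zero]
    simp [cdeg]
  | add v w hv hw => rw [Finsupp.mapDomain_add, cdeg_add, cdeg_add, hv, hw]
  | single i a => rw [Finsupp.mapDomain_single, cdeg_single, cdeg_single, cl_castAdd]

theorem ex_mapDomain (c : Fin n → Fin 3) (kw kz : Fin 3) (v : Fin n →₀ ℕ) :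
    ex (cl c kw kz) (Finsupp.mapDomain (Fin.castAdd 2) v) = ex c v := by
  unfold ex
  simp only [cdeg_mapDomain]

theorem mu_em (c : Fin n → Fin 3) (kw kz : Fin 3) (f : MvPolynomial (Fin n) ℂ) :
    mu (cl c kw kz) (Cub.em f) = mu c f := by
  classical
  unfold mu Cub.em
  rw [support_rename_of_injective (Fin.castAdd_injective n 2), Finset.sum_image]
  · refine Finset.sum_congr rfl fun v _ => ?_
    unfold om
    rw [Finsupp.degree_mapDomain, ex_mapDomain]
  · intro v _ w _ h
    exact Finsupp.mapDomain_injective (Fin.castAdd_injective n 2) h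

theorem mu_em_mul_X (c : Fin n → Fin 3) (kw kz : Fin 3) (v : Fin n →₀ ℕ) (b : ℂ)
    (k : Fin (n + 2)) : mu (cl c kw kz) (Cub.em (monomial v b) * X k) ≤
      om (cl c kw kz) (Finsupp.mapDomain (Fin.castAdd 2) v + Finsupp.single k 1) := by
  have h : Cub.em (monomial v b) * X k =
      monomial (Finsupp.mapDomain (Fin.castAdd 2) v + Finsupp.single k 1) b := by
    unfold Cub.em X
    rw [rename_monomial, monomial_mul, mul_one]
  rw [h]
  exact mu_monomial _ _ _

theorem mu_WY (c : Fin n → Fin 3) {kw kz : Fin 3} (hk : kw ≠ kz) :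
    mu (cl c kw kz) (W n * Y n) = 0 := by
  have h : W n * Y n = monomial (Finsupp.single (Fin.natAdd n (0 : Fin 2)) 1 +
      Finsupp.single (Fin.natAdd n (1 : Fin 2)) 1) 1 := by
    unfold W Y X
    rw [monomial_mul, mul_one]
  have h1 := mu_monomial (cl c kw kz) (Finsupp.single (Fin.natAdd n (0 : Fin 2)) 1 +
      Finsupp.single (Fin.natAdd n (1 : Fin 2)) 1) (1 : ℂ)
  rw [← h] at h1
  unfold om at h1
  rw [map_add, Finsupp.degree_single, Finsupp.degree_single, if_neg (by norm_num)] at h1
  refine Nat.le_zero.1 (h1.trans ?_)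
  unfold ex
  refine (Finset.sum_eq_zero fun k _ => ?_).le
  rw [cdeg_add, cdeg_single, cdeg_single, cl_w, cl_z]
  split_ifs with h2 h3
  · exact absurd (h2.trans h3.symm) hk
  · rfl
  · rfl
  · rfl

theorem mu_stp_le (c : Fin n → Fin 3) {kw kz : Fin 3} (hk : kw ≠ kz) (u w : Fin n →₀ ℕ)
    (b : ℂ) (f' : MvPolynomial (Fin n) ℂ) :
    mu (cl c kw kz) (stp (monomial u b) (monomial w 1) f') ≤ mu c f' +
      om (cl c kw kz) (Finsupp.mapDomain (Fin.castAdd 2) u +
        Finsupp.single (Fin.natAdd n 1) 1) +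
      om (cl c kw kz) (Finsupp.mapDomain (Fin.castAdd 2) w +
        Finsupp.single (Fin.natAdd n 0) 1) := by
  have h2 := mu_em_mul_X c kw kz u b (Fin.natAdd n 1)
  have h3 := mu_em_mul_X c kw kz w 1 (Fin.natAdd n 0)
  have h7 := mu_add (cl c kw kz) (Cub.em f' + Cub.em (monomial u b) * Y n - Cub.em (monomial w 1) * W n)
    (W n * Y n)
  have h8 := mu_sub (cl c kw kz) (Cub.em f' + Cub.em (monomial u b) * Y n) (Cub.em (monomial w 1) * W n)
  have h9 := mu_add (cl c kw kz) (Cub.em f') (Cub.em (monomial u b) * Y n)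
  rw [mu_em] at h9
  rw [mu_WY c hk] at h7
  unfold stp
  unfold W Y at *
  omega

/-- One step of the reduction. -/
theorem exists_step (c : Fin n → Fin 3) {f : MvPolynomial (Fin n) ℂ} (h0 : coeff 0 f = 0)
    (hd : ¬ ∀ v ∈ f.support, ∀ k, cdeg c k v ≤ 1) :
    ∃ (kw kz : Fin 3) (a g f' : MvPolynomial (Fin n) ℂ), f = a * g + f' ∧ coeff 0 f' = 0 ∧
      coeff 0 a = 0 ∧ coeff 0 g = 0 ∧ mu (cl c kw kz) (stp a g f') < mu c f := by
  push Not at hd
  obtain ⟨v, hv, k, hk⟩ := hd
  have hvk : cdeg c k v ≤ v.degree := by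
    rw [degree_eq_cdeg c]
    exact Finset.single_le_sum (f := fun k => cdeg c k v) (fun _ _ => Nat.zero_le _)
      (Finset.mem_univ k)
  suffices H : ∃ (kw kz : Fin 3) (u w : Fin n →₀ ℕ), kw ≠ kz ∧ u + w = v ∧ u ≠ 0 ∧ w ≠ 0 ∧
      om (cl c kw kz) (Finsupp.mapDomain (Fin.castAdd 2) u +
        Finsupp.single (Fin.natAdd n 1) 1) +
      om (cl c kw kz) (Finsupp.mapDomain (Fin.castAdd 2) w +
        Finsupp.single (Fin.natAdd n 0) 1) < om c v by
    obtain ⟨kw, kz, u, w, hkk, rfl, hu0, hw0, h⟩ := H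
    refine ⟨kw, kz, monomial u (coeff (u + w) f), monomial w 1,
      f - monomial (u + w) (coeff (u + w) f), ?_, ?_, ?_, ?_, ?_⟩
    · rw [monomial_mul, mul_one]
      ring
    · rw [coeff_sub, h0, coeff_monomial, if_neg, sub_zero]
      intro h
      rw [h] at hvk hk
      rw [map_zero] at hvk
      omega
    · rw [coeff_monomial, if_neg hu0]
    · rw [coeff_monomial, if_neg hw0]
    · have h1 := mu_erase c hv
      have h2 := mu_stp_le c hkk u w (coeff (u + w) f) (f - monomial (u + w) (coeff (u + w) f))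
      omega
  by_cases h4 : 4 ≤ v.degree
  · obtain ⟨u, huv, hu⟩ := Finsupp.exists_le_degree_eq v 2 (by omega)
    obtain ⟨w, rfl⟩ := exists_add_of_le huv
    have hw : w.degree + 2 = (u + w).degree := by
      rw [map_add, hu]
      omega
    have hu0 : u ≠ 0 := by
      rintro rfl
      rw [map_zero] at hu
      omega
    have hw0 : w ≠ 0 := by
      rintro rfl
      rw [map_zero] at hw
      omega
    refine ⟨0, 1, u, w, by decide, rfl, hu0, hw0, ?_⟩
    have h1 := om_le (d := 3) (cl c 0 1) (Finsupp.mapDomain (Fin.castAdd 2) u +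
        Finsupp.single (Fin.natAdd n 1) 1)
        (by rw [map_add, Finsupp.degree_mapDomain, Finsupp.degree_single, hu])
    have h2 := om_le (d := w.degree + 1) (cl c 0 1) (Finsupp.mapDomain (Fin.castAdd 2) w +
        Finsupp.single (Fin.natAdd n 0) 1)
        (by rw [map_add, Finsupp.degree_mapDomain, Finsupp.degree_single])
    have h5 : om c (u + w) = 3 ^ (w.degree + 1) * 3 := by
      unfold om
      rw [if_pos h4, ← hw, ← pow_succ]
    have h6 : 3 ^ 3 ≤ 3 ^ (w.degree + 1) := Nat.pow_le_pow_right (by norm_num) (by omega)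
    rw [h5]
    omega
  · obtain ⟨i, hi, hvi⟩ : ∃ i, c i = k ∧ v i ≠ 0 := by
      by_contra hcon
      push Not at hcon
      have : cdeg c k v = 0 := by
        unfold cdeg
        refine Finset.sum_eq_zero fun i hi => hcon i ?_
        simpa using hi
      omega
    obtain ⟨kz, hkz⟩ : ∃ kz, cdeg c kz v = 0 := by
      by_contra hcon
      push Not at hcon
      have h1 : ∑ j, 1 < ∑ j, cdeg c j v :=
        Finset.sum_lt_sum (fun j _ => Nat.one_le_iff_ne_zero.2 (hcon j))
          ⟨k, Finset.mem_univ k, by omega⟩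
      rw [← degree_eq_cdeg] at h1
      simp at h1
      omega
    have hkkz : kz ≠ k := by
      rintro rfl
      omega
    have hdec : ∀ k kz : Fin 3, ∃ kw : Fin 3, kw ≠ k ∧ kw ≠ kz := by decide
    obtain ⟨kw, hkw1, hkw2⟩ := hdec k kz
    obtain ⟨u, rfl⟩ : ∃ u, v = u + Finsupp.single i 1 :=
      ⟨v - Finsupp.single i 1, (tsub_add_cancel_of_le (by
        rw [Finsupp.single_le_iff]
        omega)).symm⟩
    rw [map_add, Finsupp.degree_single] at h4 hvk
    have hu0 : u ≠ 0 := by
      rintro rfl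
      rw [map_zero] at hvk
      omega
    refine ⟨kw, kz, u, Finsupp.single i 1, hkw2, rfl, hu0, by
      rw [Ne, Finsupp.single_eq_zero]
      exact one_ne_zero, ?_⟩
    rw [cdeg_add, cdeg_single, hi] at hkz hk
    rw [if_neg hkkz.symm] at hkz
    rw [if_pos rfl] at hk
    have h1 : om c (u + Finsupp.single i 1) = ex c (u + Finsupp.single i 1) := by
      unfold om
      rw [if_neg]
      rw [map_add, Finsupp.degree_single]
      exact h4
    have h2 : om (cl c kw kz) (Finsupp.mapDomain (Fin.castAdd 2) u +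
        Finsupp.single (Fin.natAdd n 1) 1) = ex (cl c kw kz)
          (Finsupp.mapDomain (Fin.castAdd 2) u + Finsupp.single (Fin.natAdd n 1) 1) := by
      unfold om
      rw [if_neg]
      rw [map_add, Finsupp.degree_single, Finsupp.degree_mapDomain]
      exact h4
    have h3 : om (cl c kw kz) (Finsupp.mapDomain (Fin.castAdd 2) (Finsupp.single i 1) +
        Finsupp.single (Fin.natAdd n 0) 1) = 0 := by
      unfold om
      rw [if_neg, Finsupp.mapDomain_single]
      · unfold ex
        refine Finset.sum_eq_zero fun j _ => ?_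
        rw [cdeg_add, cdeg_single, cdeg_single, cl_w, cl_castAdd, hi]
        split_ifs with h5 h6
        · exact absurd (h6.trans h5.symm) hkw1
        · rfl
        · rfl
        · rfl
      · rw [map_add, Finsupp.degree_single, Finsupp.degree_mapDomain, Finsupp.degree_single]
        norm_num
    rw [h1, h2, h3, add_zero]
    unfold ex
    refine Finset.sum_lt_sum (fun j _ => ?_) ⟨k, Finset.mem_univ k, ?_⟩
    · rw [cdeg_add, cdeg_add, cdeg_mapDomain, cdeg_single, cdeg_single, cl_z]
      by_cases hj : kz = j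
      · subst hj
        rw [if_pos rfl]
        omega
      · rw [if_neg hj]
        omega
    · rw [cdeg_add, cdeg_add, cdeg_mapDomain, cdeg_single, cdeg_single, cl_z, if_neg hkkz, hi,
        if_pos rfl]
      omega

/-- The global strong monodromy conjecture follows from its case of polynomials of degree at
most one in each of three groups of variables. -/
theorem smcGlob_of_tri
    (h : ∀ (n : ℕ) (f : MvPolynomial (Fin n) ℂ) (c : Fin n → Fin 3), f ≠ 0 → coeff 0 f = 0 →
      (∀ v ∈ f.support, ∀ k, cdeg c k v ≤ 1) → SmcGlob f) :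
    ∀ (k n : ℕ) (c : Fin n → Fin 3) (f : MvPolynomial (Fin n) ℂ), mu c f ≤ k → f ≠ 0 →
      coeff 0 f = 0 → SmcGlob f := by
  intro k
  induction k with
  | zero =>
    intro n c f hk hf h0
    by_cases hd : ∀ v ∈ f.support, ∀ k, cdeg c k v ≤ 1
    · exact h n f c hf h0 hd
    · obtain ⟨kw, kz, a, g, f', rfl, h1, h2, h3, h4⟩ := exists_step c h0 hd
      omega
  | succ k ih =>
    intro n c f hk hf h0
    by_cases hd : ∀ v ∈ f.support, ∀ k, cdeg c k v ≤ 1
    · exact h n f c hf h0 hd
    · obtain ⟨kw, kz, a, g, f', rfl, h1, h2, h3, h4⟩ := exists_step c h0 hd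
      exact SmcGlob.of_stab hf h0 (SmcGlob.of_polyEquivPow one_pos
        (Cub.polyEquivPow_stp a g f') (ih _ (cl c kw kz) _ (by omega)
          (Cub.stp_ne_zero a g f') (Cub.coeff_zero_stp h1)))

/-- The local strong monodromy conjecture follows from its case of polynomials of degree at
most one in each of three groups of variables. -/
theorem smcLoc_of_tri
    (h : ∀ (n : ℕ) (f : MvPolynomial (Fin n) ℂ) (c : Fin n → Fin 3), f ≠ 0 → coeff 0 f = 0 →
      (∀ v ∈ f.support, ∀ k, cdeg c k v ≤ 1) → SmcLoc f) :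
    ∀ (k n : ℕ) (c : Fin n → Fin 3) (f : MvPolynomial (Fin n) ℂ), mu c f ≤ k → f ≠ 0 →
      coeff 0 f = 0 → SmcLoc f := by
  intro k
  induction k with
  | zero =>
    intro n c f hk hf h0
    by_cases hd : ∀ v ∈ f.support, ∀ k, cdeg c k v ≤ 1
    · exact h n f c hf h0 hd
    · obtain ⟨kw, kz, a, g, f', rfl, h1, h2, h3, h4⟩ := exists_step c h0 hd
      omega
  | succ k ih =>
    intro n c f hk hf h0
    by_cases hd : ∀ v ∈ f.support, ∀ k, cdeg c k v ≤ 1
    · exact h n f c hf h0 hd
    · obtain ⟨kw, kz, a, g, f', rfl, h1, h2, h3, h4⟩ := exists_step c h0 hd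
      exact SmcLoc.of_stab hf h0 (SmcLoc.of_formEquivPow one_pos (Cub.formEquivPow_stp h2 h3)
        (ih _ (cl c kw kz) _ (by omega) (Cub.stp_ne_zero a g f') (Cub.coeff_zero_stp h1)))

end Tri

end MPb07157
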