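import Pool.Agent.Lib.MP_b07157_agS.Tri
import Pool.Agent.Lib.MP_b07157_agS.CubF2

/-!
# Reduction of the strong monodromy conjecture to trilinear forms, homogenisation
-/

noncomputable section

namespace MPb07157

open MvPolynomial

variable {n : ℕ}

namespace Tri

/-! ### Three more variables -/

/-- The index of the new variable of colour `k`. -/
def tv (n : ℕ) (k : Fin 3) : Fin (n + 3) :=
  (![0, Fin.succ 0, Fin.succ (Fin.succ 0)] : Fin 3 → Fin (n + 3)) k

/-- The old indices. -/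
def e3 (i : Fin n) : Fin (n + 3) := i.succ.succ.succ

theorem e3_injective : Function.Injective (e3 (n := n)) :=
  (Fin.succ_injective _).comp ((Fin.succ_injective _).comp (Fin.succ_injective _))

/-- A family indexed by the new and the old indices. -/
def cons3 {α : Type*} (a : Fin 3 → α) (b : Fin n → α) : Fin (n + 3) → α :=
  Fin.cons (a 0) (Fin.cons (a 1) (Fin.cons (a 2) b))

theorem cons3_tv {α : Type*} (a : Fin 3 → α) (b : Fin n → α) (k : Fin 3) :
    cons3 a b (tv n k) = a k := by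
  fin_cases k <;> rfl

theorem cons3_e3 {α : Type*} (a : Fin 3 → α) (b : Fin n → α) (i : Fin n) :
    cons3 a b (e3 i) = b i := rfl

@[elab_as_elim]
theorem ind3 {P : Fin (n + 3) → Prop} (h1 : ∀ k, P (tv n k)) (h2 : ∀ i, P (e3 i))
    (i : Fin (n + 3)) : P i :=
  Fin.cases (h1 0) (fun i => Fin.cases (h1 1) (fun i => Fin.cases (h1 2) h2 i) i) i

/-- `f` as a polynomial with three more variables. -/
def dum3 (f : MvPolynomial (Fin n) ℂ) : MvPolynomial (Fin (n + 3)) ℂ := dum (dum (dum f))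

theorem dum3_eq (f : MvPolynomial (Fin n) ℂ) : dum3 f = rename e3 f := by
  unfold dum3 dum
  rw [rename_rename, rename_rename]
  rfl

theorem dum3_monomial (v : Fin n →₀ ℕ) (b : ℂ) :
    dum3 (monomial v b) = monomial (Finsupp.mapDomain e3 v) b := by
  rw [dum3_eq, rename_monomial]

/-! ### The change of coordinates -/

/-- The series `1 + t_k`. -/
def tt (n : ℕ) (k : Fin 3) : MvPowerSeries (Fin (n + 3)) ℂ := MvPowerSeries.X (tv n k) + 1

theorem constantCoeff_tt (n : ℕ) (k : Fin 3) : MvPowerSeries.constantCoeff (tt n k) = 1 := by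
  simp [tt]

/-- `1 + t_k` as a unit. -/
def tu (n : ℕ) (k : Fin 3) : (MvPowerSeries (Fin (n + 3)) ℂ)ˣ :=
  Units.mk (tt n k) (tt n k)⁻¹
    (MvPowerSeries.mul_inv_cancel _ (by rw [constantCoeff_tt]; exact one_ne_zero))
    (MvPowerSeries.inv_mul_cancel _ (by rw [constantCoeff_tt]; exact one_ne_zero))

theorem tu_val (n : ℕ) (k : Fin 3) : (tu n k : MvPowerSeries (Fin (n + 3)) ℂ) = tt n k := rfl

/-- The substitution `t_k ↦ t_k`, `y_i ↦ y_i V_{c(i)}`. -/
def hs (c : Fin n → Fin 3) (V : Fin 3 → MvPowerSeries (Fin (n + 3)) ℂ) :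
    Fin (n + 3) → MvPowerSeries (Fin (n + 3)) ℂ :=
  cons3 (fun k => MvPowerSeries.X (tv n k)) (fun i => MvPowerSeries.X (e3 i) * V (c i))

theorem hs_tv (c : Fin n → Fin 3) (V : Fin 3 → MvPowerSeries (Fin (n + 3)) ℂ) (k : Fin 3) :
    hs c V (tv n k) = MvPowerSeries.X (tv n k) := cons3_tv _ _ _

theorem hs_e3 (c : Fin n → Fin 3) (V : Fin 3 → MvPowerSeries (Fin (n + 3)) ℂ) (i : Fin n) :
    hs c V (e3 i) = MvPowerSeries.X (e3 i) * V (c i) := rfl

theorem constantCoeff_hs (c : Fin n → Fin 3) (V : Fin 3 → MvPowerSeries (Fin (n + 3)) ℂ)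
    (i : Fin (n + 3)) : MvPowerSeries.constantCoeff (hs c V i) = 0 := by
  refine ind3 (fun k => ?_) (fun i => ?_) i
  · rw [hs_tv, MvPowerSeries.constantCoeff_X]
  · rw [hs_e3, map_mul, MvPowerSeries.constantCoeff_X, zero_mul]

theorem subst_hs_X (c : Fin n → Fin 3) (V : Fin 3 → MvPowerSeries (Fin (n + 3)) ℂ)
    (i : Fin (n + 3)) :
    MvPowerSeries.subst (hs c V) (MvPowerSeries.X i : MvPowerSeries (Fin (n + 3)) ℂ) =
      hs c V i :=
  MvPowerSeries.subst_X (MvPowerSeries.hasSubst_of_constantCoeff_zero (constantCoeff_hs c V)) i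

theorem subst_hs_tt (c : Fin n → Fin 3) (V : Fin 3 → MvPowerSeries (Fin (n + 3)) ℂ)
    (k : Fin 3) : MvPowerSeries.subst (hs c V) (tt n k) = tt n k := by
  have h := MvPowerSeries.hasSubst_of_constantCoeff_zero (constantCoeff_hs c V)
  unfold tt
  rw [← MvPowerSeries.substAlgHom_apply h, map_add, map_one, MvPowerSeries.substAlgHom_apply h,
    subst_hs_X, hs_tv]

theorem subst_hs_inv (c : Fin n → Fin 3) (V : Fin 3 → MvPowerSeries (Fin (n + 3)) ℂ)
    (k : Fin 3) :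
    MvPowerSeries.subst (hs c V) ((tu n k)⁻¹ : (MvPowerSeries (Fin (n + 3)) ℂ)ˣ).val =
      ((tu n k)⁻¹ : (MvPowerSeries (Fin (n + 3)) ℂ)ˣ).val := by
  have h := MvPowerSeries.hasSubst_of_constantCoeff_zero (constantCoeff_hs c V)
  have h1 : MvPowerSeries.subst (hs c V) ((tu n k)⁻¹ : (MvPowerSeries (Fin (n + 3)) ℂ)ˣ).val *
      tt n k = 1 := by
    conv_lhs => rw [← subst_hs_tt c V]
    rw [← MvPowerSeries.subst_mul h, ← tu_val, Units.inv_mul, ← MvPowerSeries.substAlgHom_apply h,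
      map_one]
  calc _ = MvPowerSeries.subst (hs c V) ((tu n k)⁻¹ : (MvPowerSeries (Fin (n + 3)) ℂ)ˣ).val *
        ((tu n k : MvPowerSeries (Fin (n + 3)) ℂ) *
          ((tu n k)⁻¹ : (MvPowerSeries (Fin (n + 3)) ℂ)ˣ).val) := by rw [Units.mul_inv, mul_one]
    _ = _ := by rw [← mul_assoc, tu_val, h1, one_mul]

/-- The inverses of the `1 + t_k`. -/
def ti (n : ℕ) (k : Fin 3) : MvPowerSeries (Fin (n + 3)) ℂ :=
  ((tu n k)⁻¹ : (MvPowerSeries (Fin (n + 3)) ℂ)ˣ).val

/-- The formal change of coordinates `t_k ↦ t_k`, `y_i ↦ y_i / (1 + t_{c(i)})`. -/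
def hE (c : Fin n → Fin 3) : MvPowerSeries (Fin (n + 3)) ℂ ≃ₐ[ℂ] MvPowerSeries (Fin (n + 3)) ℂ :=
  Cub.psEquiv (hs c (ti n)) (hs c (tt n)) (constantCoeff_hs c _) (constantCoeff_hs c _)
    (by
      intro i
      have h := MvPowerSeries.hasSubst_of_constantCoeff_zero (constantCoeff_hs c (ti n))
      refine ind3 (fun k => ?_) (fun i => ?_) i
      · rw [hs_tv, subst_hs_X, hs_tv]
      · rw [hs_e3, MvPowerSeries.subst_mul h, subst_hs_X, subst_hs_tt, hs_e3, mul_assoc,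
          ← tu_val, ti, Units.inv_mul, mul_one])
    (by
      intro i
      have h := MvPowerSeries.hasSubst_of_constantCoeff_zero (constantCoeff_hs c (tt n))
      refine ind3 (fun k => ?_) (fun i => ?_) i
      · rw [hs_tv, subst_hs_X, hs_tv]
      · rw [hs_e3, MvPowerSeries.subst_mul h, subst_hs_X, ti, subst_hs_inv, hs_e3, mul_assoc,
          ← tu_val, Units.mul_inv, mul_one])

/-! ### The trilinear form -/

/-- The trilinear form `t_0 t_1 t_2 H(y_i / t_{c(i)})`. -/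
def tri (c : Fin n → Fin 3) (H : MvPolynomial (Fin n) ℂ) : MvPolynomial (Fin (n + 3)) ℂ :=
  ∑ v ∈ H.support, (∏ k, X (tv n k) ^ (1 - cdeg c k v)) * dum3 (monomial v (coeff v H))

/-- The colours of the variables of the trilinear form. -/
def c3 (c : Fin n → Fin 3) : Fin (n + 3) → Fin 3 := cons3 id c

theorem c3_tv (c : Fin n → Fin 3) (k : Fin 3) : c3 c (tv n k) = k := cons3_tv _ _ _

theorem c3_e3 (c : Fin n → Fin 3) (i : Fin n) : c3 c (e3 i) = c i := rfl

/-- The point `(1, 1, 1, 0, …, 0)`. -/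
def pt3 (n : ℕ) : Fin (n + 3) → ℂ := cons3 (fun _ => 1) (fun _ => 0)

theorem cdeg_mapDomain_e3 (c : Fin n → Fin 3) (k : Fin 3) (v : Fin n →₀ ℕ) :
    cdeg (c3 c) k (Finsupp.mapDomain e3 v) = cdeg c k v := by
  induction v using Finsupp.induction_linear with
  | zero =>
    rw [Finsupp.mapDomain_zero]
    simp [cdeg]
  | add v w hv hw => rw [Finsupp.mapDomain_add, cdeg_add, cdeg_add, hv, hw]
  | single i a => rw [Finsupp.mapDomain_single, cdeg_single, cdeg_single, c3_e3]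

/-- The exponents of the trilinear form. -/
def te (c : Fin n → Fin 3) (v : Fin n →₀ ℕ) : Fin (n + 3) →₀ ℕ :=
  Finsupp.single (tv n 0) (1 - cdeg c 0 v) + Finsupp.single (tv n 1) (1 - cdeg c 1 v) +
    Finsupp.single (tv n 2) (1 - cdeg c 2 v) + Finsupp.mapDomain e3 v

theorem tri_eq (c : Fin n → Fin 3) (H : MvPolynomial (Fin n) ℂ) :
    tri c H = ∑ v ∈ H.support, monomial (te c v) (coeff v H) := by
  unfold tri
  refine Finset.sum_congr rfl fun v _ => ?_
  rw [Fin.prod_univ_three, dum3_monomial, X_pow_eq_monomial, X_pow_eq_monomial,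
    X_pow_eq_monomial, monomial_mul, monomial_mul, monomial_mul, one_mul, one_mul, one_mul]
  rfl

theorem cdeg_te (c : Fin n → Fin 3) {v : Fin n →₀ ℕ} (hv : ∀ k, cdeg c k v ≤ 1) (k : Fin 3) :
    cdeg (c3 c) k (te c v) = 1 := by
  unfold te
  rw [cdeg_add, cdeg_add, cdeg_add, cdeg_single, cdeg_single, cdeg_single, c3_tv, c3_tv, c3_tv,
    cdeg_mapDomain_e3]
  have h0 := hv 0
  have h1 := hv 1
  have h2 := hv 2
  fin_cases k <;> simp <;> omega

theorem cdeg_tri (c : Fin n → Fin 3) {H : MvPolynomial (Fin n) ℂ}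
    (h : ∀ v ∈ H.support, ∀ k, cdeg c k v ≤ 1) {w : Fin (n + 3) →₀ ℕ}
    (hw : w ∈ (tri c H).support) (k : Fin 3) : cdeg (c3 c) k w = 1 := by
  classical
  rw [tri_eq] at hw
  obtain ⟨v, hv, hw⟩ := Finset.mem_biUnion.1 (support_sum hw)
  have := support_monomial_subset hw
  rw [Finset.mem_singleton] at this
  rw [this]
  exact cdeg_te c (h v hv) k

theorem translate_tri (c : Fin n → Fin 3) (H : MvPolynomial (Fin n) ℂ) :
    translate (pt3 n) (tri c H) =
      ∑ v ∈ H.support, (∏ k, (X (tv n k) + 1) ^ (1 - cdeg c k v)) *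
        dum3 (monomial v (coeff v H)) := by
  unfold tri translate
  rw [map_sum]
  refine Finset.sum_congr rfl fun v _ => ?_
  have h1 : (aeval fun i => X i + C (pt3 n i)) (dum3 (monomial v (coeff v H))) =
      dum3 (monomial v (coeff v H)) := by
    rw [dum3_eq, aeval_rename]
    have h2 : (aeval ((fun i => X i + C (pt3 n i)) ∘ e3) :
        MvPolynomial (Fin n) ℂ →ₐ[ℂ] MvPolynomial (Fin (n + 3)) ℂ) = rename e3 := by
      apply MvPolynomial.algHom_ext
      intro i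
      rw [aeval_X, rename_X, Function.comp_apply, pt3, cons3_e3, map_zero, add_zero]
    rw [h2]
  have h3 : (aeval fun i => X i + C (pt3 n i)) (∏ k, X (tv n k) ^ (1 - cdeg c k v) :
      MvPolynomial (Fin (n + 3)) ℂ) = ∏ k, (X (tv n k) + 1) ^ (1 - cdeg c k v) := by
    rw [map_prod]
    refine Finset.prod_congr rfl fun k _ => ?_
    rw [map_pow, aeval_X, pt3, cons3_tv, map_one]
  rw [map_mul, h1, h3]

theorem aeval_hs_dum3 (c : Fin n → Fin 3) (V : Fin 3 → MvPowerSeries (Fin (n + 3)) ℂ)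
    (u : Fin n →₀ ℕ) (b : ℂ) :
    (aeval (hs c V) (dum3 (monomial u b)) : MvPowerSeries (Fin (n + 3)) ℂ) =
      (∏ k, V k ^ cdeg c k u) * ((dum3 (monomial u b) : MvPolynomial (Fin (n + 3)) ℂ) :
        MvPowerSeries (Fin (n + 3)) ℂ) := by
  have h1 : (dum3 (monomial u b) : MvPolynomial (Fin (n + 3)) ℂ) =
      C b * ∏ i, X (e3 i) ^ u i := by
    rw [dum3_eq, monomial_eq, map_mul, rename_C, Finsupp.prod_fintype _ _ (fun _ => pow_zero _),
      map_prod]
    simp only [map_pow, rename_X]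
  rw [h1, map_mul, map_prod, aeval_C]
  simp only [map_pow, aeval_X, hs_e3, mul_pow, Finset.prod_mul_distrib]
  have h4 : ∏ i, V (c i) ^ u i = ∏ k, V k ^ cdeg c k u := by
    rw [← Finset.prod_fiberwise Finset.univ c]
    refine Finset.prod_congr rfl fun k _ => ?_
    unfold cdeg
    rw [← Finset.prod_pow_eq_pow_sum]
    refine Finset.prod_congr rfl fun i hi => ?_
    rw [(Finset.mem_filter.1 hi).2]
  have h2 : ((C b * ∏ i, X (e3 i) ^ u i : MvPolynomial (Fin (n + 3)) ℂ) :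
      MvPowerSeries (Fin (n + 3)) ℂ) = MvPowerSeries.C b * ∏ i, MvPowerSeries.X (e3 i) ^ u i := by
    rw [← MvPolynomial.coeToMvPowerSeries.ringHom_apply, map_mul, map_prod]
    simp only [map_pow, MvPolynomial.coeToMvPowerSeries.ringHom_apply, coe_X, coe_C]
  rw [h2, h4]
  have h3 : algebraMap ℂ (MvPowerSeries (Fin (n + 3)) ℂ) b = MvPowerSeries.C b := rfl
  rw [h3]
  ring

/-- The germ of the trilinear form at `(1, 1, 1, 0, …, 0)`. -/
theorem formEquivPow_tri (c : Fin n → Fin 3) {H : MvPolynomial (Fin n) ℂ}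
    (h : ∀ v ∈ H.support, ∀ k, cdeg c k v ≤ 1) :
    FormEquivPow (translate (pt3 n) (tri c H)) (dum3 H) 1 := by
  refine ⟨hE c, ∏ k, tu n k, ?_⟩
  have h1 : hE c ((dum3 H : MvPolynomial (Fin (n + 3)) ℂ) : MvPowerSeries (Fin (n + 3)) ℂ) =
      ∑ v ∈ H.support, (∏ k, ti n k ^ cdeg c k v) *
        ((dum3 (monomial v (coeff v H)) : MvPolynomial (Fin (n + 3)) ℂ) :
          MvPowerSeries (Fin (n + 3)) ℂ) := by
    unfold hE
    rw [Cub.psEquiv_coe]
    conv_lhs => rw [← MvPolynomial.support_sum_monomial_coeff H]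
    have h2 : dum3 (∑ v ∈ H.support, monomial v (coeff v H)) =
        ∑ v ∈ H.support, dum3 (monomial v (coeff v H)) := by
      rw [dum3_eq, map_sum]
      simp only [dum3_eq]
    rw [h2, map_sum]
    exact Finset.sum_congr rfl fun v _ => aeval_hs_dum3 c _ v _
  rw [pow_one, h1, translate_tri, Finset.mul_sum,
    ← MvPolynomial.coeToMvPowerSeries.ringHom_apply, map_sum]
  refine Finset.sum_congr rfl fun v hv => ?_
  rw [map_mul, map_prod]
  simp only [map_pow, map_add, map_one, MvPolynomial.coeToMvPowerSeries.ringHom_apply, coe_X]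
  have h4 : ((∏ k, tu n k : (MvPowerSeries (Fin (n + 3)) ℂ)ˣ) : MvPowerSeries (Fin (n + 3)) ℂ) *
      ∏ k, ti n k ^ cdeg c k v =
      ∏ k, (MvPowerSeries.X (tv n k) + 1 : MvPowerSeries (Fin (n + 3)) ℂ) ^ (1 - cdeg c k v) := by
    rw [Units.coe_prod, ← Finset.prod_mul_distrib]
    refine Finset.prod_congr rfl fun k _ => ?_
    have h3 := h v hv k
    unfold ti
    rw [← Units.val_pow_eq_pow_val, ← Units.val_mul]
    have h5 : tu n k * (tu n k)⁻¹ ^ cdeg c k v = tu n k ^ (1 - cdeg c k v) := by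
      rw [inv_pow, mul_inv_eq_iff_eq_mul, ← pow_add, Nat.sub_add_cancel h3, pow_one]
    rw [h5, Units.val_pow_eq_pow_val]
    rfl
  rw [← mul_assoc, h4]

theorem dum3_ne_zero {H : MvPolynomial (Fin n) ℂ} (h : H ≠ 0) : dum3 H ≠ 0 :=
  Cub.dum_ne_zero (Cub.dum_ne_zero (Cub.dum_ne_zero h))

theorem tri_ne_zero (c : Fin n → Fin 3) {H : MvPolynomial (Fin n) ℂ}
    (h : ∀ v ∈ H.support, ∀ k, cdeg c k v ≤ 1) (hH : H ≠ 0) : tri c H ≠ 0 := by
  intro h1
  have h2 := Cub.formEquivPow_symm (formEquivPow_tri c h)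
  refine dum3_ne_zero hH ?_
  obtain ⟨e, u, h3⟩ := h2
  have h4 : translate (pt3 n) (tri c H) = 0 := by
    rw [h1]
    unfold translate
    rw [map_zero]
  rw [h4, pow_one] at h3
  have h5 : ((0 : MvPolynomial (Fin (n + 3)) ℂ) : MvPowerSeries (Fin (n + 3)) ℂ) = 0 := by
    simp
  rw [h5, map_zero, mul_zero] at h3
  exact MvPolynomial.coe_injective _ _ (by rw [h3, h5])

theorem eval_pt3_tri (c : Fin n → Fin 3) {H : MvPolynomial (Fin n) ℂ}
    (h : ∀ v ∈ H.support, ∀ k, cdeg c k v ≤ 1) (h0 : coeff 0 H = 0) :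
    eval (pt3 n) (tri c H) = 0 := by
  have h1 : coeff 0 (dum3 H) = 0 := by
    rw [dum3_eq, ← constantCoeff_eq, constantCoeff_rename, constantCoeff_eq, h0]
  have h2 := coeff_zero_eq_zero_of_formEquivPow one_pos
    (Cub.formEquivPow_symm (formEquivPow_tri c h)) h1
  have h3 : coeff 0 (translate (pt3 n) (tri c H)) = eval (pt3 n) (tri c H) := by
    rw [← constantCoeff_eq]
    unfold translate
    rw [aeval_def, hom_eval₂]
    simp [eval_eq', eval₂_eq']
  rw [← h3, h2]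

/-- The local strong monodromy conjecture follows from its case of trilinear forms at points all
of whose three components are nonzero. -/
theorem smcLoc_of_trilinear
    (h : ∀ (n : ℕ) (F : MvPolynomial (Fin n) ℂ) (c : Fin n → Fin 3) (p : Fin n → ℂ), F ≠ 0 →
      (∀ v ∈ F.support, ∀ k, cdeg c k v = 1) → (∀ k, ∃ i, c i = k ∧ p i ≠ 0) →
      eval p F = 0 → SmcLoc (translate p F)) :
    ∀ (n : ℕ) (f : MvPolynomial (Fin n) ℂ), f ≠ 0 → coeff 0 f = 0 → SmcLoc f := by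
  intro n f hf h0
  refine smcLoc_of_tri (fun n H c hH hH0 hd => ?_) (mu 0 f) n 0 f le_rfl hf h0
  have h1 : SmcLoc (dum3 H) :=
    SmcLoc.of_formEquivPow one_pos (Cub.formEquivPow_symm (formEquivPow_tri c hd))
      (h _ _ (c3 c) _ (tri_ne_zero c hd hH) (fun v hv k => cdeg_tri c hd hv k)
        (fun k => ⟨tv n k, c3_tv c k, by rw [pt3, cons3_tv]; exact one_ne_zero⟩)
        (eval_pt3_tri c hd hH0))
  exact SmcLoc.of_dum (SmcLoc.of_dum (SmcLoc.of_dum h1))

end Tri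

/-! ### The equivalences -/

/-- Global version. -/
theorem trilinear_global :
    (∀ (n : ℕ) (f : MvPolynomial (Fin n) ℂ), f ≠ 0 → coeff 0 f = 0 →
      ∀ s₀ : ℚ, s₀ < 0 → IsPole (Zmot f) s₀ → IsBernsteinSatoRoot f s₀) ↔
    (∀ (n : ℕ) (f : MvPolynomial (Fin n) ℂ) (c : Fin n → Fin 3),
      (∀ v ∈ f.support, ∀ k, ∑ i with c i = k, v i ≤ 1) → f ≠ 0 → coeff 0 f = 0 →
      ∀ s₀ : ℚ, s₀ < 0 → IsPole (Zmot f) s₀ → IsBernsteinSatoRoot f s₀) := by
  refine ⟨fun h n f _ _ hf h0 => h n f hf h0, fun h n f hf h0 => ?_⟩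
  exact Tri.smcGlob_of_tri (fun n f c hf h0 hd => h n f c hd hf h0) (Tri.mu 0 f) n 0 f le_rfl
    hf h0

/-- Local version. -/
theorem trilinear_local :
    (∀ (n : ℕ) (f : MvPolynomial (Fin n) ℂ), f ≠ 0 → coeff 0 f = 0 →
      ∀ s₀ : ℚ, s₀ < 0 → IsPole (Zmot0 f) s₀ → IsLocalBernsteinSatoRoot f s₀) ↔
    (∀ (n : ℕ) (F : MvPolynomial (Fin n) ℂ) (c : Fin n → Fin 3) (p : Fin n → ℂ),
      (∀ v ∈ F.support, ∀ k, ∑ i with c i = k, v i = 1) → (∀ k, ∃ i, c i = k ∧ p i ≠ 0) →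
      F ≠ 0 → eval p F = 0 → ∀ s₀ : ℚ, s₀ < 0 → IsPole (Zmot0 (translate p F)) s₀ →
        IsLocalBernsteinSatoRoot (translate p F) s₀) := by
  refine ⟨fun h n F _ p _ _ hF hp => h n _ (translate_ne_zero hF p) (coeff_zero_translate hp),
    fun h n f hf h0 s₀ hs hpole => ?_⟩
  have h1 := Tri.smcLoc_of_trilinear (fun n F c p hF hF3 hc hp => ?_) n f hf h0
  · exact (roots_of_form fun b hb => h1 s₀ hs hpole b hb).2
  · intro s₀ hs hpole b hb
    exact h n F c p hF3 hc hF hp s₀ hs hpole b (isLocalBernsteinSato_of_form hb)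

end MPb07157
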